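import Pool.Agent.LPX.D0
import Pool.Agent.EPK.V2a

/-!
# [LPX-V1] rearrangements for Vaughan's identity
-/

set_option autoImplicit false

namespace Pool.Agent.LPX

open Finset Pool.Agent.MP_2f88e5_nt Pool.Agent.EPK

/-- [V1a] A sum over `R < n ≤ R'` and `n = m k` is a sum over `m` and `R / m < k ≤ R' / m`.

Proof. `EPK.sum_antidiag` for `R'` minus `EPK.sum_antidiag` for `R`; the sum over `m ∈ [1, R]` for `R` may be extended to `m ∈ [1, R']` (`R / m = 0` for
`m > R`), and `∑_{k ∈ Icc 1 (R'/m)} - ∑_{k ∈ Icc 1 (R/m)} = ∑_{k ∈ Ioc (R/m) (R'/m)}` as `R / m ≤ R' / m`. -/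
theorem sum_antidiag2 (R R' : ℕ) (hR : R ≤ R') (f : ℕ → ℕ → ℂ) :
    ∑ n ∈ Ioc R R', ∑ q ∈ n.divisorsAntidiagonal, f q.1 q.2 =
      ∑ m ∈ Icc 1 R', ∑ k ∈ Ioc (R / m) (R' / m), f m k := by
  have split : ∀ (A B : ℕ) (h : A ≤ B) (g : ℕ → ℂ),
      ∑ n ∈ Ioc A B, g n = ∑ n ∈ Icc 1 B, g n - ∑ n ∈ Icc 1 A, g n := by
    intro A B h g
    have h1 : Icc 1 B = Icc 1 A ∪ Ioc A B := by
      ext n
      simp only [mem_Icc, mem_union, mem_Ioc]
      omega
    have h2 : Disjoint (Icc 1 A) (Ioc A B) := by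
      rw [Finset.disjoint_left]
      intro n h3 h4
      simp only [mem_Icc, mem_Ioc] at h3 h4
      omega
    rw [h1, sum_union h2]
    ring
  rw [split R R' hR, sum_antidiag R' f, sum_antidiag R f]
  have h3 : ∑ m ∈ Icc 1 R, ∑ k ∈ Icc 1 (R / m), f m k =
      ∑ m ∈ Icc 1 R', ∑ k ∈ Icc 1 (R / m), f m k := by
    refine sum_subset (Icc_subset_Icc_right hR) ?_
    intro m hm hm'
    rw [mem_Icc] at hm hm'
    have : R / m = 0 := Nat.div_eq_of_lt (by omega)
    rw [this]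
    simp
  rw [h3, ← sum_sub_distrib]
  refine sum_congr rfl fun m _ => ?_
  rw [split (R / m) (R' / m) (Nat.div_le_div_right hR)]

/-- [V1b] Removal of the logarithm. (`EPK.log_abel` for `g' k = if u < k then g k else 0`.) -/
theorem log_abel2 (u K P : ℕ) (hK : K ≤ P) (g : ℕ → ℂ) :
    ∑ k ∈ Ioc u K, (Real.log k : ℂ) * g k =
      ∑ j ∈ Icc 2 P, (Real.log ((j : ℝ) / ((j : ℝ) - 1)) : ℂ) * ∑ k ∈ Ioc (max u (j - 1)) K, g k := by
  have h := log_abel K P hK (fun k => if u < k then g k else 0)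
  have h1 : ∑ k ∈ Ioc u K, (Real.log k : ℂ) * g k =
      ∑ k ∈ Icc 1 K, (Real.log k : ℂ) * (if u < k then g k else 0) := by
    have e : Ioc u K = (Icc 1 K).filter (fun k => u < k) := by
      ext k
      simp only [mem_Ioc, mem_filter, mem_Icc]
      omega
    rw [e, sum_filter]
    refine sum_congr rfl fun k _ => ?_
    split_ifs <;> simp
  rw [h1, h]
  refine sum_congr rfl fun j _ => ?_
  congr 1
  have e : Ioc (max u (j - 1)) K = (Ioc (j - 1) K).filter (fun k => u < k) := by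
    ext k
    simp only [mem_Ioc, mem_filter]
    omega
  rw [e, sum_filter]

end Pool.Agent.LPX
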