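import Pool.Agent.LPX.S5

/-!
# [LPX-A1] the pairs with `r` in `(ρ, 1.001 ρ]`
-/

set_option autoImplicit false

namespace Pool.Agent.LPX

open Finset Pool.Agent.MP_2f88e5_nt Pool.Agent.EPK

theorem a1_big (x : ℝ) (hx0 : 0 < x) (hx : 50000 ≤ Real.log x) : (10 : ℝ) ^ 14 ≤ x := by
  have h1 : (2 : ℝ) ≤ Real.exp 1 := by
    have := Real.add_one_le_exp (1 : ℝ)
    linarith
  have h2 : Real.exp 50 = (Real.exp 1) ^ 50 := by
    rw [← Real.exp_nat_mul]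
    norm_num
  have h3 : (2 : ℝ) ^ 50 ≤ Real.exp 50 := by
    rw [h2]
    exact pow_le_pow_left₀ (by norm_num) h1 50
  have h4 : Real.exp 50 ≤ x := by
    rw [← Real.exp_log hx0]
    exact Real.exp_le_exp.mpr (by linarith)
  have h5 : (10 : ℝ) ^ 14 ≤ 2 ^ 50 := by norm_num
  linarith

theorem a1_e1 (x : ℝ) (hx0 : 0 < x) (hx : 50000 ≤ Real.log x) :
    2 * x + 1 ≤ x ^ (11 / 10 : ℝ) := by
  have hb := a1_big x hx0 hx
  have h1 : x ^ (11 / 10 : ℝ) = x * x ^ (1 / 10 : ℝ) := by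
    rw [← Real.rpow_one_add' hx0.le (by norm_num)]
    norm_num
  have h2 : (3 : ℝ) ≤ x ^ (1 / 10 : ℝ) := by
    rw [Real.rpow_def_of_pos hx0]
    have := Real.add_one_le_exp (Real.log x * (1 / 10))
    linarith
  rw [h1]
  have h3 : (10 : ℝ) ^ 14 = 100000000000000 := by norm_num
  nlinarith

theorem a1_e3 (x : ℝ) (hx0 : 0 < x) (hx : 50000 ≤ Real.log x) :
    7 + x ^ (3 / 10 : ℝ) / 2000 ≤ 2 * x / 10 ^ 7 := by
  have hb := a1_big x hx0 hx
  have hx1 : 1 ≤ x := by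
    have : (1 : ℝ) ≤ 10 ^ 14 := by norm_num
    linarith
  have h1 : x ^ (3 / 10 : ℝ) ≤ x ^ (1 / 2 : ℝ) := Real.rpow_le_rpow_of_exponent_le hx1 (by norm_num)
  rw [← Real.sqrt_eq_rpow] at h1
  have h2 : (10 : ℝ) ^ 7 ≤ Real.sqrt x := by
    rw [Real.le_sqrt' (by positivity)]
    calc ((10 : ℝ) ^ 7) ^ 2 = 10 ^ 14 := by norm_num
      _ ≤ x := hb
  have h3 : Real.sqrt x * Real.sqrt x = x := Real.mul_self_sqrt hx0.le
  have h4 : (10 : ℝ) ^ 7 * Real.sqrt x ≤ x := by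
    nlinarith [Real.sqrt_nonneg x]
  have h5 : (10 : ℝ) ^ 7 = 10000000 := by norm_num
  have h6 : (10 : ℝ) ^ 14 = 100000000000000 := by norm_num
  rw [h5] at h4 ⊢
  rw [h6] at hb
  linarith

/-- [A1] `pairs_bound` for `R = ⌊ρ⌋₊`, `R' = ⌊1.001 ρ⌋₊`, `p` large.

Proof. Let `t = log p`. `ρ ≥ p^(11/10) ≥ 2 p + 1` gives `2 p ≤ R`; `R' ≤ 1.001 ρ ≤ 1.001 (R + 1) ≤ 2 R`; `R ≤ ρ ≤ p^(13/10) ≤ p²`. `R ≥ ρ - 1 ≥ ρ (1 - 1/p)` and
`R' - R ≤ ρ / 1000 + 1 ≤ ρ (1/1000 + 1/p)` (`ρ ≥ p`). So `((2 p + 2) / R + 1 / (2 p)) (R' - R) ≤ (2 p + 2) (1/1000 + 1/p) / (1 - 1/p) + ρ (1/1000 + 1/p) / (2 p)`, and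
`ρ / (2 p) ≤ p^(3/10) / 2`. For large `p` this is at most `2 p · 1.0001 / 1000`. Also `(99/400) t - 1 ≥ (99/400) t / 1.0001` for `t ≥ 50000`. So the main term is at most
`2 p (1.0001)² (400/99) / (1000 t) ≤ 2 p · 0.0040414 / t`; and `C p^(1 - 3/2000) ≤ 2 p · 0.0000005 / t` for large `p` (`t p^(-3/2000) → 0`; e.g. from `EPK.log_absorb`
or `isLittleO_log_rpow_atTop`). Total `≤ 2 p · 0.004042 / t`. -/
theorem pairs_large : ∃ p₀ : ℕ, 1000 ≤ p₀ ∧ ∀ (p : ℕ) [Fact p.Prime] (a : ℕ) (ρ : ℝ), p₀ ≤ p → a < 2 * p →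
    ¬ p ∣ a → (p : ℝ) ^ (11 / 10 : ℝ) ≤ ρ → ρ ≤ (p : ℝ) ^ (13 / 10 : ℝ) →
      ∑ r ∈ (Ioc ⌊ρ⌋₊ ⌊1001 / 1000 * ρ⌋₊).filter Nat.Prime, cof p a r ≤
        4042 / 1000000 * (2 * p) / Real.log p := by
  obtain ⟨C, hC, hpb⟩ := pairs_bound
  have hCpos : 0 < C := by linarith
  have ev1 : ∀ᶠ x : ℝ in Filter.atTop, 50000 ≤ Real.log x :=
    Real.tendsto_log_atTop.eventually_ge_atTop 50000
  have ev2 : ∀ᶠ x : ℝ in Filter.atTop, ‖Real.log x‖ ≤ (1 / 1000000 / C) * ‖x ^ (3 / 2000 : ℝ)‖ :=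
    (isLittleO_log_rpow_atTop (r := 3 / 2000) (by norm_num)).bound (by positivity)
  have ev3 : ∀ᶠ x : ℝ in Filter.atTop, (1000 : ℝ) ≤ x := Filter.eventually_ge_atTop 1000
  obtain ⟨x₀, hx₀⟩ := Filter.eventually_atTop.mp (ev1.and (ev2.and ev3))
  refine ⟨max 1000 ⌈x₀⌉₊, le_max_left _ _, ?_⟩
  intro p hpf a ρ hp ha hpa hρ1 hρ2
  have hpx : x₀ ≤ (p : ℝ) := by
    have h1 : ⌈x₀⌉₊ ≤ p := le_trans (le_max_right _ _) hp
    exact le_trans (Nat.le_ceil x₀) (by exact_mod_cast h1)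
  obtain ⟨h50, hlo, hp1000⟩ := hx₀ p hpx
  have hp1000' : 1000 ≤ p := le_trans (le_max_left _ _) hp
  have hppos : (0 : ℝ) < p := by linarith
  have hp1 : (1 : ℝ) ≤ p := by linarith
  have htpos : 0 < Real.log p := by linarith
  have hbig := a1_big p hppos h50
  have he1 := a1_e1 p hppos h50
  have he3 := a1_e3 p hppos h50
  have hρbig : 2 * (p : ℝ) + 1 ≤ ρ := le_trans he1 hρ1
  have hρpos : 0 < ρ := by linarith
  set R : ℕ := ⌊ρ⌋₊ with hR
  set R' : ℕ := ⌊1001 / 1000 * ρ⌋₊ with hR'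
  have hRle : (R : ℝ) ≤ ρ := Nat.floor_le hρpos.le
  have hRgt : ρ - 1 < (R : ℝ) := Nat.sub_one_lt_floor ρ
  have hR'le : (R' : ℝ) ≤ 1001 / 1000 * ρ := Nat.floor_le (by positivity)
  have c1 : 2 * p ≤ R := by
    apply Nat.le_floor
    push_cast
    linarith
  have c2 : R ≤ R' := Nat.floor_le_floor (by linarith)
  have c3 : R' ≤ 2 * R := by
    have : (R' : ℝ) ≤ 2 * R := by linarith
    exact_mod_cast this
  have c4 : R ≤ p ^ 2 := by
    have h1 : (p : ℝ) ^ (13 / 10 : ℝ) ≤ (p : ℝ) ^ (2 : ℝ) :=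
      Real.rpow_le_rpow_of_exponent_le hp1 (by norm_num)
    rw [Real.rpow_two] at h1
    have : (R : ℝ) ≤ (p : ℝ) ^ 2 := by linarith
    exact_mod_cast this
  have hmain := hpb p a R R' hp1000' ha hpa c1 c2 c3 c4
  refine le_trans hmain ?_
  have hRpos : (0 : ℝ) < R := by linarith
  -- the numerator
  have hnum : ((2 * p + 2) / R + 1 / (2 * p)) * ((R' : ℝ) - R) ≤ 2 * p * (10001 / 10000000) := by
    have hdiff : (R' : ℝ) - R ≤ ρ / 1000 + 1 := by linarith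
    have hdiff0 : 0 ≤ (R' : ℝ) - R := by
      have : (R : ℝ) ≤ R' := by exact_mod_cast c2
      linarith
    have hA : (2 * p + 2) / R * ((R' : ℝ) - R) ≤ (2 * p + 2) * (1 / 1000) + 5 := by
      rw [div_mul_eq_mul_div, div_le_iff₀ hRpos]
      have h2 : ρ / 1000 + 1 ≤ R * (1 / 1000) + 2 := by linarith
      have h3 : (2 * (p : ℝ) + 2) * 2 ≤ 5 * R := by
        have : 2 * (p : ℝ) ≤ R := by exact_mod_cast c1
        linarith
      calc (2 * p + 2) * ((R' : ℝ) - R) ≤ (2 * p + 2) * (R * (1 / 1000) + 2) := by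
            apply mul_le_mul_of_nonneg_left _ (by positivity)
            linarith
        _ ≤ ((2 * p + 2) * (1 / 1000) + 5) * R := by linarith
    have hB : 1 / (2 * p) * ((R' : ℝ) - R) ≤ (p : ℝ) ^ (3 / 10 : ℝ) / 2000 + 1 := by
      have h1 : (p : ℝ) ^ (13 / 10 : ℝ) = p * (p : ℝ) ^ (3 / 10 : ℝ) := by
        rw [← Real.rpow_one_add' hppos.le (by norm_num)]
        norm_num
      have h2 : (R' : ℝ) - R ≤ p * (p : ℝ) ^ (3 / 10 : ℝ) / 1000 + 1 := by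
        rw [← h1]
        linarith
      rw [one_div_mul_eq_div, div_le_iff₀ (by positivity)]
      have h3 : (0 : ℝ) ≤ (p : ℝ) ^ (3 / 10 : ℝ) := Real.rpow_nonneg hppos.le _
      nlinarith
    rw [add_mul]
    have h7 : (10 : ℝ) ^ 7 = 10000000 := by norm_num
    rw [h7] at he3
    linarith
  have hden : 99 / 400 * Real.log p * (10000 / 10001) ≤ 99 / 400 * Real.log p - 1 := by linarith
  have hden0 : 0 < 99 / 400 * Real.log p * (10000 / 10001) := by positivity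
  have hfirst : ((2 * p + 2) / R + 1 / (2 * p)) * ((R' : ℝ) - R) / (99 / 400 * Real.log p - 1) ≤
      40414 / 10000000 * (2 * p) / Real.log p := by
    calc ((2 * p + 2) / R + 1 / (2 * p)) * ((R' : ℝ) - R) / (99 / 400 * Real.log p - 1)
        ≤ 2 * p * (10001 / 10000000) / (99 / 400 * Real.log p * (10000 / 10001)) := by
          apply div_le_div₀ (by positivity) hnum hden0 hden
      _ = (10001 / 10000000 * (10001 / 10000) * (400 / 99)) * (2 * p) / Real.log p := by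
          field_simp
      _ ≤ 40414 / 10000000 * (2 * p) / Real.log p := by
          apply div_le_div_of_nonneg_right _ htpos.le
          apply mul_le_mul_of_nonneg_right _ (by positivity)
          norm_num
  have hsecond : C * (p : ℝ) ^ (1 - 3 / 2000 : ℝ) ≤ 5 / 10000000 * (2 * p) / Real.log p := by
    rw [Real.norm_of_nonneg htpos.le, Real.norm_of_nonneg (Real.rpow_nonneg hppos.le _)] at hlo
    rw [le_div_iff₀ htpos]
    have h1 : (p : ℝ) ^ (1 - 3 / 2000 : ℝ) * (p : ℝ) ^ (3 / 2000 : ℝ) = p := by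
      rw [← Real.rpow_add hppos]
      norm_num
    have h2 : C * Real.log p ≤ 1 / 1000000 * (p : ℝ) ^ (3 / 2000 : ℝ) := by
      calc C * Real.log p ≤ C * (1 / 1000000 / C * (p : ℝ) ^ (3 / 2000 : ℝ)) :=
            mul_le_mul_of_nonneg_left hlo hCpos.le
        _ = 1 / 1000000 * (p : ℝ) ^ (3 / 2000 : ℝ) := by
            field_simp
    have h3 : (0 : ℝ) ≤ (p : ℝ) ^ (1 - 3 / 2000 : ℝ) := Real.rpow_nonneg hppos.le _
    calc C * (p : ℝ) ^ (1 - 3 / 2000 : ℝ) * Real.log p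
        = (p : ℝ) ^ (1 - 3 / 2000 : ℝ) * (C * Real.log p) := by ring
      _ ≤ (p : ℝ) ^ (1 - 3 / 2000 : ℝ) * (1 / 1000000 * (p : ℝ) ^ (3 / 2000 : ℝ)) :=
          mul_le_mul_of_nonneg_left h2 h3
      _ = 1 / 1000000 * ((p : ℝ) ^ (1 - 3 / 2000 : ℝ) * (p : ℝ) ^ (3 / 2000 : ℝ)) := by ring
      _ = 5 / 10000000 * (2 * p) := by
          rw [h1]
          ring
  calc _ ≤ 40414 / 10000000 * (2 * p) / Real.log p + 5 / 10000000 * (2 * p) / Real.log p :=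
        add_le_add hfirst hsecond
    _ = 40419 / 10000000 * (2 * p) / Real.log p := by ring
    _ ≤ 4042 / 1000000 * (2 * p) / Real.log p := by
        apply div_le_div_of_nonneg_right _ htpos.le
        apply mul_le_mul_of_nonneg_right _ (by positivity)
        norm_num

end Pool.Agent.LPX
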