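import Pool.Agent.LPX.D0

/-!
# [LPX-I2] subdividing an interval
-/

set_option autoImplicit false

namespace Pool.Agent.LPX

open Finset

/-- the grid sequence -/
noncomputable def i2_R (η : ℝ) (Y Z : ℕ) : ℕ → ℕ
  | 0 => Y
  | (i + 1) => min Z ⌊(1 + η) * (i2_R η Y Z i : ℝ)⌋₊

theorem i2_basic (η : ℝ) (hη : 0 < η) (Y Z : ℕ) (hYZ : Y ≤ Z) (i : ℕ) :
    Y ≤ i2_R η Y Z i ∧ i2_R η Y Z i ≤ Z ∧ i2_R η Y Z i ≤ i2_R η Y Z (i + 1) ∧
      ((i2_R η Y Z (i + 1) : ℕ) : ℝ) ≤ (1 + η) * (i2_R η Y Z i : ℕ) := by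
  have step : ∀ j, i2_R η Y Z j ≤ Z → i2_R η Y Z j ≤ i2_R η Y Z (j + 1) := by
    intro j hj
    show i2_R η Y Z j ≤ min Z ⌊(1 + η) * (i2_R η Y Z j : ℝ)⌋₊
    apply le_min hj
    apply Nat.le_floor
    have h0 : (0 : ℝ) ≤ (i2_R η Y Z j : ℝ) := Nat.cast_nonneg _
    nlinarith
  have main : Y ≤ i2_R η Y Z i ∧ i2_R η Y Z i ≤ Z := by
    induction i with
    | zero => exact ⟨le_refl _, hYZ⟩
    | succ j ih =>
      refine ⟨ih.1.trans (step j ih.2), ?_⟩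
      show min Z ⌊(1 + η) * (i2_R η Y Z j : ℝ)⌋₊ ≤ Z
      exact min_le_left _ _
  refine ⟨main.1, main.2, step i main.2, ?_⟩
  have h0 : (0 : ℝ) ≤ (i2_R η Y Z i : ℝ) := Nat.cast_nonneg _
  have h1 : i2_R η Y Z (i + 1) ≤ ⌊(1 + η) * (i2_R η Y Z i : ℝ)⌋₊ := min_le_right _ _
  have h2 : ((i2_R η Y Z (i + 1) : ℕ) : ℝ) ≤ ((⌊(1 + η) * (i2_R η Y Z i : ℝ)⌋₊ : ℕ) : ℝ) := by
    exact_mod_cast h1
  exact h2.trans (Nat.floor_le (by positivity))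

theorem i2_growth (η : ℝ) (hη : 0 < η) (Y Z : ℕ) (hY : 2 / η ≤ (Y : ℝ)) (hYZ : Y ≤ Z) (i : ℕ) :
    i2_R η Y Z i = Z ∨ (1 + η / 2) ^ i * (Y : ℝ) ≤ (i2_R η Y Z i : ℕ) := by
  induction i with
  | zero => right; simp [i2_R]
  | succ j ih =>
    obtain ⟨b1, b2, b3, b4⟩ := i2_basic η hη Y Z hYZ j
    obtain ⟨c1, c2, c3, c4⟩ := i2_basic η hη Y Z hYZ (j + 1)
    rcases ih with h | h
    · left
      omega
    · rcases min_choice Z ⌊(1 + η) * (i2_R η Y Z j : ℝ)⌋₊ with hm | hm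
      · left
        exact hm
      · right
        have hdef : i2_R η Y Z (j + 1) = ⌊(1 + η) * (i2_R η Y Z j : ℝ)⌋₊ := hm
        rw [hdef]
        have h3 : (1 + η) * (i2_R η Y Z j : ℝ) - 1 <
            ((⌊(1 + η) * (i2_R η Y Z j : ℝ)⌋₊ : ℕ) : ℝ) := Nat.sub_one_lt_floor _
        have h4 : (Y : ℝ) ≤ (i2_R η Y Z j : ℝ) := by exact_mod_cast b1
        have h5 : 2 ≤ η * (i2_R η Y Z j : ℝ) := by
          have : 2 / η ≤ (i2_R η Y Z j : ℝ) := hY.trans h4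
          rw [div_le_iff₀ hη] at this
          linarith
        have h6 : (1 + η / 2) ^ (j + 1) * (Y : ℝ) = (1 + η / 2) * ((1 + η / 2) ^ j * (Y : ℝ)) := by
          ring
        rw [h6]
        have h7 : (1 + η / 2) * ((1 + η / 2) ^ j * (Y : ℝ)) ≤
            (1 + η / 2) * (i2_R η Y Z j : ℝ) :=
          mul_le_mul_of_nonneg_left h (by positivity)
        linarith

/-- [I2] Subdivision of `(Y, Z]` into short intervals.

Proof. `R 0 = Y`, `R (i + 1) = min Z ⌊(1 + η) R i⌋₊`. By induction `Y ≤ R i ≤ Z`, `R i ≤ R (i + 1) ≤ (1 + η) R i`, and (as `η R i ≥ η Y ≥ 2`, so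
`⌊(1 + η) R i⌋ ≥ (1 + η) R i - 1 ≥ (1 + η / 2) R i`) `R i ≥ min Z ((1 + η / 2)^i Y)`. With `n = ⌈4 log (Z / Y) / η⌉₊`: `(1 + η/2)^n ≥ exp (n η / 4) ≥ Z / Y`
(`log (1 + η / 2) ≥ η / 4` for `0 < η ≤ 1`: e.g. `Real.one_sub_inv_le_log_of_pos`: `log (1 + t) ≥ t / (1 + t)`), so `R n = Z`, and
`n ≤ 4 log (Z / Y) / η + 1`. -/
theorem grid (η : ℝ) (hη : 0 < η) (hη1 : η ≤ 1) (Y Z : ℕ) (hY : 2 / η ≤ (Y : ℝ)) (hYZ : Y ≤ Z) :
    ∃ (n : ℕ) (R : ℕ → ℕ), R 0 = Y ∧ R n = Z ∧ (∀ i, R i ≤ R (i + 1)) ∧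
      (∀ i, ((R (i + 1) : ℕ) : ℝ) ≤ (1 + η) * (R i : ℕ)) ∧ (∀ i, Y ≤ R i) ∧ (∀ i, R i ≤ Z) ∧
      (n : ℝ) ≤ 4 * Real.log ((Z : ℝ) / Y) / η + 1 := by
  have hYpos : (0 : ℝ) < (Y : ℝ) := lt_of_lt_of_le (by positivity) hY
  have hYZr : (Y : ℝ) ≤ (Z : ℝ) := by exact_mod_cast hYZ
  have hZpos : (0 : ℝ) < (Z : ℝ) := lt_of_lt_of_le hYpos hYZr
  have hratio : 1 ≤ (Z : ℝ) / Y := by
    rw [le_div_iff₀ hYpos]; linarith
  have hlog : 0 ≤ Real.log ((Z : ℝ) / Y) := Real.log_nonneg hratio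
  have hq : 0 ≤ 4 * Real.log ((Z : ℝ) / Y) / η := by positivity
  refine ⟨⌈4 * Real.log ((Z : ℝ) / Y) / η⌉₊, i2_R η Y Z, rfl, ?_,
    fun i => (i2_basic η hη Y Z hYZ i).2.2.1, fun i => (i2_basic η hη Y Z hYZ i).2.2.2,
    fun i => (i2_basic η hη Y Z hYZ i).1, fun i => (i2_basic η hη Y Z hYZ i).2.1,
    (Nat.ceil_lt_add_one hq).le⟩
  set n := ⌈4 * Real.log ((Z : ℝ) / Y) / η⌉₊ with hn
  rcases i2_growth η hη Y Z hY hYZ n with h | h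
  · exact h
  · have hle := (i2_basic η hη Y Z hYZ n).2.1
    apply le_antisymm hle
    have h1 : 4 * Real.log ((Z : ℝ) / Y) / η ≤ (n : ℝ) := Nat.le_ceil _
    have h2 : η / 4 ≤ Real.log (1 + η / 2) := by
      have h3 := Real.one_sub_inv_le_log_of_pos (show (0 : ℝ) < 1 + η / 2 by positivity)
      refine le_trans ?_ h3
      have h4 : 1 - (1 + η / 2)⁻¹ = (η / 2) / (1 + η / 2) := by
        field_simp
        ring
      rw [h4, le_div_iff₀ (by positivity)]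
      nlinarith
    have h5 : Real.log ((Z : ℝ) / Y) ≤ (n : ℝ) * Real.log (1 + η / 2) := by
      have h6 : Real.log ((Z : ℝ) / Y) ≤ (n : ℝ) * (η / 4) := by
        rw [div_le_iff₀ hη] at h1
        linarith
      exact h6.trans (mul_le_mul_of_nonneg_left h2 (Nat.cast_nonneg _))
    have h7 : (Z : ℝ) / Y ≤ (1 + η / 2) ^ n := by
      have h8 : (n : ℝ) * Real.log (1 + η / 2) = Real.log ((1 + η / 2) ^ n) := by
        rw [Real.log_pow]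
      rw [h8] at h5
      exact (Real.log_le_log_iff (by positivity) (by positivity)).1 h5
    have h9 : (Z : ℝ) ≤ (1 + η / 2) ^ n * Y := by
      rw [div_le_iff₀ hYpos] at h7
      exact h7
    have h10 : (Z : ℝ) ≤ ((i2_R η Y Z n : ℕ) : ℝ) := h9.trans h
    exact_mod_cast h10

/-- [I2b] Additivity over consecutive intervals (induction on `n`; `Finset.Ioc_union_Ioc_eq_Ioc`, `Finset.filter_union`,
`Finset.sum_union`, or `Finset.sum_filter` and `Finset.sum_Ioc_consecutive`). -/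
theorem sum_grid (n : ℕ) (R : ℕ → ℕ) (hR : ∀ i, R i ≤ R (i + 1)) (f : ℕ → ℝ) (P : ℕ → Prop)
    [DecidablePred P] :
    ∑ r ∈ (Ioc (R 0) (R n)).filter P, f r =
      ∑ i ∈ range n, ∑ r ∈ (Ioc (R i) (R (i + 1))).filter P, f r := by
  have hmono : Monotone R := monotone_nat_of_le_succ hR
  induction n with
  | zero => simp
  | succ k ih =>
    rw [sum_range_succ, ← ih]
    simp only [sum_filter]
    rw [Finset.sum_Ioc_consecutive _ (hmono (Nat.zero_le k)) (hR k)]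

end Pool.Agent.LPX
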