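import Pool.Agent.LPX.A1
import Pool.Agent.LPX.I2

/-!
# [LPX-A2] the range of the sieve
-/

set_option autoImplicit false

namespace Pool.Agent.LPX

open Finset Pool.Agent.MP_2f88e5_nt Pool.Agent.EPK

theorem a2_lam : 1 / 1001 ≤ Real.log (1001 / 1000) ∧ Real.log (1001 / 1000) ≤ 1 / 1000 := by
  constructor
  · have := Real.one_sub_inv_le_log_of_pos (x := (1001 / 1000 : ℝ)) (by norm_num)
    refine le_trans ?_ this
    norm_num
  · have := Real.log_le_sub_one_of_pos (x := (1001 / 1000 : ℝ)) (by norm_num)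
    refine le_trans this ?_
    norm_num

theorem a2_cof_nonneg (p a r : ℕ) : 0 ≤ cof p a r := by
  unfold cof
  exact Nat.cast_nonneg _

theorem a2_sum (n : ℕ) (A l : ℝ) :
    ∑ i ∈ range n, (A + ((i : ℝ) + 1) * l) = n * (A + l * (n + 1) / 2) := by
  induction n with
  | zero => simp
  | succ n ih =>
    rw [Finset.sum_range_succ, ih]
    push_cast
    ring

theorem a2_num (α β t lam n p : ℝ) (hα : α = 10 / 9 - 1 / 1000) (hβ : β = 129 / 100) (ht : 1000 ≤ t)
    (hl1 : 1 / 1001 ≤ lam) (hl2 : lam ≤ 1 / 1000) (hnn : 0 ≤ n) (hnl : n * lam ≤ (β - α) * t + lam)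
    (hppos : 0 < p) :
    4042 / 1000000 * (2 * p) / t * (n * (α * t + lam * (n + 1) / 2)) ≤
      874 / 1000 * (2 * p) * t := by
  have htpos : 0 < t := by linarith
  have hlpos : 0 < lam := by linarith
  have hαpos : 0 < α := by rw [hα]; norm_num
  have hβα0 : 0 < β - α := by rw [hβ, hα]; norm_num
  have h1 : n ≤ 1001 * (n * lam) := by nlinarith
  have key : n * (α * t + lam * (n + 1) / 2) ≤
      1001 * (((β - α) * t + 1 / 1000) * ((α + β) * t / 2 + 1 / 1000)) := by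
    have h2 : α * t + lam * (n + 1) / 2 ≤ (α + β) * t / 2 + 1 / 1000 := by
      have e1 : α * t + lam * (n + 1) / 2 = α * t + (n * lam + lam) / 2 := by ring
      have e2 : (α + β) * t / 2 + 1 / 1000 = α * t + ((β - α) * t + 2 * (1 / 1000)) / 2 := by ring
      rw [e1, e2]
      linarith
    have h3 : n ≤ 1001 * ((β - α) * t + 1 / 1000) := by linarith
    have h4 : 0 ≤ α * t + lam * (n + 1) / 2 := by positivity
    have h5 : 0 ≤ 1001 * ((β - α) * t + 1 / 1000) := by positivity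
    calc n * (α * t + lam * (n + 1) / 2)
        ≤ (1001 * ((β - α) * t + 1 / 1000)) * ((α + β) * t / 2 + 1 / 1000) :=
          mul_le_mul h3 h2 h4 h5
      _ = _ := by ring
  have key2 : ((β - α) * t + 1 / 1000) * ((α + β) * t / 2 + 1 / 1000) ≤ 21595 / 100000 * t ^ 2 := by
    have hA : (β - α) * (α + β) / 2 ≤ 21588 / 100000 := by
      rw [hβ, hα]
      norm_num
    have hB : (β - α) + (α + β) / 2 ≤ 2 := by
      rw [hβ, hα]
      norm_num
    have h1 : ((β - α) * t + 1 / 1000) * ((α + β) * t / 2 + 1 / 1000) =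
        (β - α) * (α + β) / 2 * t ^ 2 + ((β - α) + (α + β) / 2) * (t / 1000) + 1 / 1000000 := by
      ring
    rw [h1]
    have h2 : (β - α) * (α + β) / 2 * t ^ 2 ≤ 21588 / 100000 * t ^ 2 :=
      mul_le_mul_of_nonneg_right hA (by positivity)
    have h3 : ((β - α) + (α + β) / 2) * (t / 1000) ≤ 2 * (t / 1000) :=
      mul_le_mul_of_nonneg_right hB (by positivity)
    nlinarith
  have hK : 0 ≤ 4042 / 1000000 * (2 * p) / t := by positivity
  calc 4042 / 1000000 * (2 * p) / t * (n * (α * t + lam * (n + 1) / 2))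
      ≤ 4042 / 1000000 * (2 * p) / t * (1001 * (21595 / 100000 * t ^ 2)) := by
        apply mul_le_mul_of_nonneg_left _ hK
        linarith
    _ = (4042 / 1000000 * 1001 * (21595 / 100000)) * (2 * p) * t := by
        field_simp
    _ ≤ 874 / 1000 * (2 * p) * t := by
        apply mul_le_mul_of_nonneg_right _ htpos.le
        apply mul_le_mul_of_nonneg_right _ (by positivity)
        norm_num

/-- [A2] The sieve range `p^(10/9 - 1/1000) < r ≤ p^(129/100)`.

Proof. Let `t = log p`, `α = 10/9 - 1/1000`, `β = 129/100`, `λ = log (1001/1000) ≥ 1/1001` (`Real.one_sub_inv_le_log_of_pos`), `λ ≤ 1/1000`. `ρ_i = p^α (1001/1000)^i`,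
`R i = ⌊ρ_i⌋₊`, `n = ⌈(β - α) t / λ⌉₊`; `R 0 = ⌊p^α⌋₊`, and `ρ_n ≥ p^β`, so the sum is at most the sum over `Ioc (R 0) (R n)` (`sum_grid`; all terms are `≥ 0`). For
`i < n`: `p^(11/10) ≤ p^α ≤ ρ_i < p^β ≤ p^(13/10)` and `log r ≤ log ρ_{i+1} = α t + (i + 1) λ` for `r ≤ R (i + 1)`; `pairs_large`. So the sum is at most
`(4042/1000000) (2 p) / t · ∑_{i < n} (α t + (i + 1) λ)`, and `∑_{i < n} (α t + (i + 1) λ) = n (α t + λ (n + 1) / 2) ≤ (1/λ) ((β - α) t + λ) ((α + β) t / 2 + λ)`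
(as `n λ ≤ (β - α) t + λ`) `≤ 1001 ((β - α) t + 1/1000) ((α + β) t / 2 + 1/1000)`. Here `(β - α)(α + β) / 2 = (β² - α²) / 2 < 0.21588`, so for `t ≥ 1000` this is at most
`1001 · 0.21595 t²` and the product with `0.004042 (2 p) / t` is at most `0.874 (2 p) t`. -/
theorem sieve_range : ∃ p₀ : ℕ, 1000 ≤ p₀ ∧ ∀ (p : ℕ) [Fact p.Prime] (a : ℕ), p₀ ≤ p → a < 2 * p →
    ¬ p ∣ a →
      ∑ r ∈ (Ioc ⌊(p : ℝ) ^ (10 / 9 - 1 / 1000 : ℝ)⌋₊ ⌊(p : ℝ) ^ (129 / 100 : ℝ)⌋₊).filter Nat.Prime,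
        Real.log r * cof p a r ≤ 874 / 1000 * (2 * p) * Real.log p := by
  obtain ⟨p₁, hp₁, hpl⟩ := pairs_large
  have ev1 : ∀ᶠ x : ℝ in Filter.atTop, 1000 ≤ Real.log x :=
    Real.tendsto_log_atTop.eventually_ge_atTop 1000
  obtain ⟨x₀, hx₀⟩ := Filter.eventually_atTop.mp ev1
  refine ⟨max p₁ ⌈x₀⌉₊, le_trans hp₁ (le_max_left _ _), ?_⟩
  intro p hpf a hp ha hpa
  have hpx : x₀ ≤ (p : ℝ) := by
    have h1 : ⌈x₀⌉₊ ≤ p := le_trans (le_max_right _ _) hp
    exact le_trans (Nat.le_ceil x₀) (by exact_mod_cast h1)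
  have ht := hx₀ p hpx
  have hpp₁ : p₁ ≤ p := le_trans (le_max_left _ _) hp
  have hp1000 : (1000 : ℝ) ≤ p := by exact_mod_cast le_trans hp₁ hpp₁
  have hppos : (0 : ℝ) < p := by linarith
  have hp1 : (1 : ℝ) ≤ p := by linarith
  obtain ⟨hl1, hl2⟩ := a2_lam
  set t : ℝ := Real.log p with htdef
  set lam : ℝ := Real.log (1001 / 1000) with hlam
  clear_value lam
  have hlpos : 0 < lam := by linarith
  have htpos : 0 < t := by linarith
  obtain ⟨α, hα⟩ : ∃ α : ℝ, α = 10 / 9 - 1 / 1000 := ⟨_, rfl⟩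
  obtain ⟨β, hβ⟩ : ∃ β : ℝ, β = 129 / 100 := ⟨_, rfl⟩
  rw [← hα, ← hβ]
  set n : ℕ := ⌈(β - α) * t / lam⌉₊ with hn
  let ρ : ℕ → ℝ := fun i => (p : ℝ) ^ α * (1001 / 1000) ^ i
  let R : ℕ → ℕ := fun i => ⌊ρ i⌋₊
  have hρpos : ∀ i, 0 < ρ i := fun i => by
    have := Real.rpow_pos_of_pos hppos α
    positivity
  have hρsucc : ∀ i, ρ (i + 1) = 1001 / 1000 * ρ i := by
    intro i
    show (p : ℝ) ^ α * (1001 / 1000) ^ (i + 1) = 1001 / 1000 * ((p : ℝ) ^ α * (1001 / 1000) ^ i)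
    ring
  have hρlog : ∀ i : ℕ, Real.log (ρ i) = α * t + i * lam := by
    intro i
    show Real.log ((p : ℝ) ^ α * (1001 / 1000) ^ i) = _
    rw [Real.log_mul (Real.rpow_pos_of_pos hppos α).ne' (by positivity), Real.log_rpow hppos,
      Real.log_pow, ← hlam]
  have hRmono : ∀ i, R i ≤ R (i + 1) := by
    intro i
    apply Nat.floor_le_floor
    rw [hρsucc]
    have := hρpos i
    linarith
  have hβα0 : 0 < β - α := by
    rw [hβ, hα]
    norm_num
  have hn1 : (β - α) * t / lam ≤ n := Nat.le_ceil _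
  have hn2 : (n : ℝ) < (β - α) * t / lam + 1 := Nat.ceil_lt_add_one (by positivity)
  have hnl : (n : ℝ) * lam ≤ (β - α) * t + lam := by
    have h1 : (n : ℝ) * lam ≤ ((β - α) * t / lam + 1) * lam :=
      mul_le_mul_of_nonneg_right hn2.le hlpos.le
    have h2 : ((β - α) * t / lam + 1) * lam = (β - α) * t + lam := by
      field_simp
    linarith
  have hnl2 : (β - α) * t ≤ n * lam := by
    rw [div_le_iff₀ hlpos] at hn1
    exact hn1
  have hρn : (p : ℝ) ^ β ≤ ρ n := by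
    rw [← Real.log_le_log_iff (Real.rpow_pos_of_pos hppos β) (hρpos n), hρlog, Real.log_rpow hppos]
    linarith
  have hR0 : R 0 = ⌊(p : ℝ) ^ α⌋₊ := by
    show ⌊(p : ℝ) ^ α * (1001 / 1000) ^ 0⌋₊ = _
    simp
  have hRn : ⌊(p : ℝ) ^ β⌋₊ ≤ R n := Nat.floor_le_floor hρn
  have hlog_nonneg : ∀ r : ℕ, 0 ≤ Real.log r := fun r => Real.log_natCast_nonneg r
  have step1 : ∑ r ∈ (Ioc ⌊(p : ℝ) ^ α⌋₊ ⌊(p : ℝ) ^ β⌋₊).filter Nat.Prime,
        Real.log r * cof p a r ≤
      ∑ r ∈ (Ioc (R 0) (R n)).filter Nat.Prime, Real.log r * cof p a r := by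
    apply Finset.sum_le_sum_of_subset_of_nonneg
    · apply Finset.filter_subset_filter
      rw [hR0]
      exact Finset.Ioc_subset_Ioc_right hRn
    · intro r _ _
      exact mul_nonneg (hlog_nonneg r) (a2_cof_nonneg p a r)
  rw [sum_grid n R hRmono] at step1
  refine le_trans step1 ?_
  have hα11 : (11 / 10 : ℝ) ≤ α := by
    rw [hα]
    norm_num
  have hα0 : 0 ≤ α := le_trans (by norm_num) hα11
  have step2 : ∀ i ∈ range n, ∑ r ∈ (Ioc (R i) (R (i + 1))).filter Nat.Prime,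
      Real.log r * cof p a r ≤
        (4042 / 1000000 * (2 * p) / t) * (α * t + ((i : ℝ) + 1) * lam) := by
    intro i hi
    rw [Finset.mem_range] at hi
    have hi2 : (i : ℝ) < (β - α) * t / lam := Nat.lt_ceil.mp hi
    have hi3 : (i : ℝ) * lam < (β - α) * t := by
      rwa [lt_div_iff₀ hlpos] at hi2
    have hρ1 : (p : ℝ) ^ (11 / 10 : ℝ) ≤ ρ i := by
      have h1 : (p : ℝ) ^ (11 / 10 : ℝ) ≤ (p : ℝ) ^ α := Real.rpow_le_rpow_of_exponent_le hp1 hα11
      have h2 : (1 : ℝ) ≤ (1001 / 1000) ^ i := one_le_pow₀ (by norm_num)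
      have h3 : 0 < (p : ℝ) ^ α := Real.rpow_pos_of_pos hppos α
      show (p : ℝ) ^ (11 / 10 : ℝ) ≤ (p : ℝ) ^ α * (1001 / 1000) ^ i
      nlinarith
    have hρ2 : ρ i ≤ (p : ℝ) ^ (13 / 10 : ℝ) := by
      rw [← Real.log_le_log_iff (hρpos i) (Real.rpow_pos_of_pos hppos _), hρlog, Real.log_rpow hppos]
      have h13 : β ≤ 13 / 10 := by
        rw [hβ]
        norm_num
      have : β * t ≤ 13 / 10 * t := mul_le_mul_of_nonneg_right h13 htpos.le
      show α * t + i * lam ≤ 13 / 10 * t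
      linarith
    have hpairs := hpl p a (ρ i) hpp₁ ha hpa hρ1 hρ2
    rw [← hρsucc i] at hpairs
    have hL : ∀ r ∈ (Ioc (R i) (R (i + 1))).filter Nat.Prime,
        Real.log r * cof p a r ≤ (α * t + ((i : ℝ) + 1) * lam) * cof p a r := by
      intro r hr
      rw [Finset.mem_filter, Finset.mem_Ioc] at hr
      obtain ⟨⟨_, hr2⟩, hrp⟩ := hr
      apply mul_le_mul_of_nonneg_right _ (a2_cof_nonneg p a r)
      have h1 : (r : ℝ) ≤ ρ (i + 1) := by
        have h2 : (r : ℝ) ≤ (R (i + 1) : ℕ) := by exact_mod_cast hr2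
        exact le_trans h2 (Nat.floor_le (hρpos (i + 1)).le)
      have h3 : Real.log r ≤ Real.log (ρ (i + 1)) :=
        Real.log_le_log (by exact_mod_cast hrp.pos) h1
      rw [hρlog] at h3
      push_cast at h3
      exact h3
    calc ∑ r ∈ (Ioc (R i) (R (i + 1))).filter Nat.Prime, Real.log r * cof p a r
        ≤ ∑ r ∈ (Ioc (R i) (R (i + 1))).filter Nat.Prime,
            (α * t + ((i : ℝ) + 1) * lam) * cof p a r := Finset.sum_le_sum hL
      _ = (α * t + ((i : ℝ) + 1) * lam) *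
            ∑ r ∈ (Ioc (R i) (R (i + 1))).filter Nat.Prime, cof p a r := by
          rw [Finset.mul_sum]
      _ ≤ (α * t + ((i : ℝ) + 1) * lam) * (4042 / 1000000 * (2 * p) / t) := by
          apply mul_le_mul_of_nonneg_left hpairs
          have h1 : 0 ≤ α * t := mul_nonneg hα0 htpos.le
          have h2 : 0 ≤ ((i : ℝ) + 1) * lam := mul_nonneg (by positivity) hlpos.le
          exact add_nonneg h1 h2
      _ = _ := by ring
  refine le_trans (Finset.sum_le_sum step2) ?_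
  rw [← Finset.mul_sum, a2_sum]
  -- numeric estimate
  exact a2_num α β t lam n p hα hβ ht hl1 hl2 (Nat.cast_nonneg n) hnl hppos

end Pool.Agent.LPX
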