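import Pool.Agent.LPX.I3
import Pool.Agent.EPK.M1a

/-!
# [LPX-A3] the range of the asymptotic formula
-/

set_option autoImplicit false

namespace Pool.Agent.LPX

open Finset Pool.Agent.MP_2f88e5_nt Pool.Agent.EPK

/-- [A3] The range `2 p < r ≤ p^(10/9 - 1/1000)`.

Proof. `level_log` with `κ = 1/1000`, `Y = 2 p`, `Z = ⌊p^(10/9 - 1/1000)⌋₊` (`2 p ≤ Z` for large `p`), and `EPK.mertens_one`: the sum is at most
`2 p ∑ log r / r + C p^(1 - 1/32000) ≤ 2 p (log Z - log (2 p) + 5) + C p^(1 - 1/32000) ≤ 2 p ((1/9 - 1/1000) log p + 5) + C p^(1 - 1/32000)`, and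
`1/9 - 1/1000 < 0.1102`; for large `p`: `5 + C p^(-1/32000) / 2 ≤ 0.0008 log p`. -/
theorem asym_range : ∃ p₀ : ℕ, 1000 ≤ p₀ ∧ ∀ (p : ℕ) [Fact p.Prime] (a : ℕ), p₀ ≤ p → a < 2 * p →
    ¬ p ∣ a →
      ∑ r ∈ (Ioc (2 * p) ⌊(p : ℝ) ^ (10 / 9 - 1 / 1000 : ℝ)⌋₊).filter Nat.Prime,
        Real.log r * cof p a r ≤ 111 / 1000 * (2 * p) * Real.log p := by
  obtain ⟨C, hC1, hC⟩ := level_log (1 / 1000) (by norm_num) (by norm_num)
  -- eventually conditions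
  have hev1 : ∀ᶠ x : ℝ in Filter.atTop, (2 * x + 1) ≤ x ^ (10 / 9 - 1 / 1000 : ℝ) := by
    have h1 : Filter.Tendsto (fun x : ℝ => x ^ (10 / 9 - 1 / 1000 - 1 : ℝ)) Filter.atTop Filter.atTop :=
      tendsto_rpow_atTop (by norm_num)
    filter_upwards [h1.eventually_ge_atTop 3, Filter.eventually_ge_atTop (1 : ℝ)] with x hx hx1
    have hx0 : 0 < x := by linarith
    have h2 : x ^ (10 / 9 - 1 / 1000 : ℝ) = x ^ (10 / 9 - 1 / 1000 - 1 : ℝ) * x := by
      rw [← Real.rpow_add_one hx0.ne']; ring_nf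
    rw [h2]
    nlinarith
  have hev2 : ∀ᶠ x : ℝ in Filter.atTop, 5 + C / 2 ≤ 8 / 10000 * Real.log x := by
    have h1 : Filter.Tendsto (fun x : ℝ => 8 / 10000 * Real.log x) Filter.atTop Filter.atTop :=
      Real.tendsto_log_atTop.const_mul_atTop (by norm_num)
    exact h1.eventually_ge_atTop _
  have hev := (hev1.and hev2)
  rw [Filter.eventually_atTop] at hev
  obtain ⟨x0, hx0⟩ := hev
  refine ⟨max 1000 ⌈x0⌉₊, le_max_left _ _, ?_⟩
  intro p hfp a hp ha2 hpa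
  have hp1000 : 1000 ≤ p := le_trans (le_max_left _ _) hp
  have hpx0 : x0 ≤ (p : ℝ) := by
    have : ⌈x0⌉₊ ≤ p := le_trans (le_max_right _ _) hp
    exact le_trans (Nat.le_ceil x0) (by exact_mod_cast this)
  obtain ⟨he1, he2⟩ := hx0 p hpx0
  have hp1 : (1000 : ℝ) ≤ (p : ℝ) := by exact_mod_cast hp1000
  have hp0 : (0 : ℝ) < (p : ℝ) := by linarith
  set Z := ⌊(p : ℝ) ^ (10 / 9 - 1 / 1000 : ℝ)⌋₊ with hZ
  have hYZ : 2 * p ≤ Z := by
    rw [hZ]
    apply Nat.le_floor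
    push_cast
    linarith
  have hZle : (Z : ℝ) ≤ (p : ℝ) ^ (10 / 9 - 1 / 1000 : ℝ) :=
    Nat.floor_le (by positivity)
  have hlev := hC p a (2 * p) Z hp1000 ha2 hpa le_rfl hYZ hZle
  have hmer := EPK.mertens_one (2 * p) Z (by omega) hYZ
  have hZ0 : (0 : ℝ) < Z := by
    have : 0 < Z := by omega
    exact_mod_cast this
  have hlogZ : Real.log Z ≤ (10 / 9 - 1 / 1000) * Real.log p := by
    calc Real.log Z ≤ Real.log ((p : ℝ) ^ (10 / 9 - 1 / 1000 : ℝ)) := Real.log_le_log hZ0 hZle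
      _ = (10 / 9 - 1 / 1000) * Real.log p := Real.log_rpow hp0 _
  have hlog2p : Real.log p ≤ Real.log ((2 * p : ℕ) : ℝ) := by
    apply Real.log_le_log hp0
    push_cast; linarith
  have hlogp : 0 < Real.log p := Real.log_pos (by linarith)
  have hpow : (p : ℝ) ^ (1 - 1 / 1000 / 32 : ℝ) ≤ p := by
    calc (p : ℝ) ^ (1 - 1 / 1000 / 32 : ℝ) ≤ (p : ℝ) ^ (1 : ℝ) :=
          Real.rpow_le_rpow_of_exponent_le (by linarith) (by norm_num)
      _ = p := Real.rpow_one _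
  have hsplit : ∑ r ∈ (Ioc (2 * p) Z).filter Nat.Prime, Real.log r * (cof p a r - 2 * p / r) =
      ∑ r ∈ (Ioc (2 * p) Z).filter Nat.Prime, Real.log r * cof p a r -
        2 * p * ∑ r ∈ (Ioc (2 * p) Z).filter Nat.Prime, Real.log r / r := by
    rw [Finset.mul_sum, ← Finset.sum_sub_distrib]
    apply Finset.sum_congr rfl
    intro r _
    ring
  rw [hsplit] at hlev
  have h1 := (abs_le.mp hlev).2
  have h2 := (abs_le.mp hmer).2
  have h3 : ∑ r ∈ (Ioc (2 * p) Z).filter Nat.Prime, Real.log r / r ≤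
      (1 / 9 - 1 / 1000) * Real.log p + 5 := by
    linarith
  have h4 : C * (p : ℝ) ^ (1 - 1 / 1000 / 32 : ℝ) ≤ C * p :=
    mul_le_mul_of_nonneg_left hpow (by linarith)
  have h5 : 2 * (p : ℝ) * ∑ r ∈ (Ioc (2 * p) Z).filter Nat.Prime, Real.log r / r ≤
      2 * p * ((1 / 9 - 1 / 1000) * Real.log p + 5) :=
    mul_le_mul_of_nonneg_left h3 (by linarith)
  have h6 : 2 * (p : ℝ) * (5 + C / 2) ≤ 2 * p * (8 / 10000 * Real.log p) :=
    mul_le_mul_of_nonneg_left he2 (by linarith)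
  have h7 : 0 ≤ (p : ℝ) * Real.log p := by positivity
  nlinarith

end Pool.Agent.LPX
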