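import Pool.Agent.LPX.D0

/-!
# [LPX-F4] the numbers `N_k` and their cofactors
-/

set_option autoImplicit false

namespace Pool.Agent.LPX

open Finset Pool.Agent.MP_2f88e5_nt Pool.Agent.EPK

/-- [F4a] For odd `r > 2 p` the `k ∈ [1, 2p + 1]` with `r ∣ 2 k p + a` correspond to the odd `s ≤ N_{2p+1} / r` with `r s ≡ a (mod p)`.

Proof. `k ↦ s = (2 k p + a) / r`. If `r ∣ 2 k p + a` then `r s = 2 k p + a` is odd, so `s` is odd; `s ≥ 1`; `r s ≤ nmax p a`, so `s ≤ nmax p a / r`;
`r s ≡ a` modulo `p`. Injective: `r s` determines `k` (`p > 0`). Surjective: if `s` is odd, `r s ≤ nmax p a`, `r s ≡ a (mod p)`, then `r s` and `a` are both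
odd, so `r s ≡ a (mod 2 p)` (`p` odd), and `r s ≥ r > 2 p > a`, so `r s = a + 2 p k` with `k ≥ 1`, and `2 p k ≤ 2 p (2 p + 1)`. -/
theorem card_k_eq (p : ℕ) [Fact p.Prime] (hp : 2 < p) (a r : ℕ) (ha : Odd a) (ha2 : a < 2 * p)
    (hr : Odd r) (hr2 : 2 * p < r) :
    (((Icc 1 (2 * p + 1)).filter (fun k : ℕ => r ∣ 2 * k * p + a)).card : ℝ) = cof p a r := by
  have hpp : p.Prime := Fact.out
  have hr0 : 0 < r := by omega
  unfold cof
  norm_cast
  refine Finset.card_bij (fun k _ => (2 * k * p + a) / r) ?_ ?_ ?_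
  · intro k hk
    rw [Finset.mem_filter, Finset.mem_Icc] at hk
    obtain ⟨⟨hk1, hk2⟩, s, hs⟩ := hk
    have hdiv : (2 * k * p + a) / r = s := by
      rw [hs]; exact Nat.mul_div_cancel_left s hr0
    simp only [hdiv]
    rw [Finset.mem_filter, Finset.mem_Icc]
    have hodd : Odd (r * s) := by
      rw [← hs]
      have h1 : Even (2 * k * p) := by
        rw [mul_assoc]; exact even_two_mul _
      exact h1.add_odd ha
    have hsodd : Odd s := (Nat.odd_mul.mp hodd).2
    refine ⟨⟨hsodd.pos, ?_⟩, hsodd, ?_⟩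
    · rw [Nat.le_div_iff_mul_le hr0, mul_comm, ← hs]
      unfold nmax
      have : 2 * k * p ≤ 2 * p * (2 * p + 1) := by nlinarith
      omega
    · have h2 : ((r * s : ℕ) : ZMod p) = (a : ZMod p) := by
        rw [← hs]; push_cast; simp
      exact_mod_cast h2
  · intro k hk k' hk' h
    rw [Finset.mem_filter] at hk hk'
    have h1 : r * ((2 * k * p + a) / r) = 2 * k * p + a := Nat.mul_div_cancel' hk.2
    have h2 : r * ((2 * k' * p + a) / r) = 2 * k' * p + a := Nat.mul_div_cancel' hk'.2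
    have h3 : 2 * k * p + a = 2 * k' * p + a := by
      rw [← h1, ← h2, h]
    have h4 : 2 * k * p = 2 * k' * p := by omega
    have h5 : 2 * k = 2 * k' := Nat.eq_of_mul_eq_mul_right hpp.pos h4
    omega
  · intro s hs
    rw [Finset.mem_filter, Finset.mem_Icc] at hs
    obtain ⟨⟨hs1, hs2⟩, hsodd, hmod⟩ := hs
    have hrs : r * s ≤ nmax p a := by
      have := (Nat.le_div_iff_mul_le hr0).mp hs2
      rw [mul_comm]; exact this
    have hge : 2 * p < r * s := by
      calc 2 * p < r := hr2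
        _ = r * 1 := (mul_one r).symm
        _ ≤ r * s := Nat.mul_le_mul_left r hs1
    have hmod' : ((r * s : ℕ) : ZMod p) = ((a : ℕ) : ZMod p) := by
      exact_mod_cast hmod
    have hle : a ≤ r * s := by omega
    have hdvd : p ∣ r * s - a := by
      have := (ZMod.natCast_eq_natCast_iff _ _ _).mp hmod'
      exact (Nat.modEq_iff_dvd' hle).mp this.symm
    have hodd : Odd (r * s) := Nat.odd_mul.mpr ⟨hr, hsodd⟩
    have heven : 2 ∣ r * s - a := by
      obtain ⟨u, hu⟩ := hodd
      obtain ⟨v, hv⟩ := ha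
      omega
    have hcop : Nat.Coprime 2 p := by
      rw [Nat.coprime_two_left]
      exact hpp.odd_of_ne_two (by omega)
    obtain ⟨k, hk⟩ := hcop.mul_dvd_of_dvd_of_dvd heven hdvd
    have hkeq : 2 * k * p + a = r * s := by
      have : r * s - a = 2 * k * p := by rw [hk]; ring
      omega
    refine ⟨k, ?_, ?_⟩
    · rw [Finset.mem_filter, Finset.mem_Icc]
      refine ⟨⟨?_, ?_⟩, ?_⟩
      · rcases Nat.eq_zero_or_pos k with h0 | h0
        · subst h0
          simp at hkeq
          omega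
        · exact h0
      · unfold nmax at hrs
        have h1 : 2 * p * k ≤ 2 * p * (2 * p + 1) := by
          have : 2 * p * k = 2 * k * p := by ring
          omega
        exact Nat.le_of_mul_le_mul_left h1 (by omega)
      · rw [hkeq]; exact Dvd.intro s rfl
    · rw [hkeq]; exact Nat.mul_div_cancel_left s hr0

/-- [F4b] A number `2 k p + a` with `k ≤ 2 p + 1` has at most one prime factor above `2 p`: two different ones would give
`(2 p + 1)² ≤ r r' ≤ 2 k p + a < (2 p + 1)²`. -/
theorem unique_large (p : ℕ) (a k r r' : ℕ) (ha2 : a < 2 * p) (hk : k ≤ 2 * p + 1)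
    (hr : r.Prime) (hr' : r'.Prime) (h : r ∣ 2 * k * p + a) (h' : r' ∣ 2 * k * p + a)
    (h2 : 2 * p < r) (h2' : 2 * p < r') (h0 : 0 < 2 * k * p + a) : r = r' := by
  by_contra hne
  have hcop : Nat.Coprime r r' := (Nat.coprime_primes hr hr').mpr hne
  have hdvd : r * r' ∣ 2 * k * p + a := hcop.mul_dvd_of_dvd_of_dvd h h'
  have hle : r * r' ≤ 2 * k * p + a := Nat.le_of_dvd h0 hdvd
  have h1 : (2 * p + 1) * (2 * p + 1) ≤ r * r' := Nat.mul_le_mul (by omega) (by omega)
  have h3 : 2 * k * p ≤ 2 * (2 * p + 1) * p := by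
    exact Nat.mul_le_mul_right p (Nat.mul_le_mul_left 2 hk)
  nlinarith

end Pool.Agent.LPX
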