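import Pool.Agent.LPX.A2
import Pool.Agent.LPX.A3
import Pool.Agent.LPX.F4
import Pool.Agent.MP_2f88e5_nt.Final

/-!
# [LPX-A4] the largest prime factor: final form
-/

set_option autoImplicit false

namespace Pool.Agent.LPX

open Finset Pool.Agent.MP_2f88e5_nt Pool.Agent.EPK

/-- [A4a] The total weight of the prime factors in `(2 p, Z]`.

Proof. `∑_k ∑_{l ∣ N_k, 2 p < l ≤ Z} log l = ∑_{l ∈ (2 p, Z] prime} log l #{k : l ∣ N_k}` (exchange of sums) and `card_k_eq` (`l` is odd as `l > 2 p ≥ 6` is prime). -/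
theorem weight_eq (p : ℕ) [Fact p.Prime] (hp : 2 < p) (a Z : ℕ) (ha : Odd a) (ha2 : a < 2 * p) :
    ∑ k ∈ Icc 1 (2 * p + 1), ∑ l ∈ (2 * p * k + a).primeFactors.filter (fun l => 2 * p < l ∧ l ≤ Z),
      Real.log l = ∑ r ∈ (Ioc (2 * p) Z).filter Nat.Prime, Real.log r * cof p a r := by
  classical
  have h1 : ∀ k ∈ Icc 1 (2 * p + 1), ∑ l ∈ (2 * p * k + a).primeFactors.filter (fun l => 2 * p < l ∧ l ≤ Z),
      Real.log l = ∑ l ∈ (Ioc (2 * p) Z).filter Nat.Prime, if l ∣ 2 * k * p + a then Real.log l else 0 := by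
    intro k _
    rw [← Finset.sum_filter]
    apply Finset.sum_congr _ fun _ _ => rfl
    have hN : 2 * p * k + a ≠ 0 := by
      have := ha.pos
      omega
    have e : 2 * k * p + a = 2 * p * k + a := by ring
    ext l
    simp only [mem_filter, Nat.mem_primeFactors, mem_Ioc, e]
    tauto
  rw [Finset.sum_congr rfl h1, Finset.sum_comm]
  refine Finset.sum_congr rfl fun l hl => ?_
  rw [mem_filter, mem_Ioc] at hl
  have hodd : Odd l := by
    rcases hl.2.eq_two_or_odd' with h | h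
    · omega
    · exact h
  rw [← Finset.sum_filter, Finset.sum_const, nsmul_eq_mul, card_k_eq p hp a l ha ha2 hodd hl.1.1, mul_comm]

/-- [A4b] The theorem: a proportion of the `N_k` has a prime factor above `p^(129/100)`.

Proof. Let `t = log p`, `Z = ⌊p^(129/100)⌋₊`, `B` the set of the `k ∈ [1, 2 p + 1]` such that `N_k` has a prime factor `l > p^(129/100)` (equivalently `l > Z`). `log_sum` (LogSum.lean) and
`pi_bound (large_of_le _)` (Final.lean; choose `p₀ ≥ exp 100000`): `2 p t - 12 p ≤ (2 p + 1) log (2 p) - π(2 p) · 2 log (2 p + 1) ≤ ∑_k ∑_{l ∣ N_k, 2 p < l} log l`. Split at `Z`: the part `l ≤ Z`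
is `weight_eq`, at most `(0.111 + 0.874) 2 p t` (`asym_range`, `sieve_range`; the ranges are consecutive). The part `l > Z`: for each `k` at most one `l` (`unique_large`), and
`log l ≤ log N_k ≤ 2 log (2 p + 1)`; so it is at most `#B · 2 log (2 p + 1) ≤ #B · 2 (t + 2)`. Hence `#B ≥ (0.03 p t - 12 p) / (2 t + 4) ≥ 0.0145 p` for large `t`. Remove the multiples `p`, `2 p` of `p`
(compare `main` in Final.lean): at least `0.0145 p - 2 ≥ p / 100`. -/
theorem large_prime_factor : ∃ p₀ : ℕ, ∀ p : ℕ, p.Prime → p₀ ≤ p → ∀ a : ℕ, Odd a → a < 2 * p →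
    ¬ p ∣ a →
    (p : ℝ) / 100 ≤ (({k : ℕ | 1 ≤ k ∧ k < 2 * (p + 1) ∧ ¬ p ∣ k ∧
      ∃ l : ℕ, l.Prime ∧ l ∣ 2 * k * p + a ∧ (p : ℝ) ^ (129 / 100 : ℝ) < l}.ncard : ℕ) : ℝ) := by
  classical
  obtain ⟨p₁, _, h₁⟩ := asym_range
  obtain ⟨p₂, _, h₂⟩ := sieve_range
  refine ⟨max (max p₁ p₂) ⌈Real.exp 100000⌉₊, ?_⟩
  intro p hpp hp a ha ha2 hpa
  have : Fact p.Prime := ⟨hpp⟩
  have hp1 : p₁ ≤ p := (le_max_left _ _).trans ((le_max_left _ _).trans hp)
  have hp2 : p₂ ≤ p := (le_max_right _ _).trans ((le_max_left _ _).trans hp)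
  have hexp : Real.exp 100000 ≤ (p : ℝ) :=
    (Nat.le_ceil _).trans (by exact_mod_cast (le_max_right _ _).trans hp)
  have hlarge := large_of_le hexp
  have hpi := pi_bound hlarge
  have hp0 : (0 : ℝ) < p := lt_of_lt_of_le (Real.exp_pos _) hexp
  have ht : 100000 ≤ Real.log p := by
    rw [Real.le_log_iff_exp_le hp0]
    exact hexp
  have hp100 : (100001 : ℝ) ≤ p := by
    have := Real.add_one_le_exp (100000 : ℝ)
    linarith
  have hpN : 100001 ≤ p := by exact_mod_cast hp100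
  have hpge2 : 2 < p := by omega
  set t : ℝ := Real.log p with htdef
  set Z₀ : ℕ := ⌊(p : ℝ) ^ (10 / 9 - 1 / 1000 : ℝ)⌋₊ with hZ₀
  set Z : ℕ := ⌊(p : ℝ) ^ (129 / 100 : ℝ)⌋₊ with hZ
  have hone : (1 : ℝ) ≤ p := by linarith
  have hZZ : Z₀ ≤ Z := Nat.floor_mono (Real.rpow_le_rpow_of_exponent_le hone (by norm_num))
  have h2Z : 2 * p ≤ Z₀ := by
    apply Nat.le_floor
    push_cast
    have e1 : (2 : ℝ) ≤ (p : ℝ) ^ (1 / 10 : ℝ) := by
      have : (2 : ℝ) = ((2 : ℝ) ^ (10 : ℝ)) ^ (1 / 10 : ℝ) := by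
        rw [← Real.rpow_mul (by norm_num)]
        norm_num
      rw [this]
      apply Real.rpow_le_rpow (by positivity) _ (by norm_num)
      norm_num
      linarith
    calc 2 * (p : ℝ) ≤ (p : ℝ) ^ (1 / 10 : ℝ) * p := by gcongr
      _ = (p : ℝ) ^ (1 / 10 : ℝ) * (p : ℝ) ^ (1 : ℝ) := by rw [Real.rpow_one]
      _ = (p : ℝ) ^ (1 / 10 + 1 : ℝ) := (Real.rpow_add hp0 _ _).symm
      _ ≤ (p : ℝ) ^ (10 / 9 - 1 / 1000 : ℝ) := Real.rpow_le_rpow_of_exponent_le hone (by norm_num)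
  -- the set of the `k`
  set B := (Icc 1 (2 * p + 1)).filter fun k : ℕ => ∃ l : ℕ, l.Prime ∧
      l ∣ 2 * p * k + a ∧ (p : ℝ) ^ (129 / 100 : ℝ) < (l : ℝ) with hB
  have hlog1 : Real.log (2 * p + 1) ≤ t + 2 := by
    have h3 : Real.log (2 * (p : ℝ) + 1) ≤ Real.log (3 * p) := Real.log_le_log (by positivity) (by linarith)
    rw [Real.log_mul (by norm_num) hp0.ne'] at h3
    have h4 : Real.log 3 ≤ 3 - 1 := Real.log_le_sub_one_of_pos (by norm_num)
    linarith
  have hlog0 : 0 ≤ Real.log (2 * (p : ℝ) + 1) := Real.log_nonneg (by linarith)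
  have hk : ∀ k ∈ Icc 1 (2 * p + 1),
      ∑ l ∈ (2 * p * k + a).primeFactors.filter (fun l => 2 * p < l), Real.log l ≤
        ∑ l ∈ (2 * p * k + a).primeFactors.filter (fun l => 2 * p < l ∧ l ≤ Z), Real.log l +
        (if k ∈ B then 2 * Real.log (2 * p + 1) else 0) := by
    intro k hk
    have hN0 : 0 < 2 * p * k + a := by
      have := ha.pos
      omega
    have hk2 : k ≤ 2 * p + 1 := (mem_Icc.1 hk).2
    have hNlt : 2 * p * k + a < (2 * p + 1) ^ 2 := by nlinarith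
    have e : 2 * k * p + a = 2 * p * k + a := by ring
    set G := (2 * p * k + a).primeFactors.filter (fun l => 2 * p < l ∧ Z < l) with hG
    have hsub : (2 * p * k + a).primeFactors.filter (fun l => 2 * p < l) =
        (2 * p * k + a).primeFactors.filter (fun l => 2 * p < l ∧ l ≤ Z) ∪ G := by
      ext l
      simp only [hG, mem_union, mem_filter]
      constructor
      · rintro ⟨h1, h2⟩
        rcases Nat.lt_or_ge Z l with h3 | h3
        · exact Or.inr ⟨h1, h2, h3⟩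
        · exact Or.inl ⟨h1, h2, h3⟩
      · rintro (h | h)
        · exact ⟨h.1, h.2.1⟩
        · exact ⟨h.1, h.2.1⟩
    have hdisj : Disjoint ((2 * p * k + a).primeFactors.filter (fun l => 2 * p < l ∧ l ≤ Z)) G := by
      rw [Finset.disjoint_left]
      intro l h1 h2
      rw [mem_filter] at h1
      rw [hG, mem_filter] at h2
      omega
    rw [hsub, Finset.sum_union hdisj]
    apply add_le_add le_rfl
    rcases Finset.eq_empty_or_nonempty G with h0 | ⟨l, hl⟩
    · rw [h0, Finset.sum_empty]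
      split_ifs <;> linarith
    · have hG1 : G = {l} := by
        rw [Finset.eq_singleton_iff_unique_mem]
        refine ⟨hl, fun l' hl' => ?_⟩
        rw [hG, mem_filter, Nat.mem_primeFactors] at hl hl'
        exact unique_large p a k l' l ha2 hk2 hl'.1.1 hl.1.1 (e ▸ hl'.1.2.1) (e ▸ hl.1.2.1) hl'.2.1
          hl.2.1 (by omega)
      rw [hG1, Finset.sum_singleton]
      rw [hG, mem_filter, Nat.mem_primeFactors] at hl
      have hkB : k ∈ B := by
        rw [hB, mem_filter]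
        refine ⟨hk, l, hl.1.1, hl.1.2.1, ?_⟩
        have := hl.2.2
        rwa [hZ, Nat.floor_lt (by positivity)] at this
      rw [if_pos hkB]
      have hl0 : (0 : ℝ) < l := by exact_mod_cast hl.1.1.pos
      have h3 : (l : ℝ) ≤ (2 * p + 1) ^ 2 := by
        have := (Nat.le_of_dvd hN0 hl.1.2.1).trans hNlt.le
        exact_mod_cast this
      have h4 : Real.log (l : ℝ) ≤ Real.log ((2 * (p : ℝ) + 1) ^ 2) := Real.log_le_log hl0 h3
      rw [Real.log_pow] at h4
      push_cast at h4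
      exact h4
  have key := log_sum p a hpp hpge2 ha ha2 hpa
  have hsum := Finset.sum_le_sum hk
  rw [Finset.sum_add_distrib, weight_eq p hpge2 a Z ha ha2, ← Finset.sum_filter, Finset.sum_const,
    nsmul_eq_mul] at hsum
  have hBB : (Icc 1 (2 * p + 1)).filter (fun k => k ∈ B) = B := by
    ext k
    rw [mem_filter, hB, mem_filter]
    tauto
  rw [hBB] at hsum
  have hsplit : (Ioc (2 * p) Z).filter Nat.Prime =
      (Ioc (2 * p) Z₀).filter Nat.Prime ∪ (Ioc Z₀ Z).filter Nat.Prime := by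
    rw [← Finset.filter_union, Finset.Ioc_union_Ioc_eq_Ioc h2Z hZZ]
  have hdisj2 : Disjoint ((Ioc (2 * p) Z₀).filter Nat.Prime) ((Ioc Z₀ Z).filter Nat.Prime) := by
    rw [Finset.disjoint_left]
    intro l h1 h2
    rw [mem_filter, mem_Ioc] at h1 h2
    omega
  rw [hsplit, Finset.sum_union hdisj2] at hsum
  have ha1 := h₁ p a hp1 ha2 hpa
  have ha2' := h₂ p a hp2 ha2 hpa
  rw [← hZ₀] at ha1
  rw [← hZ₀, ← hZ] at ha2'
  -- the lower bound for the number of `k`
  have hlow : 2 * (p : ℝ) * t ≤ (2 * p + 1) * Real.log (2 * p) := by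
    have h3 : Real.log (2 * (p : ℝ)) = Real.log 2 + t := Real.log_mul (by norm_num) hp0.ne'
    have h4 : 0 < Real.log 2 := Real.log_pos (by norm_num)
    rw [h3]
    nlinarith
  have hmain : 2 * (p : ℝ) * t - 12 * p ≤ 111 / 1000 * (2 * p) * t + 874 / 1000 * (2 * p) * t +
      (B.card : ℝ) * (2 * (t + 2)) := by
    have h5 : (B.card : ℝ) * (2 * Real.log (2 * p + 1)) ≤ (B.card : ℝ) * (2 * (t + 2)) := by gcongr
    linarith
  have hcard : (p : ℝ) / 100 + 2 ≤ B.card := by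
    by_contra hcon
    push Not at hcon
    have h6 : (B.card : ℝ) * (2 * (t + 2)) ≤ ((p : ℝ) / 100 + 2) * (2 * (t + 2)) := by
      apply mul_le_mul_of_nonneg_right hcon.le
      linarith
    have h7 : 0 ≤ ((p : ℝ) - 100000) * (t - 100000) := mul_nonneg (by linarith) (by linarith)
    nlinarith
  -- remove the multiples of `p`
  have hfin : {k : ℕ | 1 ≤ k ∧ k < 2 * (p + 1) ∧ ¬ p ∣ k ∧
      ∃ l : ℕ, l.Prime ∧ l ∣ 2 * k * p + a ∧ (p : ℝ) ^ (129 / 100 : ℝ) < l}.Finite :=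
    (Set.finite_lt_nat (2 * (p + 1))).subset fun k hk => hk.2.1
  have hsub : ((B \ {p, 2 * p} : Finset ℕ) : Set ℕ) ⊆ {k : ℕ | 1 ≤ k ∧ k < 2 * (p + 1) ∧ ¬ p ∣ k ∧
      ∃ l : ℕ, l.Prime ∧ l ∣ 2 * k * p + a ∧ (p : ℝ) ^ (129 / 100 : ℝ) < l} := by
    intro k hk
    rw [mem_coe, mem_sdiff, hB, mem_filter, mem_Icc] at hk
    obtain ⟨⟨⟨h1, h2⟩, l, hl, hl2, hl3⟩, h3⟩ := hk
    refine ⟨h1, by omega, ?_, l, hl, ?_, hl3⟩
    · rintro ⟨b, rfl⟩
      apply h3
      have hb1 : b ≠ 0 := by rintro rfl; simp at h1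
      have hb2 : b ≤ 2 := by
        by_contra hcon
        push Not at hcon
        have : p * 3 ≤ p * b := Nat.mul_le_mul_left p hcon
        omega
      have : b = 1 ∨ b = 2 := by omega
      rcases this with rfl | rfl
      · simp
      · simp [mul_comm]
    · have : 2 * k * p + a = 2 * p * k + a := by ring
      rw [this]; exact hl2
  have g1 := Set.ncard_le_ncard hsub hfin
  rw [Set.ncard_coe_finset] at g1
  have g2 : B.card ≤ (B \ {p, 2 * p}).card + 2 := by
    have h3 := le_card_sdiff ({p, 2 * p} : Finset ℕ) B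
    have h4 : ({p, 2 * p} : Finset ℕ).card ≤ 2 := card_le_two
    omega
  have g3 : (B.card : ℝ) ≤ ({k : ℕ | 1 ≤ k ∧ k < 2 * (p + 1) ∧ ¬ p ∣ k ∧
      ∃ l : ℕ, l.Prime ∧ l ∣ 2 * k * p + a ∧ (p : ℝ) ^ (129 / 100 : ℝ) < l}.ncard : ℝ) + 2 := by
    exact_mod_cast g2.trans (Nat.add_le_add_right g1 2)
  linarith

end Pool.Agent.LPX
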