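import Pool.Agent.EPK.D0

/-!
# [LPX] large prime factors in every class: definitions

Project for MP_2f88e5_nt. `p` is an odd prime, `a < 2 p` odd and prime to `p`, `N_k = 2 k p + a` for `1 ≤ k ≤ 2 p + 1`.
Everything is about the pairs `(r, s)`, `r` prime, `s` odd, `r s = N_k`, i.e. `r s ≡ a (mod p)`.
-/

set_option autoImplicit false

namespace Pool.Agent.LPX

open Finset Pool.Agent.MP_2f88e5_nt Pool.Agent.EPK

/-- bilinear sums over `A < m ≤ B`, `R < m k ≤ R'` -/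
noncomputable def B2 (p : ℕ) [Fact p.Prime] (α β : ℕ → ℂ) (A B R R' : ℕ) (b : ZMod p) : ℂ :=
  ∑ m ∈ Ioc A B, ∑ k ∈ Ioc (R / m) (R' / m), α m * β k * ea p (b * ((m : ZMod p) * (k : ZMod p))⁻¹)

/-- the sum over the prime powers in `(R, R']` of `e(b / n)` -/
noncomputable def TR (p : ℕ) [Fact p.Prime] (R R' : ℕ) (b : ZMod p) : ℂ :=
  ∑ n ∈ Ioc R R', ((ArithmeticFunction.vonMangoldt n : ℝ) : ℂ) * ea p (b * ((n : ZMod p))⁻¹)

/-- the number of `j ∈ (0, J]` with `j = x / n + y` modulo `p` -/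
noncomputable def cnt (p : ℕ) [Fact p.Prime] (x y : ZMod p) (J n : ℕ) : ℝ :=
  (((Ioc 0 J).filter (fun j : ℕ => (j : ZMod p) = x * ((n : ZMod p))⁻¹ + y)).card : ℝ)

/-- the error term for the multiples of `e` in `(R, R']` -/
noncomputable def er (p : ℕ) [Fact p.Prime] (x : ZMod p) (R R' J e : ℕ) : ℝ :=
  2 * ∑ h ∈ Icc 1 ((p - 1) / 2), min ((J : ℝ) / p) (1 / (2 * h)) *
    ‖∑ k ∈ Ioc (R / e) (R' / e), ea p (x * (h : ZMod p) * ((e : ZMod p) * (k : ZMod p))⁻¹)‖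

/-- the largest `N_k` -/
def nmax (p a : ℕ) : ℕ := 2 * p * (2 * p + 1) + a

/-- the number of odd `s` with `r s ≤ N_{2p+1}` and `r s = a` modulo `p` -/
noncomputable def cof (p a r : ℕ) : ℝ :=
  (((Icc 1 (nmax p a / r)).filter (fun s : ℕ => Odd s ∧ (r : ZMod p) * (s : ZMod p) = (a : ZMod p))).card : ℝ)

end Pool.Agent.LPX
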