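import Pool.Agent.LPX.G2

/-!
# [LPX-G3] bilinear sums: the Type II bound
-/

set_option autoImplicit false

namespace Pool.Agent.LPX

open Finset Pool.Agent.MP_2f88e5_nt Pool.Agent.EPK

/-- the number of dyadic blocks -/
theorem g3_blocks (U W : ℕ) (hU : 1 ≤ U) : ∃ n : ℕ, W ≤ 2 ^ n * U ∧ (∀ i < n, 2 ^ i * U < W) ∧
    ∀ p : ℝ, (W : ℝ) ≤ p → 1 ≤ p → (n : ℝ) ≤ 2 * (3 + Real.log p) := by
  classical
  have hex : ∃ n, W ≤ 2 ^ n * U := by
    refine ⟨W, ?_⟩
    have h1 : W ≤ 2 ^ W := (Nat.lt_two_pow_self).le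
    calc W ≤ 2 ^ W * 1 := by rw [mul_one]; exact h1
      _ ≤ 2 ^ W * U := Nat.mul_le_mul_left _ hU
  refine ⟨Nat.find hex, Nat.find_spec hex, fun i hi => ?_, ?_⟩
  · exact not_le.1 (Nat.find_min hex hi)
  · intro p hWp hp
    have hlogp : 0 ≤ Real.log p := Real.log_nonneg hp
    rcases Nat.eq_zero_or_pos (Nat.find hex) with h0 | h0
    · rw [h0]
      push_cast
      linarith
    · have h1 := not_le.1 (Nat.find_min hex (show Nat.find hex - 1 < Nat.find hex by omega))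
      set n := Nat.find hex with hn
      have h2 : 2 ^ (n - 1) ≤ W := by
        have : 2 ^ (n - 1) * 1 ≤ 2 ^ (n - 1) * U := Nat.mul_le_mul_left _ hU
        omega
      have h3 : (2 : ℝ) ^ (n - 1) ≤ p := le_trans (by exact_mod_cast h2) hWp
      have h4 : ((n - 1 : ℕ) : ℝ) * Real.log 2 ≤ Real.log p := by
        rw [← Real.log_pow]
        exact Real.log_le_log (by positivity) h3
      have h5 : ((n - 1 : ℕ) : ℝ) = (n : ℝ) - 1 := by
        rw [Nat.cast_sub h0, Nat.cast_one]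
      rw [h5] at h4
      have h6 : (0.69 : ℝ) < Real.log 2 := lt_trans (by norm_num) Real.log_two_gt_d9
      have h7 : (0 : ℝ) ≤ (n : ℝ) - 1 := by
        have : (1 : ℝ) ≤ n := by exact_mod_cast h0
        linarith
      nlinarith

/-- splitting an interval into dyadic blocks -/
theorem g3_sum_blocks (U : ℕ) (G : ℕ → ℂ) (n : ℕ) :
    ∑ m ∈ Ioc U (2 ^ n * U), G m = ∑ i ∈ range n, ∑ m ∈ Ioc (2 ^ i * U) (2 * (2 ^ i * U)), G m := by
  induction n with
  | zero => simp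
  | succ n ih =>
    rw [sum_range_succ, ← ih]
    have h1 : 2 ^ (n + 1) * U = 2 * (2 ^ n * U) := by rw [pow_succ]; ring
    have h2 : U ≤ 2 ^ n * U := Nat.le_mul_of_pos_left U (by positivity)
    rw [h1]
    rw [Finset.sum_Ioc_consecutive G h2 (by omega)]

/-- [G3] The Type II bound for `m ∈ (U, V]`.

Proof (compare `EPK.typeII`, file `EPK_D3b.lean`, and the lemmas `blocks`, `sum_blocks` there; copy them with a new name, since the
stub file `Pool/Agent/EPK/D3b.lean` does not contain them). If `V ≤ U` the sum is empty. `(U, V]` is covered by the blocks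
`(2^i U, 2^(i+1) U]` with `2^i U < V`, at most `2 (3 + log p)` of them; replace `α` by `α 1_{m ≤ V}` (`‖α 1‖ ≤ A` for `m < p`); triangle inequality;
`B2_block'` with `M = 2^i U`: `p^(2/9) ≤ 2 U ≤ 2 M`, `M < V ≤ p^(5/9)`. -/
theorem typeII2 (p : ℕ) [Fact p.Prime] (hp : 1000 ≤ p) (κ : ℝ) (hκ : 0 < κ)
    (H U V R R' : ℕ) (hH : H < p) (hU : (p : ℝ) ^ (2 / 9 : ℝ) ≤ 2 * U)
    (hV : (V : ℝ) ≤ (p : ℝ) ^ (5 / 9 : ℝ)) (hRR : R ≤ R')
    (hR : (R' : ℝ) ≤ (p : ℝ) ^ (10 / 9 - κ : ℝ)) (hRH : R' ≤ 8 * p * H)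
    (T : ℝ) (hT : TauLE (16 * p ^ 4) T) (x : ZMod p) (hx : x ≠ 0)
    (α β : ℕ → ℂ) (A B : ℝ) (hA : 0 ≤ A) (hB : 0 ≤ B) (hα : ∀ m, m < p → ‖α m‖ ≤ A)
    (hβ : ∀ k, k < p → ‖β k‖ ≤ B) :
    ∑ h ∈ Icc 1 H, ‖B2 p α β U V R R' (x * (h : ZMod p))‖ ≤
      160 * A * B * T * (3 + Real.log p) ^ 2 * H * (p : ℝ) ^ (1 - κ / 2 : ℝ) := by
  classical
  have hprime : p.Prime := Fact.out
  have hp0 : (0 : ℝ) < p := by exact_mod_cast hprime.pos
  have hp1 : (1 : ℝ) ≤ p := by exact_mod_cast hprime.one_le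
  have hT1 : 1 ≤ T := by
    have h1 : 1 ≤ 16 * p ^ 4 := by
      have := Nat.one_le_pow 4 p hprime.one_le
      omega
    simpa using hT 1 le_rfl h1
  have hlog : 0 ≤ Real.log p := Real.log_nonneg hp1
  have hU1 : 1 ≤ U := by
    by_contra h
    have hU0 : U = 0 := by omega
    rw [hU0] at hU
    have h1 : (0 : ℝ) < (p : ℝ) ^ (2 / 9 : ℝ) := Real.rpow_pos_of_pos hp0 _
    push_cast at hU
    linarith
  have hVp : (V : ℝ) ≤ p := by
    refine hV.trans ?_
    calc (p : ℝ) ^ (5 / 9 : ℝ) ≤ (p : ℝ) ^ (1 : ℝ) :=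
          Real.rpow_le_rpow_of_exponent_le hp1 (by norm_num)
      _ = p := Real.rpow_one _
  obtain ⟨n, hn1, hn2, hn3⟩ := g3_blocks U V hU1
  have hnp := hn3 p hVp hp1
  set α' : ℕ → ℂ := fun m => if m ≤ V then α m else 0 with hα'
  have hα'B : ∀ m, m < p → ‖α' m‖ ≤ A := by
    intro m hm
    rw [hα']
    dsimp only
    split_ifs
    · exact hα m hm
    · rw [norm_zero]; exact hA
  have hsplit : ∀ b : ZMod p, B2 p α β U V R R' b =
      ∑ i ∈ range n, B2 p α' β (2 ^ i * U) (2 * (2 ^ i * U)) R R' b := by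
    intro b
    have h1 := g3_sum_blocks U (fun m => ∑ k ∈ Ioc (R / m) (R' / m),
      α' m * β k * ea p (b * ((m : ZMod p) * (k : ZMod p))⁻¹)) n
    have h2 : B2 p α β U V R R' b = ∑ m ∈ Ioc U (2 ^ n * U), ∑ k ∈ Ioc (R / m) (R' / m),
      α' m * β k * ea p (b * ((m : ZMod p) * (k : ZMod p))⁻¹) := by
      have hsub : Ioc U V ⊆ Ioc U (2 ^ n * U) := Finset.Ioc_subset_Ioc_right hn1
      rw [← Finset.sum_subset hsub]
      · rw [B2]
        refine sum_congr rfl fun m hm => ?_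
        rw [mem_Ioc] at hm
        have : α' m = α m := by
          rw [hα']
          dsimp only
          rw [if_pos hm.2]
        rw [this]
      · intro m hm hm2
        rw [mem_Ioc] at hm hm2
        have : α' m = 0 := by
          rw [hα']
          dsimp only
          rw [if_neg (by
            intro h
            exact hm2 ⟨hm.1, h⟩)]
        rw [this]
        simp
    rw [h2, h1]
    rfl
  have hblock : ∀ i ∈ range n,
      ∑ h ∈ Icc 1 H, ‖B2 p α' β (2 ^ i * U) (2 * (2 ^ i * U)) R R' (x * (h : ZMod p))‖ ≤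
      80 * A * B * T * (3 + Real.log p) * H * (p : ℝ) ^ (1 - κ / 2 : ℝ) := by
    intro i hi
    have hi' := hn2 i (mem_range.1 hi)
    have hUM : U ≤ 2 ^ i * U := Nat.le_mul_of_pos_left U (by positivity)
    have hUM' : (U : ℝ) ≤ ((2 ^ i * U : ℕ) : ℝ) := by exact_mod_cast hUM
    refine B2_block' p hp κ hκ H (2 ^ i * U) R R' hH ?_ ?_ hRR hR hRH T hT x hx α' β A B hA hB
      hα'B hβ
    · linarith
    · have : ((2 ^ i * U : ℕ) : ℝ) ≤ V := by exact_mod_cast hi'.le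
      linarith
  calc ∑ h ∈ Icc 1 H, ‖B2 p α β U V R R' (x * (h : ZMod p))‖ ≤
      ∑ h ∈ Icc 1 H, ∑ i ∈ range n,
        ‖B2 p α' β (2 ^ i * U) (2 * (2 ^ i * U)) R R' (x * (h : ZMod p))‖ := by
        refine sum_le_sum fun h _ => ?_
        rw [hsplit]
        exact norm_sum_le _ _
    _ = ∑ i ∈ range n, ∑ h ∈ Icc 1 H,
        ‖B2 p α' β (2 ^ i * U) (2 * (2 ^ i * U)) R R' (x * (h : ZMod p))‖ := sum_comm
    _ ≤ ∑ i ∈ range n, 80 * A * B * T * (3 + Real.log p) * H * (p : ℝ) ^ (1 - κ / 2 : ℝ) :=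
        sum_le_sum hblock
    _ = (n : ℝ) * (80 * A * B * T * (3 + Real.log p) * H * (p : ℝ) ^ (1 - κ / 2 : ℝ)) := by
        rw [sum_const, card_range, nsmul_eq_mul]
    _ ≤ (2 * (3 + Real.log p)) *
          (80 * A * B * T * (3 + Real.log p) * H * (p : ℝ) ^ (1 - κ / 2 : ℝ)) :=
        mul_le_mul_of_nonneg_right hnp (by positivity)
    _ = 160 * A * B * T * (3 + Real.log p) ^ 2 * H * (p : ℝ) ^ (1 - κ / 2 : ℝ) := by ring

end Pool.Agent.LPX
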