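import Pool.Agent.LPX.V1

/-!
# [LPX-V2] Vaughan's identity for the sums `TR`
-/

set_option autoImplicit false

namespace Pool.Agent.LPX

open Finset Pool.Agent.MP_2f88e5_nt Pool.Agent.EPK

/-- [V2, aux] exchange of the two variables -/
theorem v2_swap (R R' : ℕ) (hR : R ≤ R') (F : ℕ → ℕ → ℂ) :
    ∑ m ∈ Icc 1 R', ∑ k ∈ Ioc (R / m) (R' / m), F m k =
      ∑ m ∈ Icc 1 R', ∑ k ∈ Ioc (R / m) (R' / m), F k m := by
  rw [← sum_antidiag2 R R' hR F, ← sum_antidiag2 R R' hR (fun m k => F k m)]
  refine Finset.sum_congr rfl fun n _ => ?_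
  refine Finset.sum_nbij' Prod.swap Prod.swap ?_ ?_ ?_ ?_ ?_
  · intro q hq
    exact Nat.swap_mem_divisorsAntidiagonal.mpr hq
  · intro q hq
    exact Nat.swap_mem_divisorsAntidiagonal.mpr hq
  · intro q _
    simp
  · intro q _
    simp
  · intro q _
    simp

/-- [V2, aux] the pointwise identity, as a sum over the pairs -/
theorem v2_point (p : ℕ) [Fact p.Prime] (b : ZMod p) (U n : ℕ) (hn : U < n) :
    ((ArithmeticFunction.vonMangoldt n : ℝ) : ℂ) * ea p (b * ((n : ZMod p))⁻¹) =
      (∑ q ∈ n.divisorsAntidiagonal, (if q.1 ≤ U then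
          ((ArithmeticFunction.moebius q.1 : ℤ) : ℂ) * ((Real.log q.2 : ℂ) *
            ea p (b * ((q.1 : ZMod p) * (q.2 : ZMod p))⁻¹)) else 0)) -
      (∑ q ∈ n.divisorsAntidiagonal, (va U q.1 : ℂ) *
            ea p (b * ((q.1 : ZMod p) * (q.2 : ZMod p))⁻¹)) +
      (∑ q ∈ n.divisorsAntidiagonal, (if U < q.1 then
          ((ArithmeticFunction.vonMangoldt q.1 : ℝ) : ℂ) * (vb U q.2 : ℂ) *
            ea p (b * ((q.1 : ZMod p) * (q.2 : ZMod p))⁻¹) else 0)) := by
  have h := vaughan_point U n (by omega)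
  rw [if_neg (by omega), zero_add] at h
  have hq : ∀ q ∈ n.divisorsAntidiagonal, ((q.1 : ZMod p) * (q.2 : ZMod p)) = (n : ZMod p) := by
    intro q hq
    rw [← Nat.cast_mul, (Nat.mem_divisorsAntidiagonal.mp hq).1]
  rw [Finset.sum_filter, Finset.sum_filter] at h
  rw [h, Complex.ofReal_add, Complex.ofReal_sub, Complex.ofReal_sum, Complex.ofReal_sum, Complex.ofReal_sum]
  rw [add_mul, sub_mul, Finset.sum_mul, Finset.sum_mul, Finset.sum_mul]
  congr 1
  · congr 1
    · refine Finset.sum_congr rfl fun q hqn => ?_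
      rw [hq q hqn]
      split_ifs
      · rw [Complex.ofReal_mul, Complex.ofReal_intCast]
        ring
      · rw [Complex.ofReal_zero]
        ring
    · refine Finset.sum_congr rfl fun q hqn => ?_
      rw [hq q hqn]
  · refine Finset.sum_congr rfl fun q hqn => ?_
    rw [hq q hqn]
    split_ifs
    · rw [Complex.ofReal_mul]
    · rw [Complex.ofReal_zero]
      ring

/-- [V2, aux] the inner sums are empty for `m > R'` -/
theorem v2_empty (R R' m : ℕ) (hR : R ≤ R') (hm : R' < m) : Ioc (R / m) (R' / m) = ∅ := by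
  rw [Nat.div_eq_of_lt hm, Nat.div_eq_of_lt (lt_of_le_of_lt hR hm)]
  simp

/-- [V2] The decomposition of `TR` into five sums.

Proof (compare `EPK.TT_split`). Multiply `EPK.vaughan_point` by `ea p (b * n⁻¹)` and sum over `n ∈ (R, R']`. The first term vanishes since
`n > R ≥ U`. `sum_antidiag2` for the sums over `n = m k` (restricted by `m ≤ U`, or by `U < m`; the summand as a function of `(m, k)`
contains the indicator). Second term: `∑_{m ≤ U} μ(m) ∑_k log k ea(...)`, `log_abel2` with `u = R / m`, `K = R' / m ≤ P = R'`, and exchange. (The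
sum over `m ∈ [1, R']` with the indicator of `m ≤ U` is the sum over `m ∈ [1, U]`: for `m > R'` the range `Ioc (R/m) (R'/m)` is empty.) Third term:
`va U m = 0` for `m > U²` (`EPK.va_vb`); split at `U` (if `U = 0` both parts vanish); `m > R'` contributes nothing. Fourth term: split
`m ≤ W` and `m > W` (`U ≤ W`); for `m ≤ W` it is `B2 Λ vb U W`. For `m > W`: exchange the roles of `m` and `k` (both say `R < m k ≤ R'`, and
`m > W`); here `k ≤ R' / m ≤ R' / (W + 1)`, and `vb U k = 0` for `k ≤ U`. -/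
theorem TR_split (p : ℕ) [Fact p.Prime] (b : ZMod p) (U W R R' : ℕ) (hU : U ≤ R) (hUW : U ≤ W)
    (hR : R ≤ R') :
    TR p R R' b =
      (∑ j ∈ Icc 2 R', (Real.log ((j : ℝ) / ((j : ℝ) - 1)) : ℂ) *
        LL p (fun m => ((ArithmeticFunction.moebius m : ℤ) : ℂ)) (fun m => max (R / m) (j - 1))
          (fun m => R' / m) 1 U b) -
      LL p (fun m => (va U m : ℂ)) (fun m => R / m) (fun m => R' / m) 1 U b -
      B2 p (fun m => (va U m : ℂ)) (fun _ => 1) U (U ^ 2) R R' b +
      B2 p (fun m => ((ArithmeticFunction.vonMangoldt m : ℝ) : ℂ)) (fun k => (vb U k : ℂ)) U W R R' b +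
      B2 p (fun k => (vb U k : ℂ))
        (fun m => if W < m then ((ArithmeticFunction.vonMangoldt m : ℝ) : ℂ) else 0)
        U (R' / (W + 1)) R R' b := by
  have hUR' : U ≤ R' := hU.trans hR
  -- the pointwise identity summed up
  have h0 : TR p R R' b =
      (∑ m ∈ Icc 1 R', ∑ k ∈ Ioc (R / m) (R' / m), (if m ≤ U then
          ((ArithmeticFunction.moebius m : ℤ) : ℂ) * ((Real.log k : ℂ) *
            ea p (b * ((m : ZMod p) * (k : ZMod p))⁻¹)) else 0)) -
      (∑ m ∈ Icc 1 R', ∑ k ∈ Ioc (R / m) (R' / m), (va U m : ℂ) *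
            ea p (b * ((m : ZMod p) * (k : ZMod p))⁻¹)) +
      (∑ m ∈ Icc 1 R', ∑ k ∈ Ioc (R / m) (R' / m), (if U < m then
          ((ArithmeticFunction.vonMangoldt m : ℝ) : ℂ) * (vb U k : ℂ) *
            ea p (b * ((m : ZMod p) * (k : ZMod p))⁻¹) else 0)) := by
    rw [← sum_antidiag2 R R' hR (fun m k => if m ≤ U then
          ((ArithmeticFunction.moebius m : ℤ) : ℂ) * ((Real.log k : ℂ) *
            ea p (b * ((m : ZMod p) * (k : ZMod p))⁻¹)) else 0),
      ← sum_antidiag2 R R' hR (fun m k => (va U m : ℂ) *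
            ea p (b * ((m : ZMod p) * (k : ZMod p))⁻¹)),
      ← sum_antidiag2 R R' hR (fun m k => if U < m then
          ((ArithmeticFunction.vonMangoldt m : ℝ) : ℂ) * (vb U k : ℂ) *
            ea p (b * ((m : ZMod p) * (k : ZMod p))⁻¹) else 0)]
    rw [← Finset.sum_sub_distrib, ← Finset.sum_add_distrib]
    unfold TR
    refine Finset.sum_congr rfl fun n hn => ?_
    exact v2_point p b U n (by have := (Finset.mem_Ioc.mp hn).1; omega)
  -- first sum
  have h1 : (∑ m ∈ Icc 1 R', ∑ k ∈ Ioc (R / m) (R' / m), (if m ≤ U then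
          ((ArithmeticFunction.moebius m : ℤ) : ℂ) * ((Real.log k : ℂ) *
            ea p (b * ((m : ZMod p) * (k : ZMod p))⁻¹)) else 0)) =
      ∑ j ∈ Icc 2 R', (Real.log ((j : ℝ) / ((j : ℝ) - 1)) : ℂ) *
        LL p (fun m => ((ArithmeticFunction.moebius m : ℤ) : ℂ)) (fun m => max (R / m) (j - 1))
          (fun m => R' / m) 1 U b := by
    have e1 : (∑ m ∈ Icc 1 R', ∑ k ∈ Ioc (R / m) (R' / m), (if m ≤ U then
          ((ArithmeticFunction.moebius m : ℤ) : ℂ) * ((Real.log k : ℂ) *
            ea p (b * ((m : ZMod p) * (k : ZMod p))⁻¹)) else 0)) =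
        ∑ m ∈ Icc 1 U, ((ArithmeticFunction.moebius m : ℤ) : ℂ) *
          ∑ k ∈ Ioc (R / m) (R' / m), (Real.log k : ℂ) *
            ea p (b * ((m : ZMod p) * (k : ZMod p))⁻¹) := by
      symm
      refine Finset.sum_subset_zero_on_sdiff (Finset.Icc_subset_Icc_right hUR') ?_ ?_
      · intro m hm
        rw [Finset.mem_sdiff, Finset.mem_Icc, Finset.mem_Icc] at hm
        refine Finset.sum_eq_zero fun k _ => ?_
        rw [if_neg (by omega)]
      · intro m hm
        rw [Finset.mem_Icc] at hm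
        rw [Finset.mul_sum]
        refine Finset.sum_congr rfl fun k _ => ?_
        rw [if_pos hm.2]
    rw [e1]
    have e2 : ∀ m ∈ Icc 1 U, ((ArithmeticFunction.moebius m : ℤ) : ℂ) *
          ∑ k ∈ Ioc (R / m) (R' / m), (Real.log k : ℂ) *
            ea p (b * ((m : ZMod p) * (k : ZMod p))⁻¹) =
        ∑ j ∈ Icc 2 R', (Real.log ((j : ℝ) / ((j : ℝ) - 1)) : ℂ) *
          (((ArithmeticFunction.moebius m : ℤ) : ℂ) *
            ∑ k ∈ Ioc (max (R / m) (j - 1)) (R' / m), ea p (b * ((m : ZMod p) * (k : ZMod p))⁻¹)) := by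
      intro m _
      rw [log_abel2 (R / m) (R' / m) R' (Nat.div_le_self _ _)
        (fun k => ea p (b * ((m : ZMod p) * (k : ZMod p))⁻¹)), Finset.mul_sum]
      refine Finset.sum_congr rfl fun j _ => ?_
      ring
    rw [Finset.sum_congr rfl e2, Finset.sum_comm]
    refine Finset.sum_congr rfl fun j _ => ?_
    unfold LL
    rw [Finset.mul_sum]
  -- second sum
  have h2 : (∑ m ∈ Icc 1 R', ∑ k ∈ Ioc (R / m) (R' / m), (va U m : ℂ) *
            ea p (b * ((m : ZMod p) * (k : ZMod p))⁻¹)) =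
      LL p (fun m => (va U m : ℂ)) (fun m => R / m) (fun m => R' / m) 1 U b +
      B2 p (fun m => (va U m : ℂ)) (fun _ => 1) U (U ^ 2) R R' b := by
    have hUU : U ≤ U ^ 2 := by
      rcases Nat.eq_zero_or_pos U with h | h
      · simp [h]
      · nlinarith
    have e1 : (∑ m ∈ Icc 1 R', ∑ k ∈ Ioc (R / m) (R' / m), (va U m : ℂ) *
            ea p (b * ((m : ZMod p) * (k : ZMod p))⁻¹)) =
        ∑ m ∈ Icc 1 (max R' (U ^ 2)), ∑ k ∈ Ioc (R / m) (R' / m), (va U m : ℂ) *
            ea p (b * ((m : ZMod p) * (k : ZMod p))⁻¹) := by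
      refine Finset.sum_subset (Finset.Icc_subset_Icc_right (le_max_left _ _)) ?_
      intro m hm1 hm2
      rw [Finset.mem_Icc] at hm1 hm2
      rw [v2_empty R R' m hR (by omega), Finset.sum_empty]
    have e2 : (∑ m ∈ Icc 1 (U ^ 2), ∑ k ∈ Ioc (R / m) (R' / m), (va U m : ℂ) *
            ea p (b * ((m : ZMod p) * (k : ZMod p))⁻¹)) =
        ∑ m ∈ Icc 1 (max R' (U ^ 2)), ∑ k ∈ Ioc (R / m) (R' / m), (va U m : ℂ) *
            ea p (b * ((m : ZMod p) * (k : ZMod p))⁻¹) := by
      refine Finset.sum_subset (Finset.Icc_subset_Icc_right (le_max_right _ _)) ?_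
      intro m hm1 hm2
      rw [Finset.mem_Icc] at hm1 hm2
      refine Finset.sum_eq_zero fun k _ => ?_
      rw [(va_vb U).2.1 m (by omega)]
      simp
    rw [e1, ← e2]
    have e3 : Icc 1 (U ^ 2) = Icc 1 U ∪ Ioc U (U ^ 2) := by
      ext m
      simp only [Finset.mem_union, Finset.mem_Icc, Finset.mem_Ioc]
      omega
    have e4 : Disjoint (Icc 1 U) (Ioc U (U ^ 2)) := by
      rw [Finset.disjoint_left]
      intro m hm1 hm2
      rw [Finset.mem_Icc] at hm1
      rw [Finset.mem_Ioc] at hm2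
      omega
    rw [e3, Finset.sum_union e4]
    unfold LL B2
    congr 1
    · refine Finset.sum_congr rfl fun m _ => ?_
      rw [Finset.mul_sum]
    · refine Finset.sum_congr rfl fun m _ => Finset.sum_congr rfl fun k _ => ?_
      rw [mul_one]
  -- third sum
  have h3 : (∑ m ∈ Icc 1 R', ∑ k ∈ Ioc (R / m) (R' / m), (if U < m then
          ((ArithmeticFunction.vonMangoldt m : ℝ) : ℂ) * (vb U k : ℂ) *
            ea p (b * ((m : ZMod p) * (k : ZMod p))⁻¹) else 0)) =
      B2 p (fun m => ((ArithmeticFunction.vonMangoldt m : ℝ) : ℂ)) (fun k => (vb U k : ℂ)) U W R R' b +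
      B2 p (fun k => (vb U k : ℂ))
        (fun m => if W < m then ((ArithmeticFunction.vonMangoldt m : ℝ) : ℂ) else 0)
        U (R' / (W + 1)) R R' b := by
    have e0 : (∑ m ∈ Icc 1 R', ∑ k ∈ Ioc (R / m) (R' / m), (if U < m then
          ((ArithmeticFunction.vonMangoldt m : ℝ) : ℂ) * (vb U k : ℂ) *
            ea p (b * ((m : ZMod p) * (k : ZMod p))⁻¹) else 0)) =
        (∑ m ∈ Icc 1 R', ∑ k ∈ Ioc (R / m) (R' / m), (if U < m ∧ m ≤ W then
          ((ArithmeticFunction.vonMangoldt m : ℝ) : ℂ) * (vb U k : ℂ) *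
            ea p (b * ((m : ZMod p) * (k : ZMod p))⁻¹) else 0)) +
        (∑ m ∈ Icc 1 R', ∑ k ∈ Ioc (R / m) (R' / m), (if W < m then
          ((ArithmeticFunction.vonMangoldt m : ℝ) : ℂ) * (vb U k : ℂ) *
            ea p (b * ((m : ZMod p) * (k : ZMod p))⁻¹) else 0)) := by
      rw [← Finset.sum_add_distrib]
      refine Finset.sum_congr rfl fun m _ => ?_
      rw [← Finset.sum_add_distrib]
      refine Finset.sum_congr rfl fun k _ => ?_
      by_cases h1 : U < m
      · by_cases h2 : m ≤ W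
        · rw [if_pos h1, if_pos ⟨h1, h2⟩, if_neg (by omega), add_zero]
        · rw [if_pos h1, if_neg (by omega), if_pos (by omega), zero_add]
      · rw [if_neg h1, if_neg (by omega), if_neg (by omega), add_zero]
    rw [e0]
    congr 1
    · -- `m ≤ W`
      have e1 : (∑ m ∈ Icc 1 R', ∑ k ∈ Ioc (R / m) (R' / m), (if U < m ∧ m ≤ W then
          ((ArithmeticFunction.vonMangoldt m : ℝ) : ℂ) * (vb U k : ℂ) *
            ea p (b * ((m : ZMod p) * (k : ZMod p))⁻¹) else 0)) =
          ∑ m ∈ Icc 1 (max R' W), ∑ k ∈ Ioc (R / m) (R' / m), (if U < m ∧ m ≤ W then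
          ((ArithmeticFunction.vonMangoldt m : ℝ) : ℂ) * (vb U k : ℂ) *
            ea p (b * ((m : ZMod p) * (k : ZMod p))⁻¹) else 0) := by
        refine Finset.sum_subset (Finset.Icc_subset_Icc_right (le_max_left _ _)) ?_
        intro m hm1 hm2
        rw [Finset.mem_Icc] at hm1 hm2
        rw [v2_empty R R' m hR (by omega), Finset.sum_empty]
      rw [e1]
      unfold B2
      symm
      refine Finset.sum_subset_zero_on_sdiff ?_ ?_ ?_
      · intro m hm
        rw [Finset.mem_Ioc] at hm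
        rw [Finset.mem_Icc]
        have := le_max_right R' W
        omega
      · intro m hm
        rw [Finset.mem_sdiff, Finset.mem_Icc, Finset.mem_Ioc] at hm
        refine Finset.sum_eq_zero fun k _ => ?_
        rw [if_neg (by omega)]
      · intro m hm
        rw [Finset.mem_Ioc] at hm
        refine Finset.sum_congr rfl fun k _ => ?_
        rw [if_pos ⟨hm.1, hm.2⟩]
    · -- `m > W`
      rw [v2_swap R R' hR (fun m k => if W < m then
          ((ArithmeticFunction.vonMangoldt m : ℝ) : ℂ) * (vb U k : ℂ) *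
            ea p (b * ((m : ZMod p) * (k : ZMod p))⁻¹) else 0)]
      unfold B2
      symm
      refine Finset.sum_subset_zero_on_sdiff ?_ ?_ ?_
      · intro m hm
        rw [Finset.mem_Ioc] at hm
        rw [Finset.mem_Icc]
        have := Nat.div_le_self R' (W + 1)
        omega
      · intro m hm
        rw [Finset.mem_sdiff, Finset.mem_Icc, Finset.mem_Ioc] at hm
        refine Finset.sum_eq_zero fun k hk => ?_
        rw [Finset.mem_Ioc] at hk
        by_cases h1 : m ≤ U
        · rw [(va_vb U).2.2.2 m h1]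
          simp
        · have h2 : R' / (W + 1) < m := by omega
          have h3 : R' < m * (W + 1) := by
            have := Nat.lt_mul_of_div_lt h2 (by omega : 0 < W + 1)
            linarith [Nat.mul_comm m (W + 1)]
          have h4 : R' / m < W + 1 := Nat.div_lt_of_lt_mul h3
          rw [if_neg (by omega)]
      · intro m hm
        refine Finset.sum_congr rfl fun k _ => ?_
        by_cases hk : W < k
        · simp only [if_pos hk]
          rw [mul_comm ((k : ZMod p)) (m : ZMod p)]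
          ring
        · simp only [if_neg hk]
          ring
  rw [h0, h1, h2, h3]
  ring

end Pool.Agent.LPX
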