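import Pool.Agent.LPX.T1
import Pool.Agent.LPX.G3
import Pool.Agent.LPX.V2

/-!
# [LPX-E1] the central bound
-/

set_option autoImplicit false

namespace Pool.Agent.LPX

open Finset Pool.Agent.MP_2f88e5_nt Pool.Agent.EPK

/-- the sum of the norms -/
noncomputable def e1_S (p : ℕ) [Fact p.Prime] (x : ZMod p) (H : ℕ) (F : ZMod p → ℂ) : ℝ :=
  ∑ h ∈ Icc 1 H, ‖F (x * (h : ZMod p))‖

theorem e1_S_add (p : ℕ) [Fact p.Prime] (x : ZMod p) (H : ℕ) (F G : ZMod p → ℂ) :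
    e1_S p x H (fun a => F a + G a) ≤ e1_S p x H F + e1_S p x H G := by
  unfold e1_S
  rw [← Finset.sum_add_distrib]
  exact Finset.sum_le_sum fun d _ => norm_add_le _ _

theorem e1_S_sub (p : ℕ) [Fact p.Prime] (x : ZMod p) (H : ℕ) (F G : ZMod p → ℂ) :
    e1_S p x H (fun a => F a - G a) ≤ e1_S p x H F + e1_S p x H G := by
  unfold e1_S
  rw [← Finset.sum_add_distrib]
  exact Finset.sum_le_sum fun d _ => norm_sub_le _ _

theorem e1_S_sum (p : ℕ) [Fact p.Prime] (x : ZMod p) (H : ℕ) (J : Finset ℕ) (c : ℕ → ℝ)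
    (hc : ∀ j ∈ J, 0 ≤ c j) (F : ℕ → ZMod p → ℂ) :
    e1_S p x H (fun a => ∑ j ∈ J, (c j : ℂ) * F j a) ≤ ∑ j ∈ J, c j * e1_S p x H (F j) := by
  unfold e1_S
  have h1 : ∑ j ∈ J, c j * ∑ h ∈ Icc 1 H, ‖F j (x * (h : ZMod p))‖ =
      ∑ h ∈ Icc 1 H, ∑ j ∈ J, c j * ‖F j (x * (h : ZMod p))‖ := by
    simp only [Finset.mul_sum]
    rw [Finset.sum_comm]
  rw [h1]
  refine Finset.sum_le_sum fun h _ => ?_
  refine (norm_sum_le _ _).trans (Finset.sum_le_sum fun j hj => ?_)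
  rw [norm_mul, Complex.norm_real, Real.norm_eq_abs, abs_of_nonneg (hc j hj)]

/-- telescoping -/
theorem e1_tel (n : ℕ) (hn : 1 ≤ n) :
    ∑ j ∈ Icc 2 n, Real.log ((j : ℝ) / ((j : ℝ) - 1)) = Real.log n := by
  induction n, hn using Nat.le_induction with
  | base => simp
  | succ n hn ih =>
    rw [Finset.sum_Icc_succ_top (by omega), ih]
    have h1 : (0 : ℝ) < n := by exact_mod_cast hn
    push_cast
    rw [show (n : ℝ) + 1 - 1 = n by ring, Real.log_div (by positivity) (by positivity)]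
    ring

theorem e1_log_nonneg (j : ℕ) (hj : 2 ≤ j) : 0 ≤ Real.log ((j : ℝ) / ((j : ℝ) - 1)) := by
  apply Real.log_nonneg
  have h1 : (2 : ℝ) ≤ j := by exact_mod_cast hj
  rw [le_div_iff₀ (by linarith)]
  linarith

/-- the parameters -/
theorem e1_params (p : ℕ) (hp : 1000 ≤ p) (κ : ℝ) (hκ : 0 < κ) (R' : ℕ)
    (hR' : (R' : ℝ) ≤ (p : ℝ) ^ (10 / 9 - κ : ℝ)) : ∃ U W : ℕ,
      (U : ℝ) ≤ (p : ℝ) ^ (2 / 9 : ℝ) ∧ (p : ℝ) ^ (2 / 9 : ℝ) ≤ 2 * U ∧ U ≤ p ∧ U ≤ W ∧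
      (W : ℝ) ≤ (p : ℝ) ^ (5 / 9 : ℝ) ∧ ((U ^ 2 : ℕ) : ℝ) ≤ (p : ℝ) ^ (5 / 9 : ℝ) ∧ U ^ 2 ≤ p ∧
      ((R' / (W + 1) : ℕ) : ℝ) ≤ (p : ℝ) ^ (5 / 9 : ℝ) := by
  have hp0 : (0 : ℝ) < p := by
    have : 0 < p := by omega
    exact_mod_cast this
  have hp1 : (1 : ℝ) ≤ p := by
    have : 1 ≤ p := by omega
    exact_mod_cast this
  have hpU0 : 0 < (p : ℝ) ^ (2 / 9 : ℝ) := Real.rpow_pos_of_pos hp0 _
  have hpU1 : 1 ≤ (p : ℝ) ^ (2 / 9 : ℝ) := Real.one_le_rpow hp1 (by norm_num)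
  have hpW0 : 0 < (p : ℝ) ^ (5 / 9 : ℝ) := Real.rpow_pos_of_pos hp0 _
  have hUle : ((⌊(p : ℝ) ^ (2 / 9 : ℝ)⌋₊ : ℕ) : ℝ) ≤ (p : ℝ) ^ (2 / 9 : ℝ) := Nat.floor_le hpU0.le
  have hU1 : 1 ≤ ⌊(p : ℝ) ^ (2 / 9 : ℝ)⌋₊ := Nat.le_floor (by simpa using hpU1)
  have hU2 : ((⌊(p : ℝ) ^ (2 / 9 : ℝ)⌋₊ ^ 2 : ℕ) : ℝ) ≤ (p : ℝ) ^ (4 / 9 : ℝ) := by
    push_cast
    calc ((⌊(p : ℝ) ^ (2 / 9 : ℝ)⌋₊ : ℕ) : ℝ) ^ 2 ≤ ((p : ℝ) ^ (2 / 9 : ℝ)) ^ 2 :=
          pow_le_pow_left₀ (by positivity) hUle 2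
      _ = (p : ℝ) ^ (4 / 9 : ℝ) := by
          rw [← Real.rpow_natCast, ← Real.rpow_mul hp0.le]
          norm_num
  refine ⟨⌊(p : ℝ) ^ (2 / 9 : ℝ)⌋₊, ⌊(p : ℝ) ^ (5 / 9 : ℝ)⌋₊, hUle, ?_, ?_, ?_, ?_, ?_, ?_, ?_⟩
  · have h1 := (Nat.lt_floor_add_one ((p : ℝ) ^ (2 / 9 : ℝ))).le
    have h2 : (1 : ℝ) ≤ ((⌊(p : ℝ) ^ (2 / 9 : ℝ)⌋₊ : ℕ) : ℝ) := by exact_mod_cast hU1
    linarith
  · have h1 : ((⌊(p : ℝ) ^ (2 / 9 : ℝ)⌋₊ : ℕ) : ℝ) ≤ p := by
      refine hUle.trans ?_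
      calc (p : ℝ) ^ (2 / 9 : ℝ) ≤ (p : ℝ) ^ (1 : ℝ) :=
            Real.rpow_le_rpow_of_exponent_le hp1 (by norm_num)
        _ = p := Real.rpow_one _
    exact_mod_cast h1
  · exact Nat.floor_mono (Real.rpow_le_rpow_of_exponent_le hp1 (by norm_num))
  · exact Nat.floor_le hpW0.le
  · exact hU2.trans (Real.rpow_le_rpow_of_exponent_le hp1 (by norm_num))
  · have h1 : ((⌊(p : ℝ) ^ (2 / 9 : ℝ)⌋₊ ^ 2 : ℕ) : ℝ) ≤ p := by
      refine hU2.trans ?_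
      calc (p : ℝ) ^ (4 / 9 : ℝ) ≤ (p : ℝ) ^ (1 : ℝ) :=
            Real.rpow_le_rpow_of_exponent_le hp1 (by norm_num)
        _ = p := Real.rpow_one _
    exact_mod_cast h1
  · have h1 : ((R' / (⌊(p : ℝ) ^ (5 / 9 : ℝ)⌋₊ + 1) : ℕ) : ℝ) ≤
        (R' : ℝ) / ((⌊(p : ℝ) ^ (5 / 9 : ℝ)⌋₊ + 1 : ℕ) : ℝ) := Nat.cast_div_le
    refine h1.trans ?_
    have h2 : (p : ℝ) ^ (5 / 9 : ℝ) ≤ ((⌊(p : ℝ) ^ (5 / 9 : ℝ)⌋₊ + 1 : ℕ) : ℝ) := by
      push_cast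
      exact (Nat.lt_floor_add_one ((p : ℝ) ^ (5 / 9 : ℝ))).le
    rw [div_le_iff₀ (by linarith)]
    calc (R' : ℝ) ≤ (p : ℝ) ^ (10 / 9 - κ : ℝ) := hR'
      _ ≤ (p : ℝ) ^ (5 / 9 + 5 / 9 : ℝ) := Real.rpow_le_rpow_of_exponent_le hp1 (by linarith)
      _ = (p : ℝ) ^ (5 / 9 : ℝ) * (p : ℝ) ^ (5 / 9 : ℝ) := Real.rpow_add hp0 _ _
      _ ≤ _ := mul_le_mul_of_nonneg_left h2 hpW0.le

/-- [E1] The central bound in terms of `T`.

Proof (compare `EPK.central_T`, file `EPK_E1b.lean`, whose auxiliary lemmas `e1b_S_add`, `e1b_S_sub`, `e1b_S_sum`, `e1b_tel`, `e1b_log_nonneg` should be copied).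
`U = ⌊p^(2/9)⌋₊` (so `U ≥ 4` and `p^(2/9) ≤ U + 1 ≤ 2 U`), `W = ⌊p^(5/9)⌋₊`, hence `U ≤ W`, `U ≤ p ≤ R`, `U² ≤ p^(4/9) ≤ p^(5/9)`,
`R' / (W + 1) ≤ p^(10/9 - κ) / p^(5/9) ≤ p^(5/9)`. `TR_split` for every `h`, triangle inequality, sum over `h`. The five sums, with `L = 3 + log p`,
`S = H p^(1 - κ/2)` and `p^(31/36) ≤ p^(1 - κ/2)` (`κ ≤ 1/9`):
* `∑_{j ≤ R'} log (j / (j - 1)) = log R' ≤ 2 log p` and `typeI2` for every `j` (`B = 1`, `v m = R' / m`, `m (R' / m) ≤ R'`): `≤ 240 T² L³ S`;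
* `typeI2` with `B = log p` (for `m ≤ U²`: `|va U m| ≤ log m ≤ log p`; `va U m = 0` for `m > U²`; `va U 0 = 0`): `≤ 120 T² L³ S`;
* `typeII2` with `V = U²`, `A = log p`, `B = 1`: `≤ 160 T L³ S`;
* `typeII2` with `V = W`, `A = log p` (`Λ(m) ≤ log m ≤ log p` for `m < p`, `ArithmeticFunction.vonMangoldt_le_log`), `B = T` (`|vb U k| ≤ τ(k) ≤ T` for
  `1 ≤ k < p`, `vb U 0 = 0`): `≤ 160 T² L³ S`;
* `typeII2` with `V = R' / (W + 1)`, `A = T`, `B = log p`: `≤ 160 T² L³ S`.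
Total `240 + 120 + 160 + 160 + 160 = 840 ≤ 1000` (`1 ≤ T`). -/
theorem central_TR (p : ℕ) [Fact p.Prime] (hp : 1000 ≤ p) (κ : ℝ) (hκ : 0 < κ)
    (hκ1 : κ ≤ 1 / 9) (H R R' : ℕ) (hH : H < p) (hR : p ≤ R) (hRR : R ≤ R')
    (hR' : (R' : ℝ) ≤ (p : ℝ) ^ (10 / 9 - κ : ℝ)) (hRH : R' ≤ 8 * p * H)
    (T : ℝ) (hT : TauLE (16 * p ^ 4) T) (x : ZMod p) (hx : x ≠ 0) :
    ∑ h ∈ Icc 1 H, ‖TR p R R' (x * (h : ZMod p))‖ ≤
      1000 * T ^ 2 * (3 + Real.log p) ^ 3 * H * (p : ℝ) ^ (1 - κ / 2 : ℝ) := by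
  have hp0 : (0 : ℝ) < p := by
    have : 0 < p := by omega
    exact_mod_cast this
  have hp1 : (1 : ℝ) ≤ p := by
    have : 1 ≤ p := by omega
    exact_mod_cast this
  have hlog : 0 ≤ Real.log p := Real.log_nonneg hp1
  obtain ⟨U, W, hU, hU', hUp, hUW, hW, hU2, hU2p, hV⟩ := e1_params p hp κ hκ R' hR'
  have hT1 : 1 ≤ T := by
    have h1 := hT 1 le_rfl (by
      have : 0 < p := by omega
      have := Nat.pow_pos (n := 4) this
      omega)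
    simpa using h1
  have hp4 : ∀ k : ℕ, k < p → k ≤ 16 * p ^ 4 := by
    intro k hk
    have h1 : p ≤ 16 * p ^ 4 := by
      have : 0 < p := by omega
      calc p = p ^ 1 := by ring
        _ ≤ p ^ 4 := Nat.pow_le_pow_right this (by norm_num)
        _ ≤ 16 * p ^ 4 := by omega
    omega
  have hlogle : ∀ m : ℕ, m ≤ p → Real.log m ≤ Real.log p := by
    intro m hmp
    rcases Nat.eq_zero_or_pos m with h0 | h0
    · rw [h0]
      simpa using hlog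
    · apply Real.log_le_log
      · exact_mod_cast h0
      · exact_mod_cast hmp
  have hvM : ∀ m : ℕ, m < p → ‖((ArithmeticFunction.vonMangoldt m : ℝ) : ℂ)‖ ≤ Real.log p := by
    intro m hmp
    rw [Complex.norm_real, Real.norm_eq_abs, abs_of_nonneg ArithmeticFunction.vonMangoldt_nonneg]
    exact ArithmeticFunction.vonMangoldt_le_log.trans (hlogle m hmp.le)
  obtain ⟨hva, hva0, hvb, -⟩ := va_vb U
  have hvaL : ∀ m : ℕ, ‖(va U m : ℂ)‖ ≤ Real.log p := by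
    intro m
    rw [Complex.norm_real, Real.norm_eq_abs]
    rcases Nat.eq_zero_or_pos m with h0 | h0
    · rw [h0, va]
      simpa using hlog
    · rcases Nat.lt_or_ge (U ^ 2) m with h1 | h1
      · rw [hva0 m h1, abs_zero]
        exact hlog
      · exact (hva m h0).trans (hlogle m (h1.trans hU2p))
  have hvbT : ∀ k : ℕ, k < p → ‖(vb U k : ℂ)‖ ≤ T := by
    intro k hkp
    rw [Complex.norm_real, Real.norm_eq_abs]
    rcases Nat.eq_zero_or_pos k with h0 | h0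
    · rw [h0, vb]
      simp
      linarith
    · exact (hvb k).trans (hT k h0 (hp4 k hkp))
  set L : ℝ := 3 + Real.log p with hL
  set S : ℝ := H * (p : ℝ) ^ (1 - κ / 2 : ℝ) with hS
  have hS0 : 0 ≤ S := by positivity
  have hL0 : 0 ≤ L := by linarith
  have hlogL : Real.log p ≤ L := by linarith
  have hpow : (p : ℝ) ^ (31 / 36 : ℝ) ≤ (p : ℝ) ^ (1 - κ / 2 : ℝ) :=
    Real.rpow_le_rpow_of_exponent_le hp1 (by linarith)
  have hX0 : 0 ≤ T ^ 2 * L ^ 3 * S := by positivity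
  have hI : ∀ (α : ℕ → ℂ) (B : ℝ), 0 ≤ B → (∀ m, ‖α m‖ ≤ B) → ∀ u : ℕ → ℕ,
      e1_S p x H (LL p α u (fun m => R' / m) 1 U) ≤ 120 * (B * (T ^ 2 * L ^ 2 * S)) := by
    intro α B hB hα u
    refine (typeI2 p (by omega) H U R' hH hU hRH T hT x hx α B hB hα u (fun m => R' / m)
      (fun m _ => Nat.mul_div_le _ _)).trans ?_
    have h1 : 120 * B * T ^ 2 * (3 + Real.log p) ^ 2 * H * (p : ℝ) ^ (31 / 36 : ℝ) ≤
        120 * B * T ^ 2 * (3 + Real.log p) ^ 2 * H * (p : ℝ) ^ (1 - κ / 2 : ℝ) := by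
      apply mul_le_mul_of_nonneg_left hpow
      positivity
    refine h1.trans (le_of_eq ?_)
    rw [hS, hL]
    ring
  have hII : ∀ (α β : ℕ → ℂ) (A B : ℝ) (V : ℕ), 0 ≤ A → 0 ≤ B → (V : ℝ) ≤ (p : ℝ) ^ (5 / 9 : ℝ) →
      (∀ m, m < p → ‖α m‖ ≤ A) → (∀ k, k < p → ‖β k‖ ≤ B) →
      e1_S p x H (B2 p α β U V R R') ≤ 160 * (A * B * (T * L ^ 2 * S)) := by
    intro α β A B V hA hB hV hα hβ
    refine (typeII2 p hp κ hκ H U V R R' hH hU' hV hRR hR' hRH T hT x hx α β A B hA hB hα hβ).trans ?_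
    apply le_of_eq
    rw [hS, hL]
    ring
  -- the five terms
  have hR1 : 1 ≤ R' := by omega
  have hlogR : Real.log R' ≤ 2 * Real.log p := by
    have h1 : (0 : ℝ) < R' := by exact_mod_cast hR1
    have h2 := Real.log_le_log h1 hR'
    rw [Real.log_rpow hp0] at h2
    refine h2.trans ?_
    apply mul_le_mul_of_nonneg_right _ hlog
    linarith
  have hTT : T ≤ T ^ 2 := by nlinarith
  have b1 : e1_S p x H (fun b => ∑ j ∈ Icc 2 R', (Real.log ((j : ℝ) / ((j : ℝ) - 1)) : ℂ) *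
        LL p (fun m => ((ArithmeticFunction.moebius m : ℤ) : ℂ)) (fun m => max (R / m) (j - 1))
          (fun m => R' / m) 1 U b) ≤ 240 * (T ^ 2 * L ^ 3 * S) := by
    refine (e1_S_sum p x H (Icc 2 R') (fun j => Real.log ((j : ℝ) / ((j : ℝ) - 1)))
      (fun j hj => e1_log_nonneg j (Finset.mem_Icc.1 hj).1) (fun j =>
        LL p (fun m => ((ArithmeticFunction.moebius m : ℤ) : ℂ)) (fun m => max (R / m) (j - 1))
          (fun m => R' / m) 1 U)).trans ?_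
    have h1 : ∀ j ∈ Icc 2 R', Real.log ((j : ℝ) / ((j : ℝ) - 1)) * e1_S p x H
        (LL p (fun m => ((ArithmeticFunction.moebius m : ℤ) : ℂ)) (fun m => max (R / m) (j - 1))
          (fun m => R' / m) 1 U) ≤
        Real.log ((j : ℝ) / ((j : ℝ) - 1)) * (120 * (1 * (T ^ 2 * L ^ 2 * S))) := by
      intro j hj
      apply mul_le_mul_of_nonneg_left _ (e1_log_nonneg j (Finset.mem_Icc.1 hj).1)
      apply hI _ 1 zero_le_one
      intro m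
      rw [Complex.norm_intCast]
      have := ArithmeticFunction.abs_moebius_le_one (n := m)
      exact_mod_cast this
    refine (Finset.sum_le_sum h1).trans ?_
    rw [← Finset.sum_mul, e1_tel R' hR1]
    have h3 : 0 ≤ 120 * (1 * (T ^ 2 * L ^ 2 * S)) := by positivity
    calc Real.log (R' : ℝ) * (120 * (1 * (T ^ 2 * L ^ 2 * S))) ≤ (2 * L) * (120 * (1 * (T ^ 2 * L ^ 2 * S))) := by
          apply mul_le_mul_of_nonneg_right _ h3
          linarith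
      _ = 240 * (T ^ 2 * L ^ 3 * S) := by ring
  have b2 : e1_S p x H (LL p (fun m => (va U m : ℂ)) (fun m => R / m) (fun m => R' / m) 1 U) ≤
      120 * (T ^ 2 * L ^ 3 * S) := by
    refine (hI _ (Real.log p) hlog hvaL _).trans ?_
    calc 120 * (Real.log p * (T ^ 2 * L ^ 2 * S)) ≤ 120 * (L * (T ^ 2 * L ^ 2 * S)) := by gcongr
      _ = 120 * (T ^ 2 * L ^ 3 * S) := by ring
  have b3 : e1_S p x H (B2 p (fun m => (va U m : ℂ)) (fun _ => 1) U (U ^ 2) R R') ≤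
      160 * (T ^ 2 * L ^ 3 * S) := by
    refine (hII _ _ (Real.log p) 1 (U ^ 2) hlog zero_le_one hU2 (fun m _ => hvaL m)
      (fun k _ => by rw [norm_one])).trans ?_
    calc 160 * (Real.log p * 1 * (T * L ^ 2 * S)) ≤ 160 * (L * 1 * (T ^ 2 * L ^ 2 * S)) := by gcongr
      _ = 160 * (T ^ 2 * L ^ 3 * S) := by ring
  have b4 : e1_S p x H (B2 p (fun m => ((ArithmeticFunction.vonMangoldt m : ℝ) : ℂ))
      (fun k => (vb U k : ℂ)) U W R R') ≤ 160 * (T ^ 2 * L ^ 3 * S) := by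
    refine (hII _ _ (Real.log p) T W hlog (by linarith) hW hvM hvbT).trans ?_
    calc 160 * (Real.log p * T * (T * L ^ 2 * S)) ≤ 160 * (L * T * (T * L ^ 2 * S)) := by gcongr
      _ = 160 * (T ^ 2 * L ^ 3 * S) := by ring
  have b5 : e1_S p x H (B2 p (fun k => (vb U k : ℂ))
        (fun m => if W < m then ((ArithmeticFunction.vonMangoldt m : ℝ) : ℂ) else 0)
        U (R' / (W + 1)) R R') ≤ 160 * (T ^ 2 * L ^ 3 * S) := by
    refine (hII _ _ T (Real.log p) (R' / (W + 1)) (by linarith) hlog hV hvbT ?_).trans ?_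
    · intro k hk
      split_ifs
      · exact hvM k hk
      · rw [norm_zero]
        exact hlog
    · calc 160 * (T * Real.log p * (T * L ^ 2 * S)) ≤ 160 * (T * L * (T * L ^ 2 * S)) := by gcongr
        _ = 160 * (T ^ 2 * L ^ 3 * S) := by ring
  have hsplit : TR p R R' = fun b => (∑ j ∈ Icc 2 R', (Real.log ((j : ℝ) / ((j : ℝ) - 1)) : ℂ) *
        LL p (fun m => ((ArithmeticFunction.moebius m : ℤ) : ℂ)) (fun m => max (R / m) (j - 1))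
          (fun m => R' / m) 1 U b) -
      LL p (fun m => (va U m : ℂ)) (fun m => R / m) (fun m => R' / m) 1 U b -
      B2 p (fun m => (va U m : ℂ)) (fun _ => 1) U (U ^ 2) R R' b +
      B2 p (fun m => ((ArithmeticFunction.vonMangoldt m : ℝ) : ℂ)) (fun k => (vb U k : ℂ)) U W R R' b +
      B2 p (fun k => (vb U k : ℂ))
        (fun m => if W < m then ((ArithmeticFunction.vonMangoldt m : ℝ) : ℂ) else 0)
        U (R' / (W + 1)) R R' b := by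
    funext b
    exact TR_split p b U W R R' (by omega) hUW hRR
  have hgoal : ∑ h ∈ Icc 1 H, ‖TR p R R' (x * (h : ZMod p))‖ = e1_S p x H (TR p R R') := rfl
  rw [hgoal, hsplit]
  have c4 := e1_S_add p x H (fun b => (∑ j ∈ Icc 2 R', (Real.log ((j : ℝ) / ((j : ℝ) - 1)) : ℂ) *
        LL p (fun m => ((ArithmeticFunction.moebius m : ℤ) : ℂ)) (fun m => max (R / m) (j - 1))
          (fun m => R' / m) 1 U b) -
      LL p (fun m => (va U m : ℂ)) (fun m => R / m) (fun m => R' / m) 1 U b -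
      B2 p (fun m => (va U m : ℂ)) (fun _ => 1) U (U ^ 2) R R' b +
      B2 p (fun m => ((ArithmeticFunction.vonMangoldt m : ℝ) : ℂ)) (fun k => (vb U k : ℂ)) U W R R' b)
      (B2 p (fun k => (vb U k : ℂ))
        (fun m => if W < m then ((ArithmeticFunction.vonMangoldt m : ℝ) : ℂ) else 0)
        U (R' / (W + 1)) R R')
  have c3 := e1_S_add p x H (fun b => (∑ j ∈ Icc 2 R', (Real.log ((j : ℝ) / ((j : ℝ) - 1)) : ℂ) *
        LL p (fun m => ((ArithmeticFunction.moebius m : ℤ) : ℂ)) (fun m => max (R / m) (j - 1))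
          (fun m => R' / m) 1 U b) -
      LL p (fun m => (va U m : ℂ)) (fun m => R / m) (fun m => R' / m) 1 U b -
      B2 p (fun m => (va U m : ℂ)) (fun _ => 1) U (U ^ 2) R R' b)
      (B2 p (fun m => ((ArithmeticFunction.vonMangoldt m : ℝ) : ℂ)) (fun k => (vb U k : ℂ)) U W R R')
  have c2 := e1_S_sub p x H (fun b => (∑ j ∈ Icc 2 R', (Real.log ((j : ℝ) / ((j : ℝ) - 1)) : ℂ) *
        LL p (fun m => ((ArithmeticFunction.moebius m : ℤ) : ℂ)) (fun m => max (R / m) (j - 1))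
          (fun m => R' / m) 1 U b) -
      LL p (fun m => (va U m : ℂ)) (fun m => R / m) (fun m => R' / m) 1 U b)
      (B2 p (fun m => (va U m : ℂ)) (fun _ => 1) U (U ^ 2) R R')
  have c1 := e1_S_sub p x H (fun b => (∑ j ∈ Icc 2 R', (Real.log ((j : ℝ) / ((j : ℝ) - 1)) : ℂ) *
        LL p (fun m => ((ArithmeticFunction.moebius m : ℤ) : ℂ)) (fun m => max (R / m) (j - 1))
          (fun m => R' / m) 1 U b))
      (LL p (fun m => (va U m : ℂ)) (fun m => R / m) (fun m => R' / m) 1 U)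
  calc _ ≤ _ := c4
    _ ≤ 1000 * (T ^ 2 * L ^ 3 * S) := by linarith
    _ = 1000 * T ^ 2 * L ^ 3 * H * (p : ℝ) ^ (1 - κ / 2 : ℝ) := by rw [hS]; ring

end Pool.Agent.LPX
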