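import Pool.Agent.LPX.E1
import Pool.Agent.EPK.E1a

/-!
# [LPX-E2] the central bound, logarithms absorbed
-/

set_option autoImplicit false

namespace Pool.Agent.LPX

open Finset Pool.Agent.MP_2f88e5_nt Pool.Agent.EPK

/-- [E2] Proof. `central_TR` with `T = C₁ p^(κ/16)` (`EPK.tau_le (κ/16)`), `T² = C₁² p^(κ/8)`, and `(3 + log p)³ ≤ C₂ p^(κ/8)`
(`EPK.log_absorb (κ/8) 3`); `C = 1000 C₁² C₂`. -/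
theorem central2 (κ : ℝ) (hκ : 0 < κ) (hκ1 : κ ≤ 1 / 9) : ∃ C : ℝ, 1 ≤ C ∧
    ∀ (p : ℕ) [Fact p.Prime] (H R R' : ℕ) (x : ZMod p), 1000 ≤ p → H < p → p ≤ R → R ≤ R' →
      (R' : ℝ) ≤ (p : ℝ) ^ (10 / 9 - κ : ℝ) → R' ≤ 8 * p * H → x ≠ 0 →
      ∑ h ∈ Icc 1 H, ‖TR p R R' (x * (h : ZMod p))‖ ≤ C * H * (p : ℝ) ^ (1 - κ / 4 : ℝ) := by
  obtain ⟨C₁, hC₁1, hC₁⟩ := tau_le (κ / 16) (by linarith)
  obtain ⟨C₂, hC₂1, hC₂⟩ := log_absorb (κ / 8) (by linarith) 3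
  refine ⟨1000 * C₁ ^ 2 * C₂, ?_, ?_⟩
  · have h1 : 1 ≤ C₁ ^ 2 := one_le_pow₀ hC₁1
    nlinarith
  intro p _ H R R' x hp hH hR hRR hR' hRH hx
  have hp1 : 1 ≤ p := by omega
  have hp0 : (0 : ℝ) < p := by exact_mod_cast hp1
  have h := central_TR p hp κ hκ hκ1 H R R' hH hR hRR hR' hRH (C₁ * (p : ℝ) ^ (κ / 16)) (hC₁ p hp1) x hx
  refine h.trans ?_
  have hlog := hC₂ p hp1
  have e1 : (C₁ * (p : ℝ) ^ (κ / 16)) ^ 2 = C₁ ^ 2 * (p : ℝ) ^ (κ / 8) := by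
    rw [mul_pow, ← Real.rpow_natCast ((p : ℝ) ^ (κ / 16)) 2, ← Real.rpow_mul hp0.le]
    congr 2
    push_cast
    ring
  have hH0 : (0 : ℝ) ≤ H := Nat.cast_nonneg _
  have hC1 : 0 ≤ C₁ := by linarith
  calc 1000 * (C₁ * (p : ℝ) ^ (κ / 16)) ^ 2 * (3 + Real.log p) ^ 3 * H * (p : ℝ) ^ (1 - κ / 2 : ℝ)
      = 1000 * (C₁ ^ 2 * (p : ℝ) ^ (κ / 8)) * (3 + Real.log p) ^ 3 * H * (p : ℝ) ^ (1 - κ / 2 : ℝ) := by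
        rw [e1]
    _ ≤ 1000 * (C₁ ^ 2 * (p : ℝ) ^ (κ / 8)) * (C₂ * (p : ℝ) ^ (κ / 8)) * H *
          (p : ℝ) ^ (1 - κ / 2 : ℝ) := by gcongr
    _ = 1000 * C₁ ^ 2 * C₂ * H * ((p : ℝ) ^ (κ / 8) * (p : ℝ) ^ (κ / 8) * (p : ℝ) ^ (1 - κ / 2 : ℝ)) := by
        ring
    _ = 1000 * C₁ ^ 2 * C₂ * H * (p : ℝ) ^ (1 - κ / 4 : ℝ) := by
        rw [← Real.rpow_add hp0, ← Real.rpow_add hp0]
        congr 2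
        ring

end Pool.Agent.LPX
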