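import Pool.Agent.LPX.D0

/-!
# [LPX-F0] dyadic decomposition
-/

set_option autoImplicit false

namespace Pool.Agent.LPX

open Finset Pool.Agent.MP_2f88e5_nt Pool.Agent.EPK

/-- [F0a] A dyadic decomposition with the weights `min c (1 / (2 h))`.

Proof. Every `h ∈ [1, P]` lies in exactly one block `i = Nat.clog 2 h ≤ Nat.clog 2 P`: `2^(i-1) < h ≤ 2^i` (for `h = 1`: `i = 0`), and
there `1 / (2 h) ≤ 1 / 2^i`. Bound the sum over the block by the sum over all `h ≤ 2^i`; sum over the values of `i`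
(`Finset.sum_fiberwise_of_maps_to`). Compare `EPK.dyadic`. -/
theorem dyadic1 (P : ℕ) (c : ℝ) (hc : 0 ≤ c) (f : ℕ → ℝ) (hf : ∀ h, 0 ≤ f h) :
    ∑ h ∈ Icc 1 P, min c (1 / (2 * (h : ℝ))) * f h ≤
      ∑ i ∈ range (Nat.clog 2 P + 1), min c (1 / 2 ^ i) * ∑ h ∈ Icc 1 (2 ^ i), f h := by
  have hw0 : ∀ i : ℕ, 0 ≤ min c (1 / (2 : ℝ) ^ i) := fun i => le_min hc (by positivity)
  have hpt : ∀ l ∈ Icc 1 P, min c (1 / (2 * (l : ℝ))) * f l ≤
      ∑ i ∈ range (Nat.clog 2 P + 1), if l ≤ 2 ^ i then min c (1 / (2 : ℝ) ^ i) * f l else 0 := by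
    intro l hl
    rw [mem_Icc] at hl
    have hmem : Nat.clog 2 l ∈ range (Nat.clog 2 P + 1) := by
      rw [mem_range]
      have := Nat.clog_mono_right 2 hl.2
      omega
    refine le_trans ?_ (Finset.single_le_sum
      (f := fun i => if l ≤ 2 ^ i then min c (1 / (2 : ℝ) ^ i) * f l else 0)
      (fun i _ => by
        split_ifs
        · exact mul_nonneg (hw0 i) (hf l)
        · exact le_rfl) hmem)
    rw [if_pos (Nat.le_pow_clog (by norm_num) l)]
    refine mul_le_mul_of_nonneg_right ?_ (hf l)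
    refine min_le_min le_rfl ?_
    have hl0 : (0 : ℝ) < l := by exact_mod_cast hl.1
    rcases Nat.lt_or_ge 1 l with h2 | h2
    · have h3 := Nat.pow_pred_clog_lt_self (b := 2) (by norm_num) h2
      have h4 : 0 < Nat.clog 2 l := Nat.clog_pos (by norm_num) h2
      have h5 : 2 ^ (Nat.clog 2 l) = 2 * 2 ^ (Nat.clog 2 l).pred := by
        conv_lhs => rw [← Nat.succ_pred_eq_of_pos h4, pow_succ]
        ring
      have h6 : 2 ^ (Nat.clog 2 l) ≤ 2 * l := by omega
      exact one_div_le_one_div_of_le (by positivity) (by exact_mod_cast h6)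
    · have h3 : Nat.clog 2 l = 0 := Nat.clog_of_right_le_one h2 2
      have h4 : l = 1 := by omega
      rw [h3, h4]
      norm_num
  refine (sum_le_sum hpt).trans ?_
  rw [sum_comm]
  refine sum_le_sum fun i _ => ?_
  rw [mul_sum, ← sum_filter]
  refine sum_le_sum_of_subset_of_nonneg ?_ (fun l _ _ => mul_nonneg (hw0 i) (hf l))
  intro l hl
  rw [mem_filter, mem_Icc] at hl
  rw [mem_Icc]
  exact ⟨hl.1.1, hl.2⟩

/-- [F0b] For `i ≤ clog 2 ((p - 1) / 2)` one has `2 ^ i < p`, and there are at most `2 (3 + log p)` such `i`. (See the proof of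
`hpow`, `hnbound` in `EPK_D5a.lean`: `2^(clog 2 q) < 2 q ≤ p - 1` for `q ≥ 2`; `q ≤ 1` directly.) -/
theorem clog_facts (p : ℕ) (hp : 2 < p) : (∀ i ∈ range (Nat.clog 2 ((p - 1) / 2) + 1), 2 ^ i < p) ∧
    ((Nat.clog 2 ((p - 1) / 2) + 1 : ℕ) : ℝ) ≤ 2 * (3 + Real.log p) := by
  set q := (p - 1) / 2 with hq
  have hq1 : 1 ≤ q := by omega
  set n := Nat.clog 2 q + 1 with hn
  have hpow : ∀ i < n, 2 ^ i < p := by
    intro i hi
    have h1 : 2 ^ i ≤ 2 ^ (Nat.clog 2 q) := Nat.pow_le_pow_right (by norm_num) (by omega)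
    rcases Nat.lt_or_ge 1 q with h2 | h2
    · have h3 := Nat.pow_pred_clog_lt_self (b := 2) (by norm_num) h2
      have h4 : 0 < Nat.clog 2 q := Nat.clog_pos (by norm_num) h2
      have h5 : 2 ^ (Nat.clog 2 q) = 2 * 2 ^ (Nat.clog 2 q).pred := by
        conv_lhs => rw [← Nat.succ_pred_eq_of_pos h4, pow_succ]
        ring
      omega
    · have h3 : Nat.clog 2 q = 0 := Nat.clog_of_right_le_one h2 2
      rw [h3, pow_zero] at h1
      omega
  refine ⟨fun i hi => hpow i (mem_range.1 hi), ?_⟩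
  have hp1 : (1 : ℝ) ≤ p := by exact_mod_cast (by omega : 1 ≤ p)
  have hlog : 0 ≤ Real.log p := Real.log_nonneg hp1
  have h1 := hpow (n - 1) (by omega)
  have h3 : (2 : ℝ) ^ (n - 1) ≤ p := by exact_mod_cast h1.le
  have h4 : ((n - 1 : ℕ) : ℝ) * Real.log 2 ≤ Real.log p := by
    rw [← Real.log_pow]
    exact Real.log_le_log (by positivity) h3
  have h5 : ((n - 1 : ℕ) : ℝ) = (n : ℝ) - 1 := by
    rw [Nat.cast_sub (by omega), Nat.cast_one]
  rw [h5] at h4
  have h6 : (0.69 : ℝ) < Real.log 2 := lt_trans (by norm_num) Real.log_two_gt_d9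
  have h7 : (0 : ℝ) ≤ (n : ℝ) - 1 := by
    have : (1 : ℝ) ≤ n := by exact_mod_cast (by omega : 1 ≤ n)
    linarith
  nlinarith

end Pool.Agent.LPX
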