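import Pool.Agent.LPX.D0
import Pool.Agent.EPK.C2

/-!
# [LPX-F1] the Fourier expansion of the counting function
-/

set_option autoImplicit false

namespace Pool.Agent.LPX

open Finset Pool.Agent.MP_2f88e5_nt Pool.Agent.EPK

/-- auxiliary: the Fourier coefficient -/
theorem f1_coef (p : ℕ) [Fact p.Prime] (x y : ZMod p) (S : Finset ℕ) (c : ℕ → ℝ) (t : ZMod p) :
    ∑ r : ZMod p, (∑ n ∈ S, (c n : ℂ) * (if r = x * ((n : ZMod p))⁻¹ + y then 1 else 0)) *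
      ea p (t * r) = ea p (t * y) * ∑ n ∈ S, (c n : ℂ) * ea p (t * (x * ((n : ZMod p))⁻¹)) := by
  have e1 : ∀ r : ZMod p, (∑ n ∈ S, (c n : ℂ) * (if r = x * ((n : ZMod p))⁻¹ + y then 1 else 0)) *
      ea p (t * r) = ∑ n ∈ S, (c n : ℂ) *
        (if r = x * ((n : ZMod p))⁻¹ + y then ea p (t * r) else 0) := by
    intro r
    rw [sum_mul]
    refine sum_congr rfl fun n _ => ?_
    split_ifs <;> ring
  rw [sum_congr rfl fun r _ => e1 r, sum_comm, mul_sum]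
  refine sum_congr rfl fun n _ => ?_
  rw [← mul_sum, Finset.sum_ite_eq' univ (x * ((n : ZMod p))⁻¹ + y) fun r => ea p (t * r)]
  rw [if_pos (mem_univ _), mul_add, ea, ea, ea, AddChar.map_add_eq_mul]
  ring

/-- auxiliary: the counting function as a sum -/
theorem f1_cnt (p : ℕ) [Fact p.Prime] (x y : ZMod p) (J : ℕ) (S : Finset ℕ) (c : ℕ → ℝ) :
    ∑ k ∈ Ioc 0 J, (∑ n ∈ S, (c n : ℂ) * (if (k : ZMod p) = x * ((n : ZMod p))⁻¹ + y then 1 else 0)) =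
      ((∑ n ∈ S, c n * cnt p x y J n : ℝ) : ℂ) := by
  rw [sum_comm]
  push_cast
  refine sum_congr rfl fun n _ => ?_
  rw [← mul_sum, Finset.sum_ite, sum_const_zero, add_zero, sum_const, nsmul_eq_mul, mul_one]
  unfold cnt
  push_cast
  rfl

/-- auxiliary: the conjugate frequencies have the same size -/
theorem f1_conj (p : ℕ) [Fact p.Prime] (x : ZMod p) (S : Finset ℕ) (c : ℕ → ℝ) (t : ZMod p) :
    ‖∑ n ∈ S, (c n : ℂ) * ea p (-t * (x * ((n : ZMod p))⁻¹))‖ =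
      ‖∑ n ∈ S, (c n : ℂ) * ea p (t * (x * ((n : ZMod p))⁻¹))‖ := by
  have e : ∑ n ∈ S, (c n : ℂ) * ea p (-t * (x * ((n : ZMod p))⁻¹)) =
      (starRingEnd ℂ) (∑ n ∈ S, (c n : ℂ) * ea p (t * (x * ((n : ZMod p))⁻¹))) := by
    rw [map_sum]
    refine sum_congr rfl fun n _ => ?_
    rw [map_mul, ← ea_neg, neg_mul, Complex.conj_ofReal]
  rw [e, RCLike.norm_conj]

/-- [F1] The Fourier expansion of `cnt` (any `J`, any finite set `S` of natural numbers, real weights).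

Proof. `cnt p x y J n = ∑_{j ∈ Ioc 0 J} 1_{j = x n⁻¹ + y} = p⁻¹ ∑_t ea (t (x n⁻¹ + y)) ∑_{j ∈ Ioc 0 J} ea (- t j)` (`sum_char`; or
`EPK.fourier_interval` for `f r = ∑_{n ∈ S} c n 1_{r = x n⁻¹ + y}`, for which `∑_r f r ea (t r) = ea (t y) ∑_{n ∈ S} c n ea (t x n⁻¹)`). The term
`t = 0` is `(J / p) ∑ c n`. The terms `t = ± h`, `1 ≤ h ≤ (p - 1) / 2` (`sum_nonzero`): `|ea (t y)| = 1`, the sum over `j` is at most
`min J (p / (2 h))` (trivially and by `interval_bound`), and the two sums `∑ c n ea (± h x n⁻¹)` have the same norm (conjugate, as `c` is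
real; `ea_neg`). -/
theorem cnt_fourier (p : ℕ) [Fact p.Prime] (hp : 2 < p) (x y : ZMod p) (J : ℕ) (S : Finset ℕ)
    (c : ℕ → ℝ) :
    |∑ n ∈ S, c n * cnt p x y J n - (J : ℝ) / p * ∑ n ∈ S, c n| ≤
      2 * ∑ h ∈ Icc 1 ((p - 1) / 2), min ((J : ℝ) / p) (1 / (2 * (h : ℝ))) *
        ‖∑ n ∈ S, (c n : ℂ) * ea p (x * (h : ZMod p) * ((n : ZMod p))⁻¹)‖ := by
  classical
  have hp0 : (0 : ℝ) < p := by exact_mod_cast (Fact.out : p.Prime).pos
  have hpc : (p : ℂ) ≠ 0 := by exact_mod_cast (Fact.out : p.Prime).ne_zero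
  set A : ZMod p → ℂ := fun t => ∑ n ∈ S, (c n : ℂ) * ea p (t * (x * ((n : ZMod p))⁻¹)) with hA
  set B : ZMod p → ℂ := fun t => ∑ k ∈ Ioc 0 J, ea p (-t * (k : ZMod p)) with hB
  have h1 := fourier_interval p 0 J (fun r => ∑ n ∈ S, (c n : ℂ) *
    (if r = x * ((n : ZMod p))⁻¹ + y then 1 else 0))
  rw [f1_cnt] at h1
  have h2 : ∑ t : ZMod p, (∑ r : ZMod p, (∑ n ∈ S, (c n : ℂ) *
      (if r = x * ((n : ZMod p))⁻¹ + y then 1 else 0)) * ea p (t * r)) *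
        (∑ k ∈ Ioc 0 J, ea p (-t * (k : ZMod p))) = ∑ t : ZMod p, ea p (t * y) * A t * B t := by
    refine sum_congr rfl fun t _ => ?_
    rw [f1_coef]
  rw [h2, ← Finset.add_sum_erase univ _ (mem_univ (0 : ZMod p))] at h1
  have h3 : ea p ((0 : ZMod p) * y) * A 0 * B 0 = (J : ℂ) * ∑ n ∈ S, (c n : ℂ) := by
    have e0 : ea p (0 : ZMod p) = 1 := by
      rw [ea, AddChar.map_zero_eq_one]
    simp only [hA, hB, zero_mul, neg_zero, e0, mul_one, one_mul, sum_const, Nat.card_Ioc,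
      Nat.sub_zero, nsmul_eq_mul]
    ring
  rw [h3] at h1
  have h4 : ((∑ n ∈ S, c n * cnt p x y J n - (J : ℝ) / p * ∑ n ∈ S, c n : ℝ) : ℂ) =
      (p : ℂ)⁻¹ * ∑ t ∈ univ.erase (0 : ZMod p), ea p (t * y) * A t * B t := by
    rw [Complex.ofReal_sub, h1]
    generalize ∑ t ∈ univ.erase (0 : ZMod p), ea p (t * y) * A t * B t = W
    push_cast
    field_simp
    ring
  have h5 : |∑ n ∈ S, c n * cnt p x y J n - (J : ℝ) / p * ∑ n ∈ S, c n| =
      ‖((∑ n ∈ S, c n * cnt p x y J n - (J : ℝ) / p * ∑ n ∈ S, c n : ℝ) : ℂ)‖ := by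
    rw [Complex.norm_real, Real.norm_eq_abs]
  rw [h5, h4, norm_mul, norm_inv, Complex.norm_natCast]
  have h6 : ‖∑ t ∈ univ.erase (0 : ZMod p), ea p (t * y) * A t * B t‖ ≤
      ∑ t ∈ univ.erase (0 : ZMod p), ‖A t‖ * ‖B t‖ := by
    refine (norm_sum_le _ _).trans (le_of_eq ?_)
    refine sum_congr rfl fun t _ => ?_
    rw [norm_mul, norm_mul, norm_ea, one_mul]
  have h7 : ∑ t ∈ univ.erase (0 : ZMod p), ‖A t‖ * ‖B t‖ ≤
      ∑ h ∈ Icc 1 ((p - 1) / 2), 2 * (min (J : ℝ) ((p : ℝ) / (2 * h)) *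
        ‖∑ n ∈ S, (c n : ℂ) * ea p (x * (h : ZMod p) * ((n : ZMod p))⁻¹)‖) := by
    rw [sum_nonzero p hp]
    refine sum_le_sum fun h hh => ?_
    rw [mem_Icc] at hh
    have hAh : ‖A (h : ZMod p)‖ =
        ‖∑ n ∈ S, (c n : ℂ) * ea p (x * (h : ZMod p) * ((n : ZMod p))⁻¹)‖ := by
      simp only [hA]
      congr 1
      refine sum_congr rfl fun n _ => ?_
      congr 2
      ring
    have hAn : ‖A (-(h : ZMod p))‖ = ‖A (h : ZMod p)‖ := f1_conj p x S c _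
    have hJ : ∀ t : ZMod p, ‖B t‖ ≤ J := by
      intro t
      refine (norm_sum_le _ _).trans ?_
      rw [sum_congr rfl fun k _ => norm_ea p _]
      simp
    have hB1 : ‖B (h : ZMod p)‖ ≤ min (J : ℝ) ((p : ℝ) / (2 * h)) :=
      le_min (hJ _) (interval_bound p h 0 J hh.1 (by omega) _ (Or.inr rfl))
    have hB2 : ‖B (-(h : ZMod p))‖ ≤ min (J : ℝ) ((p : ℝ) / (2 * h)) := by
      refine le_min (hJ _) (interval_bound p h 0 J hh.1 (by omega) _ (Or.inl ?_))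
      rw [neg_neg]
    rw [hAn, ← hAh]
    have g1 := mul_le_mul_of_nonneg_left hB1 (norm_nonneg (A (h : ZMod p)))
    have g2 := mul_le_mul_of_nonneg_left hB2 (norm_nonneg (A (h : ZMod p)))
    linarith
  calc (p : ℝ)⁻¹ * ‖∑ t ∈ univ.erase (0 : ZMod p), ea p (t * y) * A t * B t‖
      ≤ (p : ℝ)⁻¹ * ∑ h ∈ Icc 1 ((p - 1) / 2), 2 * (min (J : ℝ) ((p : ℝ) / (2 * h)) *
        ‖∑ n ∈ S, (c n : ℂ) * ea p (x * (h : ZMod p) * ((n : ZMod p))⁻¹)‖) :=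
        mul_le_mul_of_nonneg_left (h6.trans h7) (by positivity)
    _ = 2 * ∑ h ∈ Icc 1 ((p - 1) / 2), min ((J : ℝ) / p) (1 / (2 * (h : ℝ))) *
        ‖∑ n ∈ S, (c n : ℂ) * ea p (x * (h : ZMod p) * ((n : ZMod p))⁻¹)‖ := by
      rw [mul_sum, mul_sum]
      refine sum_congr rfl fun h _ => ?_
      have e : min ((J : ℝ) / p) (1 / (2 * (h : ℝ))) = (p : ℝ)⁻¹ * min (J : ℝ) ((p : ℝ) / (2 * h)) := by
        rw [mul_min_of_nonneg _ _ (by positivity : (0 : ℝ) ≤ (p : ℝ)⁻¹)]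
        congr 1
        · rw [div_eq_inv_mul]
        · rw [← mul_div_assoc, inv_mul_cancel₀ hp0.ne']
      rw [e]
      ring

end Pool.Agent.LPX
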