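import Pool.Agent.LPX.E2
import Pool.Agent.LPX.F0
import Pool.Agent.LPX.F1

/-!
# [LPX-F2] the distribution of the primes over the modular hyperbola
-/

set_option autoImplicit false

namespace Pool.Agent.LPX

open Finset Pool.Agent.MP_2f88e5_nt Pool.Agent.EPK

/-- [F2] The level of distribution.

Proof. `cnt_fourier` with `S = Ioc R R'`, `c = Λ`: the inner sum is `TR p R R' (x h)`. `dyadic1` (`P = (p - 1) / 2`, `c = J / p`), `clog_facts`. Let
`H = 2^i < p`, `w = min (J / p) (1 / H)`; claim: `w ∑_{h ≤ H} ‖TR (x h)‖ ≤ 18 C₀ p^(1 - κ/4)`, `C₀` from `central2`. If `R' ≤ 8 p H` this follows from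
`central2` and `w ≤ 1 / H` (`≤ C₀ p^(1-κ/4)`). Otherwise `H < R' / (8 p)`; put `H₀ = R' / (8 p) + 1` (natural division), so that `H ≤ H₀ < p`
(`R' / (8 p) + 1 ≤ p^(1/9) / 8 + 1 < p`) and `R' ≤ 8 p H₀`; bound the sum over `h ≤ H` by the sum over `h ≤ H₀`, `central2` for `H₀`, `w ≤ J / p ≤
16 p / R'` (as `J R' ≤ 16 p²`, `R' ≥ p > 0`): `≤ (16 p / R') C₀ (R' / (8 p) + 1) p^(1 - κ/4) ≤ (2 + 16) C₀ p^(1 - κ/4)`. The number of `i` is at most
`2 (3 + log p)`: total `2 · 2 (3 + log p) · 18 C₀ p^(1 - κ/4)`, and `3 + log p ≤ C₂ p^(κ/8)` (`EPK.log_absorb (κ/8) 1`). -/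
theorem level_TR (κ : ℝ) (hκ : 0 < κ) (hκ1 : κ ≤ 1 / 9) : ∃ C : ℝ, 1 ≤ C ∧
    ∀ (p : ℕ) [Fact p.Prime] (J R R' : ℕ) (x y : ZMod p), 1000 ≤ p → p ≤ R → R ≤ R' →
      (R' : ℝ) ≤ (p : ℝ) ^ (10 / 9 - κ : ℝ) → J * R' ≤ 16 * p ^ 2 → x ≠ 0 →
      |∑ n ∈ Ioc R R', ArithmeticFunction.vonMangoldt n * cnt p x y J n -
        (J : ℝ) / p * ∑ n ∈ Ioc R R', ArithmeticFunction.vonMangoldt n| ≤
        C * (p : ℝ) ^ (1 - κ / 8 : ℝ) := by
  obtain ⟨C₀, hC₀, hcen⟩ := central2 κ hκ hκ1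
  obtain ⟨C₂, hC₂, hlog⟩ := EPK.log_absorb (κ / 8) (by linarith) 1
  refine ⟨72 * C₀ * C₂, by nlinarith, ?_⟩
  intro p _ J R R' x y hp hR hRR hR' hJ hx
  have hp0 : (0 : ℝ) < p := by have : 0 < p := by omega
                               exact_mod_cast this
  have hp1 : (1 : ℝ) ≤ p := by exact_mod_cast (by omega : 1 ≤ p)
  have hR'pos : 0 < R' := by omega
  have hR'0 : (0 : ℝ) < R' := by exact_mod_cast hR'pos
  set Q : ℝ := (p : ℝ) ^ (1 - κ / 4 : ℝ) with hQ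
  have hQ0 : 0 < Q := Real.rpow_pos_of_pos hp0 _
  have h1 := cnt_fourier p (by omega) x y J (Ioc R R') (fun n => ArithmeticFunction.vonMangoldt n)
  have hTR : ∀ h : ℕ, (∑ n ∈ Ioc R R', ((ArithmeticFunction.vonMangoldt n : ℝ) : ℂ) *
      ea p (x * (h : ZMod p) * ((n : ZMod p))⁻¹)) = TR p R R' (x * (h : ZMod p)) := fun h => rfl
  simp only [hTR] at h1
  have h2 := dyadic1 ((p - 1) / 2) ((J : ℝ) / p) (by positivity)
    (fun h => ‖TR p R R' (x * (h : ZMod p))‖) (fun h => norm_nonneg _)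
  obtain ⟨hpow, hnum⟩ := clog_facts p (by omega)
  -- one dyadic block
  have hblock : ∀ i ∈ range (Nat.clog 2 ((p - 1) / 2) + 1),
      min ((J : ℝ) / p) (1 / 2 ^ i) * ∑ h ∈ Icc (1 : ℕ) (2 ^ i), ‖TR p R R' (x * (h : ZMod p))‖
        ≤ 18 * C₀ * Q := by
    intro i hi
    have hHp : 2 ^ i < p := hpow i hi
    have hH1 : 1 ≤ 2 ^ i := Nat.one_le_two_pow
    have hHR : (0 : ℝ) < 2 ^ i := by positivity
    rcases le_or_gt R' (8 * p * 2 ^ i) with hc | hc
    · have h3 := hcen p (2 ^ i) R R' x hp hHp hR hRR hR' hc hx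
      have h4 : min ((J : ℝ) / p) (1 / 2 ^ i) *
          ∑ h ∈ Icc (1 : ℕ) (2 ^ i), ‖TR p R R' (x * (h : ZMod p))‖ ≤
          (1 / 2 ^ i) * (C₀ * ((2 ^ i : ℕ) : ℝ) * Q) :=
        mul_le_mul (min_le_right _ _) h3 (Finset.sum_nonneg fun _ _ => norm_nonneg _)
          (by positivity)
      have h5 : (1 / 2 ^ i) * (C₀ * ((2 ^ i : ℕ) : ℝ) * Q) = C₀ * Q := by
        push_cast
        field_simp
      rw [h5] at h4
      nlinarith [mul_pos (by linarith : (0:ℝ) < C₀) hQ0]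
    · set H₀ : ℕ := R' / (8 * p) + 1 with hH₀
      have h8p : 0 < 8 * p := by omega
      have hHH : 2 ^ i ≤ H₀ := by
        have : 2 ^ i ≤ R' / (8 * p) := (Nat.le_div_iff_mul_le h8p).2 (by nlinarith)
        omega
      have hRH : R' ≤ 8 * p * H₀ := by
        have := Nat.lt_mul_div_succ R' h8p
        rw [← Nat.succ_eq_add_one] at this
        exact this.le
      have hdiv : ((R' / (8 * p) : ℕ) : ℝ) ≤ (R' : ℝ) / (8 * p) := by
        have := Nat.cast_div_le (α := ℝ) (m := R') (n := 8 * p)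
        push_cast at this
        exact this
      have hR'2 : (R' : ℝ) ≤ p * p := by
        refine hR'.trans ?_
        have : (p : ℝ) ^ (10 / 9 - κ : ℝ) ≤ (p : ℝ) ^ (2 : ℝ) :=
          Real.rpow_le_rpow_of_exponent_le hp1 (by linarith)
        rw [Real.rpow_two] at this
        nlinarith
      have hH₀p : H₀ < p := by
        have h6 : ((H₀ : ℕ) : ℝ) < p := by
          rw [hH₀]; push_cast
          have : (R' : ℝ) / (8 * p) ≤ p / 8 := by
            rw [div_le_div_iff₀ (by positivity) (by norm_num)]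
            nlinarith
          have hp1000 : (1000 : ℝ) ≤ p := by exact_mod_cast hp
          linarith
        exact_mod_cast h6
      have h3 := hcen p H₀ R R' x hp hH₀p hR hRR hR' hRH hx
      have h4 : ∑ h ∈ Icc (1 : ℕ) (2 ^ i), ‖TR p R R' (x * (h : ZMod p))‖ ≤
          ∑ h ∈ Icc (1 : ℕ) H₀, ‖TR p R R' (x * (h : ZMod p))‖ :=
        Finset.sum_le_sum_of_subset_of_nonneg (Finset.Icc_subset_Icc_right hHH)
          (fun _ _ _ => norm_nonneg _)
      have h5 : (J : ℝ) / p ≤ 16 * p / R' := by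
        rw [div_le_div_iff₀ hp0 hR'0]
        have : ((J * R' : ℕ) : ℝ) ≤ ((16 * p ^ 2 : ℕ) : ℝ) := by exact_mod_cast hJ
        push_cast at this
        nlinarith
      have h6 : min ((J : ℝ) / p) (1 / 2 ^ i) *
          ∑ h ∈ Icc (1 : ℕ) (2 ^ i), ‖TR p R R' (x * (h : ZMod p))‖ ≤
          (16 * p / R') * (C₀ * (H₀ : ℝ) * Q) :=
        mul_le_mul ((min_le_left _ _).trans h5) (h4.trans h3)
          (Finset.sum_nonneg fun _ _ => norm_nonneg _) (by positivity)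
      refine h6.trans ?_
      have hRp : (p : ℝ) ≤ R' := by exact_mod_cast (by omega : p ≤ R')
      have h7 : (16 * p / R') * (H₀ : ℝ) ≤ 18 := by
        have h8 : (H₀ : ℝ) ≤ (R' : ℝ) / (8 * p) + 1 := by
          rw [hH₀]; push_cast; linarith
        have h9 : (16 * p / R') * ((R' : ℝ) / (8 * p) + 1) = 2 + 16 * p / R' := by
          field_simp
          ring
        have h10 : 16 * (p : ℝ) / R' ≤ 16 := by
          rw [div_le_iff₀ hR'0]; nlinarith
        have h11 : (16 * p / R') * (H₀ : ℝ) ≤ (16 * p / R') * ((R' : ℝ) / (8 * p) + 1) :=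
          mul_le_mul_of_nonneg_left h8 (by positivity)
        linarith
      have h12 : (16 * p / R') * (C₀ * (H₀ : ℝ) * Q) = ((16 * p / R') * (H₀ : ℝ)) * (C₀ * Q) := by
        ring
      rw [h12, show (18 : ℝ) * C₀ * Q = 18 * (C₀ * Q) by ring]
      exact mul_le_mul_of_nonneg_right h7 (by positivity)
  have hsum : ∑ i ∈ range (Nat.clog 2 ((p - 1) / 2) + 1), min ((J : ℝ) / p) (1 / 2 ^ i) *
      ∑ h ∈ Icc (1 : ℕ) (2 ^ i), ‖TR p R R' (x * (h : ZMod p))‖ ≤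
      ((Nat.clog 2 ((p - 1) / 2) + 1 : ℕ) : ℝ) * (18 * C₀ * Q) := by
    have := Finset.sum_le_sum hblock
    rw [Finset.sum_const, Finset.card_range, nsmul_eq_mul] at this
    exact this
  have hlogp := hlog p (by omega)
  rw [pow_one] at hlogp
  have hL0 : 0 ≤ 3 + Real.log p := by
    have := Real.log_nonneg hp1
    linarith
  have hQsplit : Q * (p : ℝ) ^ (κ / 8 : ℝ) = (p : ℝ) ^ (1 - κ / 8 : ℝ) := by
    rw [hQ, ← Real.rpow_add hp0]
    congr 1
    ring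
  have hC0Q : 0 ≤ 18 * C₀ * Q := by positivity
  calc |∑ n ∈ Ioc R R', ArithmeticFunction.vonMangoldt n * cnt p x y J n -
        (J : ℝ) / p * ∑ n ∈ Ioc R R', ArithmeticFunction.vonMangoldt n|
      ≤ 2 * ∑ h ∈ Icc 1 ((p - 1) / 2), min ((J : ℝ) / p) (1 / (2 * (h : ℝ))) *
        ‖TR p R R' (x * (h : ZMod p))‖ := h1
    _ ≤ 2 * (((Nat.clog 2 ((p - 1) / 2) + 1 : ℕ) : ℝ) * (18 * C₀ * Q)) := by
        have := h2.trans hsum
        linarith
    _ ≤ 2 * ((2 * (3 + Real.log p)) * (18 * C₀ * Q)) := by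
        have := mul_le_mul_of_nonneg_right hnum hC0Q
        linarith
    _ ≤ 2 * ((2 * (C₂ * (p : ℝ) ^ (κ / 8 : ℝ))) * (18 * C₀ * Q)) := by
        have h13 := mul_le_mul_of_nonneg_right hlogp hC0Q
        linarith
    _ = 72 * C₀ * C₂ * (Q * (p : ℝ) ^ (κ / 8 : ℝ)) := by ring
    _ = 72 * C₀ * C₂ * (p : ℝ) ^ (1 - κ / 8 : ℝ) := by rw [hQsplit]

end Pool.Agent.LPX
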