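import Pool.Agent.LPX.D0

/-!
# [LPX-F3] the counting functions
-/

set_option autoImplicit false

namespace Pool.Agent.LPX

open Finset Pool.Agent.MP_2f88e5_nt Pool.Agent.EPK

/-- [F3a] `cnt` is monotone in `J` (`Finset.card_le_card`, `Finset.filter_subset_filter`). -/
theorem cnt_mono (p : ℕ) [Fact p.Prime] (x y : ZMod p) (J J' n : ℕ) (h : J ≤ J') :
    cnt p x y J n ≤ cnt p x y J' n := by
  unfold cnt
  have h1 : (Ioc 0 J) ⊆ Ioc 0 J' := Finset.Ioc_subset_Ioc_right h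
  exact_mod_cast Finset.card_le_card (Finset.filter_subset_filter _ h1)

/-- [F3b] `cnt ≤ 1` if `J ≤ p`: the numbers `1, ..., p` are distinct modulo `p`. (`Finset.card_le_one`; for `j, j' ∈ [1, p]` with
`(j : ZMod p) = j'`: `ZMod.natCast_eq_natCast_iff'` and `j - 1, j' - 1 < p`.) -/
theorem cnt_le_one (p : ℕ) [Fact p.Prime] (x y : ZMod p) (J n : ℕ) (h : J ≤ p) :
    cnt p x y J n ≤ 1 := by
  unfold cnt
  have h1 : ((Ioc 0 J).filter (fun j : ℕ => (j : ZMod p) = x * ((n : ZMod p))⁻¹ + y)).card ≤ 1 := by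
    rw [Finset.card_le_one]
    intro i hi j hj
    rw [Finset.mem_filter, Finset.mem_Ioc] at hi hj
    obtain ⟨⟨hi0, hiJ⟩, hi2⟩ := hi
    obtain ⟨⟨hj0, hjJ⟩, hj2⟩ := hj
    have h3 : (i : ZMod p) = (j : ZMod p) := by rw [hi2, hj2]
    have h4 : (((i - 1 : ℕ)) : ZMod p) = (((j - 1 : ℕ)) : ZMod p) := by
      rw [Nat.cast_sub hi0, Nat.cast_sub hj0, h3]
    rw [ZMod.natCast_eq_natCast_iff'] at h4
    have hp0 : 0 < p := (Fact.out : p.Prime).pos
    rw [Nat.mod_eq_of_lt (by omega), Nat.mod_eq_of_lt (by omega)] at h4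
    omega
  exact_mod_cast h1

/-- [F3c] `0 ≤ cnt`. -/
theorem cnt_nonneg (p : ℕ) [Fact p.Prime] (x y : ZMod p) (J n : ℕ) : 0 ≤ cnt p x y J n := by
  unfold cnt
  positivity

/-- [F3d] The odd cofactors: `s = 2 j - 1`, `j ∈ (0, (M + 1) / 2]`, `M = nmax p a / r`.

Proof. `s ↦ (s + 1) / 2` is a bijection from the odd `s ∈ [1, M]` to `[1, (M + 1) / 2]` with inverse `j ↦ 2 j - 1`, and
`r s = a ↔ s = a r⁻¹ ↔ 2 j - 1 = a r⁻¹ ↔ j = (a / 2) r⁻¹ + 1 / 2` in the field `ZMod p` (`2 ≠ 0`, `r ≠ 0`). `Finset.card_bij` or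
`Finset.card_nbij'`. -/
theorem cof_eq_cnt (p : ℕ) [Fact p.Prime] (hp : 2 < p) (a r : ℕ) (hr : (r : ZMod p) ≠ 0) :
    cof p a r = cnt p ((a : ZMod p) * 2⁻¹) 2⁻¹ ((nmax p a / r + 1) / 2) r := by
  unfold cof cnt
  have h2 : (2 : ZMod p) ≠ 0 := by
    intro h
    have h3 : ((2 : ℕ) : ZMod p) = 0 := by exact_mod_cast h
    rw [ZMod.natCast_eq_zero_iff] at h3
    have := Nat.le_of_dvd (by norm_num) h3
    omega
  obtain ⟨M, hM⟩ : ∃ M, M = nmax p a / r := ⟨_, rfl⟩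
  rw [← hM]
  have key : ∀ s j : ℕ, s + 1 = 2 * j → ((r : ZMod p) * (s : ZMod p) = (a : ZMod p) ↔
      (j : ZMod p) = (a : ZMod p) * 2⁻¹ * ((r : ZMod p))⁻¹ + 2⁻¹) := by
    intro s j hsj
    have h4 : (s : ZMod p) + 1 = 2 * (j : ZMod p) := by exact_mod_cast congrArg (Nat.cast : ℕ → ZMod p) hsj
    have h5 : (s : ZMod p) = 2 * (j : ZMod p) - 1 := by rw [← h4]; ring
    rw [h5]
    constructor
    · intro h
      rw [← h]
      field_simp
      ring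
    · intro h
      rw [h]
      field_simp
      ring
  have h6 : ((Icc 1 M).filter (fun s : ℕ => Odd s ∧ (r : ZMod p) * (s : ZMod p) = (a : ZMod p))).card =
      ((Ioc 0 ((M + 1) / 2)).filter (fun j : ℕ => (j : ZMod p) =
        (a : ZMod p) * 2⁻¹ * ((r : ZMod p))⁻¹ + 2⁻¹)).card := by
    apply Finset.card_nbij' (fun s => (s + 1) / 2) (fun j => 2 * j - 1)
    · intro s hs
      simp only [Finset.coe_filter, Finset.mem_Icc, Set.mem_ofPred_eq, Finset.mem_Ioc] at hs ⊢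
      obtain ⟨⟨h1, h2'⟩, ⟨q, hq⟩, h3⟩ := hs
      have h8 : (s + 1) / 2 = q + 1 := by omega
      refine ⟨by omega, ?_⟩
      rw [h8]
      exact (key s (q + 1) (by omega)).mp h3
    · intro j hj
      simp only [Finset.coe_filter, Finset.mem_Icc, Set.mem_ofPred_eq, Finset.mem_Ioc] at hj ⊢
      obtain ⟨⟨h1, h2'⟩, h3⟩ := hj
      refine ⟨by omega, ⟨j - 1, by omega⟩, ?_⟩
      exact (key (2 * j - 1) j (by omega)).mpr h3
    · intro s hs
      simp only [Finset.coe_filter, Finset.mem_Icc, Set.mem_ofPred_eq, Finset.mem_Ioc] at hs ⊢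
      obtain ⟨⟨h1, h2'⟩, ⟨q, hq⟩, h3⟩ := hs
      omega
    · intro j hj
      simp only [Finset.coe_filter, Finset.mem_Icc, Set.mem_ofPred_eq, Finset.mem_Ioc] at hj ⊢
      obtain ⟨⟨h1, h2'⟩, h3⟩ := hj
      omega
  exact_mod_cast h6

end Pool.Agent.LPX
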