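import Pool.Agent.LPX.D0
import Pool.Agent.EPK.C1
import Pool.Agent.EPK.D1

/-!
# [LPX-G1] bilinear sums: one dyadic block
-/

set_option autoImplicit false

namespace Pool.Agent.LPX

open Finset Pool.Agent.MP_2f88e5_nt Pool.Agent.EPK

/-- exchange of the sums over `m` and `k` -/
theorem g1_B2 (p : ℕ) [Fact p.Prime] (M R R' : ℕ) (hM : 1 ≤ M) (hRR : R ≤ R') (α β : ℕ → ℂ)
    (a : ZMod p) :
    B2 p α β M (2 * M) R R' a = ∑ k ∈ Icc 1 (R' / M), β k *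
      (∑ m ∈ (Ioc M (M + M)).filter (fun m => m ≤ R' / k),
        α m * ea p (a * ((k : ZMod p))⁻¹ * ((m : ZMod p))⁻¹) -
      ∑ m ∈ (Ioc M (M + M)).filter (fun m => m ≤ R / k),
        α m * ea p (a * ((k : ZMod p))⁻¹ * ((m : ZMod p))⁻¹)) := by
  unfold B2
  have h1 : ∀ m ∈ Ioc M (2 * M), Ioc (R / m) (R' / m) =
      (Icc 1 (R' / M)).filter (fun k => m ≤ R' / k ∧ ¬ m ≤ R / k) := by
    intro m hm
    rw [mem_Ioc] at hm
    ext k
    rw [mem_filter, mem_Icc, mem_Ioc]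
    constructor
    · rintro ⟨h1, h2⟩
      have hk : 1 ≤ k := Nat.lt_of_le_of_lt (Nat.zero_le _) h1
      refine ⟨⟨hk, h2.trans (Nat.div_le_div_left hm.1.le (by omega))⟩, ?_, ?_⟩
      · rw [Nat.le_div_iff_mul_le (by omega)] at h2 ⊢
        rwa [mul_comm]
      · rw [Nat.div_lt_iff_lt_mul (by omega)] at h1
        rw [Nat.le_div_iff_mul_le (by omega), mul_comm]
        omega
    · rintro ⟨⟨h1, _⟩, h2, h3⟩
      constructor
      · rw [Nat.le_div_iff_mul_le (by omega), mul_comm] at h3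
        rw [Nat.div_lt_iff_lt_mul (by omega)]
        omega
      · rw [Nat.le_div_iff_mul_le (by omega)] at h2 ⊢
        rwa [mul_comm]
  rw [Finset.sum_congr rfl (fun m hm => by rw [h1 m hm])]
  simp only [Finset.sum_filter]
  rw [Finset.sum_comm]
  refine Finset.sum_congr rfl fun k _ => ?_
  rw [← Finset.sum_sub_distrib, Finset.mul_sum, two_mul]
  refine Finset.sum_congr rfl fun m _ => ?_
  have hkk : R / k ≤ R' / k := Nat.div_le_div_right hRR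
  have e : a * ((m : ZMod p) * (k : ZMod p))⁻¹ = a * ((k : ZMod p))⁻¹ * ((m : ZMod p))⁻¹ := by
    rw [mul_inv]
    ring
  rw [e]
  by_cases c1 : m ≤ R / k
  · have c2 : m ≤ R' / k := c1.trans hkk
    rw [if_neg (fun h => h.2 c1), if_pos c2, if_pos c1, sub_self, mul_zero]
  · by_cases c2 : m ≤ R' / k
    · rw [if_pos ⟨c2, c1⟩, if_pos c2, if_neg c1, sub_zero]
      ring
    · rw [if_neg (fun h => c2 h.1), if_neg c2, if_neg c1, sub_zero, mul_zero]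

/-- [G1] One dyadic block of a bilinear sum over `m ∈ (M, 2M]`, `R < m k ≤ R'`.

Proof (adapt `EPK.typeII_block`, file `EPK_D2.lean`, 191 lines, `D = 1`, `hd p x h 1 = x h`). Put `N = R' / M` (natural division). For `m ∈ (M, 2M]`
the condition `k ∈ (R / m, R' / m]` says `R < m k ≤ R'`, i.e. `k ∈ [1, N]` and `R / k < m ≤ R' / k` (`Nat.le_div_iff_mul_le`,
`Nat.div_lt_iff_lt_mul`). So, exchanging the sums, the block is `∑_{1 ≤ k ≤ N} β k (∑_{m ∈ (M, 2M], m ≤ R'/k} - ∑_{m ∈ (M, 2M], m ≤ R/k}) α m ea(...)`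
(`R / k ≤ R' / k`), and by `cut M` (`a = M`; `Z = R' / k`, and `Z = R / k`) its norm is at most
`2 ∑_{j < M} γ j ∑_{k ≤ N} B' ‖∑_{m ∈ (M, 2M]} α_j m ea (x h k⁻¹ m⁻¹)‖`, `α_j m = α m e(j m / M)` for `m < p`, and `0` else (`2 M < p`), so that
`‖α_j m‖ ≤ A`. Sum over `h`, exchange, `moment_II` (`D = 1`, `N < p`) for every `j`, `∑ γ j ≤ 3 + log M ≤ 3 + log p`. The total is at most
`2 B' (3 + log p) 5 A T ((H N)^(3/4) + H N p^(-1/4)) p^(1/4) (...)`, and `p^(-1/4) p^(1/4) = 1`. -/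
theorem B2_block (p : ℕ) [Fact p.Prime] (hp : 2 < p) (H M R R' : ℕ) (hH : H < p)
    (hM : 1 ≤ M) (hMp : 4 * M < p) (hRR : R ≤ R') (hN : R' / M < p)
    (T : ℝ) (hT : TauLE (16 * p ^ 4) T) (x : ZMod p) (hx : x ≠ 0)
    (α β : ℕ → ℂ) (A B : ℝ) (hA : 0 ≤ A) (hB : 0 ≤ B) (hα : ∀ m, m < p → ‖α m‖ ≤ A)
    (hβ : ∀ k, k < p → ‖β k‖ ≤ B) :
    ∑ h ∈ Icc 1 H, ‖B2 p α β M (2 * M) R R' (x * (h : ZMod p))‖ ≤
      10 * A * B * T * (3 + Real.log p) *
        (((H : ℝ) * (R' / M : ℕ)) ^ (3 / 4 : ℝ) * (p : ℝ) ^ (1 / 4 : ℝ) + (H : ℝ) * (R' / M : ℕ)) *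
        ((M : ℝ) ^ (1 / 2 : ℝ) + (M : ℝ) ^ (7 / 8 : ℝ) * (p : ℝ) ^ (-(1 / 8) : ℝ)) := by
  have hp' : 1 ≤ p := by omega
  have hp4 : 1 ≤ 16 * p ^ 4 := by
    have : 1 ≤ p ^ 4 := Nat.one_le_pow _ _ hp'
    omega
  have hT1 : (1 : ℝ) ≤ T := by
    have := hT 1 le_rfl hp4
    simpa using this
  have hT0 : 0 ≤ T := by linarith
  have hP : (0 : ℝ) < (p : ℝ) := by exact_mod_cast hp'
  have hMR : (0 : ℝ) < (M : ℝ) := by exact_mod_cast (by omega : 0 < M)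
  obtain ⟨γ, hγ0, hγ, hcut⟩ := cut M (by omega)
  set N := R' / M with hNdef
  -- the phases
  set α' : ℕ → ℕ → ℂ := fun j m => if m < p then
    α m * Complex.exp (2 * Real.pi * Complex.I * (j : ℂ) * (m : ℂ) / (M : ℂ)) else 0 with hα'
  have hα'B : ∀ j m, ‖α' j m‖ ≤ A := by
    intro j m
    rw [hα']
    dsimp only
    split_ifs with h
    · have e1 : ‖Complex.exp (2 * Real.pi * Complex.I * (j : ℂ) * (m : ℂ) / (M : ℂ))‖ = 1 := by
        have e2 : (2 * Real.pi * Complex.I * (j : ℂ) * (m : ℂ) / (M : ℂ)) =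
            ((2 * Real.pi * j * m / M : ℝ) : ℂ) * Complex.I := by
          push_cast
          ring
        rw [e2, Complex.norm_exp_ofReal_mul_I]
      rw [norm_mul, e1, mul_one]
      exact hα m h
    · rw [norm_zero]
      exact hA
  -- one sum
  have hone : ∀ a : ZMod p, ‖B2 p α β M (2 * M) R R' a‖ ≤ B * (2 * ∑ j ∈ range M, γ j *
      ∑ k ∈ Icc 1 N, ‖∑ m ∈ Ioc M (2 * M), α' j m * ea p (a * ((k : ZMod p))⁻¹ * ((m : ZMod p))⁻¹)‖) := by
    intro a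
    rw [g1_B2 p M R R' (by omega) hRR α β a]
    refine (norm_sum_le _ _).trans ?_
    have h0 : ∀ k Z : ℕ, ‖∑ m ∈ (Ioc M (M + M)).filter (fun m => m ≤ Z),
        α m * ea p (a * ((k : ZMod p))⁻¹ * ((m : ZMod p))⁻¹)‖ ≤
        ∑ j ∈ range M, γ j *
          ‖∑ m ∈ Ioc M (2 * M), α' j m * ea p (a * ((k : ZMod p))⁻¹ * ((m : ZMod p))⁻¹)‖ := by
      intro k Z
      refine (hcut M Z _).trans (le_of_eq ?_)
      refine Finset.sum_congr rfl fun j _ => ?_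
      rw [← two_mul M]
      congr 2
      refine Finset.sum_congr rfl fun m hm => ?_
      rw [mem_Ioc] at hm
      rw [hα']
      dsimp only
      rw [if_pos (by omega)]
      ring
    have h1 : ∀ k ∈ Icc 1 N, ‖β k * (∑ m ∈ (Ioc M (M + M)).filter (fun m => m ≤ R' / k),
        α m * ea p (a * ((k : ZMod p))⁻¹ * ((m : ZMod p))⁻¹) -
        ∑ m ∈ (Ioc M (M + M)).filter (fun m => m ≤ R / k),
        α m * ea p (a * ((k : ZMod p))⁻¹ * ((m : ZMod p))⁻¹))‖ ≤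
        B * (2 * ∑ j ∈ range M, γ j *
          ‖∑ m ∈ Ioc M (2 * M), α' j m * ea p (a * ((k : ZMod p))⁻¹ * ((m : ZMod p))⁻¹)‖) := by
      intro k hk
      rw [mem_Icc] at hk
      rw [norm_mul]
      refine mul_le_mul (hβ k (by omega)) ?_ (norm_nonneg _) hB
      refine (norm_sub_le _ _).trans ?_
      rw [two_mul]
      exact add_le_add (h0 k _) (h0 k _)
    refine (Finset.sum_le_sum h1).trans (le_of_eq ?_)
    rw [← Finset.mul_sum, ← Finset.mul_sum, Finset.sum_comm]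
    congr 2
    refine Finset.sum_congr rfl fun j _ => ?_
    rw [Finset.mul_sum]
  have hmom := fun j => moment_II p H 1 N M hH (by omega) hN hM hMp T hT x hx (α' j) A hA (hα'B j)
  set X : ℝ := 5 * A * T * (((H * 1 * N : ℕ) : ℝ) ^ (3 / 4 : ℝ) +
        ((H * 1 * N : ℕ) : ℝ) * (p : ℝ) ^ (-(1 / 4) : ℝ)) * (p : ℝ) ^ (1 / 4 : ℝ) *
        ((M : ℝ) ^ (1 / 2 : ℝ) + (M : ℝ) ^ (7 / 8 : ℝ) * (p : ℝ) ^ (-(1 / 8) : ℝ)) with hX
  have hX0 : 0 ≤ X := by positivity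
  have hmom' : ∀ j, ∑ h ∈ Icc 1 H, ∑ k ∈ Icc 1 N, ‖∑ m ∈ Ioc M (2 * M), α' j m *
      ea p (x * (h : ZMod p) * ((k : ZMod p))⁻¹ * ((m : ZMod p))⁻¹)‖ ≤ X := by
    intro j
    refine le_trans (le_of_eq ?_) (hmom j)
    refine Finset.sum_congr rfl fun h _ => ?_
    rw [Finset.Icc_self, sum_singleton]
    simp only [hd, Nat.cast_one, inv_one, mul_one]
  have hsum : ∑ h ∈ Icc 1 H, ‖B2 p α β M (2 * M) R R' (x * (h : ZMod p))‖ ≤
      B * (2 * ∑ j ∈ range M, γ j * X) := by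
    calc ∑ h ∈ Icc 1 H, ‖B2 p α β M (2 * M) R R' (x * (h : ZMod p))‖
        ≤ ∑ h ∈ Icc 1 H, (B * (2 * ∑ j ∈ range M, γ j *
          ∑ k ∈ Icc 1 N, ‖∑ m ∈ Ioc M (2 * M), α' j m *
            ea p (x * (h : ZMod p) * ((k : ZMod p))⁻¹ * ((m : ZMod p))⁻¹)‖)) :=
          Finset.sum_le_sum fun h _ => hone _
      _ = B * (2 * ∑ j ∈ range M, γ j * ∑ h ∈ Icc 1 H,
          ∑ k ∈ Icc 1 N, ‖∑ m ∈ Ioc M (2 * M), α' j m *
            ea p (x * (h : ZMod p) * ((k : ZMod p))⁻¹ * ((m : ZMod p))⁻¹)‖) := by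
          simp only [← Finset.mul_sum]
          congr 2
          rw [Finset.sum_comm]
          simp only [← Finset.mul_sum]
      _ ≤ B * (2 * ∑ j ∈ range M, γ j * X) := by
          apply mul_le_mul_of_nonneg_left _ hB
          apply mul_le_mul_of_nonneg_left _ (by norm_num)
          exact Finset.sum_le_sum fun j _ => mul_le_mul_of_nonneg_left (hmom' j) (hγ0 j)
  refine hsum.trans ?_
  rw [← Finset.sum_mul]
  have hlog : Real.log M ≤ Real.log p := Real.log_le_log hMR (by exact_mod_cast (by omega : M ≤ p))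
  have hγ' : ∑ j ∈ range M, γ j ≤ 3 + Real.log p := by linarith
  have e1 : (p : ℝ) ^ (-(1 / 4) : ℝ) * (p : ℝ) ^ (1 / 4 : ℝ) = 1 := by
    rw [← Real.rpow_add hP]
    norm_num
  have hXe : X = 5 * A * T * (((H : ℝ) * N) ^ (3 / 4 : ℝ) * (p : ℝ) ^ (1 / 4 : ℝ) + (H : ℝ) * N) *
      ((M : ℝ) ^ (1 / 2 : ℝ) + (M : ℝ) ^ (7 / 8 : ℝ) * (p : ℝ) ^ (-(1 / 8) : ℝ)) := by
    rw [hX]
    have e2 : ((H * 1 * N : ℕ) : ℝ) = (H : ℝ) * N := by
      push_cast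
      ring
    rw [e2]
    have e3 : (((H : ℝ) * N) ^ (3 / 4 : ℝ) + (H : ℝ) * N * (p : ℝ) ^ (-(1 / 4) : ℝ)) *
        (p : ℝ) ^ (1 / 4 : ℝ) = ((H : ℝ) * N) ^ (3 / 4 : ℝ) * (p : ℝ) ^ (1 / 4 : ℝ) + (H : ℝ) * N := by
      rw [add_mul, mul_assoc ((H : ℝ) * N), e1, mul_one]
    rw [mul_assoc (5 * A * T), e3]
  calc B * (2 * ((∑ j ∈ range M, γ j) * X)) ≤ B * (2 * ((3 + Real.log p) * X)) := by
        apply mul_le_mul_of_nonneg_left _ hB
        apply mul_le_mul_of_nonneg_left _ (by norm_num)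
        exact mul_le_mul_of_nonneg_right hγ' hX0
    _ = _ := by
        rw [hXe]
        ring

end Pool.Agent.LPX
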