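import Pool.Agent.LPX.G1

/-!
# [LPX-G2] bilinear sums: one dyadic block, cleaned
-/

set_option autoImplicit false

namespace Pool.Agent.LPX

open Finset Pool.Agent.MP_2f88e5_nt Pool.Agent.EPK

theorem g2_neg (P m e : ℝ) (hP : 0 < P) (hm1 : P ^ (2 / 9 : ℝ) ≤ 2 * m)
    (he : 0 ≤ e) : m ^ (-e) ≤ 2 ^ e * P ^ (-(2 / 9 * e)) := by
  have h1 : 0 < P ^ (2 / 9 : ℝ) / 2 := by positivity
  have h2 : P ^ (2 / 9 : ℝ) / 2 ≤ m := by linarith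
  have h3 : m ^ (-e) ≤ (P ^ (2 / 9 : ℝ) / 2) ^ (-e) := by
    rw [Real.rpow_neg (by linarith), Real.rpow_neg h1.le]
    exact inv_anti₀ (Real.rpow_pos_of_pos h1 e) (Real.rpow_le_rpow h1.le h2 he)
  refine h3.trans (le_of_eq ?_)
  rw [Real.div_rpow (by positivity) (by norm_num), ← Real.rpow_mul hP.le,
    Real.rpow_neg (by norm_num : (0 : ℝ) ≤ 2), div_inv_eq_mul, mul_comm]
  congr 2
  ring

theorem g2_real (P h m r κ : ℝ) (hP : 1 ≤ P) (hh : 0 ≤ h) (hm : 0 < m) (hr : 0 ≤ r) (hκ : 0 < κ)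
    (hm1 : P ^ (2 / 9 : ℝ) ≤ 2 * m) (hm2 : m ≤ P ^ (5 / 9 : ℝ)) (hr1 : r ≤ P ^ (10 / 9 - κ : ℝ))
    (hr2 : r ≤ 8 * P * h) :
    ((h * (r / m)) ^ (3 / 4 : ℝ) * P ^ (1 / 4 : ℝ) + h * (r / m)) *
      (m ^ (1 / 2 : ℝ) + m ^ (7 / 8 : ℝ) * P ^ (-(1 / 8) : ℝ)) ≤ 8 * h * P ^ (1 - κ / 2 : ℝ) := by
  have hP0 : 0 < P := by linarith
  set Q : ℝ := P ^ (1 - κ / 2 : ℝ) with hQ
  have hQ0 : 0 ≤ Q := by positivity
  -- numerical constants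
  have n1 : (8 : ℝ) ^ (1 / 4 : ℝ) * 2 ^ (1 / 4 : ℝ) ≤ 2 := by
    rw [← Real.mul_rpow (by norm_num) (by norm_num)]
    have h1 : (8 * 2 : ℝ) = 2 ^ (4 : ℝ) := by
      rw [show (4 : ℝ) = ((4 : ℕ) : ℝ) by norm_num, Real.rpow_natCast]
      norm_num
    rw [h1, ← Real.rpow_mul (by norm_num)]
    norm_num
  have n2 : (8 : ℝ) ^ (1 / 4 : ℝ) ≤ 1.7 := by
    have h1 : (8 : ℝ) ≤ 1.7 ^ (4 : ℝ) := by
      rw [show (4 : ℝ) = ((4 : ℕ) : ℝ) by norm_num, Real.rpow_natCast]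
      norm_num
    have h2 := Real.rpow_le_rpow (by norm_num) h1 (by norm_num : (0 : ℝ) ≤ 1 / 4)
    rw [← Real.rpow_mul (by norm_num)] at h2
    norm_num at h2 ⊢
    exact h2
  have n3 : (2 : ℝ) ^ (1 / 2 : ℝ) ≤ 1.5 := by
    have h1 : (2 : ℝ) ≤ 1.5 ^ (2 : ℝ) := by
      rw [show (2 : ℝ) = ((2 : ℕ) : ℝ) by norm_num, Real.rpow_natCast]
      norm_num
    have h2 := Real.rpow_le_rpow (by norm_num) h1 (by norm_num : (0 : ℝ) ≤ 1 / 2)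
    rw [← Real.rpow_mul (by norm_num)] at h2
    norm_num at h2 ⊢
    exact h2
  have n4 : (2 : ℝ) ^ (1 / 8 : ℝ) ≤ 1.1 := by
    have h1 : (2 : ℝ) ≤ 1.1 ^ (8 : ℝ) := by
      rw [show (8 : ℝ) = ((8 : ℕ) : ℝ) by norm_num, Real.rpow_natCast]
      norm_num
    have h2 := Real.rpow_le_rpow (by norm_num) h1 (by norm_num : (0 : ℝ) ≤ 1 / 8)
    rw [← Real.rpow_mul (by norm_num)] at h2
    norm_num at h2 ⊢
    exact h2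
  -- the pieces
  have a1 : r ^ (3 / 4 : ℝ) ≤ 8 ^ (1 / 4 : ℝ) * P ^ (1 / 4 : ℝ) * h ^ (1 / 4 : ℝ) *
      P ^ (5 / 9 - κ / 2 : ℝ) := by
    have h1 : r ^ (3 / 4 : ℝ) = r ^ (1 / 4 : ℝ) * r ^ (1 / 2 : ℝ) := by
      rw [← Real.rpow_add_of_nonneg hr (by norm_num) (by norm_num)]
      norm_num
    have h2 : r ^ (1 / 4 : ℝ) ≤ 8 ^ (1 / 4 : ℝ) * P ^ (1 / 4 : ℝ) * h ^ (1 / 4 : ℝ) := by
      rw [← Real.mul_rpow (by norm_num) hP0.le, ← Real.mul_rpow (by positivity) hh]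
      exact Real.rpow_le_rpow hr hr2 (by norm_num)
    have h3 : r ^ (1 / 2 : ℝ) ≤ P ^ (5 / 9 - κ / 2 : ℝ) := by
      refine (Real.rpow_le_rpow hr hr1 (by norm_num)).trans (le_of_eq ?_)
      rw [← Real.rpow_mul hP0.le]
      congr 1
      ring
    rw [h1]
    exact mul_le_mul h2 h3 (by positivity) (by positivity)
  have a2 := g2_neg P m (1 / 4) hP0 hm1 (by norm_num)
  have a3 : m ^ (1 / 8 : ℝ) ≤ P ^ (5 / 72 : ℝ) := by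
    refine (Real.rpow_le_rpow hm.le hm2 (by norm_num)).trans (le_of_eq ?_)
    rw [← Real.rpow_mul hP0.le]
    congr 1
    norm_num
  have a4 := g2_neg P m (1 / 2) hP0 hm1 (by norm_num)
  have a5 := g2_neg P m (1 / 8) hP0 hm1 (by norm_num)
  have hh1 : h ^ (3 / 4 : ℝ) * h ^ (1 / 4 : ℝ) = h := by
    rw [← Real.rpow_add_of_nonneg hh (by norm_num) (by norm_num)]
    norm_num
  have e0 : (h * (r / m)) ^ (3 / 4 : ℝ) = h ^ (3 / 4 : ℝ) * (r ^ (3 / 4 : ℝ) * m ^ (-(3 / 4) : ℝ)) := by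
    rw [Real.mul_rpow hh (by positivity), Real.div_rpow hr hm.le, Real.rpow_neg hm.le]
    rfl
  have t1 : (h * (r / m)) ^ (3 / 4 : ℝ) * P ^ (1 / 4 : ℝ) * m ^ (1 / 2 : ℝ) ≤ 2 * (h * Q) := by
    have e1 : m ^ (-(3 / 4) : ℝ) * m ^ (1 / 2 : ℝ) = m ^ (-(1 / 4) : ℝ) := by
      rw [← Real.rpow_add hm]
      norm_num
    have e2 : P ^ (1 / 4 : ℝ) * P ^ (5 / 9 - κ / 2 : ℝ) * P ^ (-(2 / 9 * (1 / 4)) : ℝ) *
        P ^ (1 / 4 : ℝ) = Q := by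
      rw [← Real.rpow_add hP0, ← Real.rpow_add hP0, ← Real.rpow_add hP0, hQ]
      congr 1
      ring
    calc (h * (r / m)) ^ (3 / 4 : ℝ) * P ^ (1 / 4 : ℝ) * m ^ (1 / 2 : ℝ) =
        h ^ (3 / 4 : ℝ) * (r ^ (3 / 4 : ℝ) * (m ^ (-(3 / 4) : ℝ) * m ^ (1 / 2 : ℝ))) *
          P ^ (1 / 4 : ℝ) := by rw [e0]; ring
      _ = h ^ (3 / 4 : ℝ) * (r ^ (3 / 4 : ℝ) * m ^ (-(1 / 4) : ℝ)) * P ^ (1 / 4 : ℝ) := by rw [e1]
      _ ≤ h ^ (3 / 4 : ℝ) * ((8 ^ (1 / 4 : ℝ) * P ^ (1 / 4 : ℝ) * h ^ (1 / 4 : ℝ) *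
            P ^ (5 / 9 - κ / 2 : ℝ)) * (2 ^ (1 / 4 : ℝ) * P ^ (-(2 / 9 * (1 / 4)) : ℝ))) *
            P ^ (1 / 4 : ℝ) := by
          refine mul_le_mul_of_nonneg_right ?_ (by positivity)
          refine mul_le_mul_of_nonneg_left ?_ (by positivity)
          exact mul_le_mul a1 a2 (by positivity) (by positivity)
      _ = (8 ^ (1 / 4 : ℝ) * 2 ^ (1 / 4 : ℝ)) * ((h ^ (3 / 4 : ℝ) * h ^ (1 / 4 : ℝ)) *
            (P ^ (1 / 4 : ℝ) * P ^ (5 / 9 - κ / 2 : ℝ) * P ^ (-(2 / 9 * (1 / 4)) : ℝ) *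
              P ^ (1 / 4 : ℝ))) := by ring
      _ = (8 ^ (1 / 4 : ℝ) * 2 ^ (1 / 4 : ℝ)) * (h * Q) := by rw [hh1, e2]
      _ ≤ 2 * (h * Q) := mul_le_mul_of_nonneg_right n1 (by positivity)
  have t2 : (h * (r / m)) ^ (3 / 4 : ℝ) * P ^ (1 / 4 : ℝ) * (m ^ (7 / 8 : ℝ) *
      P ^ (-(1 / 8) : ℝ)) ≤ 1.7 * (h * Q) := by
    have e1 : m ^ (-(3 / 4) : ℝ) * m ^ (7 / 8 : ℝ) = m ^ (1 / 8 : ℝ) := by
      rw [← Real.rpow_add hm]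
      norm_num
    have e2 : P ^ (1 / 4 : ℝ) * P ^ (5 / 9 - κ / 2 : ℝ) * P ^ (5 / 72 : ℝ) *
        P ^ (1 / 4 : ℝ) * P ^ (-(1 / 8) : ℝ) = Q := by
      rw [← Real.rpow_add hP0, ← Real.rpow_add hP0, ← Real.rpow_add hP0, ← Real.rpow_add hP0, hQ]
      congr 1
      ring
    calc (h * (r / m)) ^ (3 / 4 : ℝ) * P ^ (1 / 4 : ℝ) * (m ^ (7 / 8 : ℝ) * P ^ (-(1 / 8) : ℝ)) =
        h ^ (3 / 4 : ℝ) * (r ^ (3 / 4 : ℝ) * (m ^ (-(3 / 4) : ℝ) * m ^ (7 / 8 : ℝ))) *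
          (P ^ (1 / 4 : ℝ) * P ^ (-(1 / 8) : ℝ)) := by rw [e0]; ring
      _ = h ^ (3 / 4 : ℝ) * (r ^ (3 / 4 : ℝ) * m ^ (1 / 8 : ℝ)) *
          (P ^ (1 / 4 : ℝ) * P ^ (-(1 / 8) : ℝ)) := by rw [e1]
      _ ≤ h ^ (3 / 4 : ℝ) * ((8 ^ (1 / 4 : ℝ) * P ^ (1 / 4 : ℝ) * h ^ (1 / 4 : ℝ) *
            P ^ (5 / 9 - κ / 2 : ℝ)) * P ^ (5 / 72 : ℝ)) *
            (P ^ (1 / 4 : ℝ) * P ^ (-(1 / 8) : ℝ)) := by
          refine mul_le_mul_of_nonneg_right ?_ (by positivity)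
          refine mul_le_mul_of_nonneg_left ?_ (by positivity)
          exact mul_le_mul a1 a3 (by positivity) (by positivity)
      _ = 8 ^ (1 / 4 : ℝ) * ((h ^ (3 / 4 : ℝ) * h ^ (1 / 4 : ℝ)) *
            (P ^ (1 / 4 : ℝ) * P ^ (5 / 9 - κ / 2 : ℝ) * P ^ (5 / 72 : ℝ) *
              P ^ (1 / 4 : ℝ) * P ^ (-(1 / 8) : ℝ))) := by ring
      _ = 8 ^ (1 / 4 : ℝ) * (h * Q) := by rw [hh1, e2]
      _ ≤ 1.7 * (h * Q) := mul_le_mul_of_nonneg_right n2 (by positivity)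
  have t3 : h * (r / m) * m ^ (1 / 2 : ℝ) ≤ 1.5 * (h * Q) := by
    have e1 : m⁻¹ * m ^ (1 / 2 : ℝ) = m ^ (-(1 / 2) : ℝ) := by
      rw [← Real.rpow_neg_one, ← Real.rpow_add hm]
      norm_num
    have e2 : P ^ (10 / 9 - κ : ℝ) * P ^ (-(2 / 9 * (1 / 2)) : ℝ) ≤ Q := by
      rw [← Real.rpow_add hP0, hQ]
      exact Real.rpow_le_rpow_of_exponent_le hP (by linarith)
    calc h * (r / m) * m ^ (1 / 2 : ℝ) = h * (r * (m⁻¹ * m ^ (1 / 2 : ℝ))) := by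
          rw [div_eq_mul_inv]
          ring
      _ = h * (r * m ^ (-(1 / 2) : ℝ)) := by rw [e1]
      _ ≤ h * (P ^ (10 / 9 - κ : ℝ) * (2 ^ (1 / 2 : ℝ) * P ^ (-(2 / 9 * (1 / 2)) : ℝ))) := by
          refine mul_le_mul_of_nonneg_left ?_ hh
          exact mul_le_mul hr1 a4 (by positivity) (by positivity)
      _ = 2 ^ (1 / 2 : ℝ) * (h * (P ^ (10 / 9 - κ : ℝ) * P ^ (-(2 / 9 * (1 / 2)) : ℝ))) := by ring
      _ ≤ 2 ^ (1 / 2 : ℝ) * (h * Q) := by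
          refine mul_le_mul_of_nonneg_left ?_ (by positivity)
          exact mul_le_mul_of_nonneg_left e2 hh
      _ ≤ 1.5 * (h * Q) := mul_le_mul_of_nonneg_right n3 (by positivity)
  have t4 : h * (r / m) * (m ^ (7 / 8 : ℝ) * P ^ (-(1 / 8) : ℝ)) ≤ 1.1 * (h * Q) := by
    have e1 : m⁻¹ * m ^ (7 / 8 : ℝ) = m ^ (-(1 / 8) : ℝ) := by
      rw [← Real.rpow_neg_one, ← Real.rpow_add hm]
      norm_num
    have e2 : P ^ (10 / 9 - κ : ℝ) * P ^ (-(2 / 9 * (1 / 8)) : ℝ) * P ^ (-(1 / 8) : ℝ) ≤ Q := by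
      rw [← Real.rpow_add hP0, ← Real.rpow_add hP0, hQ]
      exact Real.rpow_le_rpow_of_exponent_le hP (by linarith)
    calc h * (r / m) * (m ^ (7 / 8 : ℝ) * P ^ (-(1 / 8) : ℝ)) =
          h * (r * (m⁻¹ * m ^ (7 / 8 : ℝ))) * P ^ (-(1 / 8) : ℝ) := by
          rw [div_eq_mul_inv]
          ring
      _ = h * (r * m ^ (-(1 / 8) : ℝ)) * P ^ (-(1 / 8) : ℝ) := by rw [e1]
      _ ≤ h * (P ^ (10 / 9 - κ : ℝ) * (2 ^ (1 / 8 : ℝ) * P ^ (-(2 / 9 * (1 / 8)) : ℝ))) *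
            P ^ (-(1 / 8) : ℝ) := by
          refine mul_le_mul_of_nonneg_right ?_ (by positivity)
          refine mul_le_mul_of_nonneg_left ?_ hh
          exact mul_le_mul hr1 a5 (by positivity) (by positivity)
      _ = 2 ^ (1 / 8 : ℝ) * (h * (P ^ (10 / 9 - κ : ℝ) * P ^ (-(2 / 9 * (1 / 8)) : ℝ) *
            P ^ (-(1 / 8) : ℝ))) := by ring
      _ ≤ 2 ^ (1 / 8 : ℝ) * (h * Q) := by
          refine mul_le_mul_of_nonneg_left ?_ (by positivity)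
          exact mul_le_mul_of_nonneg_left e2 hh
      _ ≤ 1.1 * (h * Q) := mul_le_mul_of_nonneg_right n4 (by positivity)
  have hhQ : 0 ≤ h * Q := by positivity
  calc ((h * (r / m)) ^ (3 / 4 : ℝ) * P ^ (1 / 4 : ℝ) + h * (r / m)) *
      (m ^ (1 / 2 : ℝ) + m ^ (7 / 8 : ℝ) * P ^ (-(1 / 8) : ℝ)) =
      (h * (r / m)) ^ (3 / 4 : ℝ) * P ^ (1 / 4 : ℝ) * m ^ (1 / 2 : ℝ) +
      (h * (r / m)) ^ (3 / 4 : ℝ) * P ^ (1 / 4 : ℝ) * (m ^ (7 / 8 : ℝ) * P ^ (-(1 / 8) : ℝ)) +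
      h * (r / m) * m ^ (1 / 2 : ℝ) + h * (r / m) * (m ^ (7 / 8 : ℝ) * P ^ (-(1 / 8) : ℝ)) := by
        ring
    _ ≤ 2 * (h * Q) + 1.7 * (h * Q) + 1.5 * (h * Q) + 1.1 * (h * Q) :=
        add_le_add (add_le_add (add_le_add t1 t2) t3) t4
    _ ≤ 8 * h * Q := by linarith

/-- [G2] The bound of `B2_block` in the range `p^(2/9) ≤ 2 M`, `M ≤ p^(5/9)`, `R' ≤ p^(10/9 - κ)`, `R' ≤ 8 p H`.

Proof. If `H = 0` the left side is `0`. Let `K = R' / M ≤ R'/M` (real quotient), `P = p`, `r = R'` (real). Hypotheses of `B2_block`: `4 M < p` as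
`4 p^(5/9) < p` for `p ≥ 1000` (`p^(4/9) > 4` as `p^4 > 4^9 = 262144`); `K ≤ r / M ≤ 2 p^(10/9 - κ - 2/9) ≤ 2 p^(8/9) < p` (`p > 2^9`). The four terms:
* `(H K)^(3/4) p^(1/4) M^(1/2) ≤ H^(3/4) r^(3/4) M^(-1/4) p^(1/4)`, and `r^(3/4) = r^(1/4) r^(1/2) ≤ (8 p H)^(1/4) p^(5/9 - κ/2)`,
  `M^(-1/4) ≤ 2^(1/4) p^(-1/18)`; total `≤ 16^(1/4) H p^(1/4 + 5/9 - κ/2 - 1/18 + 1/4) = 2 H p^(1 - κ/2)`;
* `(H K)^(3/4) p^(1/4) M^(7/8) p^(-1/8) ≤ H^(3/4) r^(3/4) M^(1/8) p^(1/8) ≤ 8^(1/4) H p^(1/4 + 5/9 - κ/2 + 5/72 + 1/8) = 8^(1/4) H p^(1 - κ/2)`;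
* `H K M^(1/2) ≤ H r M^(-1/2) ≤ 2^(1/2) H p^(10/9 - κ - 1/9) = 2^(1/2) H p^(1 - κ)`;
* `H K M^(7/8) p^(-1/8) ≤ H r M^(-1/8) p^(-1/8) ≤ 2^(1/8) H p^(10/9 - κ - 1/36 - 1/8) ≤ 2^(1/8) H p^(1 - κ)`.
As `1 - κ ≤ 1 - κ/2`, the sum of the four is at most `(2 + 1.7 + 1.5 + 1.1) H p^(1 - κ/2) ≤ 8 H p^(1 - κ/2)`. -/
theorem B2_block' (p : ℕ) [Fact p.Prime] (hp : 1000 ≤ p) (κ : ℝ) (hκ : 0 < κ)
    (H M R R' : ℕ) (hH : H < p) (hM1 : (p : ℝ) ^ (2 / 9 : ℝ) ≤ 2 * M)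
    (hM2 : (M : ℝ) ≤ (p : ℝ) ^ (5 / 9 : ℝ)) (hRR : R ≤ R')
    (hR : (R' : ℝ) ≤ (p : ℝ) ^ (10 / 9 - κ : ℝ)) (hRH : R' ≤ 8 * p * H)
    (T : ℝ) (hT : TauLE (16 * p ^ 4) T) (x : ZMod p) (hx : x ≠ 0)
    (α β : ℕ → ℂ) (A B : ℝ) (hA : 0 ≤ A) (hB : 0 ≤ B) (hα : ∀ m, m < p → ‖α m‖ ≤ A)
    (hβ : ∀ k, k < p → ‖β k‖ ≤ B) :
    ∑ h ∈ Icc 1 H, ‖B2 p α β M (2 * M) R R' (x * (h : ZMod p))‖ ≤
      80 * A * B * T * (3 + Real.log p) * H * (p : ℝ) ^ (1 - κ / 2 : ℝ) := by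
  have hP : (1000 : ℝ) ≤ p := by exact_mod_cast hp
  have hP0 : (0 : ℝ) < p := by linarith
  have hP1 : (1 : ℝ) ≤ p := by linarith
  have hM1' : 1 ≤ M := by
    by_contra h
    have h0 : M = 0 := by omega
    rw [h0] at hM1
    have : 0 < (p : ℝ) ^ (2 / 9 : ℝ) := by positivity
    push_cast at hM1
    linarith
  have hM0 : (0 : ℝ) < M := by exact_mod_cast hM1'
  have h4M : 4 * M < p := by
    have h1 : (M : ℝ) ^ 9 ≤ (p : ℝ) ^ 5 := by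
      have h2 : (M : ℝ) ^ 9 ≤ ((p : ℝ) ^ (5 / 9 : ℝ)) ^ 9 := pow_le_pow_left₀ hM0.le hM2 9
      rw [← Real.rpow_natCast ((p : ℝ) ^ (5 / 9 : ℝ)) 9, ← Real.rpow_mul hP0.le] at h2
      have h3 : (5 / 9 * ((9 : ℕ) : ℝ)) = ((5 : ℕ) : ℝ) := by norm_num
      rw [h3, Real.rpow_natCast] at h2
      exact h2
    by_contra h
    push Not at h
    have h2 : (p : ℝ) ≤ 4 * M := by exact_mod_cast h
    have h3 : (p : ℝ) ^ 9 ≤ (4 * (M : ℝ)) ^ 9 := pow_le_pow_left₀ hP0.le h2 9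
    have h4 : (p : ℝ) ^ 5 * (p : ℝ) ^ 4 ≤ (p : ℝ) ^ 5 * 262144 := by
      calc (p : ℝ) ^ 5 * (p : ℝ) ^ 4 = (p : ℝ) ^ 9 := by ring
        _ ≤ (4 * (M : ℝ)) ^ 9 := h3
        _ = 262144 * (M : ℝ) ^ 9 := by ring
        _ ≤ 262144 * (p : ℝ) ^ 5 := by linarith
        _ = (p : ℝ) ^ 5 * 262144 := by ring
    have h5 : (p : ℝ) ^ 4 ≤ 262144 := le_of_mul_le_mul_left h4 (by positivity)
    have h6 : (1000 : ℝ) ^ 4 ≤ (p : ℝ) ^ 4 := pow_le_pow_left₀ (by norm_num) hP 4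
    norm_num at h6
    linarith
  have hK : ((R' / M : ℕ) : ℝ) ≤ (R' : ℝ) / M := Nat.cast_div_le
  have hN : R' / M < p := by
    have h1 : (R' : ℝ) / M < p := by
      rw [div_lt_iff₀ hM0]
      have h2 : (p : ℝ) ^ (10 / 9 - κ : ℝ) ≤ (p : ℝ) ^ (10 / 9 : ℝ) :=
        Real.rpow_le_rpow_of_exponent_le hP1 (by linarith)
      have h3 : (2 : ℝ) < (p : ℝ) ^ (1 / 9 : ℝ) := by
        have h4 : (2 : ℝ) ^ (9 : ℝ) < p := by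
          rw [show (9 : ℝ) = ((9 : ℕ) : ℝ) by norm_num, Real.rpow_natCast]
          norm_num
          linarith
        have h5 := Real.rpow_lt_rpow (by positivity) h4 (by norm_num : (0 : ℝ) < 1 / 9)
        rw [← Real.rpow_mul (by norm_num)] at h5
        norm_num at h5 ⊢
        exact h5
      have h4 : (p : ℝ) ^ (10 / 9 : ℝ) * 2 < p * (p : ℝ) ^ (2 / 9 : ℝ) := by
        have h5 : (p : ℝ) * (p : ℝ) ^ (2 / 9 : ℝ) = (p : ℝ) ^ (10 / 9 : ℝ) * (p : ℝ) ^ (1 / 9 : ℝ) := by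
          rw [← Real.rpow_add hP0]
          nth_rewrite 1 [← Real.rpow_one (p : ℝ)]
          rw [← Real.rpow_add hP0]
          norm_num
        rw [h5]
        exact mul_lt_mul_of_pos_left h3 (by positivity)
      have h6 : (p : ℝ) * (p : ℝ) ^ (2 / 9 : ℝ) ≤ p * (2 * M) := mul_le_mul_of_nonneg_left hM1 hP0.le
      linarith
    have h2 : ((R' / M : ℕ) : ℝ) < p := lt_of_le_of_lt hK h1
    exact_mod_cast h2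
  refine (B2_block p (by omega) H M R R' hH hM1' h4M hRR hN T hT x hx α β A B hA hB hα hβ).trans ?_
  have hR2 : (R' : ℝ) ≤ 8 * p * H := by exact_mod_cast hRH
  have key := g2_real p H M R' κ hP1 (Nat.cast_nonneg _) hM0 (Nat.cast_nonneg _) hκ hM1 hM2 hR hR2
  have hH0 : (0 : ℝ) ≤ H := Nat.cast_nonneg _
  have hK0 : (0 : ℝ) ≤ ((R' / M : ℕ) : ℝ) := Nat.cast_nonneg _
  have hT1 : (1 : ℝ) ≤ T := by
    have hp4 : 1 ≤ 16 * p ^ 4 := by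
      have : 1 ≤ p ^ 4 := Nat.one_le_pow _ _ (by omega)
      omega
    have := hT 1 le_rfl hp4
    simpa using this
  have hlog : 0 ≤ Real.log p := Real.log_nonneg hP1
  have hmono : (((H : ℝ) * (R' / M : ℕ)) ^ (3 / 4 : ℝ) * (p : ℝ) ^ (1 / 4 : ℝ) + (H : ℝ) * (R' / M : ℕ)) *
        ((M : ℝ) ^ (1 / 2 : ℝ) + (M : ℝ) ^ (7 / 8 : ℝ) * (p : ℝ) ^ (-(1 / 8) : ℝ)) ≤
      8 * H * (p : ℝ) ^ (1 - κ / 2 : ℝ) := by
    refine le_trans ?_ key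
    refine mul_le_mul_of_nonneg_right ?_ (by positivity)
    have h1 : (H : ℝ) * (R' / M : ℕ) ≤ H * (R' / M) := mul_le_mul_of_nonneg_left hK hH0
    refine add_le_add ?_ h1
    refine mul_le_mul_of_nonneg_right ?_ (by positivity)
    exact Real.rpow_le_rpow (by positivity) h1 (by norm_num)
  calc 10 * A * B * T * (3 + Real.log p) *
        (((H : ℝ) * (R' / M : ℕ)) ^ (3 / 4 : ℝ) * (p : ℝ) ^ (1 / 4 : ℝ) + (H : ℝ) * (R' / M : ℕ)) *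
        ((M : ℝ) ^ (1 / 2 : ℝ) + (M : ℝ) ^ (7 / 8 : ℝ) * (p : ℝ) ^ (-(1 / 8) : ℝ)) =
        10 * A * B * T * (3 + Real.log p) *
        ((((H : ℝ) * (R' / M : ℕ)) ^ (3 / 4 : ℝ) * (p : ℝ) ^ (1 / 4 : ℝ) + (H : ℝ) * (R' / M : ℕ)) *
        ((M : ℝ) ^ (1 / 2 : ℝ) + (M : ℝ) ^ (7 / 8 : ℝ) * (p : ℝ) ^ (-(1 / 8) : ℝ))) := by ring
    _ ≤ 10 * A * B * T * (3 + Real.log p) * (8 * H * (p : ℝ) ^ (1 - κ / 2 : ℝ)) :=
        mul_le_mul_of_nonneg_left hmono (by positivity)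
    _ = 80 * A * B * T * (3 + Real.log p) * H * (p : ℝ) ^ (1 - κ / 2 : ℝ) := by ring

end Pool.Agent.LPX
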