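import Pool.Agent.LPX.D0

/-!
# [LPX-I0] prime powers; the number of cofactors
-/

set_option autoImplicit false

namespace Pool.Agent.LPX

open Finset Pool.Agent.MP_2f88e5_nt Pool.Agent.EPK

/-- [I0a] The proper prime powers contribute little: `ψ(x) - θ(x) ≤ 2 √x log x`. (`Chebyshev.psi_sub_theta_le`,
`Chebyshev.psi_sub_theta_eq_sum_not_prime` in Mathlib/NumberTheory/Chebyshev.lean; the sum over `(R, R']` is at most the one over
`[1, R']`; if `R' = 0` both sides vanish.) -/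
theorem prime_powers (R R' : ℕ) :
    ∑ n ∈ (Ioc R R').filter (fun n => ¬ n.Prime), ArithmeticFunction.vonMangoldt n ≤
      2 * Real.sqrt R' * Real.log R' := by
  rcases Nat.eq_zero_or_pos R' with h0 | h0
  · subst h0
    rw [Finset.Ioc_eq_empty (by omega), Finset.filter_empty, Finset.sum_empty]
    simp
  · have h1 : (1 : ℝ) ≤ (R' : ℝ) := by exact_mod_cast h0
    have h2 := Chebyshev.psi_sub_theta_le h1
    rw [Chebyshev.psi_sub_theta_eq_sum_not_prime, Nat.floor_natCast] at h2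
    refine le_trans ?_ h2
    apply Finset.sum_le_sum_of_subset_of_nonneg
    · intro n hn
      rw [Finset.mem_filter, Finset.mem_Ioc] at hn ⊢
      exact ⟨⟨by omega, hn.1.2⟩, hn.2⟩
    · intro n _ _
      exact ArithmeticFunction.vonMangoldt_nonneg

/-- [I0b] Bounds for `J = (nmax p a / R + 1) / 2` (natural divisions).

Proof. Let `B = nmax p a`, so `4 p² ≤ B ≤ 4 p² + 4 p`. `J ≤ (B / R + 1) / 2` (real division) `≤ (2 p² + 2 p) / R + 1 / 2`, and
`J ≥ ⌊B / R⌋ / 2 ≥ (B / R - 1) / 2 ≥ 2 p² / R - 1 / 2`. Divide by `p`. Third: `J R ≤ (B + R) / 2`. -/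
theorem J_bounds (p a R : ℕ) (hp : 2 < p) (ha2 : a < 2 * p) (hR : 0 < R) :
    (((nmax p a / R + 1) / 2 : ℕ) : ℝ) / p ≤ (2 * p + 2) / R + 1 / (2 * p) ∧
    2 * p / (R : ℝ) - 1 / (2 * p) ≤ (((nmax p a / R + 1) / 2 : ℕ) : ℝ) / p ∧
    ((nmax p a / R + 1) / 2) * R ≤ 2 * p ^ 2 + 2 * p + R := by
  have hp0 : (0 : ℝ) < p := by exact_mod_cast (by omega : 0 < p)
  have hR0 : (0 : ℝ) < R := by exact_mod_cast hR
  set n : ℕ := nmax p a / R with hn
  have hB1 : nmax p a ≤ 4 * p ^ 2 + 4 * p := by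
    unfold nmax
    nlinarith
  have hB2 : 4 * p ^ 2 ≤ nmax p a := by
    unfold nmax
    nlinarith
  have hB1' : (nmax p a : ℝ) ≤ 4 * (p : ℝ) ^ 2 + 4 * p := by exact_mod_cast hB1
  have hB2' : 4 * (p : ℝ) ^ 2 ≤ (nmax p a : ℝ) := by exact_mod_cast hB2
  have hnR : n * R ≤ nmax p a := Nat.div_mul_le_self _ _
  have hnR2 : nmax p a < (n + 1) * R := by
    rw [hn, ← Nat.div_lt_iff_lt_mul hR]
    omega
  have hnR' : (n : ℝ) * R ≤ (nmax p a : ℝ) := by exact_mod_cast hnR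
  have hnR2' : (nmax p a : ℝ) < ((n : ℝ) + 1) * R := by exact_mod_cast hnR2
  have hJ1 : 2 * ((n + 1) / 2) ≤ n + 1 := by omega
  have hJ2 : n ≤ 2 * ((n + 1) / 2) := by omega
  have hJ1' : 2 * (((n + 1) / 2 : ℕ) : ℝ) ≤ (n : ℝ) + 1 := by exact_mod_cast hJ1
  have hJ2' : (n : ℝ) ≤ 2 * (((n + 1) / 2 : ℕ) : ℝ) := by exact_mod_cast hJ2
  refine ⟨?_, ?_, ?_⟩
  · rw [div_add_div _ _ hR0.ne' (by positivity), div_le_div_iff₀ hp0 (by positivity)]
    nlinarith [mul_le_mul_of_nonneg_right hJ1' (by positivity : (0 : ℝ) ≤ R * p)]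
  · rw [div_sub_div _ _ hR0.ne' (by positivity), div_le_div_iff₀ (by positivity) hp0]
    nlinarith [mul_le_mul_of_nonneg_right hJ2' (by positivity : (0 : ℝ) ≤ R * p)]
  · have h3 := Nat.mul_le_mul_right R hJ1
    nlinarith

/-- [I0c] If `R > 2 p` then `nmax p a < (2 p + 1)²`, so `nmax p a / R ≤ 2 p`. -/
theorem J_le_p (p a R : ℕ) (ha2 : a < 2 * p) (hR : 2 * p < R) :
    (nmax p a / R + 1) / 2 ≤ p := by
  unfold nmax
  have hR0 : 0 < R := by omega
  have h1 : (2 * p * (2 * p + 1) + a) / R < 2 * p + 1 := by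
    rw [Nat.div_lt_iff_lt_mul hR0]
    nlinarith
  omega

end Pool.Agent.LPX
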