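import Pool.Agent.LPX.F2
import Pool.Agent.LPX.F3
import Pool.Agent.LPX.I0

/-!
# [LPX-I1b] the primes in a short interval: lower bound
-/

set_option autoImplicit false

namespace Pool.Agent.LPX

open Finset Pool.Agent.MP_2f88e5_nt Pool.Agent.EPK

/-- [I1b] Lower bound for a short interval.

Proof. If `R = R'` both sides are clear. Otherwise `R' > 2 p`; put `J = (nmax p a / R' + 1) / 2 ≤ p` (`J_le_p`). As in I1a `cof p a r ≥ cnt p x y J r` for the
primes `r ∈ (R, R']`. So `∑_r log r cof r ≥ ∑_{n ∈ (R, R']} Λ(n) cnt p x y J n - ∑_{n not prime} Λ(n) cnt p x y J n ≥ (J / p) ∑_{n ∈ (R, R']} Λ(n) - C p^(1 - κ/8) - PP`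
(`cnt_le_one`, `level_TR`; `J R' ≤ 2 p² + 2 p + R' ≤ 16 p²`), and `(J / p) ∑ Λ(n) ≥ (J / p) ∑_r log r ≥ (2 p / R') ∑ log r - (1 / (2 p)) ∑ log r`. Finally
`1 / R' ≥ 1 / ((1 + η) R) ≥ (1 - η) / r` for `r > R` and `∑ log r / (2 p) ≤ R' log R' / (2 p) ≤ p^(1/9) log p · 2`. -/
theorem short_lower (κ : ℝ) (hκ : 0 < κ) (hκ1 : κ ≤ 1 / 9) : ∃ C : ℝ, 1 ≤ C ∧
    ∀ (p : ℕ) [Fact p.Prime] (a R R' : ℕ) (η : ℝ), 1000 ≤ p → a < 2 * p → ¬ p ∣ a →
      2 * p ≤ R → R ≤ R' → (R' : ℝ) ≤ (p : ℝ) ^ (10 / 9 - κ : ℝ) → 0 < η → η ≤ 1 →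
      (R' : ℝ) ≤ (1 + η) * R →
      -(η * (2 * p) * ∑ r ∈ (Ioc R R').filter Nat.Prime, Real.log r / r +
          C * (p : ℝ) ^ (1 - κ / 8 : ℝ)) ≤
        ∑ r ∈ (Ioc R R').filter Nat.Prime, Real.log r * (cof p a r - 2 * p / r) := by
  obtain ⟨C0, hC01, hC0⟩ := level_TR κ hκ hκ1
  obtain ⟨C1, hC11, hC1⟩ := EPK.log_absorb (1 / 9) (by norm_num) 1
  refine ⟨C0 + 5 * C1, by linarith, ?_⟩
  intro p hfp a R R' η hp1000 ha2 hpa hR hRR' hR'le hη hη1 hR'η
  have hpp : p.Prime := Fact.out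
  have hp1 : (1000 : ℝ) ≤ (p : ℝ) := by exact_mod_cast hp1000
  have hp0 : (0 : ℝ) < (p : ℝ) := by linarith
  have hpow0 : 0 < (p : ℝ) ^ (1 - κ / 8 : ℝ) := Real.rpow_pos_of_pos hp0 _
  rcases Nat.eq_or_lt_of_le hRR' with heq | hlt
  · subst heq
    simp only [Ioc_self, filter_empty, sum_empty, mul_zero, zero_add]
    have : 0 ≤ (C0 + 5 * C1) * (p : ℝ) ^ (1 - κ / 8 : ℝ) := by positivity
    linarith
  -- main case
  have hR'2p : 2 * p < R' := by omega
  have hR'0 : 0 < R' := by omega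
  set J := (nmax p a / R' + 1) / 2 with hJ
  have hJp : J ≤ p := J_le_p p a R' ha2 hR'2p
  obtain ⟨-, hJ2, hJ3⟩ := J_bounds p a R' (by omega) ha2 hR'0
  rw [← hJ] at hJ2 hJ3
  set x : ZMod p := (a : ZMod p) * 2⁻¹ with hx
  set y : ZMod p := 2⁻¹ with hy
  have h2ne : (2 : ZMod p) ≠ 0 := by
    intro h
    have h' : ((2 : ℕ) : ZMod p) = 0 := by exact_mod_cast h
    rw [ZMod.natCast_eq_zero_iff] at h'
    have := Nat.le_of_dvd (by norm_num) h'
    omega
  have hane : (a : ZMod p) ≠ 0 := by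
    intro h
    rw [ZMod.natCast_eq_zero_iff] at h
    exact hpa h
  have hxne : x ≠ 0 := mul_ne_zero hane (inv_ne_zero h2ne)
  have hR'p2 : (R' : ℝ) ≤ (p : ℝ) ^ 2 := by
    calc (R' : ℝ) ≤ (p : ℝ) ^ (10 / 9 - κ : ℝ) := hR'le
      _ ≤ (p : ℝ) ^ (2 : ℝ) := Real.rpow_le_rpow_of_exponent_le (by linarith) (by linarith)
      _ = (p : ℝ) ^ 2 := by norm_cast
  have hR'p2' : R' ≤ p ^ 2 := by exact_mod_cast hR'p2
  have hJR : J * R' ≤ 16 * p ^ 2 := by
    have : 2 * p ≤ p ^ 2 := by nlinarith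
    omega
  have hlev := hC0 p J R R' x y hp1000 (by omega) hRR' hR'le hJR hxne
  have hlev1 := (abs_le.mp hlev).1
  -- primes
  have hprime : ∀ r ∈ (Ioc R R').filter Nat.Prime,
      ArithmeticFunction.vonMangoldt r * cnt p x y J r ≤ Real.log r * cof p a r := by
    intro r hr
    rw [Finset.mem_filter, Finset.mem_Ioc] at hr
    obtain ⟨⟨hr1, hr2⟩, hrp⟩ := hr
    rw [ArithmeticFunction.vonMangoldt_apply_prime hrp]
    have hrne : (r : ZMod p) ≠ 0 := by
      intro h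
      rw [ZMod.natCast_eq_zero_iff] at h
      have := (Nat.prime_dvd_prime_iff_eq hpp hrp).mp h
      omega
    rw [cof_eq_cnt p (by omega) a r hrne]
    apply mul_le_mul_of_nonneg_left
    · apply cnt_mono
      rw [hJ]
      apply Nat.div_le_div_right
      have : nmax p a / R' ≤ nmax p a / r := Nat.div_le_div_left hr2 hrp.pos
      omega
    · apply Real.log_nonneg
      have := hrp.one_lt
      exact_mod_cast this.le
  have hsum1 : ∑ r ∈ (Ioc R R').filter Nat.Prime, ArithmeticFunction.vonMangoldt r * cnt p x y J r ≤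
      ∑ r ∈ (Ioc R R').filter Nat.Prime, Real.log r * cof p a r := Finset.sum_le_sum hprime
  have hsplit : ∑ n ∈ Ioc R R', ArithmeticFunction.vonMangoldt n * cnt p x y J n =
      ∑ r ∈ (Ioc R R').filter Nat.Prime, ArithmeticFunction.vonMangoldt r * cnt p x y J r +
        ∑ r ∈ (Ioc R R').filter (fun n => ¬ n.Prime), ArithmeticFunction.vonMangoldt r * cnt p x y J r :=
    (Finset.sum_filter_add_sum_filter_not _ _ _).symm
  have hPP := prime_powers R R'
  have hnp : ∑ r ∈ (Ioc R R').filter (fun n => ¬ n.Prime), ArithmeticFunction.vonMangoldt r * cnt p x y J r ≤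
      ∑ n ∈ (Ioc R R').filter (fun n => ¬ n.Prime), ArithmeticFunction.vonMangoldt n := by
    apply Finset.sum_le_sum
    intro n _
    have h1 := cnt_le_one p x y J n hJp
    have h2 : 0 ≤ ArithmeticFunction.vonMangoldt n := ArithmeticFunction.vonMangoldt_nonneg
    nlinarith
  have hL : ∑ r ∈ (Ioc R R').filter Nat.Prime, Real.log r ≤ ∑ n ∈ Ioc R R', ArithmeticFunction.vonMangoldt n := by
    rw [← Finset.sum_filter_add_sum_filter_not (Ioc R R') Nat.Prime]
    have h1 : ∑ r ∈ (Ioc R R').filter Nat.Prime, Real.log r =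
        ∑ r ∈ (Ioc R R').filter Nat.Prime, ArithmeticFunction.vonMangoldt r := by
      apply Finset.sum_congr rfl
      intro r hr
      rw [ArithmeticFunction.vonMangoldt_apply_prime (Finset.mem_filter.mp hr).2]
    rw [h1]
    have h2 : 0 ≤ ∑ r ∈ (Ioc R R').filter (fun n => ¬ n.Prime), ArithmeticFunction.vonMangoldt r :=
      Finset.sum_nonneg (fun _ _ => ArithmeticFunction.vonMangoldt_nonneg)
    linarith
  have hLnn : 0 ≤ ∑ r ∈ (Ioc R R').filter Nat.Prime, Real.log r := by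
    apply Finset.sum_nonneg
    intro r hr
    apply Real.log_nonneg
    have := (Finset.mem_filter.mp hr).2.one_lt
    exact_mod_cast this.le
  have hJnn : 0 ≤ (J : ℝ) / p := by positivity
  -- logs
  have hR'R : (0 : ℝ) < (R' : ℝ) := by exact_mod_cast hR'0
  have hlogp : 0 < Real.log p := Real.log_pos (by linarith)
  have hlogR' : Real.log R' ≤ 2 * Real.log p := by
    calc Real.log R' ≤ Real.log ((p : ℝ) ^ 2) := Real.log_le_log hR'R hR'p2
      _ = 2 * Real.log p := by rw [Real.log_pow]; norm_num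
  have hlogR'0 : 0 ≤ Real.log R' := Real.log_nonneg (by exact_mod_cast hR'0)
  have hLle : ∑ r ∈ (Ioc R R').filter Nat.Prime, Real.log r ≤ R' * Real.log R' := by
    calc ∑ r ∈ (Ioc R R').filter Nat.Prime, Real.log r
        ≤ ∑ r ∈ (Ioc R R').filter Nat.Prime, Real.log R' := by
          apply Finset.sum_le_sum
          intro r hr
          rw [Finset.mem_filter, Finset.mem_Ioc] at hr
          apply Real.log_le_log
          · exact_mod_cast hr.2.pos
          · exact_mod_cast hr.1.2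
      _ = ((Ioc R R').filter Nat.Prime).card * Real.log R' := by
          rw [Finset.sum_const, nsmul_eq_mul]
      _ ≤ R' * Real.log R' := by
          apply mul_le_mul_of_nonneg_right _ hlogR'0
          have : ((Ioc R R').filter Nat.Prime).card ≤ R' := by
            calc ((Ioc R R').filter Nat.Prime).card ≤ (Ioc R R').card := Finset.card_filter_le _ _
              _ = R' - R := Nat.card_Ioc R R'
              _ ≤ R' := Nat.sub_le _ _
          exact_mod_cast this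
  -- power bounds
  have hR'109 : (R' : ℝ) ≤ (p : ℝ) ^ (10 / 9 : ℝ) :=
    le_trans hR'le (Real.rpow_le_rpow_of_exponent_le (by linarith) (by linarith))
  have hsqrt : Real.sqrt R' ≤ (p : ℝ) ^ (5 / 9 : ℝ) := by
    rw [Real.sqrt_le_left (by positivity)]
    calc (R' : ℝ) ≤ (p : ℝ) ^ (10 / 9 : ℝ) := hR'109
      _ = ((p : ℝ) ^ (5 / 9 : ℝ)) ^ 2 := by
          rw [← Real.rpow_natCast, ← Real.rpow_mul hp0.le]; norm_num
  have hlogabs : Real.log p ≤ C1 * (p : ℝ) ^ (1 / 9 : ℝ) := by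
    have := hC1 p (by omega)
    rw [pow_one] at this
    linarith
  have hA : 1 / (2 * (p : ℝ)) * ∑ r ∈ (Ioc R R').filter Nat.Prime, Real.log r ≤ C1 * (p : ℝ) ^ (1 - κ / 8 : ℝ) := by
    calc 1 / (2 * (p : ℝ)) * ∑ r ∈ (Ioc R R').filter Nat.Prime, Real.log r
        ≤ 1 / (2 * (p : ℝ)) * ((p : ℝ) ^ (10 / 9 : ℝ) * (2 * (C1 * (p : ℝ) ^ (1 / 9 : ℝ)))) := by
          apply mul_le_mul_of_nonneg_left _ (by positivity)
          refine le_trans hLle ?_
          apply mul_le_mul hR'109 _ hlogR'0 (by positivity)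
          linarith
      _ = C1 * (p : ℝ) ^ (2 / 9 : ℝ) := by
          have h1 : (p : ℝ) ^ (10 / 9 : ℝ) = (p : ℝ) * (p : ℝ) ^ (1 / 9 : ℝ) := by
            nth_rewrite 2 [← Real.rpow_one (p : ℝ)]
            rw [← Real.rpow_add hp0]; norm_num
          have h2 : (p : ℝ) ^ (2 / 9 : ℝ) = (p : ℝ) ^ (1 / 9 : ℝ) * (p : ℝ) ^ (1 / 9 : ℝ) := by
            rw [← Real.rpow_add hp0]; norm_num
          rw [h1, h2]
          field_simp
      _ ≤ C1 * (p : ℝ) ^ (1 - κ / 8 : ℝ) := by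
          apply mul_le_mul_of_nonneg_left _ (by linarith)
          exact Real.rpow_le_rpow_of_exponent_le (by linarith) (by linarith)
  have hB : 2 * Real.sqrt R' * Real.log R' ≤ 4 * C1 * (p : ℝ) ^ (1 - κ / 8 : ℝ) := by
    calc 2 * Real.sqrt R' * Real.log R' ≤ 2 * (p : ℝ) ^ (5 / 9 : ℝ) * (2 * (C1 * (p : ℝ) ^ (1 / 9 : ℝ))) := by
          apply mul_le_mul _ _ hlogR'0 (by positivity)
          · linarith
          · linarith
      _ = 4 * C1 * (p : ℝ) ^ (2 / 3 : ℝ) := by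
          have h2 : (p : ℝ) ^ (2 / 3 : ℝ) = (p : ℝ) ^ (5 / 9 : ℝ) * (p : ℝ) ^ (1 / 9 : ℝ) := by
            rw [← Real.rpow_add hp0]; norm_num
          rw [h2]; ring
      _ ≤ 4 * C1 * (p : ℝ) ^ (1 - κ / 8 : ℝ) := by
          apply mul_le_mul_of_nonneg_left _ (by linarith)
          exact Real.rpow_le_rpow_of_exponent_le (by linarith) (by linarith)
  -- the main comparison
  have hmain : (1 - η) * (2 * p) * ∑ r ∈ (Ioc R R').filter Nat.Prime, Real.log r / r ≤
      2 * p / (R' : ℝ) * ∑ r ∈ (Ioc R R').filter Nat.Prime, Real.log r := by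
    rw [Finset.mul_sum, Finset.mul_sum]
    apply Finset.sum_le_sum
    intro r hr
    rw [Finset.mem_filter, Finset.mem_Ioc] at hr
    obtain ⟨⟨hr1, hr2⟩, hrp⟩ := hr
    have hr0 : (0 : ℝ) < (r : ℝ) := by exact_mod_cast hrp.pos
    have hlr : 0 ≤ Real.log r := Real.log_nonneg (by exact_mod_cast hrp.one_lt.le)
    have hRr : (R : ℝ) ≤ r := by exact_mod_cast hr1.le
    have h1 : (1 - η) * R' ≤ r := by
      have h2 : (R' : ℝ) ≤ (1 + η) * r := le_trans hR'η (mul_le_mul_of_nonneg_left hRr (by linarith))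
      have h3 : (1 - η) * R' ≤ (1 - η) * ((1 + η) * r) := mul_le_mul_of_nonneg_left h2 (by linarith)
      nlinarith [mul_pos hη hη]
    have h2 : (1 - η) / r ≤ 1 / R' := by
      rw [div_le_div_iff₀ hr0 hR'R]
      linarith
    calc (1 - η) * (2 * p) * (Real.log r / r) = (2 * p * Real.log r) * ((1 - η) / r) := by
          field_simp
      _ ≤ (2 * p * Real.log r) * (1 / R') := mul_le_mul_of_nonneg_left h2 (by positivity)
      _ = 2 * p / R' * Real.log r := by ring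
  have hJL : (2 * p / (R' : ℝ) - 1 / (2 * p)) * ∑ r ∈ (Ioc R R').filter Nat.Prime, Real.log r ≤
      (J : ℝ) / p * ∑ n ∈ Ioc R R', ArithmeticFunction.vonMangoldt n := by
    calc (2 * p / (R' : ℝ) - 1 / (2 * p)) * ∑ r ∈ (Ioc R R').filter Nat.Prime, Real.log r
        ≤ (J : ℝ) / p * ∑ r ∈ (Ioc R R').filter Nat.Prime, Real.log r :=
          mul_le_mul_of_nonneg_right hJ2 hLnn
      _ ≤ (J : ℝ) / p * ∑ n ∈ Ioc R R', ArithmeticFunction.vonMangoldt n :=
          mul_le_mul_of_nonneg_left hL hJnn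
  have hgoal : ∑ r ∈ (Ioc R R').filter Nat.Prime, Real.log r * (cof p a r - 2 * p / r) =
      ∑ r ∈ (Ioc R R').filter Nat.Prime, Real.log r * cof p a r -
        2 * p * ∑ r ∈ (Ioc R R').filter Nat.Prime, Real.log r / r := by
    rw [Finset.mul_sum, ← Finset.sum_sub_distrib]
    apply Finset.sum_congr rfl
    intro r _
    ring
  rw [hgoal]
  set S := ∑ r ∈ (Ioc R R').filter Nat.Prime, Real.log r / r with hS
  set L := ∑ r ∈ (Ioc R R').filter Nat.Prime, Real.log r with hLdef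
  set W := (p : ℝ) ^ (1 - κ / 8 : ℝ) with hW
  have e1 : (1 - η) * (2 * p) * S = 2 * p * S - η * (2 * p) * S := by ring
  have e2 : (2 * p / (R' : ℝ) - 1 / (2 * p)) * L = 2 * p / (R' : ℝ) * L - 1 / (2 * p) * L := by ring
  have e3 : (C0 + 5 * C1) * W = C0 * W + C1 * W + 4 * C1 * W := by ring
  rw [e1] at hmain
  rw [e2] at hJL
  rw [e3]
  linarith

end Pool.Agent.LPX
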