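import Pool.Agent.LPX.F2
import Pool.Agent.LPX.F3
import Pool.Agent.LPX.I0

/-!
# [LPX-I1a] the primes in a short interval: upper bound
-/

set_option autoImplicit false

namespace Pool.Agent.LPX

open Finset Pool.Agent.MP_2f88e5_nt Pool.Agent.EPK

/-- auxiliary: a prime larger than `p` is not `0` modulo `p` -/
theorem i1a_ne (p : ℕ) [Fact p.Prime] (r : ℕ) (hr : r.Prime) (h : p < r) : (r : ZMod p) ≠ 0 := by
  intro h0
  rw [ZMod.natCast_eq_zero_iff] at h0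
  rcases (Nat.dvd_prime hr).mp h0 with h1 | h1
  · exact (Fact.out : p.Prime).one_lt.ne' h1
  · omega

/-- auxiliary: the starting point is not `0` -/
theorem i1a_x (p : ℕ) [Fact p.Prime] (a : ℕ) (hp : 2 < p) (ha : ¬ p ∣ a) :
    (a : ZMod p) * 2⁻¹ ≠ 0 := by
  have h1 : (a : ZMod p) ≠ 0 := by
    intro h0
    rw [ZMod.natCast_eq_zero_iff] at h0
    exact ha h0
  have h2 : (2 : ZMod p) ≠ 0 := by
    intro h0
    have h3 : ((2 : ℕ) : ZMod p) = 0 := by exact_mod_cast h0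
    rw [ZMod.natCast_eq_zero_iff] at h3
    have := Nat.le_of_dvd (by norm_num) h3
    omega
  exact mul_ne_zero h1 (inv_ne_zero h2)

/-- auxiliary: the sum of `Λ` over an interval -/
theorem i1a_split (R R' : ℕ) (f : ℕ → ℝ) :
    ∑ n ∈ Ioc R R', ArithmeticFunction.vonMangoldt n * f n =
      ∑ r ∈ (Ioc R R').filter Nat.Prime, Real.log r * f r +
        ∑ n ∈ (Ioc R R').filter (fun n => ¬ n.Prime), ArithmeticFunction.vonMangoldt n * f n := by
  rw [← Finset.sum_filter_add_sum_filter_not (Ioc R R') Nat.Prime]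
  congr 1
  refine sum_congr rfl fun r hr => ?_
  rw [ArithmeticFunction.vonMangoldt_apply_prime (mem_filter.mp hr).2]

/-- [I1a] Upper bound for a short interval.

Proof. Let `x = a 2⁻¹ ≠ 0`, `y = 2⁻¹`, `J = (nmax p a / R + 1) / 2`. For a prime `r ∈ (R, R']`: `r ≠ 0` in `ZMod p` (`r > 2 p` is prime),
`cof p a r = cnt p x y ((nmax p a / r + 1) / 2) r ≤ cnt p x y J r` (`cof_eq_cnt`, `cnt_mono`, `nmax / r ≤ nmax / R`), and `Λ(r) = log r`; all terms are `≥ 0`: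
`∑_r log r cof r ≤ ∑_{n ∈ (R, R']} Λ(n) cnt p x y J n ≤ (J / p) ∑_{n ∈ (R, R']} Λ(n) + C p^(1 - κ/8)` by `level_TR` (`J R' ≤ J (2 R) ≤ 2 (2 p² + 2 p + R) ≤ 16 p²`,
`J_bounds`, `R ≤ p^(10/9) ≤ p²`). Here `∑ Λ(n) = ∑_r log r + PP`, `PP ≤ 2 √R' log R'` (`prime_powers`); `J / p ≤ (2 p + 2) / R + 1 / (2 p) ≤ 2` as
`R ≥ 2 p`. So the sum is at most `(2 p / R) ∑ log r + (2 / R + 1 / (2 p)) ∑ log r + 4 √R' log R' + C p^(1 - κ/8)`. First term: `1 / R ≤ (1 + η) / R' ≤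
(1 + η) / r`. Second: `(3 / (2 p)) R' log R' ≤ 3 p^(1/9) log p` (`log R' ≤ (10/9) log p ≤ 2 log p`); third `≤ 8 p^(5/9) log p`; both are `≤ C' p^(1 - κ/8)` as
`log p ≤ C'' p^(1/9)` (`EPK.log_absorb`) and `5/9 + 1/9 ≤ 1 - κ/8`. -/
theorem short_upper (κ : ℝ) (hκ : 0 < κ) (hκ1 : κ ≤ 1 / 9) : ∃ C : ℝ, 1 ≤ C ∧
    ∀ (p : ℕ) [Fact p.Prime] (a R R' : ℕ) (η : ℝ), 1000 ≤ p → a < 2 * p → ¬ p ∣ a →
      2 * p ≤ R → R ≤ R' → (R' : ℝ) ≤ (p : ℝ) ^ (10 / 9 - κ : ℝ) → 0 < η → η ≤ 1 →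
      (R' : ℝ) ≤ (1 + η) * R →
      ∑ r ∈ (Ioc R R').filter Nat.Prime, Real.log r * (cof p a r - 2 * p / r) ≤
        η * (2 * p) * ∑ r ∈ (Ioc R R').filter Nat.Prime, Real.log r / r +
          C * (p : ℝ) ^ (1 - κ / 8 : ℝ) := by
  obtain ⟨C₀, hC₀, h0⟩ := level_TR κ hκ hκ1
  obtain ⟨C₁, hC₁, h1⟩ := log_absorb (1 / 9) (by norm_num) 1
  refine ⟨C₀ + 11 * C₁, by linarith, ?_⟩
  intro p _ a R R' η hp ha2 ha hR hRR hR' hη hη1 hη2
  have hpR : p ≤ R := by omega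
  have hR0 : 0 < R := by omega
  have hP : (1000 : ℝ) ≤ p := by exact_mod_cast hp
  have hP0 : (0 : ℝ) < p := by linarith
  have hRr : 2 * (p : ℝ) ≤ R := by exact_mod_cast hR
  have hRr0 : (0 : ℝ) < R := by linarith
  have hRRr : (R : ℝ) ≤ R' := by exact_mod_cast hRR
  have hR'0 : (0 : ℝ) < R' := by linarith
  set J : ℕ := (nmax p a / R + 1) / 2 with hJ
  set x : ZMod p := (a : ZMod p) * 2⁻¹ with hx
  set y : ZMod p := 2⁻¹ with hy
  obtain ⟨hJ1, -, hJ3⟩ := J_bounds p a R (by omega) ha2 hR0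
  rw [← hJ] at hJ1 hJ3
  -- the size of `R'`
  have hR'1 : (R' : ℝ) ≤ (p : ℝ) ^ (10 / 9 : ℝ) :=
    hR'.trans (Real.rpow_le_rpow_of_exponent_le (by linarith) (by linarith))
  have hR'2 : (R' : ℝ) ≤ (p : ℝ) ^ 2 := by
    refine hR'1.trans ?_
    rw [← Real.rpow_natCast (p : ℝ) 2]
    exact Real.rpow_le_rpow_of_exponent_le (by linarith) (by norm_num)
  have hJR : J * R' ≤ 16 * p ^ 2 := by
    have e1 : (J : ℝ) * R' ≤ 16 * (p : ℝ) ^ 2 := by
      have e2 : (R' : ℝ) ≤ 2 * R := by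
        refine hη2.trans ?_
        exact mul_le_mul_of_nonneg_right (by linarith) hRr0.le
      have e3 : (J : ℝ) * R ≤ 2 * (p : ℝ) ^ 2 + 2 * p + R := by exact_mod_cast hJ3
      have e4 : (J : ℝ) * R' ≤ J * (2 * R) := mul_le_mul_of_nonneg_left e2 (by positivity)
      nlinarith
    exact_mod_cast e1
  have hlev := h0 p J R R' x y hp hpR hRR hR' hJR (i1a_x p a (by omega) ha)
  have hlev' := (abs_le.mp hlev).2
  -- step 1
  have s1 : ∑ r ∈ (Ioc R R').filter Nat.Prime, Real.log r * cof p a r ≤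
      ∑ n ∈ Ioc R R', ArithmeticFunction.vonMangoldt n * cnt p x y J n := by
    rw [i1a_split]
    have e1 : 0 ≤ ∑ n ∈ (Ioc R R').filter (fun n => ¬ n.Prime),
        ArithmeticFunction.vonMangoldt n * cnt p x y J n :=
      sum_nonneg fun n _ => mul_nonneg ArithmeticFunction.vonMangoldt_nonneg (cnt_nonneg p x y J n)
    have e2 : ∑ r ∈ (Ioc R R').filter Nat.Prime, Real.log r * cof p a r ≤
        ∑ r ∈ (Ioc R R').filter Nat.Prime, Real.log r * cnt p x y J r := by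
      refine sum_le_sum fun r hr => ?_
      rw [mem_filter, mem_Ioc] at hr
      refine mul_le_mul_of_nonneg_left ?_ (Real.log_nonneg (by exact_mod_cast hr.2.one_le))
      rw [cof_eq_cnt p (by omega) a r (i1a_ne p r hr.2 (by omega))]
      refine cnt_mono p _ _ _ _ r ?_
      rw [hJ]
      have := Nat.div_le_div_left (a := nmax p a) hr.1.1.le hR0
      omega
    linarith
  -- the sum of `Λ`
  set S : ℝ := ∑ r ∈ (Ioc R R').filter Nat.Prime, Real.log r with hS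
  have s2 : ∑ n ∈ Ioc R R', ArithmeticFunction.vonMangoldt n ≤ S + 2 * Real.sqrt R' * Real.log R' := by
    have e1 := i1a_split R R' (fun _ => 1)
    simp only [mul_one] at e1
    rw [e1]
    have := prime_powers R R'
    linarith
  have hlogR' : 0 ≤ Real.log R' := Real.log_nonneg (by linarith)
  have hS0 : 0 ≤ S := sum_nonneg fun r hr => Real.log_nonneg (by
    rw [mem_filter] at hr
    exact_mod_cast hr.2.one_le)
  have hS1 : S ≤ R' * Real.log R' := by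
    have e1 : S ≤ ∑ r ∈ (Ioc R R').filter Nat.Prime, Real.log R' := by
      refine sum_le_sum fun r hr => ?_
      rw [mem_filter, mem_Ioc] at hr
      refine Real.log_le_log ?_ (by exact_mod_cast hr.1.2)
      exact_mod_cast hr.2.pos
    rw [sum_const, nsmul_eq_mul] at e1
    refine e1.trans (mul_le_mul_of_nonneg_right ?_ hlogR')
    have e2 : ((Ioc R R').filter Nat.Prime).card ≤ R' := by
      refine (card_filter_le _ _).trans ?_
      rw [Nat.card_Ioc]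
      omega
    exact_mod_cast e2
  have hlog2 : Real.log R' ≤ 2 * Real.log p := by
    have e1 : Real.log R' ≤ Real.log ((p : ℝ) ^ 2) := Real.log_le_log hR'0 hR'2
    rw [Real.log_pow] at e1
    exact_mod_cast e1
  have hlogp : 0 ≤ Real.log p := Real.log_nonneg (by linarith)
  have hlogp1 : Real.log p ≤ C₁ * (p : ℝ) ^ (1 / 9 : ℝ) := by
    have := h1 p (by omega)
    rw [pow_one] at this
    linarith
  have hsqrt : Real.sqrt R' ≤ (p : ℝ) ^ (5 / 9 : ℝ) := by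
    refine (Real.sqrt_le_sqrt hR'1).trans (le_of_eq ?_)
    rw [Real.sqrt_eq_rpow, ← Real.rpow_mul hP0.le]
    norm_num
  have hjp : (J : ℝ) / p ≤ 2 := by
    refine hJ1.trans ?_
    have e1 : (2 * (p : ℝ) + 2) / R ≤ 3 / 2 := by
      rw [div_le_div_iff₀ hRr0 (by norm_num)]
      linarith
    have e2 : 1 / (2 * (p : ℝ)) ≤ 1 / 2 := by
      rw [div_le_div_iff₀ (by positivity) (by norm_num)]
      linarith
    linarith
  have hjp0 : 0 ≤ (J : ℝ) / p := by positivity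
  -- step 3
  have hPP0 : 0 ≤ 2 * Real.sqrt R' * Real.log R' := by positivity
  have s3 : (J : ℝ) / p * ∑ n ∈ Ioc R R', ArithmeticFunction.vonMangoldt n ≤
      2 * p / R * S + (3 / (2 * p)) * S + 2 * (2 * Real.sqrt R' * Real.log R') := by
    have e1 : (J : ℝ) / p ≤ 2 * p / R + 3 / (2 * p) := by
      refine hJ1.trans ?_
      have e2 : 2 / (R : ℝ) ≤ 2 / (2 * p) := div_le_div_of_nonneg_left (by norm_num) (by positivity) hRr
      have e3 : (2 * (p : ℝ) + 2) / R = 2 * p / R + 2 / R := by ring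
      have e4 : (3 : ℝ) / (2 * p) = 2 / (2 * p) + 1 / (2 * p) := by ring
      rw [e3, e4]
      linarith
    calc (J : ℝ) / p * ∑ n ∈ Ioc R R', ArithmeticFunction.vonMangoldt n
        ≤ (J : ℝ) / p * (S + 2 * Real.sqrt R' * Real.log R') := mul_le_mul_of_nonneg_left s2 hjp0
      _ = (J : ℝ) / p * S + (J : ℝ) / p * (2 * Real.sqrt R' * Real.log R') := by ring
      _ ≤ (2 * p / R + 3 / (2 * p)) * S + 2 * (2 * Real.sqrt R' * Real.log R') :=
          add_le_add (mul_le_mul_of_nonneg_right e1 hS0) (mul_le_mul_of_nonneg_right hjp hPP0)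
      _ = _ := by ring
  have s4 : (3 / (2 * (p : ℝ))) * S ≤ 3 * (p : ℝ) ^ (5 / 9 : ℝ) * Real.log p := by
    have e1 : (R' : ℝ) / p ≤ (p : ℝ) ^ (1 / 9 : ℝ) := by
      rw [div_le_iff₀ hP0]
      refine hR'1.trans (le_of_eq ?_)
      have : (10 / 9 : ℝ) = 1 / 9 + 1 := by norm_num
      rw [this, Real.rpow_add_one hP0.ne']
    have e2 : (p : ℝ) ^ (1 / 9 : ℝ) ≤ (p : ℝ) ^ (5 / 9 : ℝ) :=
      Real.rpow_le_rpow_of_exponent_le (by linarith) (by norm_num)
    calc (3 / (2 * (p : ℝ))) * S ≤ (3 / (2 * (p : ℝ))) * (R' * (2 * Real.log p)) := by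
          refine mul_le_mul_of_nonneg_left (hS1.trans ?_) (by positivity)
          exact mul_le_mul_of_nonneg_left hlog2 hR'0.le
      _ = 3 * (R' / p) * Real.log p := by
          field_simp
      _ ≤ 3 * (p : ℝ) ^ (5 / 9 : ℝ) * Real.log p := by
          refine mul_le_mul_of_nonneg_right ?_ hlogp
          linarith
  have s5 : 2 * (2 * Real.sqrt R' * Real.log R') ≤ 8 * (p : ℝ) ^ (5 / 9 : ℝ) * Real.log p := by
    have e1 : Real.sqrt R' * Real.log R' ≤ (p : ℝ) ^ (5 / 9 : ℝ) * (2 * Real.log p) :=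
      mul_le_mul hsqrt hlog2 hlogR' (by positivity)
    linarith
  have s6 : 11 * (p : ℝ) ^ (5 / 9 : ℝ) * Real.log p ≤ 11 * C₁ * (p : ℝ) ^ (1 - κ / 8 : ℝ) := by
    have e1 : (p : ℝ) ^ (5 / 9 : ℝ) * (p : ℝ) ^ (1 / 9 : ℝ) ≤ (p : ℝ) ^ (1 - κ / 8 : ℝ) := by
      rw [← Real.rpow_add hP0]
      exact Real.rpow_le_rpow_of_exponent_le (by linarith) (by linarith)
    have e2 : (p : ℝ) ^ (5 / 9 : ℝ) * Real.log p ≤
        (p : ℝ) ^ (5 / 9 : ℝ) * (C₁ * (p : ℝ) ^ (1 / 9 : ℝ)) :=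
      mul_le_mul_of_nonneg_left hlogp1 (by positivity)
    have e3 : C₁ * ((p : ℝ) ^ (5 / 9 : ℝ) * (p : ℝ) ^ (1 / 9 : ℝ)) ≤
        C₁ * (p : ℝ) ^ (1 - κ / 8 : ℝ) := mul_le_mul_of_nonneg_left e1 (by linarith)
    nlinarith
  -- the main term
  have s7 : 2 * p / R * S ≤ (1 + η) * (2 * p) *
      ∑ r ∈ (Ioc R R').filter Nat.Prime, Real.log r / r := by
    rw [hS, mul_sum, mul_sum]
    refine sum_le_sum fun r hr => ?_
    rw [mem_filter, mem_Ioc] at hr
    have hr0 : (0 : ℝ) < r := by exact_mod_cast hr.2.pos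
    have hlr : 0 ≤ Real.log r := Real.log_nonneg (by exact_mod_cast hr.2.one_le)
    have hrR : (r : ℝ) ≤ (1 + η) * R := le_trans (by exact_mod_cast hr.1.2) hη2
    have e1 : 1 / (R : ℝ) ≤ (1 + η) / r := by
      rw [div_le_div_iff₀ hRr0 hr0]
      linarith
    calc 2 * p / R * Real.log r = (2 * p * Real.log r) * (1 / (R : ℝ)) := by ring
      _ ≤ (2 * p * Real.log r) * ((1 + η) / r) := mul_le_mul_of_nonneg_left e1 (by positivity)
      _ = (1 + η) * (2 * p) * (Real.log r / r) := by ring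
  have s8 : ∑ r ∈ (Ioc R R').filter Nat.Prime, Real.log r * (cof p a r - 2 * p / r) =
      ∑ r ∈ (Ioc R R').filter Nat.Prime, Real.log r * cof p a r -
        2 * p * ∑ r ∈ (Ioc R R').filter Nat.Prime, Real.log r / r := by
    rw [mul_sum, ← sum_sub_distrib]
    refine sum_congr rfl fun r _ => ?_
    ring
  rw [s8]
  have e9 : (C₀ + 11 * C₁) * (p : ℝ) ^ (1 - κ / 8 : ℝ) =
      C₀ * (p : ℝ) ^ (1 - κ / 8 : ℝ) + 11 * C₁ * (p : ℝ) ^ (1 - κ / 8 : ℝ) := by ring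
  rw [e9]
  linarith

end Pool.Agent.LPX
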