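import Pool.Agent.LPX.I1
import Pool.Agent.LPX.I2

/-!
# [LPX-I3] the primes up to `p^(10/9 - κ)`, with the weights `log r`
-/

set_option autoImplicit false

namespace Pool.Agent.LPX

open Finset Pool.Agent.MP_2f88e5_nt Pool.Agent.EPK

/-- [I3] The asymptotic formula with the weights `log r`.

Proof. `η = p^(-κ/16) ≤ 1`, `2 / η = 2 p^(κ/16) ≤ 2 p ≤ Y`: `grid`, `sum_grid`, and `short_upper`, `short_lower` for every interval: with `C₀` the larger of the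
two constants, the absolute value is at most `η (2 p) ∑_{r ∈ (Y, Z]} log r / r + n C₀ p^(1 - κ/8)`. Here `∑ log r / r ≤ log Z ∑_{n ≤ Z} 1 / n ≤ log Z (1 + log Z)
≤ 2 log p (1 + 2 log p)` and `n ≤ 4 log (Z / Y) / η + 1 ≤ 8 log p · p^(κ/16) + 1`. So the total is at most
`2 p^(1 - κ/16) · 2 log p (1 + 2 log p) + (8 log p + 1) C₀ p^(1 - κ/16)`, and `(3 + log p)² ≤ C₂ p^(κ/32)` (`EPK.log_absorb (κ/32) 2`). -/
theorem level_log (κ : ℝ) (hκ : 0 < κ) (hκ1 : κ ≤ 1 / 9) : ∃ C : ℝ, 1 ≤ C ∧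
    ∀ (p : ℕ) [Fact p.Prime] (a Y Z : ℕ), 1000 ≤ p → a < 2 * p → ¬ p ∣ a → 2 * p ≤ Y → Y ≤ Z →
      (Z : ℝ) ≤ (p : ℝ) ^ (10 / 9 - κ : ℝ) →
      |∑ r ∈ (Ioc Y Z).filter Nat.Prime, Real.log r * (cof p a r - 2 * p / r)| ≤
        C * (p : ℝ) ^ (1 - κ / 32 : ℝ) := by
  obtain ⟨Cu, hCu, hup⟩ := short_upper κ hκ hκ1
  obtain ⟨Cl, hCl, hlo⟩ := short_lower κ hκ hκ1
  obtain ⟨C₂, hC₂, hlog⟩ := EPK.log_absorb (κ / 32) (by linarith) 2
  set C₀ : ℝ := max Cu Cl with hC₀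
  have hC₀1 : 1 ≤ C₀ := hCu.trans (le_max_left _ _)
  refine ⟨(8 + 8 * C₀) * C₂, by nlinarith, ?_⟩
  intro p _ a Y Z hp ha hpa hY hYZ hZ
  have hp0 : (0 : ℝ) < p := by
    have : 0 < p := by omega
    exact_mod_cast this
  have hp1 : (1 : ℝ) ≤ p := by exact_mod_cast (by omega : 1 ≤ p)
  have hL0 : 0 ≤ Real.log p := Real.log_nonneg hp1
  have hY0 : (0 : ℝ) < Y := by exact_mod_cast (by omega : 0 < Y)
  have hY1 : (1 : ℝ) ≤ Y := by exact_mod_cast (by omega : 1 ≤ Y)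
  have hZ0 : (0 : ℝ) < Z := by exact_mod_cast (by omega : 0 < Z)
  have hZ1 : (1 : ℝ) ≤ Z := by exact_mod_cast (by omega : 1 ≤ Z)
  have hlogZ : Real.log Z ≤ 2 * Real.log p := by
    have h1 := Real.log_le_log hZ0 hZ
    rw [Real.log_rpow hp0] at h1
    nlinarith
  have hlogZ0 : 0 ≤ Real.log Z := Real.log_nonneg hZ1
  set η : ℝ := (p : ℝ) ^ (-(κ / 16) : ℝ) with hη
  have hη0 : 0 < η := Real.rpow_pos_of_pos hp0 _
  have hη1 : η ≤ 1 := Real.rpow_le_one_of_one_le_of_nonpos hp1 (by linarith)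
  set u : ℝ := (p : ℝ) ^ (κ / 16 : ℝ) with hu
  have hu1 : 1 ≤ u := Real.one_le_rpow hp1 (by linarith)
  have hηu : η * u = 1 := by
    rw [hη, hu, ← Real.rpow_add hp0]
    simp
  have hinv : 1 / η = u := by
    rw [div_eq_iff hη0.ne']; linarith
  have hup1 : u ≤ p := by
    have := Real.rpow_le_rpow_of_exponent_le hp1 (show κ / 16 ≤ (1 : ℝ) by linarith)
    rwa [Real.rpow_one] at this
  have hηY : 2 / η ≤ (Y : ℝ) := by
    have h1 : 2 / η = 2 * u := by rw [← hinv]; ring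
    rw [h1]
    have h2 : ((2 * p : ℕ) : ℝ) ≤ Y := by exact_mod_cast hY
    push_cast at h2
    linarith
  obtain ⟨n, R, hR0, hRn, hRmono, hRη, hRY, hRZ, hn⟩ := grid η hη0 hη1 Y Z hηY hYZ
  set P1 : ℝ := (p : ℝ) ^ (1 - κ / 8 : ℝ) with hP1
  have hP10 : 0 < P1 := Real.rpow_pos_of_pos hp0 _
  -- one short interval
  have hone : ∀ i ∈ range n,
      |∑ r ∈ (Ioc (R i) (R (i + 1))).filter Nat.Prime, Real.log r * (cof p a r - 2 * p / r)| ≤
      η * (2 * p) * ∑ r ∈ (Ioc (R i) (R (i + 1))).filter Nat.Prime, Real.log r / r + C₀ * P1 := by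
    intro i _
    have h2R : 2 * p ≤ R i := hY.trans (hRY i)
    have hRZ' : ((R (i + 1) : ℕ) : ℝ) ≤ (p : ℝ) ^ (10 / 9 - κ : ℝ) := by
      have : ((R (i + 1) : ℕ) : ℝ) ≤ Z := by exact_mod_cast hRZ (i + 1)
      linarith
    have h1 := hup p a (R i) (R (i + 1)) η hp ha hpa h2R (hRmono i) hRZ' hη0 hη1 (hRη i)
    have h2 := hlo p a (R i) (R (i + 1)) η hp ha hpa h2R (hRmono i) hRZ' hη0 hη1 (hRη i)
    have h3 : Cu * P1 ≤ C₀ * P1 := mul_le_mul_of_nonneg_right (le_max_left _ _) hP10.le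
    have h4 : Cl * P1 ≤ C₀ * P1 := mul_le_mul_of_nonneg_right (le_max_right _ _) hP10.le
    rw [abs_le]
    constructor
    · linarith
    · linarith
  have hsplit := sum_grid n R hRmono (fun r => Real.log r * (cof p a r - 2 * p / r)) Nat.Prime
  rw [hR0, hRn] at hsplit
  have hsplit2 := sum_grid n R hRmono (fun r => Real.log r / r) Nat.Prime
  rw [hR0, hRn] at hsplit2
  have hlogsum : ∑ r ∈ (Ioc Y Z).filter Nat.Prime, Real.log r / r ≤
      2 * Real.log p * (1 + 2 * Real.log p) := by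
    have h1 : ∑ r ∈ (Ioc Y Z).filter Nat.Prime, Real.log r / r ≤
        ∑ r ∈ Icc 1 Z, Real.log Z * ((r : ℝ))⁻¹ := by
      refine (Finset.sum_le_sum_of_subset_of_nonneg (s := (Ioc Y Z).filter Nat.Prime)
        (t := Icc 1 Z) ?_ ?_).trans (Finset.sum_le_sum ?_)
      · intro r hr
        rw [Finset.mem_filter, Finset.mem_Ioc] at hr
        rw [Finset.mem_Icc]
        omega
      · intro r _ _
        exact div_nonneg (Real.log_natCast_nonneg r) (Nat.cast_nonneg r)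
      · intro r hr
        rw [Finset.mem_Icc] at hr
        have hr0 : (0 : ℝ) < r := by exact_mod_cast (by omega : 0 < r)
        rw [div_eq_mul_inv]
        exact mul_le_mul_of_nonneg_right
          (Real.log_le_log hr0 (by exact_mod_cast hr.2)) (inv_nonneg.2 hr0.le)
    have h2 : ∑ r ∈ Icc 1 Z, Real.log Z * ((r : ℝ))⁻¹ ≤ Real.log Z * (1 + Real.log Z) := by
      rw [← Finset.mul_sum]
      refine mul_le_mul_of_nonneg_left ?_ hlogZ0
      have h3 := harmonic_le_one_add_log Z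
      rw [harmonic_eq_sum_Icc] at h3
      push_cast at h3
      exact h3
    refine h1.trans (h2.trans ?_)
    nlinarith
  have hn2 : (n : ℝ) ≤ 8 * Real.log p * u + 1 := by
    refine hn.trans ?_
    have h1 : Real.log ((Z : ℝ) / Y) ≤ 2 * Real.log p := by
      refine le_trans ?_ hlogZ
      refine Real.log_le_log (div_pos hZ0 hY0) ?_
      rw [div_le_iff₀ hY0]
      nlinarith
    have h2 : 4 * Real.log ((Z : ℝ) / Y) / η = 4 * Real.log ((Z : ℝ) / Y) * u := by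
      rw [← hinv]; ring
    rw [h2]
    nlinarith
  have htot : |∑ r ∈ (Ioc Y Z).filter Nat.Prime, Real.log r * (cof p a r - 2 * p / r)| ≤
      η * (2 * p) * ∑ r ∈ (Ioc Y Z).filter Nat.Prime, Real.log r / r + n * (C₀ * P1) := by
    rw [hsplit, hsplit2]
    refine (Finset.abs_sum_le_sum_abs _ _).trans ((Finset.sum_le_sum hone).trans ?_)
    rw [Finset.sum_add_distrib, Finset.sum_const, Finset.card_range, nsmul_eq_mul,
      ← Finset.mul_sum]
  have hpη : (p : ℝ) * η = (p : ℝ) ^ (1 - κ / 16 : ℝ) := by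
    rw [hη]
    nth_rewrite 1 [← Real.rpow_one (p : ℝ)]
    rw [← Real.rpow_add hp0]
    congr 1
  set P2 : ℝ := (p : ℝ) ^ (1 - κ / 16 : ℝ) with hP2
  have hP20 : 0 < P2 := Real.rpow_pos_of_pos hp0 _
  have hP1u : u * P1 = P2 := by
    rw [hu, hP1, hP2, ← Real.rpow_add hp0]
    congr 1
    ring
  have hP12 : P1 ≤ P2 := by
    rw [← hP1u]
    nlinarith
  have hlogp := hlog p (by omega)
  have hfin : P2 * (p : ℝ) ^ (κ / 32 : ℝ) = (p : ℝ) ^ (1 - κ / 32 : ℝ) := by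
    rw [hP2, ← Real.rpow_add hp0]
    congr 1
    ring
  set L : ℝ := Real.log p with hL
  have e1 : η * (2 * p) * ∑ r ∈ (Ioc Y Z).filter Nat.Prime, Real.log r / r ≤
      8 * (3 + L) ^ 2 * P2 := by
    have h1 : η * (2 * p) = 2 * P2 := by rw [← hpη]; ring
    rw [h1]
    have h2 := mul_le_mul_of_nonneg_left hlogsum (by positivity : (0 : ℝ) ≤ 2 * P2)
    refine h2.trans ?_
    have h3 : 2 * (2 * L * (1 + 2 * L)) ≤ 8 * (3 + L) ^ 2 := by nlinarith
    have := mul_le_mul_of_nonneg_right h3 hP20.le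
    linarith
  have e2 : (n : ℝ) * (C₀ * P1) ≤ 8 * C₀ * (3 + L) ^ 2 * P2 := by
    have h1 : (n : ℝ) * (C₀ * P1) ≤ (8 * L * u + 1) * (C₀ * P1) :=
      mul_le_mul_of_nonneg_right hn2 (by positivity)
    have h2 : (8 * L * u + 1) * (C₀ * P1) = C₀ * (8 * L * (u * P1) + P1) := by ring
    rw [h2, hP1u] at h1
    refine h1.trans ?_
    have h3 : 8 * L * P2 + P1 ≤ 8 * (3 + L) ^ 2 * P2 := by
      have h4 : 8 * L + 1 ≤ 8 * (3 + L) ^ 2 := by nlinarith
      have := mul_le_mul_of_nonneg_right h4 hP20.le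
      linarith
    have := mul_le_mul_of_nonneg_left h3 (by linarith : (0 : ℝ) ≤ C₀)
    linarith
  refine htot.trans ?_
  have e3 : (8 + 8 * C₀) * ((3 + L) ^ 2) * P2 ≤
      (8 + 8 * C₀) * (C₂ * (p : ℝ) ^ (κ / 32 : ℝ)) * P2 := by
    have := mul_le_mul_of_nonneg_left hlogp (by positivity : (0 : ℝ) ≤ 8 + 8 * C₀)
    exact mul_le_mul_of_nonneg_right this hP20.le
  calc η * (2 * p) * ∑ r ∈ (Ioc Y Z).filter Nat.Prime, Real.log r / r + n * (C₀ * P1)
      ≤ (8 + 8 * C₀) * ((3 + L) ^ 2) * P2 := by linarith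
    _ ≤ (8 + 8 * C₀) * (C₂ * (p : ℝ) ^ (κ / 32 : ℝ)) * P2 := e3
    _ = (8 + 8 * C₀) * C₂ * (P2 * (p : ℝ) ^ (κ / 32 : ℝ)) := by ring
    _ = (8 + 8 * C₀) * C₂ * (p : ℝ) ^ (1 - κ / 32 : ℝ) := by rw [hfin]

end Pool.Agent.LPX
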