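import Pool.Agent.LPX.D0

/-!
# [LPX-J1] partial summation
-/

set_option autoImplicit false

namespace Pool.Agent.LPX

open Finset

/-- [J1] Partial summation with the weights `1 / log n`.

Proof. Put `G m = ∑_{n ∈ Ioc Y m} g n`, `|G m| ≤ E`, `G Y = 0`. Then `∑_{n ∈ Ioc Y Z} g n / log n = ∑ (G n - G (n - 1)) / log n =
G Z / log Z + ∑_{Y < n < Z} G n (1 / log n - 1 / log (n + 1))`, and the weights `1 / log n - 1 / log (n + 1)` are `≥ 0`; so the absolute value is at most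
`E / log Z + E (1 / log (Y + 1) - 1 / log Z) = E / log (Y + 1)`. Perhaps simplest by induction on `Z` for the identity
`∑_{n ∈ Ioc Y Z} g n / log n = G Z / log (Z + 1) + ∑_{n ∈ Ioc Y Z} G n (1 / log n - 1 / log (n + 1))`. (`Y ≥ 1`, so all logarithms are positive. If `Y = Z` the sum
is empty and `0 ≤ E`.) -/
theorem abel_log (Y Z : ℕ) (hY : 1 ≤ Y) (hYZ : Y ≤ Z) (g : ℕ → ℝ) (E : ℝ)
    (h : ∀ m, Y ≤ m → m ≤ Z → |∑ n ∈ Ioc Y m, g n| ≤ E) :
    |∑ n ∈ Ioc Y Z, g n / Real.log n| ≤ E / Real.log (Y + 1) := by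
  have hE : 0 ≤ E := (abs_nonneg _).trans (h Y le_rfl hYZ)
  have key : ∀ Z : ℕ, Y ≤ Z → ∑ n ∈ Ioc Y Z, g n / Real.log n =
      (∑ n ∈ Ioc Y Z, g n) / Real.log ((Z : ℝ) + 1) +
        ∑ n ∈ Ioc Y Z, (∑ m ∈ Ioc Y n, g m) * (1 / Real.log n - 1 / Real.log ((n : ℝ) + 1)) := by
    intro Z hZ
    induction Z, hZ using Nat.le_induction with
    | base => simp
    | succ Z hZ ih =>
      rw [Finset.sum_Ioc_succ_top hZ, Finset.sum_Ioc_succ_top hZ (fun n => (∑ m ∈ Ioc Y n, g m) *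
        (1 / Real.log n - 1 / Real.log ((n : ℝ) + 1))), ih, Finset.sum_Ioc_succ_top hZ g]
      push_cast
      ring
  have tele : ∀ Z : ℕ, Y ≤ Z → ∑ n ∈ Ioc Y Z, (1 / Real.log n - 1 / Real.log ((n : ℝ) + 1)) =
      1 / Real.log ((Y : ℝ) + 1) - 1 / Real.log ((Z : ℝ) + 1) := by
    intro Z hZ
    induction Z, hZ using Nat.le_induction with
    | base => simp
    | succ Z hZ ih =>
      rw [Finset.sum_Ioc_succ_top hZ, ih]
      push_cast
      ring
  have hlog : ∀ m : ℕ, Y < m → 0 < Real.log m := by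
    intro m hm
    apply Real.log_pos
    have : 1 < m := lt_of_le_of_lt hY hm
    exact_mod_cast this
  have hw : ∀ m : ℕ, Y < m → 0 ≤ 1 / Real.log m - 1 / Real.log ((m : ℝ) + 1) := by
    intro m hm
    have h1 := hlog m hm
    have hm0 : (0 : ℝ) < m := by exact_mod_cast (by omega : 0 < m)
    have h2 : Real.log m ≤ Real.log ((m : ℝ) + 1) := Real.log_le_log hm0 (by linarith)
    have h3 := one_div_le_one_div_of_le h1 h2
    linarith
  rw [key Z hYZ]
  have hZ1 : 0 < Real.log ((Z : ℝ) + 1) := by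
    have := hlog (Z + 1) (by omega)
    push_cast at this
    exact this
  calc |(∑ n ∈ Ioc Y Z, g n) / Real.log ((Z : ℝ) + 1) +
        ∑ n ∈ Ioc Y Z, (∑ m ∈ Ioc Y n, g m) * (1 / Real.log n - 1 / Real.log ((n : ℝ) + 1))|
      ≤ |(∑ n ∈ Ioc Y Z, g n) / Real.log ((Z : ℝ) + 1)| +
        |∑ n ∈ Ioc Y Z, (∑ m ∈ Ioc Y n, g m) * (1 / Real.log n - 1 / Real.log ((n : ℝ) + 1))| :=
        abs_add_le _ _
    _ ≤ E / Real.log ((Z : ℝ) + 1) +
        ∑ n ∈ Ioc Y Z, E * (1 / Real.log n - 1 / Real.log ((n : ℝ) + 1)) := by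
        refine add_le_add ?_ ?_
        · rw [abs_div, abs_of_pos hZ1]
          exact div_le_div_of_nonneg_right (h Z hYZ le_rfl) hZ1.le
        · refine (Finset.abs_sum_le_sum_abs _ _).trans (Finset.sum_le_sum fun n hn => ?_)
          rw [Finset.mem_Ioc] at hn
          rw [abs_mul, abs_of_nonneg (hw n hn.1)]
          exact mul_le_mul_of_nonneg_right (h n hn.1.le hn.2) (hw n hn.1)
    _ = E / Real.log ((Y : ℝ) + 1) := by
        rw [← Finset.mul_sum, tele Z hYZ]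
        ring

end Pool.Agent.LPX
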