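import Pool.Agent.LPX.F4
import Pool.Agent.LPX.I3
import Pool.Agent.LPX.J1

/-!
# [LPX-J2] the number of `N_k` with a prime factor in `(y, z]`
-/

set_option autoImplicit false

namespace Pool.Agent.LPX

open Finset Pool.Agent.MP_2f88e5_nt Pool.Agent.EPK

/-- [J2a] The `k` counted in the theorem, in terms of `cof`: they are a disjoint union over the primes `r ∈ (Y, Z]`, up to the multiples of `p`.

Proof. Let `F r = (Icc 1 (2 p + 1)).filter (r ∣ 2 k p + a)`. `#F r = cof p a r` for primes `r > Y ≥ 2 p` (`card_k_eq`), and the `F r` are pairwise disjoint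
(`unique_large`), so `#(⋃ F r) = ∑ cof p a r` (`Finset.card_biUnion`). The set of the theorem is the set of the `k ∈ ⋃ F r` with `p ∤ k`; the removed `k`
are among `p, 2 p` (as `k ≤ 2 p + 1 < 3 p`). -/
theorem card_union (p : ℕ) [Fact p.Prime] (hp : 2 < p) (a Y Z : ℕ) (ha : Odd a) (ha2 : a < 2 * p)
    (hY : 2 * p ≤ Y) :
    |(({k : ℕ | 1 ≤ k ∧ k < 2 * (p + 1) ∧ ¬ p ∣ k ∧
        ∃ r : ℕ, r.Prime ∧ Y < r ∧ r ≤ Z ∧ r ∣ 2 * k * p + a}.ncard : ℕ) : ℝ) -
      ∑ r ∈ (Ioc Y Z).filter Nat.Prime, cof p a r| ≤ 2 := by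
  classical
  have hpp : p.Prime := Fact.out
  set F : ℕ → Finset ℕ := fun r => (Icc 1 (2 * p + 1)).filter (fun k : ℕ => r ∣ 2 * k * p + a)
    with hF
  set U : Finset ℕ := ((Ioc Y Z).filter Nat.Prime).biUnion F with hU
  have ha0 : 0 < a := ha.pos
  have hdisj : ∀ r ∈ (Ioc Y Z).filter Nat.Prime, ∀ r' ∈ (Ioc Y Z).filter Nat.Prime, r ≠ r' →
      Disjoint (F r) (F r') := by
    intro r hr r' hr' hne
    rw [Finset.mem_filter, Finset.mem_Ioc] at hr hr'
    rw [Finset.disjoint_left]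
    intro k hk hk'
    rw [hF, Finset.mem_filter, Finset.mem_Icc] at hk hk'
    exact hne (unique_large p a k r r' ha2 hk.1.2 hr.2 hr'.2 hk.2 hk'.2 (by omega) (by omega)
      (by omega))
  have hcardU : ((U.card : ℕ) : ℝ) = ∑ r ∈ (Ioc Y Z).filter Nat.Prime, cof p a r := by
    rw [hU, Finset.card_biUnion hdisj]
    push_cast
    refine Finset.sum_congr rfl fun r hr => ?_
    rw [Finset.mem_filter, Finset.mem_Ioc] at hr
    have hrodd : Odd r := hr.2.odd_of_ne_two (by omega)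
    exact card_k_eq p hp a r ha ha2 hrodd (by omega)
  have hset : {k : ℕ | 1 ≤ k ∧ k < 2 * (p + 1) ∧ ¬ p ∣ k ∧
        ∃ r : ℕ, r.Prime ∧ Y < r ∧ r ≤ Z ∧ r ∣ 2 * k * p + a} =
      ((U.filter (fun k => ¬ p ∣ k) : Finset ℕ) : Set ℕ) := by
    ext k
    rw [Set.mem_ofPred_eq, Finset.mem_coe, Finset.mem_filter, hU, Finset.mem_biUnion]
    constructor
    · rintro ⟨h1, h2, h3, r, hr, h4, h5, h6⟩
      refine ⟨⟨r, ?_, ?_⟩, h3⟩
      · rw [Finset.mem_filter, Finset.mem_Ioc]; exact ⟨⟨h4, h5⟩, hr⟩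
      · rw [hF, Finset.mem_filter, Finset.mem_Icc]; exact ⟨⟨h1, by omega⟩, h6⟩
    · rintro ⟨⟨r, hr, hk⟩, h3⟩
      rw [Finset.mem_filter, Finset.mem_Ioc] at hr
      rw [hF, Finset.mem_filter, Finset.mem_Icc] at hk
      exact ⟨hk.1.1, by omega, h3, r, hr.2, hr.1.1, hr.1.2, hk.2⟩
  rw [hset, Set.ncard_coe_finset, ← hcardU]
  have hsplit := Finset.card_filter_add_card_filter_not (s := U) (fun k => p ∣ k)
  have hsmall : (U.filter (fun k => p ∣ k)).card ≤ 2 := by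
    refine (Finset.card_le_card (t := {p, 2 * p}) ?_).trans Finset.card_le_two
    intro k hk
    rw [Finset.mem_filter, hU, Finset.mem_biUnion] at hk
    obtain ⟨⟨r, _, hk2⟩, m, rfl⟩ := hk
    rw [hF, Finset.mem_filter, Finset.mem_Icc] at hk2
    rw [Finset.mem_insert, Finset.mem_singleton]
    have hm1 : 1 ≤ m := by
      rcases Nat.eq_zero_or_pos m with h | h
      · rw [h, mul_zero] at hk2; omega
      · exact h
    have hm3 : m < 3 := by
      by_contra hc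
      push Not at hc
      have : p * 3 ≤ p * m := Nat.mul_le_mul_left _ hc
      omega
    interval_cases m
    · left; ring
    · right; ring
  have h1 : ((U.card : ℕ) : ℝ) = ((U.filter (fun k => p ∣ k)).card : ℝ) +
      ((U.filter (fun k => ¬ p ∣ k)).card : ℝ) := by
    rw [← hsplit]; push_cast; rfl
  have h2 : ((U.filter (fun k => p ∣ k)).card : ℝ) ≤ 2 := by exact_mod_cast hsmall
  have h3 : (0 : ℝ) ≤ ((U.filter (fun k => p ∣ k)).card : ℝ) := Nat.cast_nonneg _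
  rw [h1, abs_le]
  constructor
  · linarith
  · linarith

/-- [J2b] The asymptotic formula (natural `Y`, `Z`; `p ≥ 1000`).

Proof. `card_union`; `level_log` for all `m ∈ [Y, Z]`; `abel_log` for `g n = if n.Prime then log n (cof p a n - 2 p / n) else 0` (`Finset.sum_filter`;
`log n / log n = 1` for primes) and `log (Y + 1) ≥ 1` (`Y ≥ 2000`); `2 ≤ 2 p^(1 - κ/32)`. -/
theorem asymptotic_nat (κ : ℝ) (hκ : 0 < κ) (hκ1 : κ ≤ 1 / 9) : ∃ C : ℝ, 1 ≤ C ∧
    ∀ (p : ℕ) [Fact p.Prime] (a Y Z : ℕ), 1000 ≤ p → Odd a → a < 2 * p → ¬ p ∣ a → 2 * p ≤ Y →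
      Y ≤ Z → (Z : ℝ) ≤ (p : ℝ) ^ (10 / 9 - κ : ℝ) →
      |(({k : ℕ | 1 ≤ k ∧ k < 2 * (p + 1) ∧ ¬ p ∣ k ∧
        ∃ r : ℕ, r.Prime ∧ Y < r ∧ r ≤ Z ∧ r ∣ 2 * k * p + a}.ncard : ℕ) : ℝ) -
        2 * p * ∑ r ∈ (Ioc Y Z).filter Nat.Prime, (1 : ℝ) / r| ≤ C * (p : ℝ) ^ (1 - κ / 32 : ℝ) := by
  classical
  obtain ⟨C, hC, hlev⟩ := level_log κ hκ hκ1
  refine ⟨C + 2, by linarith, ?_⟩
  intro p _ a Y Z hp ha ha2 hpa hY hYZ hZ
  have hp0 : (0 : ℝ) < p := by
    have : 0 < p := by omega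
    exact_mod_cast this
  have hp1 : (1 : ℝ) ≤ p := by exact_mod_cast (by omega : 1 ≤ p)
  set Q : ℝ := (p : ℝ) ^ (1 - κ / 32 : ℝ) with hQ
  have hQ1 : 1 ≤ Q := Real.one_le_rpow hp1 (by linarith)
  have h1 := card_union p (by omega) a Y Z ha ha2 hY
  set g : ℕ → ℝ := fun n => if n.Prime then Real.log n * (cof p a n - 2 * p / n) else 0 with hg
  have h2 := abel_log Y Z (by omega) hYZ g (C * Q) (by
    intro m hm hmZ
    rw [hg, ← Finset.sum_filter]
    refine hlev p a Y m hp ha2 hpa hY hm ?_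
    have : (m : ℝ) ≤ Z := by exact_mod_cast hmZ
    linarith)
  have hlogY : 1 ≤ Real.log ((Y : ℝ) + 1) := by
    rw [Real.le_log_iff_exp_le (by positivity)]
    have h3 : ((2000 : ℕ) : ℝ) ≤ Y := by exact_mod_cast (by omega : 2000 ≤ Y)
    have := Real.exp_one_lt_d9
    push_cast at h3
    linarith
  have h3 : C * Q / Real.log ((Y : ℝ) + 1) ≤ C * Q := div_le_self (by positivity) hlogY
  have h4 : ∑ n ∈ Ioc Y Z, g n / Real.log n =
      ∑ r ∈ (Ioc Y Z).filter Nat.Prime, (cof p a r - 2 * p / r) := by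
    rw [Finset.sum_filter]
    refine Finset.sum_congr rfl fun n hn => ?_
    rw [Finset.mem_Ioc] at hn
    rw [hg]
    by_cases hnp : n.Prime
    · simp only [if_pos hnp]
      have hlogn : Real.log n ≠ 0 := by
        have : (1 : ℝ) < n := by exact_mod_cast hnp.one_lt
        exact (Real.log_pos this).ne'
      field_simp
    · simp only [if_neg hnp, zero_div]
  rw [h4, Finset.sum_sub_distrib] at h2
  have h5 : ∑ r ∈ (Ioc Y Z).filter Nat.Prime, 2 * (p : ℝ) / r =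
      2 * p * ∑ r ∈ (Ioc Y Z).filter Nat.Prime, (1 : ℝ) / r := by
    rw [Finset.mul_sum]
    refine Finset.sum_congr rfl fun r _ => ?_
    ring
  rw [h5] at h2
  have h6 := abs_le.1 h1
  have h7 := abs_le.1 (h2.trans h3)
  rw [abs_le]
  constructor
  · nlinarith [h6.1, h6.2, h7.1, h7.2]
  · nlinarith [h6.1, h6.2, h7.1, h7.2]

end Pool.Agent.LPX
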