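import Pool.Agent.LPX.J2

/-!
# [LPX-J3] the asymptotic formula: final form
-/

set_option autoImplicit false

namespace Pool.Agent.LPX

open Finset Pool.Agent.MP_2f88e5_nt Pool.Agent.EPK

/-- [J3] The asymptotic formula, final form.

Proof. Let `κ' = min κ (1/9)`, `C₀` from `asymptotic_nat κ'`, `δ = κ' / 32`, `C = C₀ + 10^10`. The case `p ≥ 1000`: `Y = ⌊y⌋₊`, `Z = ⌊z⌋₊`: `2 p ≤ Y` (`Nat.le_floor`),
`Y ≤ Z`, `Z ≤ z ≤ p^(10/9 - κ) ≤ p^(10/9 - κ')`; for natural numbers `r`: `y < r ↔ Y < r` (`Nat.floor_lt`), `r ≤ z ↔ r ≤ Z` (`Nat.le_floor_iff`); so the set and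
the sum are those of `asymptotic_nat`. The case `p < 1000`: the count is at most `2 p + 1 ≤ 2001`, and the sum is at most `2 p ⌊z⌋₊ ≤ 2000 z`, `z ≤ p^(10/9) ≤ p² ≤ 10^6`
(every term is `≤ 1`, at most `⌊z⌋₊` terms), while `C p^(1 - δ) ≥ C`. -/
theorem asymptotic (κ : ℝ) (hκ : 0 < κ) : ∃ C δ : ℝ, 0 < C ∧ 0 < δ ∧
    ∀ p : ℕ, p.Prime → ∀ a : ℕ, Odd a → a < 2 * p → ¬ p ∣ a → ∀ y z : ℝ, 2 * p ≤ y → y ≤ z →
      z ≤ (p : ℝ) ^ (10 / 9 - κ : ℝ) →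
      |(({k : ℕ | 1 ≤ k ∧ k < 2 * (p + 1) ∧ ¬ p ∣ k ∧
        ∃ r : ℕ, r.Prime ∧ y < (r : ℝ) ∧ (r : ℝ) ≤ z ∧ r ∣ 2 * k * p + a}.ncard : ℕ) : ℝ) -
        2 * p * ∑ r ∈ (Icc 1 ⌊z⌋₊).filter (fun r : ℕ => r.Prime ∧ y < (r : ℝ)), (1 : ℝ) / r| ≤
        C * (p : ℝ) ^ (1 - δ : ℝ) := by
  have hκ' : 0 < min κ (1 / 9) := lt_min hκ (by norm_num)
  have hκ9 : min κ (1 / 9) ≤ 1 / 9 := min_le_right _ _
  have hκκ : min κ (1 / 9) ≤ κ := min_le_left _ _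
  obtain ⟨C₀, hC₀, h0⟩ := asymptotic_nat (min κ (1 / 9)) hκ' hκ9
  generalize min κ (1 / 9) = κ' at hκ' hκ9 hκκ h0
  refine ⟨C₀ + 10 ^ 10, κ' / 32, by positivity, by positivity, ?_⟩
  intro p hp a ha ha2 hpa y z hy hyz hz
  have hF : Fact p.Prime := ⟨hp⟩
  have hp1 : (1 : ℝ) ≤ p := by exact_mod_cast hp.one_lt.le
  have hy0 : 0 ≤ y := le_trans (by positivity) hy
  have hz0 : 0 ≤ z := hy0.trans hyz
  have hzz : z ≤ (p : ℝ) ^ (10 / 9 - κ' : ℝ) :=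
    hz.trans (Real.rpow_le_rpow_of_exponent_le hp1 (by linarith))
  have hpow : (1 : ℝ) ≤ (p : ℝ) ^ (1 - κ' / 32 : ℝ) := Real.one_le_rpow hp1 (by linarith)
  by_cases hbig : 1000 ≤ p
  · have key := h0 p a ⌊y⌋₊ ⌊z⌋₊ hbig ha ha2 hpa (Nat.le_floor (by push_cast; exact hy))
      (Nat.floor_le_floor hyz) ((Nat.floor_le hz0).trans hzz)
    have e1 : {k : ℕ | 1 ≤ k ∧ k < 2 * (p + 1) ∧ ¬ p ∣ k ∧
        ∃ r : ℕ, r.Prime ∧ ⌊y⌋₊ < r ∧ r ≤ ⌊z⌋₊ ∧ r ∣ 2 * k * p + a} =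
        {k : ℕ | 1 ≤ k ∧ k < 2 * (p + 1) ∧ ¬ p ∣ k ∧
        ∃ r : ℕ, r.Prime ∧ y < (r : ℝ) ∧ (r : ℝ) ≤ z ∧ r ∣ 2 * k * p + a} := by
      ext k
      simp only [Set.mem_setOf_eq, Nat.floor_lt hy0, Nat.le_floor_iff hz0]
    have e2 : (Ioc ⌊y⌋₊ ⌊z⌋₊).filter Nat.Prime =
        (Icc 1 ⌊z⌋₊).filter (fun r : ℕ => r.Prime ∧ y < (r : ℝ)) := by
      ext r
      simp only [Finset.mem_filter, Finset.mem_Ioc, Finset.mem_Icc, Nat.floor_lt hy0]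
      constructor
      · rintro ⟨⟨h1, h2⟩, h3⟩
        exact ⟨⟨h3.one_lt.le, h2⟩, h3, h1⟩
      · rintro ⟨⟨_, h2⟩, h3, h1⟩
        exact ⟨⟨h1, h2⟩, h3⟩
    rw [e1, e2] at key
    refine key.trans ?_
    have : (0 : ℝ) ≤ 10 ^ 10 * (p : ℝ) ^ (1 - κ' / 32 : ℝ) := by positivity
    nlinarith
  · have hp2 : (p : ℝ) ≤ 1000 := by exact_mod_cast (by omega : p ≤ 1000)
    have hz6 : z ≤ 10 ^ 6 := by
      have h1 : (p : ℝ) ^ (10 / 9 - κ' : ℝ) ≤ (p : ℝ) ^ (2 : ℝ) :=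
        Real.rpow_le_rpow_of_exponent_le hp1 (by linarith)
      rw [Real.rpow_two] at h1
      have h2 : (p : ℝ) ^ 2 ≤ 1000 ^ 2 := pow_le_pow_left₀ (by linarith) hp2 2
      have h3 := hzz.trans (h1.trans h2)
      norm_num at h3 ⊢
      exact h3
    set A : Set ℕ := {k : ℕ | 1 ≤ k ∧ k < 2 * (p + 1) ∧ ¬ p ∣ k ∧
        ∃ r : ℕ, r.Prime ∧ y < (r : ℝ) ∧ (r : ℝ) ≤ z ∧ r ∣ 2 * k * p + a} with hA
    set T : ℝ := ∑ r ∈ (Icc 1 ⌊z⌋₊).filter (fun r : ℕ => r.Prime ∧ y < (r : ℝ)), (1 : ℝ) / r with hT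
    have hA1 : A.ncard ≤ 2 * p + 1 := by
      have hsub : A ⊆ ((Finset.Icc 1 (2 * p + 1) : Finset ℕ) : Set ℕ) := by
        intro k hk
        rw [Finset.coe_Icc, Set.mem_Icc]
        exact ⟨hk.1, by have := hk.2.1; omega⟩
      calc A.ncard ≤ (((Finset.Icc 1 (2 * p + 1) : Finset ℕ) : Set ℕ)).ncard :=
            Set.ncard_le_ncard hsub (Finset.finite_toSet _)
        _ = 2 * p + 1 := by rw [Set.ncard_coe_finset, Nat.card_Icc]; omega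
    have hA2 : (A.ncard : ℝ) ≤ 2001 := by
      have : A.ncard ≤ 2001 := by omega
      exact_mod_cast this
    have hT0 : 0 ≤ T := Finset.sum_nonneg fun r _ => by positivity
    have hT1 : T ≤ 10 ^ 6 := by
      calc T ≤ ∑ r ∈ (Icc 1 ⌊z⌋₊).filter (fun r : ℕ => r.Prime ∧ y < (r : ℝ)), (1 : ℝ) := by
            refine Finset.sum_le_sum fun r hr => ?_
            have h1 := (Finset.mem_filter.1 hr).2.1.one_lt.le
            have h2 : (1 : ℝ) ≤ r := by exact_mod_cast h1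
            rw [div_le_one (by linarith)]
            exact h2
        _ = (((Icc 1 ⌊z⌋₊).filter (fun r : ℕ => r.Prime ∧ y < (r : ℝ))).card : ℝ) := by simp
        _ ≤ ((Icc 1 ⌊z⌋₊).card : ℝ) := by exact_mod_cast Finset.card_filter_le _ _
        _ = (⌊z⌋₊ : ℝ) := by simp
        _ ≤ z := Nat.floor_le hz0
        _ ≤ 10 ^ 6 := hz6
    have hpT : 2 * (p : ℝ) * T ≤ 2000 * 10 ^ 6 := by
      have := mul_le_mul (by linarith : 2 * (p : ℝ) ≤ 2000) hT1 hT0 (by norm_num)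
      exact this
    have hpT0 : 0 ≤ 2 * (p : ℝ) * T := by positivity
    have hA0 : (0 : ℝ) ≤ A.ncard := by positivity
    have hC : (10 : ℝ) ^ 10 ≤ (C₀ + 10 ^ 10) * (p : ℝ) ^ (1 - κ' / 32 : ℝ) := by
      nlinarith
    rw [abs_le]
    constructor <;> nlinarith

end Pool.Agent.LPX
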