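import Pool.Agent.LPX.D0
import Pool.Agent.EPK.C2

/-!
# [LPX-K1] incomplete Kloosterman sums over intervals of any length
-/

set_option autoImplicit false

namespace Pool.Agent.LPX

open Finset Pool.Agent.MP_2f88e5_nt Pool.Agent.EPK

/-- [K1] Completion of a sum of `e(b / k)` over an interval of any length (in `ZMod p`, `0⁻¹ = 0`, so the multiples `k` of
`p` contribute `1`; with this convention the frequency `t = 0` contributes nothing).

Proof. Adapt `Pool.Agent.EPK.incomplete_kl` (file `EPK_C3.lean` in the package; 126 lines). `fourier_interval` for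
`f r = ea p (b * r⁻¹)` (all `r`, `f 0 = ea 0 = 1`). `∑_r f r ea (t r) = kl p t b + 1` (`sum_units` in Hyp.lean plus the term `r = 0`,
which is `1`). The term `t = 0`: `kl p 0 b + 1 = 0` (`kl_zero_left`), so it vanishes. The terms `t = ± l`, `1 ≤ l ≤ (p - 1) / 2`
(`sum_nonzero`): `kl p t b = kl p 1 (t b)` (`kl_shift`), so the first factor has norm at most `‖kl p 1 (± l b)‖ + 1`, and the second
factor is `≤ min N (p / (2 l))` (trivially, and `interval_bound` for `- t`). -/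
theorem incomplete_kl2 (p : ℕ) [Fact p.Prime] (hp : 2 < p) (u v N : ℕ) (hN : v - u ≤ N)
    (b : ZMod p) (hb : b ≠ 0) :
    ‖∑ k ∈ Ioc u v, ea p (b * ((k : ZMod p))⁻¹)‖ ≤ ∑ l ∈ Icc 1 ((p - 1) / 2),
      min ((N : ℝ) / p) (1 / (2 * l)) *
        (‖kl p 1 ((l : ZMod p) * b)‖ + ‖kl p 1 (-((l : ZMod p) * b))‖ + 2) := by
  classical
  have hprime : p.Prime := Fact.out
  have hp0 : (0 : ℝ) < p := by exact_mod_cast hprime.pos
  set f : ZMod p → ℂ := fun r => ea p (b * r⁻¹) with hf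
  have e1 : ∑ k ∈ Ioc u v, ea p (b * ((k : ZMod p))⁻¹) = ∑ k ∈ Ioc u v, f (k : ZMod p) := rfl
  have e2 : ∀ t : ZMod p, ∑ r : ZMod p, f r * ea p (t * r) = kl p t b + 1 := by
    intro t
    have h1 := sum_units p (fun r : ZMod p => f r * ea p (t * r))
    have h2 : f 0 * ea p (t * 0) = 1 := by
      rw [hf]
      dsimp only
      rw [inv_zero, mul_zero, mul_zero, ea, AddChar.map_zero_eq_one, mul_one]
    rw [h2] at h1
    have h3 : ∑ r : ZMod p, f r * ea p (t * r) = (∑ r : ZMod p, f r * ea p (t * r) - 1) + 1 := by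
      ring
    rw [h3, ← h1, kl]
    congr 1
    refine sum_congr rfl fun x _ => ?_
    rw [hf]
    dsimp only
    rw [ea, ea, ← AddChar.map_add_eq_mul, Units.val_inv_eq_inv_val]
    congr 1
    ring
  have e3 : ∀ t : ZMod p, t ≠ 0 → kl p t b = kl p 1 (t * b) := by
    intro t ht
    have h1 := kl_shift p 1 (t * b) (Units.mk0 t ht)
    rw [← h1, Units.val_mk0, one_mul, Units.val_inv_eq_inv_val, Units.val_mk0]
    congr 1
    field_simp
  have triv : ∀ t : ZMod p, ‖∑ k ∈ Ioc u v, ea p (-t * (k : ZMod p))‖ ≤ ((v - u : ℕ) : ℝ) := by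
    intro t
    refine (norm_sum_le _ _).trans ?_
    rw [sum_congr rfl fun k _ => norm_ea p _]
    simp
  rw [e1, fourier_interval, norm_mul, norm_inv, Complex.norm_natCast]
  have hb1 : ‖∑ t : ZMod p, (∑ r : ZMod p, f r * ea p (t * r)) *
        (∑ k ∈ Ioc u v, ea p (-t * (k : ZMod p)))‖ ≤
      ∑ t : ZMod p, ‖kl p t b + 1‖ * ‖∑ k ∈ Ioc u v, ea p (-t * (k : ZMod p))‖ := by
    refine (norm_sum_le _ _).trans (le_of_eq ?_)
    refine sum_congr rfl fun t _ => ?_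
    rw [norm_mul, e2]
  have hb2 : ∑ t : ZMod p, ‖kl p t b + 1‖ * ‖∑ k ∈ Ioc u v, ea p (-t * (k : ZMod p))‖ =
      ∑ t ∈ univ.erase (0 : ZMod p), ‖kl p t b + 1‖ * ‖∑ k ∈ Ioc u v, ea p (-t * (k : ZMod p))‖ +
      ‖kl p 0 b + 1‖ * ‖∑ k ∈ Ioc u v, ea p (-0 * (k : ZMod p))‖ :=
    (Finset.sum_erase_add univ _ (mem_univ (0 : ZMod p))).symm
  have hb3 : ‖kl p 0 b + 1‖ * ‖∑ k ∈ Ioc u v, ea p (-0 * (k : ZMod p))‖ = 0 := by
    rw [kl_zero_left p b hb, neg_add_cancel, norm_zero, zero_mul]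
  have hone : ∀ z : ℂ, ‖z + 1‖ ≤ ‖z‖ + 1 := by
    intro z
    refine (norm_add_le _ _).trans ?_
    rw [norm_one]
  have hb4 : ∀ h ∈ Icc 1 ((p - 1) / 2),
      (‖kl p (h : ZMod p) b + 1‖ * ‖∑ k ∈ Ioc u v, ea p (-(h : ZMod p) * (k : ZMod p))‖ +
        ‖kl p (-(h : ZMod p)) b + 1‖ *
          ‖∑ k ∈ Ioc u v, ea p (-(-(h : ZMod p)) * (k : ZMod p))‖) ≤
      p * (min ((N : ℝ) / p) (1 / (2 * h)) *
        (‖kl p 1 ((h : ZMod p) * b)‖ + ‖kl p 1 (-((h : ZMod p) * b))‖ + 2)) := by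
    intro h hh
    rw [mem_Icc] at hh
    have hlt : 2 * h < p := by omega
    have h0 : (h : ZMod p) ≠ 0 := by
      intro h'
      rw [ZMod.natCast_eq_zero_iff] at h'
      have := Nat.le_of_dvd (by omega) h'
      omega
    have hh0 : (0 : ℝ) < h := by exact_mod_cast hh.1
    rw [e3 _ h0, e3 _ (neg_ne_zero.2 h0), neg_neg, neg_mul]
    have hN' : ((v - u : ℕ) : ℝ) ≤ N := by exact_mod_cast hN
    have hmin : (p : ℝ) * min ((N : ℝ) / p) (1 / (2 * h)) = min (N : ℝ) ((p : ℝ) / (2 * h)) := by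
      rw [mul_min_of_nonneg _ _ hp0.le]
      congr 1
      · field_simp
      · ring
    have c1 : ‖∑ k ∈ Ioc u v, ea p (-(h : ZMod p) * (k : ZMod p))‖ ≤
        min (N : ℝ) ((p : ℝ) / (2 * h)) :=
      le_min ((triv _).trans hN') (interval_bound p h u v hh.1 hlt _ (Or.inr rfl))
    have c2 : ‖∑ k ∈ Ioc u v, ea p ((h : ZMod p) * (k : ZMod p))‖ ≤
        min (N : ℝ) ((p : ℝ) / (2 * h)) := by
      refine le_min ?_ (interval_bound p h u v hh.1 hlt _ (Or.inl rfl))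
      have := triv (-(h : ZMod p))
      rw [neg_neg] at this
      exact this.trans hN'
    have d1 := mul_le_mul (hone (kl p 1 ((h : ZMod p) * b))) c1 (norm_nonneg _)
      (add_nonneg (norm_nonneg _) zero_le_one)
    have d2 := mul_le_mul (hone (kl p 1 (-((h : ZMod p) * b)))) c2 (norm_nonneg _)
      (add_nonneg (norm_nonneg _) zero_le_one)
    rw [← mul_assoc, hmin]
    refine (add_le_add d1 d2).trans (le_of_eq ?_)
    ring
  have hb5 : ∑ t ∈ univ.erase (0 : ZMod p),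
      ‖kl p t b + 1‖ * ‖∑ k ∈ Ioc u v, ea p (-t * (k : ZMod p))‖ ≤
      p * ∑ l ∈ Icc 1 ((p - 1) / 2), min ((N : ℝ) / p) (1 / (2 * l)) *
        (‖kl p 1 ((l : ZMod p) * b)‖ + ‖kl p 1 (-((l : ZMod p) * b))‖ + 2) := by
    rw [sum_nonzero p hp, mul_sum]
    exact sum_le_sum hb4
  rw [inv_mul_le_iff₀ hp0]
  refine hb1.trans ?_
  rw [hb2, hb3, add_zero]
  exact hb5

end Pool.Agent.LPX
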