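import Pool.Agent.LPX.F0
import Pool.Agent.EPK.D4

/-!
# [LPX-K2] the weighted sum of Kloosterman sums
-/

set_option autoImplicit false

namespace Pool.Agent.LPX

open Finset Pool.Agent.MP_2f88e5_nt Pool.Agent.EPK

/-- [K2] The weighted sum over `l` (compare `EPK.weighted_kl`, file `EPK_D5a.lean`).

Proof. Exchange the sums, so that the sum over `l` is outside; `dyadic1` with `P = (p - 1) / 2`, `f l = ∑_h ∑_m ‖kl ...‖`; by `clog_facts` all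
`L = 2^i < p` and the number of `i` is at most `2 (3 + log p)`. For each `i`: `moment_kl` with `L = 2^i`, `D = 1`
(`hd p x h 1 = x * h`): `w · 2 T² ((H L M)^(3/4) p^(3/4) + H L M p^(1/2))`, where `w = min c (1 / L) ≤ c^(1/4) L^(-3/4)` (`min a b ≤ a^(1/4) b^(3/4)`)
and `w L ≤ 1`. So each `i` contributes at most `2 T² (c^(1/4) (H M)^(3/4) p^(3/4) + H M p^(1/2))`. -/
theorem weighted_kl2 (p : ℕ) [Fact p.Prime] (hp : 2 < p) (H M : ℕ) (hH : H < p) (hM : M < p)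
    (T : ℝ) (hT : TauLE (16 * p ^ 4) T) (x : ZMod p) (hx : x ≠ 0) (c : ℝ) (hc : 0 ≤ c) :
    ∑ h ∈ Icc 1 H, ∑ m ∈ Icc 1 M, ∑ l ∈ Icc 1 ((p - 1) / 2),
      min c (1 / (2 * (l : ℝ))) *
        ‖kl p 1 ((l : ZMod p) * (x * (h : ZMod p) * ((m : ZMod p))⁻¹))‖ ≤
      4 * T ^ 2 * (3 + Real.log p) *
        (c ^ (1 / 4 : ℝ) * ((H : ℝ) * M) ^ (3 / 4 : ℝ) * (p : ℝ) ^ (3 / 4 : ℝ) +
          (H : ℝ) * M * (p : ℝ) ^ (1 / 2 : ℝ)) := by
  classical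
  have hprime : p.Prime := Fact.out
  have hp0 : (0 : ℝ) < p := by exact_mod_cast hprime.pos
  have hp1 : (1 : ℝ) ≤ p := by exact_mod_cast hprime.one_le
  have hlog : 0 ≤ Real.log p := Real.log_nonneg hp1
  obtain ⟨hpow, hnb⟩ := clog_facts p hp
  set q := (p - 1) / 2 with hq
  set n := Nat.clog 2 q + 1 with hn
  set K : ℕ → ℕ → ℕ → ℝ := fun h m l =>
    ‖kl p 1 ((l : ZMod p) * (x * (h : ZMod p) * ((m : ZMod p))⁻¹))‖ with hK
  have hK0 : ∀ h m l, 0 ≤ K h m l := fun _ _ _ => norm_nonneg _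
  set E : ℝ := c ^ (1 / 4 : ℝ) * ((H : ℝ) * M) ^ (3 / 4 : ℝ) * (p : ℝ) ^ (3 / 4 : ℝ) +
    (H : ℝ) * M * (p : ℝ) ^ (1 / 2 : ℝ) with hE
  have hE0 : 0 ≤ E := by positivity
  have hblock : ∀ i ∈ range n, min c (1 / (2 : ℝ) ^ i) *
      ∑ l ∈ Icc 1 (2 ^ i), ∑ h ∈ Icc 1 H, ∑ m ∈ Icc 1 M, K h m l ≤ 2 * T ^ 2 * E := by
    intro i hi
    have hi' := hpow i hi
    have h1 := moment_kl p H (2 ^ i) 1 M hH hi' (by omega) hM T hT x hx
    have h2 : ∑ l ∈ Icc 1 (2 ^ i), ∑ h ∈ Icc 1 H, ∑ m ∈ Icc 1 M, K h m l =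
        ∑ h ∈ Icc 1 H, ∑ d ∈ Icc (1 : ℕ) 1, ∑ m ∈ Icc 1 M, ∑ l ∈ Icc (1 : ℕ) (2 ^ i),
          ‖kl p 1 ((l : ZMod p) * (hd p x h d * ((m : ZMod p))⁻¹))‖ := by
      rw [sum_comm]
      refine sum_congr rfl fun h _ => ?_
      rw [Finset.Icc_self, sum_singleton, sum_comm]
      refine sum_congr rfl fun m _ => sum_congr rfl fun l _ => ?_
      simp only [hK, hd, Nat.cast_one, inv_one, mul_one]
    rw [h2]
    have h3 : ((H * 2 ^ i * 1 * M : ℕ) : ℝ) = (H : ℝ) * M * 2 ^ i := by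
      push_cast
      ring
    rw [h3] at h1
    set L : ℝ := 2 ^ i with hL
    have hL0 : 0 < L := by positivity
    set w : ℝ := min c (1 / L) with hw
    have hw0 : 0 ≤ w := le_min hc (by positivity)
    have hw1 : w ≤ c := min_le_left _ _
    have hw2 : w ≤ 1 / L := min_le_right _ _
    have hw3 : w ≤ c ^ (1 / 4 : ℝ) * L ^ (-(3 / 4) : ℝ) := by
      have h4 : w = w ^ (1 / 4 : ℝ) * w ^ (3 / 4 : ℝ) := by
        rw [← Real.rpow_add_of_nonneg hw0 (by norm_num) (by norm_num)]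
        norm_num
      have h5 : w ^ (1 / 4 : ℝ) ≤ c ^ (1 / 4 : ℝ) := Real.rpow_le_rpow hw0 hw1 (by norm_num)
      have h6 : w ^ (3 / 4 : ℝ) ≤ L ^ (-(3 / 4) : ℝ) := by
        refine (Real.rpow_le_rpow hw0 hw2 (by norm_num)).trans (le_of_eq ?_)
        rw [one_div L, Real.inv_rpow hL0.le, Real.rpow_neg hL0.le]
      calc w = w ^ (1 / 4 : ℝ) * w ^ (3 / 4 : ℝ) := h4
        _ ≤ _ := mul_le_mul h5 h6 (Real.rpow_nonneg hw0 _) (Real.rpow_nonneg hc _)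
    have h7 : w * ((H : ℝ) * M * L) ^ (3 / 4 : ℝ) ≤ c ^ (1 / 4 : ℝ) * ((H : ℝ) * M) ^ (3 / 4 : ℝ) := by
      have h8 : ((H : ℝ) * M * L) ^ (3 / 4 : ℝ) = ((H : ℝ) * M) ^ (3 / 4 : ℝ) * L ^ (3 / 4 : ℝ) :=
        Real.mul_rpow (by positivity) hL0.le
      have h9 : L ^ (-(3 / 4) : ℝ) * L ^ (3 / 4 : ℝ) = 1 := by
        rw [← Real.rpow_add hL0]; norm_num
      calc w * ((H : ℝ) * M * L) ^ (3 / 4 : ℝ) ≤
            (c ^ (1 / 4 : ℝ) * L ^ (-(3 / 4) : ℝ)) * ((H : ℝ) * M * L) ^ (3 / 4 : ℝ) :=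
            mul_le_mul_of_nonneg_right hw3 (by positivity)
        _ = c ^ (1 / 4 : ℝ) * ((H : ℝ) * M) ^ (3 / 4 : ℝ) *
            (L ^ (-(3 / 4) : ℝ) * L ^ (3 / 4 : ℝ)) := by rw [h8]; ring
        _ = c ^ (1 / 4 : ℝ) * ((H : ℝ) * M) ^ (3 / 4 : ℝ) := by rw [h9, mul_one]
    have h10 : w * ((H : ℝ) * M * L) ≤ (H : ℝ) * M := by
      calc w * ((H : ℝ) * M * L) ≤ (1 / L) * ((H : ℝ) * M * L) :=
            mul_le_mul_of_nonneg_right hw2 (by positivity)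
        _ = (H : ℝ) * M := by field_simp
    refine (mul_le_mul_of_nonneg_left h1 hw0).trans ?_
    calc w * (2 * T ^ 2 * (((H : ℝ) * M * L) ^ (3 / 4 : ℝ) * (p : ℝ) ^ (3 / 4 : ℝ) +
          (H : ℝ) * M * L * (p : ℝ) ^ (1 / 2 : ℝ))) =
        2 * T ^ 2 * ((w * ((H : ℝ) * M * L) ^ (3 / 4 : ℝ)) * (p : ℝ) ^ (3 / 4 : ℝ) +
          (w * ((H : ℝ) * M * L)) * (p : ℝ) ^ (1 / 2 : ℝ)) := by ring
      _ ≤ 2 * T ^ 2 * E := by
          refine mul_le_mul_of_nonneg_left ?_ (by positivity)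
          exact add_le_add (mul_le_mul_of_nonneg_right h7 (by positivity))
            (mul_le_mul_of_nonneg_right h10 (by positivity))
  calc ∑ h ∈ Icc 1 H, ∑ m ∈ Icc 1 M, ∑ l ∈ Icc 1 q, min c (1 / (2 * (l : ℝ))) * K h m l =
      ∑ l ∈ Icc 1 q, min c (1 / (2 * (l : ℝ))) * ∑ h ∈ Icc 1 H, ∑ m ∈ Icc 1 M, K h m l := by
        symm
        simp only [mul_sum]
        rw [sum_comm]
        refine sum_congr rfl fun h _ => ?_
        rw [sum_comm]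
    _ ≤ ∑ i ∈ range n, min c (1 / 2 ^ i) *
        ∑ l ∈ Icc 1 (2 ^ i), ∑ h ∈ Icc 1 H, ∑ m ∈ Icc 1 M, K h m l :=
        dyadic1 q c hc (fun l => ∑ h ∈ Icc 1 H, ∑ m ∈ Icc 1 M, K h m l)
          (fun l => sum_nonneg fun h _ => sum_nonneg fun m _ => hK0 h m l)
    _ ≤ ∑ i ∈ range n, 2 * T ^ 2 * E := sum_le_sum hblock
    _ = (n : ℝ) * (2 * T ^ 2 * E) := by rw [sum_const, card_range, nsmul_eq_mul]
    _ ≤ (2 * (3 + Real.log p)) * (2 * T ^ 2 * E) :=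
        mul_le_mul_of_nonneg_right hnb (by positivity)
    _ = 4 * T ^ 2 * (3 + Real.log p) * E := by ring

end Pool.Agent.LPX
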