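import Pool.Agent.LPX.K1
import Pool.Agent.LPX.K2

/-!
# [LPX-K3] linear sums: one dyadic block
-/

set_option autoImplicit false

namespace Pool.Agent.LPX

open Finset Pool.Agent.MP_2f88e5_nt Pool.Agent.EPK

/-- [K3] One dyadic block of linear sums; the intervals may be longer than `p`.

Proof (compare `EPK.typeI_block`, `EPK_D5b.lean`). For `h ∈ [1, H]`, `m ∈ [M, 2M]` one has `x h (m k)⁻¹ = (x h m⁻¹) k⁻¹` (`mul_inv`) and
`b = x h m⁻¹ ≠ 0` (`h`, `m` are between `1` and `p - 1`). `incomplete_kl2` with `N`, and `N / p ≤ c / M =: c'`. So the sum is at most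
`∑_h ∑_{m ≤ 2M} ∑_l min c' (1 / (2 l)) (‖kl p 1 (l x h m⁻¹)‖ + ‖kl p 1 (l (-x) h m⁻¹)‖) + ∑_h ∑_{m ∈ [M, 2M]} ∑_l (1 / (2 l)) 2`.
The first two parts: `weighted_kl2` with `2 M`, `x` and `- x`: at most `2 · 4 T² (3 + log p) ((c/M)^(1/4) (2 H M)^(3/4) p^(3/4) + 2 H M p^(1/2))`, and
`(c / M)^(1/4) (2 H M)^(3/4) = 2^(3/4) c^(1/4) H^(3/4) M^(1/2)`, `2^(3/4) ≤ 2`. The last part: `H (M + 1) (1 + log p) ≤ 2 H M (1 + log p)`
(`harmonic_le_one_add_log`). Use `1 ≤ T` (`hT 1`), `1 ≤ p^(1/2)`. Total: `16 + 2 = 18 ≤ 20`. -/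
theorem block (p : ℕ) [Fact p.Prime] (hp : 2 < p) (H M N : ℕ) (hH : H < p) (hM : 1 ≤ M)
    (hMp : 2 * M < p) (T : ℝ) (hT : TauLE (16 * p ^ 4) T) (x : ZMod p) (hx : x ≠ 0) (c : ℝ)
    (hc : (N : ℝ) * M ≤ c * p) (u v : ℕ → ℕ) (huv : ∀ m ∈ Icc M (2 * M), v m - u m ≤ N) :
    ∑ h ∈ Icc 1 H, ∑ m ∈ Icc M (2 * M),
      ‖∑ k ∈ Ioc (u m) (v m), ea p (x * (h : ZMod p) * ((m : ZMod p) * (k : ZMod p))⁻¹)‖ ≤
      20 * T ^ 2 * (3 + Real.log p) *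
        (c ^ (1 / 4 : ℝ) * (H : ℝ) ^ (3 / 4 : ℝ) * (M : ℝ) ^ (1 / 2 : ℝ) * (p : ℝ) ^ (3 / 4 : ℝ) +
          (H : ℝ) * M * (p : ℝ) ^ (1 / 2 : ℝ)) := by
  classical
  have hprime : p.Prime := Fact.out
  have hp0 : (0 : ℝ) < p := by exact_mod_cast hprime.pos
  have hp1 : (1 : ℝ) ≤ p := by exact_mod_cast hprime.one_le
  have hM0 : (0 : ℝ) < M := by exact_mod_cast (by omega : 0 < M)
  have hH0 : (0 : ℝ) ≤ H := Nat.cast_nonneg _
  have hT1 : 1 ≤ T := by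
    have h1 : 1 ≤ 16 * p ^ 4 := by
      have := Nat.one_le_pow 4 p hprime.one_le
      omega
    simpa using hT 1 le_rfl h1
  have hlog : 0 ≤ Real.log p := Real.log_nonneg hp1
  have hc0 : 0 ≤ c := by
    by_contra h
    push Not at h
    have h1 : c * p < 0 := mul_neg_of_neg_of_pos h hp0
    have h2 : (0 : ℝ) ≤ (N : ℝ) * M := by positivity
    linarith
  have hnz : ∀ k : ℕ, 1 ≤ k → k < p → (k : ZMod p) ≠ 0 := by
    intro k h1 h2 h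
    rw [ZMod.natCast_eq_zero_iff] at h
    have := Nat.le_of_dvd (by omega) h
    omega
  set E : ℝ := c ^ (1 / 4 : ℝ) * (H : ℝ) ^ (3 / 4 : ℝ) * (M : ℝ) ^ (1 / 2 : ℝ) *
    (p : ℝ) ^ (3 / 4 : ℝ) + (H : ℝ) * M * (p : ℝ) ^ (1 / 2 : ℝ) with hE
  have hE0 : 0 ≤ E := by positivity
  have hQM : (H : ℝ) * M ≤ E := by
    have h1 : (1 : ℝ) ≤ (p : ℝ) ^ (1 / 2 : ℝ) := Real.one_le_rpow hp1 (by norm_num)
    have h2 : (H : ℝ) * M * 1 ≤ (H : ℝ) * M * (p : ℝ) ^ (1 / 2 : ℝ) :=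
      mul_le_mul_of_nonneg_left h1 (by positivity)
    have h3 : 0 ≤ c ^ (1 / 4 : ℝ) * (H : ℝ) ^ (3 / 4 : ℝ) * (M : ℝ) ^ (1 / 2 : ℝ) *
      (p : ℝ) ^ (3 / 4 : ℝ) := by positivity
    rw [hE]
    linarith
  set q := (p - 1) / 2 with hq
  set c' : ℝ := c / M with hc'
  have hc'0 : 0 ≤ c' := by positivity
  have hNp : (N : ℝ) / p ≤ c' := by
    rw [hc', div_le_div_iff₀ hp0 hM0]
    exact hc
  set K : ZMod p → ℕ → ℕ → ℕ → ℝ := fun y h m l =>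
    ‖kl p 1 ((l : ZMod p) * (y * (h : ZMod p) * ((m : ZMod p))⁻¹))‖ with hKdef
  have hK0 : ∀ y h m l, 0 ≤ K y h m l := fun _ _ _ _ => norm_nonneg _
  have hw0 : ∀ l : ℕ, 0 ≤ min c' (1 / (2 * (l : ℝ))) := fun l => le_min hc'0 (by positivity)
  have hW : ∀ y : ZMod p, y ≠ 0 → ∑ h ∈ Icc 1 H, ∑ m ∈ Icc 1 (2 * M), ∑ l ∈ Icc 1 q,
      min c' (1 / (2 * (l : ℝ))) * K y h m l ≤ 8 * T ^ 2 * (3 + Real.log p) * E := by
    intro y hy
    refine (weighted_kl2 p hp H (2 * M) hH hMp T hT y hy c' hc'0).trans ?_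
    have h1 : c' ^ (1 / 4 : ℝ) * ((H : ℝ) * ((2 * M : ℕ) : ℝ)) ^ (3 / 4 : ℝ) ≤
        2 * (c ^ (1 / 4 : ℝ) * (H : ℝ) ^ (3 / 4 : ℝ) * (M : ℝ) ^ (1 / 2 : ℝ)) := by
      have e1 : c' ^ (1 / 4 : ℝ) = c ^ (1 / 4 : ℝ) * (M : ℝ) ^ (-(1 / 4) : ℝ) := by
        rw [hc', Real.div_rpow hc0 hM0.le, Real.rpow_neg hM0.le]
        rfl
      have e2 : ((H : ℝ) * ((2 * M : ℕ) : ℝ)) ^ (3 / 4 : ℝ) =
          (H : ℝ) ^ (3 / 4 : ℝ) * (2 ^ (3 / 4 : ℝ) * (M : ℝ) ^ (3 / 4 : ℝ)) := by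
        push_cast
        rw [Real.mul_rpow hH0 (by positivity), Real.mul_rpow (by norm_num) hM0.le]
      have e3 : (M : ℝ) ^ (-(1 / 4) : ℝ) * (M : ℝ) ^ (3 / 4 : ℝ) = (M : ℝ) ^ (1 / 2 : ℝ) := by
        rw [← Real.rpow_add hM0]; norm_num
      have e4 : (2 : ℝ) ^ (3 / 4 : ℝ) ≤ 2 := by
        calc (2 : ℝ) ^ (3 / 4 : ℝ) ≤ 2 ^ (1 : ℝ) :=
              Real.rpow_le_rpow_of_exponent_le (by norm_num) (by norm_num)
          _ = 2 := Real.rpow_one 2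
      calc c' ^ (1 / 4 : ℝ) * ((H : ℝ) * ((2 * M : ℕ) : ℝ)) ^ (3 / 4 : ℝ) =
            2 ^ (3 / 4 : ℝ) * (c ^ (1 / 4 : ℝ) * (H : ℝ) ^ (3 / 4 : ℝ) *
              ((M : ℝ) ^ (-(1 / 4) : ℝ) * (M : ℝ) ^ (3 / 4 : ℝ))) := by rw [e1, e2]; ring
        _ = 2 ^ (3 / 4 : ℝ) * (c ^ (1 / 4 : ℝ) * (H : ℝ) ^ (3 / 4 : ℝ) * (M : ℝ) ^ (1 / 2 : ℝ)) := by
            rw [e3]
        _ ≤ _ := mul_le_mul_of_nonneg_right e4 (by positivity)
    have h2 : c' ^ (1 / 4 : ℝ) * ((H : ℝ) * ((2 * M : ℕ) : ℝ)) ^ (3 / 4 : ℝ) *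
        (p : ℝ) ^ (3 / 4 : ℝ) + (H : ℝ) * ((2 * M : ℕ) : ℝ) * (p : ℝ) ^ (1 / 2 : ℝ) ≤ 2 * E := by
      have h3 := mul_le_mul_of_nonneg_right h1
        (show 0 ≤ (p : ℝ) ^ (3 / 4 : ℝ) by positivity)
      rw [hE]
      push_cast at h3 ⊢
      linarith
    calc 4 * T ^ 2 * (3 + Real.log p) * (c' ^ (1 / 4 : ℝ) *
          ((H : ℝ) * ((2 * M : ℕ) : ℝ)) ^ (3 / 4 : ℝ) *
        (p : ℝ) ^ (3 / 4 : ℝ) + (H : ℝ) * ((2 * M : ℕ) : ℝ) * (p : ℝ) ^ (1 / 2 : ℝ)) ≤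
        4 * T ^ 2 * (3 + Real.log p) * (2 * E) := mul_le_mul_of_nonneg_left h2 (by positivity)
      _ = 8 * T ^ 2 * (3 + Real.log p) * E := by ring
  have hharm : ∑ l ∈ Icc 1 q, (1 / (2 * (l : ℝ))) * 2 ≤ 1 + Real.log p := by
    have h1 : ∑ l ∈ Icc 1 q, (1 / (2 * (l : ℝ))) * 2 = ((harmonic q : ℚ) : ℝ) := by
      rw [harmonic_eq_sum_Icc]
      push_cast
      refine sum_congr rfl fun l hl => ?_
      rw [mem_Icc] at hl
      have : (l : ℝ) ≠ 0 := by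
        have : (0 : ℝ) < l := by exact_mod_cast hl.1
        exact this.ne'
      field_simp
    rw [h1]
    refine (harmonic_le_one_add_log q).trans ?_
    have h2 : (1 : ℝ) ≤ q := by exact_mod_cast (by omega : 1 ≤ q)
    have h3 : (q : ℝ) ≤ p := by exact_mod_cast (by omega : q ≤ p)
    have := Real.log_le_log (by linarith) h3
    linarith
  -- one value of `m`
  have hone : ∀ h ∈ Icc 1 H, ∀ m ∈ Icc M (2 * M),
      ‖∑ k ∈ Ioc (u m) (v m), ea p (x * (h : ZMod p) * ((m : ZMod p) * (k : ZMod p))⁻¹)‖ ≤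
      (1 + Real.log p) + (∑ l ∈ Icc 1 q, min c' (1 / (2 * (l : ℝ))) * K x h m l +
        ∑ l ∈ Icc 1 q, min c' (1 / (2 * (l : ℝ))) * K (-x) h m l) := by
    intro h hh m hm
    have huvm := huv m hm
    rw [mem_Icc] at hh hm
    have hm1 : 1 ≤ m := by omega
    have hb : x * (h : ZMod p) * ((m : ZMod p))⁻¹ ≠ 0 :=
      mul_ne_zero (mul_ne_zero hx (hnz h hh.1 (by omega))) (inv_ne_zero (hnz m hm1 (by omega)))
    have key := incomplete_kl2 p hp (u m) (v m) N huvm (x * (h : ZMod p) * ((m : ZMod p))⁻¹) hb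
    have e1 : ∑ k ∈ Ioc (u m) (v m), ea p (x * (h : ZMod p) * ((m : ZMod p) * (k : ZMod p))⁻¹) =
        ∑ k ∈ Ioc (u m) (v m), ea p (x * (h : ZMod p) * ((m : ZMod p))⁻¹ * ((k : ZMod p))⁻¹) := by
      refine sum_congr rfl fun k _ => ?_
      rw [mul_inv, mul_assoc (x * (h : ZMod p))]
    rw [e1]
    refine key.trans ?_
    refine le_trans ?_ (add_le_add_left hharm _)
    rw [← sum_add_distrib, ← sum_add_distrib]
    refine sum_le_sum fun l _ => ?_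
    have hneg : -((l : ZMod p) * (x * (h : ZMod p) * ((m : ZMod p))⁻¹)) =
        (l : ZMod p) * (-x * (h : ZMod p) * ((m : ZMod p))⁻¹) := by
      ring
    rw [hneg]
    have a1 : min ((N : ℝ) / p) (1 / (2 * (l : ℝ))) ≤ min c' (1 / (2 * (l : ℝ))) :=
      min_le_min hNp le_rfl
    have a2 : min ((N : ℝ) / p) (1 / (2 * (l : ℝ))) ≤ 1 / (2 * (l : ℝ)) := min_le_right _ _
    have k1 := hK0 x h m l
    have k2 := hK0 (-x) h m l
    have a3 := mul_le_mul_of_nonneg_right a1 k1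
    have a4 := mul_le_mul_of_nonneg_right a1 k2
    have a5 := mul_le_mul_of_nonneg_right a2 (by norm_num : (0 : ℝ) ≤ 2)
    calc min ((N : ℝ) / p) (1 / (2 * (l : ℝ))) * (K x h m l + K (-x) h m l + 2) =
        min ((N : ℝ) / p) (1 / (2 * (l : ℝ))) * 2 +
          (min ((N : ℝ) / p) (1 / (2 * (l : ℝ))) * K x h m l +
            min ((N : ℝ) / p) (1 / (2 * (l : ℝ))) * K (-x) h m l) := by ring
      _ ≤ _ := add_le_add a5 (add_le_add a3 a4)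
  have hsub : Icc M (2 * M) ⊆ Icc 1 (2 * M) := Finset.Icc_subset_Icc_left hM
  have hsum : ∀ y : ZMod p, ∀ h : ℕ,
      ∑ m ∈ Icc M (2 * M), ∑ l ∈ Icc 1 q, min c' (1 / (2 * (l : ℝ))) * K y h m l ≤
      ∑ m ∈ Icc 1 (2 * M), ∑ l ∈ Icc 1 q, min c' (1 / (2 * (l : ℝ))) * K y h m l := by
    intro y h
    refine sum_le_sum_of_subset_of_nonneg hsub fun m _ _ => sum_nonneg fun l _ => ?_
    exact mul_nonneg (hw0 l) (hK0 _ _ _ _)
  have hcard : ∑ _m ∈ Icc M (2 * M), (1 + Real.log p) ≤ 2 * M * (1 + Real.log p) := by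
    rw [sum_const, Nat.card_Icc, nsmul_eq_mul]
    have h1 : ((2 * M + 1 - M : ℕ) : ℝ) ≤ 2 * M := by
      have : 2 * M + 1 - M ≤ 2 * M := by omega
      exact_mod_cast this
    exact mul_le_mul_of_nonneg_right h1 (by linarith)
  calc ∑ h ∈ Icc 1 H, ∑ m ∈ Icc M (2 * M),
      ‖∑ k ∈ Ioc (u m) (v m), ea p (x * (h : ZMod p) * ((m : ZMod p) * (k : ZMod p))⁻¹)‖ ≤
      ∑ h ∈ Icc 1 H, (2 * M * (1 + Real.log p) +
        (∑ m ∈ Icc 1 (2 * M), ∑ l ∈ Icc 1 q, min c' (1 / (2 * (l : ℝ))) * K x h m l +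
        ∑ m ∈ Icc 1 (2 * M), ∑ l ∈ Icc 1 q, min c' (1 / (2 * (l : ℝ))) * K (-x) h m l)) := by
        refine sum_le_sum fun h hh => ?_
        refine (sum_le_sum fun m hm => hone h hh m hm).trans ?_
        refine (le_of_eq sum_add_distrib).trans (add_le_add hcard ?_)
        refine (le_of_eq sum_add_distrib).trans ?_
        exact add_le_add (hsum x h) (hsum (-x) h)
    _ = (H : ℝ) * (2 * M * (1 + Real.log p)) +
        (∑ h ∈ Icc 1 H, ∑ m ∈ Icc 1 (2 * M), ∑ l ∈ Icc 1 q,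
          min c' (1 / (2 * (l : ℝ))) * K x h m l +
        ∑ h ∈ Icc 1 H, ∑ m ∈ Icc 1 (2 * M), ∑ l ∈ Icc 1 q,
          min c' (1 / (2 * (l : ℝ))) * K (-x) h m l) := by
        rw [sum_add_distrib, sum_add_distrib, sum_const, Nat.card_Icc, nsmul_eq_mul,
          Nat.add_sub_cancel]
    _ ≤ 2 * (1 + Real.log p) * E + (8 * T ^ 2 * (3 + Real.log p) * E +
        8 * T ^ 2 * (3 + Real.log p) * E) := by
        refine add_le_add ?_ (add_le_add (hW x hx) (hW (-x) (neg_ne_zero.2 hx)))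
        have := mul_le_mul_of_nonneg_left hQM (show 0 ≤ 2 * (1 + Real.log p) by linarith)
        linarith
    _ ≤ 20 * T ^ 2 * (3 + Real.log p) * E := by
        have h2 : 1 ≤ T ^ 2 := one_le_pow₀ hT1
        have h3 : (1 + Real.log p) * E ≤ T ^ 2 * ((3 + Real.log p) * E) := by
          have h4 : (1 + Real.log p) * E ≤ (3 + Real.log p) * E :=
            mul_le_mul_of_nonneg_right (by linarith) hE0
          have h5 : 1 * ((3 + Real.log p) * E) ≤ T ^ 2 * ((3 + Real.log p) * E) :=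
            mul_le_mul_of_nonneg_right h2 (by positivity)
          linarith
        have h6 : 0 ≤ T ^ 2 * ((3 + Real.log p) * E) := by positivity
        linarith

end Pool.Agent.LPX
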