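import Pool.Agent.LPX.D0
import Pool.Agent.MP_2f88e5_nt.Selberg

/-!
# [LPX-S1] Selberg's sieve with an averaged error term
-/

set_option autoImplicit false

namespace Pool.Agent.LPX

open Finset Pool.Agent.MP_2f88e5_nt

/-- [S1] Selberg's upper bound sieve with an averaged error term.

Proof. Copy the proof of `Pool.Agent.MP_2f88e5_nt.selberg` (file `Pool/Agent/MP_2f88e5_nt/Selberg.lean`, at the end), with `E (Nat.lcm d1 d2)` in place of `E`; it
gives the bound `2 X / log z + ∑_{d1, d2 ∈ selD z} E (lcm d1 d2)`. Group the pairs by `d = lcm d1 d2`, an odd number in `[1, z²]`; the number of pairs with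
`lcm d1 d2 = d` is at most `(#divisors d)² ≤ τ²` (both divide `d`): `Finset.sum_fiberwise_of_maps_to` on `selD z ×ˢ selD z`, `Finset.sum_const`,
`Finset.card_le_card` into `d.divisors ×ˢ d.divisors`. -/
theorem selberg_avg (T : Finset ℕ) (w : ℕ → ℝ) (hw : ∀ m ∈ T, 0 ≤ w m) (X : ℝ) (hX : 0 ≤ X)
    (E : ℕ → ℝ) (hE : ∀ d, 0 ≤ E d) (z : ℕ) (hz : 2 ≤ z) (τ : ℝ)
    (hτ : ∀ d, 1 ≤ d → d ≤ z ^ 2 → (d.divisors.card : ℝ) ≤ τ)
    (h : ∀ d : ℕ, d ≤ z ^ 2 → Odd d → Squarefree d →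
      |∑ m ∈ T.filter (fun m : ℕ => d ∣ m), w m - X / d| ≤ E d) :
    ∑ m ∈ T.filter (fun m : ℕ => ∀ l ∈ (Icc (3 : ℕ) z).filter Nat.Prime, ¬ l ∣ m), w m ≤
      2 * X / Real.log z + τ ^ 2 * ∑ d ∈ (Icc 1 (z ^ 2)).filter Odd, E d := by
  have hz1 : 1 ≤ z := by omega
  have hG := selG_pos hz1
  -- step 1: the sifted sum is at most the weighted sum
  have hstep1 : ∑ m ∈ T.filter (fun m : ℕ => ∀ l ∈ (Icc (3 : ℕ) z).filter Nat.Prime, ¬ l ∣ m), w m ≤
      ∑ m ∈ T, w m * (∑ d ∈ selD z, if d ∣ m then selL z d else 0) ^ 2 := by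
    rw [Finset.sum_filter]
    apply Finset.sum_le_sum
    intro m hm
    split_ifs with hs
    · have : ∑ d ∈ selD z, (if d ∣ m then selL z d else 0) = 1 := by
        rw [Finset.sum_eq_single_of_mem 1 (one_mem_selD hz1)]
        · simp [selL_one hz1]
        · intro d hd hd1
          rw [if_neg]
          intro hdm
          have hdm' := mem_selD.mp hd
          obtain ⟨l, hl, hld⟩ := Nat.exists_prime_and_dvd hd1
          have hlodd : Odd l := hdm'.2.1.of_dvd_nat hld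
          have hl3 : 3 ≤ l := by
            have := hl.two_le
            rcases hlodd with ⟨k, hk⟩
            omega
          have hlz : l ≤ z := (Nat.le_of_dvd (by omega) hld).trans hdm'.1.2
          exact hs l (by simp [hl3, hlz, hl]) (hld.trans hdm)
      rw [this]
      simp
    · exact mul_nonneg (hw m hm) (sq_nonneg _)
  -- step 2: expand
  have hstep2 : ∑ m ∈ T, w m * (∑ d ∈ selD z, if d ∣ m then selL z d else 0) ^ 2 =
      ∑ d1 ∈ selD z, ∑ d2 ∈ selD z, selL z d1 * selL z d2 *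
        ∑ m ∈ T.filter (fun m : ℕ => Nat.lcm d1 d2 ∣ m), w m := by
    have hA : ∀ m ∈ T, w m * (∑ d ∈ selD z, if d ∣ m then selL z d else 0) ^ 2 =
        ∑ d1 ∈ selD z, ∑ d2 ∈ selD z, if Nat.lcm d1 d2 ∣ m then
          selL z d1 * selL z d2 * w m else 0 := by
      intro m _
      rw [sq, Finset.sum_mul_sum, Finset.mul_sum]
      apply Finset.sum_congr rfl
      intro d1 _
      rw [Finset.mul_sum]
      apply Finset.sum_congr rfl
      intro d2 _
      by_cases h1 : d1 ∣ m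
      · by_cases h2 : d2 ∣ m
        · rw [if_pos h1, if_pos h2, if_pos (Nat.lcm_dvd h1 h2)]
          ring
        · rw [if_neg h2, if_neg (fun h => h2 ((Nat.dvd_lcm_right _ _).trans h))]
          ring
      · rw [if_neg h1, if_neg (fun h => h1 ((Nat.dvd_lcm_left _ _).trans h))]
        ring
    rw [Finset.sum_congr rfl hA, Finset.sum_comm]
    apply Finset.sum_congr rfl
    intro d1 _
    rw [Finset.sum_comm]
    apply Finset.sum_congr rfl
    intro d2 _
    rw [Finset.mul_sum, Finset.sum_filter]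
  -- step 3: each term
  have hstep3 : ∀ d1 ∈ selD z, ∀ d2 ∈ selD z, selL z d1 * selL z d2 *
        ∑ m ∈ T.filter (fun m : ℕ => Nat.lcm d1 d2 ∣ m), w m ≤
      X * (selL z d1 * selL z d2 / (Nat.lcm d1 d2 : ℝ)) + E (Nat.lcm d1 d2) := by
    intro d1 hd1 d2 hd2
    have m1 := mem_selD.mp hd1
    have m2 := mem_selD.mp hd2
    have hle : Nat.lcm d1 d2 ≤ z ^ 2 := by
      calc Nat.lcm d1 d2 ≤ d1 * d2 := Nat.le_of_dvd (Nat.mul_pos m1.1.1 m2.1.1)
            (Nat.lcm_dvd_mul d1 d2)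
        _ ≤ z * z := Nat.mul_le_mul m1.1.2 m2.1.2
        _ = z ^ 2 := (sq z).symm
    have hodd : Odd (Nat.lcm d1 d2) := (m1.2.1.mul m2.2.1).of_dvd_nat (Nat.lcm_dvd_mul d1 d2)
    have hsf : Squarefree (Nat.lcm d1 d2) := by
      rw [Nat.squarefree_iff_prime_squarefree]
      intro p hp hpp
      have hne : Nat.lcm d1 d2 ≠ 0 := Nat.lcm_ne_zero (by omega) (by omega)
      have h2 : 2 ≤ (Nat.lcm d1 d2).factorization p := by
        rw [← hp.pow_dvd_iff_le_factorization hne, sq]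
        exact hpp
      rw [Nat.factorization_lcm (by omega) (by omega), Finsupp.sup_apply] at h2
      have h3 := m1.2.2.natFactorization_le_one p
      have h4 := m2.2.2.natFactorization_le_one p
      have : max (d1.factorization p) (d2.factorization p) ≤ 1 := max_le h3 h4
      have h2' : 2 ≤ max (d1.factorization p) (d2.factorization p) := h2
      omega
    have hr := h (Nat.lcm d1 d2) hle hodd hsf
    have hlam : |selL z d1 * selL z d2| ≤ 1 := by
      rw [abs_mul]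
      calc |selL z d1| * |selL z d2| ≤ 1 * 1 :=
            mul_le_mul (abs_selL_le hz1 hd1) (abs_selL_le hz1 hd2) (abs_nonneg _) zero_le_one
        _ = 1 := one_mul 1
    have hdiff : selL z d1 * selL z d2 *
        (∑ m ∈ T.filter (fun m : ℕ => Nat.lcm d1 d2 ∣ m), w m - X / (Nat.lcm d1 d2 : ℝ)) ≤ E (Nat.lcm d1 d2) := by
      calc _ ≤ |selL z d1 * selL z d2 *
        (∑ m ∈ T.filter (fun m : ℕ => Nat.lcm d1 d2 ∣ m), w m - X / (Nat.lcm d1 d2 : ℝ))| :=
            le_abs_self _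
        _ = |selL z d1 * selL z d2| *
          |∑ m ∈ T.filter (fun m : ℕ => Nat.lcm d1 d2 ∣ m), w m - X / (Nat.lcm d1 d2 : ℝ)| :=
            abs_mul _ _
        _ ≤ 1 * E (Nat.lcm d1 d2) := mul_le_mul hlam hr (abs_nonneg _) zero_le_one
        _ = E (Nat.lcm d1 d2) := one_mul _
    have e1 : X * (selL z d1 * selL z d2 / (Nat.lcm d1 d2 : ℝ)) =
        selL z d1 * selL z d2 * (X / (Nat.lcm d1 d2 : ℝ)) := by ring
    rw [e1]
    linarith [mul_sub (selL z d1 * selL z d2)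
      (∑ m ∈ T.filter (fun m : ℕ => Nat.lcm d1 d2 ∣ m), w m) (X / (Nat.lcm d1 d2 : ℝ))]
  have hlog : 0 < Real.log z := Real.log_pos (by exact_mod_cast (by omega : 1 < z))
  have herr : ∑ d1 ∈ selD z, ∑ d2 ∈ selD z, E (Nat.lcm d1 d2) ≤
      τ ^ 2 * ∑ d ∈ (Icc 1 (z ^ 2)).filter Odd, E d := by
    rw [← Finset.sum_product']
    have hmaps : ∀ x ∈ selD z ×ˢ selD z, Nat.lcm x.1 x.2 ∈ (Icc 1 (z ^ 2)).filter Odd := by
      rintro ⟨d1, d2⟩ hx
      rw [Finset.mem_product] at hx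
      have m1 := mem_selD.mp hx.1
      have m2 := mem_selD.mp hx.2
      rw [Finset.mem_filter, Finset.mem_Icc]
      refine ⟨⟨Nat.lcm_pos (by have := m1.1.1; exact this) (by have := m2.1.1; exact this), ?_⟩,
        (m1.2.1.mul m2.2.1).of_dvd_nat (Nat.lcm_dvd_mul d1 d2)⟩
      calc Nat.lcm d1 d2 ≤ d1 * d2 := Nat.le_of_dvd (Nat.mul_pos m1.1.1 m2.1.1)
            (Nat.lcm_dvd_mul d1 d2)
        _ ≤ z * z := Nat.mul_le_mul m1.1.2 m2.1.2
        _ = z ^ 2 := (sq z).symm
    rw [← Finset.sum_fiberwise_of_maps_to hmaps, Finset.mul_sum]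
    apply Finset.sum_le_sum
    intro d hd
    rw [Finset.mem_filter, Finset.mem_Icc] at hd
    have e1 : ∑ x ∈ (selD z ×ˢ selD z).filter (fun x => Nat.lcm x.1 x.2 = d), E (Nat.lcm x.1 x.2) =
        (((selD z ×ˢ selD z).filter (fun x => Nat.lcm x.1 x.2 = d)).card : ℝ) * E d := by
      rw [← nsmul_eq_mul, ← Finset.sum_const]
      apply Finset.sum_congr rfl
      intro x hx
      rw [(Finset.mem_filter.mp hx).2]
    rw [e1]
    apply mul_le_mul_of_nonneg_right _ (hE d)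
    have hsub : (selD z ×ˢ selD z).filter (fun x => Nat.lcm x.1 x.2 = d) ⊆
        d.divisors ×ˢ d.divisors := by
      intro x hx
      rw [Finset.mem_filter] at hx
      rw [Finset.mem_product, Nat.mem_divisors, Nat.mem_divisors]
      have hd0 : d ≠ 0 := by omega
      refine ⟨⟨?_, hd0⟩, ⟨?_, hd0⟩⟩
      · rw [← hx.2]
        exact Nat.dvd_lcm_left _ _
      · rw [← hx.2]
        exact Nat.dvd_lcm_right _ _
    have h1 := Finset.card_le_card hsub
    rw [Finset.card_product] at h1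
    have h2 := hτ d hd.1.1 hd.1.2
    have h3 : (((selD z ×ˢ selD z).filter (fun x => Nat.lcm x.1 x.2 = d)).card : ℝ) ≤
        (d.divisors.card : ℝ) * d.divisors.card := by exact_mod_cast h1
    calc _ ≤ (d.divisors.card : ℝ) * d.divisors.card := h3
      _ ≤ τ * τ := mul_le_mul h2 h2 (by positivity) (le_trans (by positivity) h2)
      _ = τ ^ 2 := (sq τ).symm
  calc ∑ m ∈ T.filter (fun m : ℕ => ∀ l ∈ (Icc (3 : ℕ) z).filter Nat.Prime, ¬ l ∣ m), w m
      ≤ ∑ d1 ∈ selD z, ∑ d2 ∈ selD z, selL z d1 * selL z d2 *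
        ∑ m ∈ T.filter (fun m : ℕ => Nat.lcm d1 d2 ∣ m), w m := hstep1.trans hstep2.le
    _ ≤ ∑ d1 ∈ selD z, ∑ d2 ∈ selD z,
        (X * (selL z d1 * selL z d2 / (Nat.lcm d1 d2 : ℝ)) + E (Nat.lcm d1 d2)) :=
        Finset.sum_le_sum (fun d1 hd1 => Finset.sum_le_sum (fun d2 hd2 => hstep3 d1 hd1 d2 hd2))
    _ = X * (selG z)⁻¹ + ∑ d1 ∈ selD z, ∑ d2 ∈ selD z, E (Nat.lcm d1 d2) := by
        rw [← quad_form hz1, Finset.mul_sum]
        simp only [Finset.sum_add_distrib, Finset.mul_sum]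
    _ ≤ 2 * X / Real.log z + τ ^ 2 * ∑ d ∈ (Icc 1 (z ^ 2)).filter Odd, E d := by
        apply add_le_add _ herr
        rw [mul_comm 2 X, mul_div_assoc]
        apply mul_le_mul_of_nonneg_left _ hX
        rw [inv_le_comm₀ hG (by positivity), inv_div]
        have := log_le_two_selG z hz
        linarith

end Pool.Agent.LPX
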