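import Pool.Agent.LPX.F1

/-!
# [LPX-S2] the points of the modular hyperbola with a divisibility condition
-/

set_option autoImplicit false

namespace Pool.Agent.LPX

open Finset Pool.Agent.MP_2f88e5_nt Pool.Agent.EPK

theorem S2_sum_mult {β : Type*} [AddCommMonoid β] (R R' e : ℕ) (he : 1 ≤ e) (g : ℕ → β) :
    ∑ n ∈ (Ioc R R').filter (fun n => e ∣ n), g n = ∑ k ∈ Ioc (R / e) (R' / e), g (e * k) := by
  symm
  refine Finset.sum_nbij' (fun k => e * k) (fun n => n / e) ?_ ?_ ?_ ?_ ?_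
  · intro k hk
    rw [Finset.mem_Ioc, Nat.div_lt_iff_lt_mul he, Nat.le_div_iff_mul_le he] at hk
    rw [Finset.mem_filter, Finset.mem_Ioc, mul_comm e k]
    exact ⟨hk, Dvd.intro_left k rfl⟩
  · intro n hn
    rw [Finset.mem_filter, Finset.mem_Ioc] at hn
    obtain ⟨⟨h1, h2⟩, k, rfl⟩ := hn
    rw [Finset.mem_Ioc, Nat.div_lt_iff_lt_mul he, Nat.le_div_iff_mul_le he, Nat.mul_div_cancel_left _ he,
      mul_comm k e]
    exact ⟨h1, h2⟩
  · intro k _
    exact Nat.mul_div_cancel_left _ he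
  · intro n hn
    rw [Finset.mem_filter] at hn
    exact Nat.mul_div_cancel' hn.2
  · intro k _
    rfl

theorem S2_div (R e : ℕ) (he : 1 ≤ e) : ((R / e : ℕ) : ℝ) ≤ (R : ℝ) / e ∧ (R : ℝ) / e < ((R / e : ℕ) : ℝ) + 1 := by
  have he' : (0 : ℝ) < e := by exact_mod_cast he
  constructor
  · exact Nat.cast_div_le
  · rw [div_lt_iff₀ he']
    have := Nat.lt_div_mul_add (a := R) he
    have h2 : R < (R / e + 1) * e := by
      calc R < R / e * e + e := this
        _ = (R / e + 1) * e := by ring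
    exact_mod_cast h2

/-- [S2a] Multiples of `e`.

Proof. `cnt_fourier` for `S = (Ioc R R').filter (e ∣ ·)` and `c = 1`. `S` is the image of `Ioc (R / e) (R' / e)` under `k ↦ e k` (injective), so
`∑_{n ∈ S} ea (x h n⁻¹) = ∑_{k ∈ Ioc (R/e) (R'/e)} ea (x h (e k)⁻¹)`, and `#S = R' / e - R / e` (natural divisions), which differs from `(R' - R) / e` (real) by at most `1`.
So the error is at most `er + (J / p) · 1`. -/
theorem sum_multiples (p : ℕ) [Fact p.Prime] (hp : 2 < p) (x y : ZMod p) (R R' J e : ℕ)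
    (hR : R ≤ R') (he : 1 ≤ e) :
    |∑ n ∈ (Ioc R R').filter (fun n => e ∣ n), cnt p x y J n -
      (J : ℝ) / p * (((R' : ℝ) - R) / e)| ≤ (J : ℝ) / p + er p x R R' J e := by
  have h1 := cnt_fourier p hp x y J ((Ioc R R').filter (fun n => e ∣ n)) (fun _ => 1)
  simp only [one_mul, Complex.ofReal_one] at h1
  have hE : 2 * ∑ h ∈ Icc 1 ((p - 1) / 2), min ((J : ℝ) / p) (1 / (2 * (h : ℝ))) *
        ‖∑ n ∈ (Ioc R R').filter (fun n => e ∣ n), ea p (x * (h : ZMod p) * ((n : ZMod p))⁻¹)‖ = er p x R R' J e := by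
    unfold er
    congr 1
    refine Finset.sum_congr rfl fun h _ => ?_
    rw [S2_sum_mult R R' e he]
    simp only [Nat.cast_mul]
  rw [hE] at h1
  have hcard : ∑ _n ∈ (Ioc R R').filter (fun n => e ∣ n), (1 : ℝ) = ((R' / e : ℕ) : ℝ) - ((R / e : ℕ) : ℝ) := by
    rw [S2_sum_mult R R' e he, Finset.sum_const, Nat.card_Ioc, nsmul_eq_mul, mul_one,
      Nat.cast_sub (Nat.div_le_div_right hR)]
  rw [hcard] at h1
  obtain ⟨a1, a2⟩ := S2_div R e he
  obtain ⟨b1, b2⟩ := S2_div R' e he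
  have hJ : (0 : ℝ) ≤ (J : ℝ) / p := by positivity
  have h2 : |(J : ℝ) / p * ((((R' / e : ℕ) : ℝ) - ((R / e : ℕ) : ℝ)) - ((R' : ℝ) - R) / e)| ≤ (J : ℝ) / p := by
    rw [abs_mul, abs_of_nonneg hJ]
    have : |(((R' / e : ℕ) : ℝ) - ((R / e : ℕ) : ℝ)) - ((R' : ℝ) - R) / e| ≤ 1 := by
      rw [sub_div, abs_le]
      constructor <;> linarith
    calc (J : ℝ) / p * _ ≤ (J : ℝ) / p * 1 := mul_le_mul_of_nonneg_left this hJ
      _ = _ := mul_one _
  have h3 : ∑ n ∈ (Ioc R R').filter (fun n => e ∣ n), cnt p x y J n - (J : ℝ) / p * (((R' : ℝ) - R) / e) =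
      (∑ n ∈ (Ioc R R').filter (fun n => e ∣ n), cnt p x y J n - (J : ℝ) / p * (((R' / e : ℕ) : ℝ) - ((R / e : ℕ) : ℝ))) +
      (J : ℝ) / p * ((((R' / e : ℕ) : ℝ) - ((R / e : ℕ) : ℝ)) - ((R' : ℝ) - R) / e) := by ring
  rw [h3]
  exact (abs_add_le _ _).trans (by linarith)

/-- [S2b] Odd multiples of an odd `d`.

Proof. For odd `d`: the even `n` with `d ∣ n` are the `n` with `2 d ∣ n`. So the sum over the odd `n` with `d ∣ n` is the sum over the `n` with `d ∣ n` minus the sum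
over the `n` with `2 d ∣ n`; `sum_multiples` for `e = d` and `e = 2 d`: the main term is `(J / p) ((R' - R) / d - (R' - R) / (2 d))`. -/
theorem sum_odd_multiples (p : ℕ) [Fact p.Prime] (hp : 2 < p) (x y : ZMod p) (R R' J d : ℕ)
    (hR : R ≤ R') (hd : Odd d) :
    |∑ n ∈ ((Ioc R R').filter Odd).filter (fun n => d ∣ n), cnt p x y J n -
      (J : ℝ) / p * (((R' : ℝ) - R) / 2) / d| ≤
      2 * ((J : ℝ) / p) + er p x R R' J d + er p x R R' J (2 * d) := by
  have hd1 : 1 ≤ d := hd.pos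
  have h1 := sum_multiples p hp x y R R' J d hR hd1
  have h2 := sum_multiples p hp x y R R' J (2 * d) hR (by omega)
  have hsplit : ∑ n ∈ (Ioc R R').filter (fun n => d ∣ n), cnt p x y J n =
      ∑ n ∈ ((Ioc R R').filter Odd).filter (fun n => d ∣ n), cnt p x y J n +
      ∑ n ∈ (Ioc R R').filter (fun n => 2 * d ∣ n), cnt p x y J n := by
    rw [← Finset.sum_filter_add_sum_filter_not ((Ioc R R').filter (fun n => d ∣ n)) Odd]
    congr 1
    · rw [Finset.filter_filter, Finset.filter_filter]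
      refine Finset.sum_congr ?_ fun _ _ => rfl
      ext n
      simp only [Finset.mem_filter]
      tauto
    · rw [Finset.filter_filter]
      refine Finset.sum_congr ?_ fun _ _ => rfl
      ext n
      simp only [Finset.mem_filter, Nat.not_odd_iff_even]
      constructor
      · rintro ⟨h, h3, h4⟩
        refine ⟨h, ?_⟩
        exact Nat.Coprime.mul_dvd_of_dvd_of_dvd (Nat.coprime_two_left.2 hd) h4.two_dvd h3
      · rintro ⟨h, h3⟩
        exact ⟨h, (Dvd.intro_left 2 rfl).trans h3, even_iff_two_dvd.2 ((Dvd.intro d rfl).trans h3)⟩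
  have hd0 : (d : ℝ) ≠ 0 := by exact_mod_cast (by omega : d ≠ 0)
  have hp0 : (p : ℝ) ≠ 0 := by exact_mod_cast (by omega : p ≠ 0)
  have e1 : ∑ n ∈ ((Ioc R R').filter Odd).filter (fun n => d ∣ n), cnt p x y J n -
      (J : ℝ) / p * (((R' : ℝ) - R) / 2) / d =
      (∑ n ∈ (Ioc R R').filter (fun n => d ∣ n), cnt p x y J n - (J : ℝ) / p * (((R' : ℝ) - R) / d)) -
      (∑ n ∈ (Ioc R R').filter (fun n => 2 * d ∣ n), cnt p x y J n -
        (J : ℝ) / p * (((R' : ℝ) - R) / ((2 * d : ℕ) : ℝ))) := by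
    rw [hsplit]
    push_cast
    field_simp
    ring
  rw [e1]
  refine (abs_sub _ _).trans ?_
  linarith

end Pool.Agent.LPX
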