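import Pool.Agent.LPX.K3

/-!
# [LPX-S3] the sum of the error terms
-/

set_option autoImplicit false

namespace Pool.Agent.LPX

open Finset Pool.Agent.MP_2f88e5_nt Pool.Agent.EPK

theorem S3_min (a b : ℝ) (ha : 0 ≤ a) (hb : 0 ≤ b) : min a b ≤ a ^ (1 / 4 : ℝ) * b ^ (3 / 4 : ℝ) := by
  have hm : 0 ≤ min a b := le_min ha hb
  have h1 : min a b = (min a b) ^ (1 / 4 : ℝ) * (min a b) ^ (3 / 4 : ℝ) := by
    rw [← Real.rpow_add_of_nonneg hm (by norm_num) (by norm_num)]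
    norm_num
  rw [h1]
  exact mul_le_mul (Real.rpow_le_rpow hm (min_le_left _ _) (by norm_num))
    (Real.rpow_le_rpow hm (min_le_right _ _) (by norm_num)) (by positivity) (by positivity)

theorem S3_blocks (D : ℕ) (hD : 1 ≤ D) (g : ℕ → ℝ) (hg : ∀ e, 0 ≤ g e) :
    ∑ e ∈ Icc 1 D, g e ≤ ∑ j ∈ range (Nat.log 2 D + 1), ∑ e ∈ Icc (2 ^ j) (2 * 2 ^ j), g e := by
  have hmaps : ∀ e ∈ Icc 1 D, Nat.log 2 e ∈ range (Nat.log 2 D + 1) := by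
    intro e he
    rw [Finset.mem_Icc] at he
    rw [Finset.mem_range]
    have := Nat.log_mono_right (b := 2) he.2
    omega
  rw [← Finset.sum_fiberwise_of_maps_to hmaps g]
  refine Finset.sum_le_sum fun j _ => ?_
  refine Finset.sum_le_sum_of_subset_of_nonneg ?_ (fun e _ _ => hg e)
  intro e he
  rw [Finset.mem_filter, Finset.mem_Icc] at he
  rw [Finset.mem_Icc]
  obtain ⟨⟨h1, h2⟩, h3⟩ := he
  have h4 := Nat.pow_log_le_self 2 (by omega : e ≠ 0)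
  have h5 := Nat.lt_pow_succ_log_self (b := 2) (by norm_num) e
  rw [h3] at h4 h5
  rw [Nat.succ_eq_add_one, pow_succ] at h5
  omega

/-- [S3] The error terms summed over `e ≤ D`, `2 D < p`.

Proof. `∑_e er e = 2 ∑_h min (J / p) (1 / (2 h)) f h`, `f h = ∑_{e ≤ D} ‖∑_k ...‖`. `dyadic1` with `P = (p - 1) / 2`, `clog_facts`: `H = 2^i < p`, at most `2 (3 + log p)`
values of `i`, weight `w = min (J / p) (1 / H)`. `e ∈ [1, D]` is covered by the blocks `[2^j, 2^(j+1)]`, `2^j ≤ D`, at most `2 (3 + log p)` of them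
(`1 + log D / log 2`). For a block with `M = 2^j ≤ D`: `block` with `u e = R / e`, `v e = R' / e` (`v e - u e ≤ R' / e ≤ R' / M =: N`, natural division), `c = R' / p`
(`N M ≤ R' = c p`), `2 M ≤ 2 D < p`: `20 T² (3 + log p) ((R'/p)^(1/4) H^(3/4) M^(1/2) p^(3/4) + H M p^(1/2))`. With `w ≤ (J / p)^(1/4) H^(-3/4)`, `w ≤ 1 / H` and
`(J R' / p²)^(1/4) ≤ 16^(1/4) = 2`: each pair `(i, j)` contributes at most `20 T² (3 + log p) (2 M^(1/2) p^(3/4) + M p^(1/2))`, `M ≤ D`. Total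
`2 · 2 · 2 · 20 T² (3 + log p)³ (2 D^(1/2) p^(3/4) + D p^(1/2))`. (If `D = 0` the left side is `0`.) -/
theorem sum_er (p : ℕ) [Fact p.Prime] (hp : 2 < p) (R R' J D : ℕ) (hD : 2 * D < p)
    (hJ : J * R' ≤ 16 * p ^ 2) (T : ℝ) (hT : TauLE (16 * p ^ 4) T) (x : ZMod p) (hx : x ≠ 0) :
    ∑ e ∈ Icc 1 D, er p x R R' J e ≤
      320 * T ^ 2 * (3 + Real.log p) ^ 3 *
        ((D : ℝ) ^ (1 / 2 : ℝ) * (p : ℝ) ^ (3 / 4 : ℝ) + D * (p : ℝ) ^ (1 / 2 : ℝ)) := by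
  have hpR : (0 : ℝ) < p := by exact_mod_cast (by omega : 0 < p)
  have hp1 : (1 : ℝ) ≤ p := by exact_mod_cast (by omega : 1 ≤ p)
  have hT1 : 1 ≤ T := by
    have := hT 1 le_rfl (by
      have : 1 ≤ p ^ 4 := Nat.one_le_pow _ _ (by omega)
      omega)
    simpa using this
  have hlogp : 0 ≤ Real.log p := Real.log_nonneg hp1
  set L := 3 + Real.log p with hL
  have hL1 : 1 ≤ L := by linarith
  set P3 := (p : ℝ) ^ (3 / 4 : ℝ) with hP3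
  set P2 := (p : ℝ) ^ (1 / 2 : ℝ) with hP2
  have hP3' : 0 ≤ P3 := by positivity
  have hP2' : 0 ≤ P2 := by positivity
  rcases Nat.eq_zero_or_pos D with h0 | hD1
  · subst h0
    rw [show Icc 1 0 = (∅ : Finset ℕ) from rfl, Finset.sum_empty]
    positivity
  set f : ℕ → ℕ → ℝ := fun h e =>
    ‖∑ k ∈ Ioc (R / e) (R' / e), ea p (x * (h : ZMod p) * ((e : ZMod p) * (k : ZMod p))⁻¹)‖ with hf
  have hf0 : ∀ h e, 0 ≤ f h e := fun h e => norm_nonneg _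
  have hJp : (0 : ℝ) ≤ (J : ℝ) / p := by positivity
  have e1 : ∑ e ∈ Icc 1 D, er p x R R' J e =
      2 * ∑ h ∈ Icc 1 ((p - 1) / 2), min ((J : ℝ) / p) (1 / (2 * (h : ℝ))) * ∑ e ∈ Icc 1 D, f h e := by
    simp only [er, hf, Finset.mul_sum]
    rw [Finset.sum_comm]
  rw [e1]
  have hdy := dyadic1 ((p - 1) / 2) ((J : ℝ) / p) hJp (fun h => ∑ e ∈ Icc 1 D, f h e)
    (fun h => Finset.sum_nonneg fun e _ => hf0 h e)
  obtain ⟨hc1, hc2⟩ := clog_facts p hp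
  have hnj : ((Nat.log 2 D + 1 : ℕ) : ℝ) ≤ 2 * L := by
    have h1 : (2 : ℝ) ^ (Nat.log 2 D) ≤ D := by
      exact_mod_cast Nat.pow_log_le_self 2 (by omega : D ≠ 0)
    have h2 : (2 : ℝ) ^ (Nat.log 2 D) ≤ p := h1.trans (by exact_mod_cast (by omega : D ≤ p))
    have h3 := Real.log_le_log (by positivity) h2
    rw [Real.log_pow] at h3
    have h4 := Real.log_two_gt_d9
    have h5 : (0 : ℝ) ≤ (Nat.log 2 D : ℕ) := by positivity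
    push_cast
    rw [hL]
    nlinarith
  -- one pair of blocks
  have hpair : ∀ i ∈ range (Nat.clog 2 ((p - 1) / 2) + 1), ∀ j ∈ range (Nat.log 2 D + 1),
      min ((J : ℝ) / p) (1 / 2 ^ i) * ∑ h ∈ Icc 1 (2 ^ i), ∑ e ∈ Icc (2 ^ j) (2 * 2 ^ j), f h e ≤
        20 * T ^ 2 * L * (2 * ((D : ℝ) ^ (1 / 2 : ℝ) * P3) + D * P2) := by
    intro i hi j hj
    have hHp := hc1 i hi
    have hMD : 2 ^ j ≤ D := by
      rw [Finset.mem_range] at hj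
      exact (Nat.pow_le_pow_right (by norm_num) (by omega)).trans (Nat.pow_log_le_self 2 (by omega))
    have hM1 : 1 ≤ 2 ^ j := Nat.one_le_two_pow
    have hcN : ((R' / 2 ^ j : ℕ) : ℝ) * ((2 ^ j : ℕ) : ℝ) ≤ (R' : ℝ) / p * p := by
      rw [div_mul_cancel₀ _ hpR.ne']
      exact_mod_cast Nat.div_mul_le_self R' (2 ^ j)
    have hb := block p hp (2 ^ i) (2 ^ j) (R' / 2 ^ j) hHp hM1 (by omega) T hT x hx ((R' : ℝ) / p) hcN
      (fun e => R / e) (fun e => R' / e) (by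
        intro m hm
        rw [Finset.mem_Icc] at hm
        exact (Nat.sub_le _ _).trans (Nat.div_le_div_left hm.1 hM1))
    have hw0 : (0 : ℝ) ≤ min ((J : ℝ) / p) (1 / 2 ^ i) := le_min hJp (by positivity)
    refine (mul_le_mul_of_nonneg_left hb hw0).trans ?_
    set w := min ((J : ℝ) / p) (1 / 2 ^ i) with hw
    have hH0 : (0 : ℝ) < (2 : ℝ) ^ i := by positivity
    have hcast : (((2 : ℕ) ^ i : ℕ) : ℝ) = (2 : ℝ) ^ i := by push_cast; ring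
    have hcastM : (((2 : ℕ) ^ j : ℕ) : ℝ) ≤ D := by exact_mod_cast hMD
    have hM0 : (0 : ℝ) ≤ (((2 : ℕ) ^ j : ℕ) : ℝ) := by positivity
    rw [hcast]
    have hwH : w * (2 : ℝ) ^ i ≤ 1 := by
      calc w * (2 : ℝ) ^ i ≤ 1 / 2 ^ i * 2 ^ i := mul_le_mul_of_nonneg_right (min_le_right _ _) hH0.le
        _ = 1 := by field_simp
    have hw2 : w * (((R' : ℝ) / p) ^ (1 / 4 : ℝ) * ((2 : ℝ) ^ i) ^ (3 / 4 : ℝ)) ≤ 2 := by
      have h1 : w ≤ ((J : ℝ) / p) ^ (1 / 4 : ℝ) * (1 / 2 ^ i) ^ (3 / 4 : ℝ) := S3_min _ _ hJp (by positivity)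
      have h2 : ((J : ℝ) / p) ^ (1 / 4 : ℝ) * (1 / 2 ^ i) ^ (3 / 4 : ℝ) *
          (((R' : ℝ) / p) ^ (1 / 4 : ℝ) * ((2 : ℝ) ^ i) ^ (3 / 4 : ℝ)) =
          ((J : ℝ) / p * ((R' : ℝ) / p)) ^ (1 / 4 : ℝ) * ((1 / 2 ^ i) * (2 : ℝ) ^ i) ^ (3 / 4 : ℝ) := by
        rw [Real.mul_rpow hJp (by positivity), Real.mul_rpow (by positivity) hH0.le]
        ring
      have h3 : (1 / 2 ^ i) * (2 : ℝ) ^ i = 1 := by field_simp
      have h4 : (J : ℝ) / p * ((R' : ℝ) / p) ≤ 16 := by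
        rw [div_mul_div_comm, div_le_iff₀ (by positivity)]
        have : ((J * R' : ℕ) : ℝ) ≤ ((16 * p ^ 2 : ℕ) : ℝ) := by exact_mod_cast hJ
        push_cast at this
        calc (J : ℝ) * R' ≤ 16 * (p : ℝ) ^ 2 := this
          _ = 16 * ((p : ℝ) * p) := by ring
      have h5 : (16 : ℝ) ^ (1 / 4 : ℝ) = 2 := by
        rw [show (16 : ℝ) = 2 ^ (4 : ℝ) by norm_num, ← Real.rpow_mul (by norm_num)]
        norm_num
      calc w * (((R' : ℝ) / p) ^ (1 / 4 : ℝ) * ((2 : ℝ) ^ i) ^ (3 / 4 : ℝ))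
          ≤ ((J : ℝ) / p) ^ (1 / 4 : ℝ) * (1 / 2 ^ i) ^ (3 / 4 : ℝ) *
          (((R' : ℝ) / p) ^ (1 / 4 : ℝ) * ((2 : ℝ) ^ i) ^ (3 / 4 : ℝ)) :=
            mul_le_mul_of_nonneg_right h1 (by positivity)
        _ = ((J : ℝ) / p * ((R' : ℝ) / p)) ^ (1 / 4 : ℝ) := by rw [h2, h3, Real.one_rpow, mul_one]
        _ ≤ (16 : ℝ) ^ (1 / 4 : ℝ) := Real.rpow_le_rpow (by positivity) h4 (by norm_num)
        _ = 2 := h5
    have hMh : (((2 : ℕ) ^ j : ℕ) : ℝ) ^ (1 / 2 : ℝ) ≤ (D : ℝ) ^ (1 / 2 : ℝ) :=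
      Real.rpow_le_rpow hM0 hcastM (by norm_num)
    have hDh : 0 ≤ (D : ℝ) ^ (1 / 2 : ℝ) := by positivity
    have t1 : w * (((R' : ℝ) / p) ^ (1 / 4 : ℝ) * ((2 : ℝ) ^ i) ^ (3 / 4 : ℝ) *
        (((2 : ℕ) ^ j : ℕ) : ℝ) ^ (1 / 2 : ℝ) * P3) ≤ 2 * ((D : ℝ) ^ (1 / 2 : ℝ) * P3) := by
      calc w * (((R' : ℝ) / p) ^ (1 / 4 : ℝ) * ((2 : ℝ) ^ i) ^ (3 / 4 : ℝ) *
          (((2 : ℕ) ^ j : ℕ) : ℝ) ^ (1 / 2 : ℝ) * P3)
          = (w * (((R' : ℝ) / p) ^ (1 / 4 : ℝ) * ((2 : ℝ) ^ i) ^ (3 / 4 : ℝ))) *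
            ((((2 : ℕ) ^ j : ℕ) : ℝ) ^ (1 / 2 : ℝ) * P3) := by ring
        _ ≤ 2 * ((D : ℝ) ^ (1 / 2 : ℝ) * P3) := by
            apply mul_le_mul hw2 (mul_le_mul_of_nonneg_right hMh hP3') (by positivity) (by norm_num)
    have t2 : w * ((2 : ℝ) ^ i * (((2 : ℕ) ^ j : ℕ) : ℝ) * P2) ≤ D * P2 := by
      calc w * ((2 : ℝ) ^ i * (((2 : ℕ) ^ j : ℕ) : ℝ) * P2)
          = (w * (2 : ℝ) ^ i) * ((((2 : ℕ) ^ j : ℕ) : ℝ) * P2) := by ring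
        _ ≤ 1 * (D * P2) := by
            apply mul_le_mul hwH (mul_le_mul_of_nonneg_right hcastM hP2') (by positivity) (by norm_num)
        _ = D * P2 := one_mul _
    calc w * (20 * T ^ 2 * L * (((R' : ℝ) / p) ^ (1 / 4 : ℝ) * ((2 : ℝ) ^ i) ^ (3 / 4 : ℝ) *
          (((2 : ℕ) ^ j : ℕ) : ℝ) ^ (1 / 2 : ℝ) * P3 + (2 : ℝ) ^ i * (((2 : ℕ) ^ j : ℕ) : ℝ) * P2))
        = 20 * T ^ 2 * L * (w * (((R' : ℝ) / p) ^ (1 / 4 : ℝ) * ((2 : ℝ) ^ i) ^ (3 / 4 : ℝ) *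
          (((2 : ℕ) ^ j : ℕ) : ℝ) ^ (1 / 2 : ℝ) * P3) + w * ((2 : ℝ) ^ i * (((2 : ℕ) ^ j : ℕ) : ℝ) * P2)) := by ring
      _ ≤ 20 * T ^ 2 * L * (2 * ((D : ℝ) ^ (1 / 2 : ℝ) * P3) + D * P2) := by
          apply mul_le_mul_of_nonneg_left (add_le_add t1 t2) (by positivity)
  set Bd := 20 * T ^ 2 * L * (2 * ((D : ℝ) ^ (1 / 2 : ℝ) * P3) + D * P2) with hBd
  have hBd0 : 0 ≤ Bd := by positivity
  have hi : ∀ i ∈ range (Nat.clog 2 ((p - 1) / 2) + 1),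
      min ((J : ℝ) / p) (1 / 2 ^ i) * ∑ h ∈ Icc 1 (2 ^ i), ∑ e ∈ Icc 1 D, f h e ≤ 2 * L * Bd := by
    intro i hi
    have hw0 : (0 : ℝ) ≤ min ((J : ℝ) / p) (1 / 2 ^ i) := le_min hJp (by positivity)
    have h1 : ∑ h ∈ Icc 1 (2 ^ i), ∑ e ∈ Icc 1 D, f h e ≤
        ∑ j ∈ range (Nat.log 2 D + 1), ∑ h ∈ Icc 1 (2 ^ i), ∑ e ∈ Icc (2 ^ j) (2 * 2 ^ j), f h e := by
      rw [Finset.sum_comm (s := range (Nat.log 2 D + 1))]
      exact Finset.sum_le_sum fun h _ => S3_blocks D hD1 (f h) (hf0 h)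
    refine (mul_le_mul_of_nonneg_left h1 hw0).trans ?_
    rw [Finset.mul_sum]
    refine (Finset.sum_le_sum (hpair i hi)).trans ?_
    rw [Finset.sum_const, Finset.card_range, nsmul_eq_mul]
    exact mul_le_mul_of_nonneg_right hnj hBd0
  have hfin : ∑ i ∈ range (Nat.clog 2 ((p - 1) / 2) + 1),
      min ((J : ℝ) / p) (1 / 2 ^ i) * ∑ h ∈ Icc 1 (2 ^ i), ∑ e ∈ Icc 1 D, f h e ≤ 2 * L * (2 * L * Bd) := by
    refine (Finset.sum_le_sum hi).trans ?_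
    rw [Finset.sum_const, Finset.card_range, nsmul_eq_mul]
    exact mul_le_mul_of_nonneg_right hc2 (by positivity)
  have hall := mul_le_mul_of_nonneg_left (hdy.trans hfin) (by norm_num : (0 : ℝ) ≤ 2)
  refine hall.trans ?_
  have hDP : 0 ≤ (D : ℝ) ^ (1 / 2 : ℝ) * P3 := by positivity
  have hDP2 : 0 ≤ (D : ℝ) * P2 := by positivity
  have e3 : 2 * (2 * L * (2 * L * Bd)) = T ^ 2 * L ^ 3 * (320 * ((D : ℝ) ^ (1 / 2 : ℝ) * P3) + 160 * (D * P2)) := by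
    rw [hBd]; ring
  have e4 : 320 * T ^ 2 * L ^ 3 * ((D : ℝ) ^ (1 / 2 : ℝ) * P3 + D * P2) =
      T ^ 2 * L ^ 3 * (320 * ((D : ℝ) ^ (1 / 2 : ℝ) * P3) + 320 * (D * P2)) := by ring
  rw [e3, e4]
  apply mul_le_mul_of_nonneg_left _ (by positivity)
  linarith

end Pool.Agent.LPX
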