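import Pool.Agent.LPX.S1
import Pool.Agent.LPX.S2
import Pool.Agent.LPX.S3
import Pool.Agent.LPX.F3

/-!
# [LPX-S4] the sieve over the modular hyperbola
-/

set_option autoImplicit false

namespace Pool.Agent.LPX

open Finset Pool.Agent.MP_2f88e5_nt Pool.Agent.EPK

theorem S4_er_nonneg (p : ℕ) [Fact p.Prime] (x : ZMod p) (R R' J e : ℕ) : 0 ≤ er p x R R' J e := by
  unfold er
  refine mul_nonneg (by norm_num) (Finset.sum_nonneg fun h _ => mul_nonneg ?_ (norm_nonneg _))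
  exact le_min (by positivity) (by positivity)

/-- [S4] The sieve bound.

Proof. `selberg_avg` for `T = (Ioc R R').filter Odd`, `w = cnt p x y J ≥ 0`, `X = (J / p) (R' - R) / 2`, `E d = 2 (J / p) + er d + er (2 d)` (`sum_odd_multiples`; `er ≥ 0`),
`τ = T` (`z² < p ≤ 16 p⁴`). Main term `2 X / log z`. Error: `T² ∑_{d odd, d ≤ z²} (2 (J / p) + er d + er (2 d))`, `J / p ≤ 2`, and
`∑_{d ≤ z²} (er d + er (2 d)) ≤ 2 ∑_{e ≤ 2 z²} er e` (`d ↦ 2 d` is injective); `sum_er` with `D = 2 z²`, `2 D = 4 z² < p`: at most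
`T² (4 z² + 2 · 320 T² (3 + log p)³ ((2 z²)^(1/2) p^(3/4) + 2 z² p^(1/2)))`, and `1 ≤ T`, `√2 ≤ 1.5`, `4 z² ≤ 4 z² p^(1/2)`. -/
theorem sieve (p : ℕ) [Fact p.Prime] (hp : 2 < p) (R R' J z : ℕ) (hR : R ≤ R') (hz : 2 ≤ z)
    (hzp : 4 * z ^ 2 < p) (hJ2 : J ≤ 2 * p) (hJ : J * R' ≤ 16 * p ^ 2)
    (T : ℝ) (hT : TauLE (16 * p ^ 4) T) (x y : ZMod p) (hx : x ≠ 0) :
    ∑ n ∈ ((Ioc R R').filter Odd).filter
        (fun m : ℕ => ∀ l ∈ (Icc (3 : ℕ) z).filter Nat.Prime, ¬ l ∣ m), cnt p x y J n ≤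
      (J : ℝ) / p * ((R' : ℝ) - R) / Real.log z +
        2000 * T ^ 4 * (3 + Real.log p) ^ 3 *
          (z * (p : ℝ) ^ (3 / 4 : ℝ) + (z : ℝ) ^ 2 * (p : ℝ) ^ (1 / 2 : ℝ)) := by
  have hpR : (0 : ℝ) < p := by exact_mod_cast (by omega : 0 < p)
  have hp1 : (1 : ℝ) ≤ p := by exact_mod_cast (by omega : 1 ≤ p)
  have hRR : (R : ℝ) ≤ R' := by exact_mod_cast hR
  have hJp0 : (0 : ℝ) ≤ (J : ℝ) / p := by positivity
  have hJp : (J : ℝ) / p ≤ 2 := by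
    rw [div_le_iff₀ hpR]
    exact_mod_cast hJ2
  have hpp : p ≤ 16 * p ^ 4 := by
    have : p ≤ p ^ 4 := Nat.le_self_pow (by norm_num) p
    omega
  have hT1 : 1 ≤ T := by
    have := hT 1 le_rfl (by have := hpp; omega)
    simpa using this
  have hmain := selberg_avg ((Ioc R R').filter Odd) (cnt p x y J) (fun m _ => cnt_nonneg p x y J m)
    ((J : ℝ) / p * (((R' : ℝ) - R) / 2)) (mul_nonneg hJp0 (by linarith))
    (fun d => 2 * ((J : ℝ) / p) + er p x R R' J d + er p x R R' J (2 * d))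
    (fun d => by
      have h1 := S4_er_nonneg p x R R' J d
      have h2 := S4_er_nonneg p x R R' J (2 * d)
      positivity)
    z hz T (fun d hd1 hd2 => hT d hd1 (by omega))
    (fun d _ hd _ => sum_odd_multiples p hp x y R R' J d hR hd)
  refine hmain.trans ?_
  have e1 : 2 * ((J : ℝ) / p * (((R' : ℝ) - R) / 2)) / Real.log z = (J : ℝ) / p * ((R' : ℝ) - R) / Real.log z := by
    congr 1
    ring
  rw [e1]
  have hsum := sum_er p hp R R' J (2 * z ^ 2) (by omega) hJ T hT x hx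
  set A := ∑ e ∈ Icc 1 (2 * z ^ 2), er p x R R' J e with hA
  have s1 : ∑ d ∈ (Icc 1 (z ^ 2)).filter Odd, er p x R R' J d ≤ A := by
    refine Finset.sum_le_sum_of_subset_of_nonneg ?_ (fun e _ _ => S4_er_nonneg p x R R' J e)
    intro d hd
    rw [Finset.mem_filter, Finset.mem_Icc] at hd
    rw [Finset.mem_Icc]
    omega
  have s2 : ∑ d ∈ (Icc 1 (z ^ 2)).filter Odd, er p x R R' J (2 * d) ≤ A := by
    have : ∑ d ∈ (Icc 1 (z ^ 2)).filter Odd, er p x R R' J (2 * d) =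
        ∑ e ∈ ((Icc 1 (z ^ 2)).filter Odd).image (fun d => 2 * d), er p x R R' J e := by
      rw [Finset.sum_image]
      intro a _ b _ h
      simpa using h
    rw [this]
    refine Finset.sum_le_sum_of_subset_of_nonneg ?_ (fun e _ _ => S4_er_nonneg p x R R' J e)
    intro e he
    rw [Finset.mem_image] at he
    obtain ⟨d, hd, rfl⟩ := he
    rw [Finset.mem_filter, Finset.mem_Icc] at hd
    rw [Finset.mem_Icc]
    omega
  have s3 : ∑ _d ∈ (Icc 1 (z ^ 2)).filter Odd, 2 * ((J : ℝ) / p) ≤ 4 * (z : ℝ) ^ 2 := by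
    rw [Finset.sum_const, nsmul_eq_mul]
    have h1 : ((((Icc 1 (z ^ 2)).filter Odd).card : ℕ) : ℝ) ≤ (z : ℝ) ^ 2 := by
      have := Finset.card_filter_le (Icc 1 (z ^ 2)) Odd
      rw [Nat.card_Icc, Nat.add_sub_cancel] at this
      exact_mod_cast this
    have h2 : 2 * ((J : ℝ) / p) ≤ 4 := by linarith
    calc _ ≤ (z : ℝ) ^ 2 * 4 := mul_le_mul h1 h2 (by positivity) (by positivity)
      _ = _ := by ring
  have s4 : ∑ d ∈ (Icc 1 (z ^ 2)).filter Odd,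
      (2 * ((J : ℝ) / p) + er p x R R' J d + er p x R R' J (2 * d)) ≤ 4 * (z : ℝ) ^ 2 + 2 * A := by
    rw [Finset.sum_add_distrib, Finset.sum_add_distrib]
    linarith
  set P3 := (p : ℝ) ^ (3 / 4 : ℝ) with hP3
  set P2 := (p : ℝ) ^ (1 / 2 : ℝ) with hP2
  set L := 3 + Real.log p with hL
  have hP3' : 0 ≤ P3 := by positivity
  have hP2' : 1 ≤ P2 := Real.one_le_rpow hp1 (by norm_num)
  have hL1 : 1 ≤ L := by
    have := Real.log_nonneg hp1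
    linarith
  have hz0 : (0 : ℝ) ≤ z := by positivity
  have hroot : (((2 * z ^ 2 : ℕ) : ℝ)) ^ (1 / 2 : ℝ) ≤ 1.5 * z := by
    rw [← Real.sqrt_eq_rpow]
    apply Real.sqrt_le_iff.2
    constructor
    · positivity
    · push_cast
      nlinarith [sq_nonneg (z : ℝ)]
  have hA' : A ≤ 320 * T ^ 2 * L ^ 3 * (1.5 * z * P3 + 2 * (z : ℝ) ^ 2 * P2) := by
    refine hsum.trans ?_
    apply mul_le_mul_of_nonneg_left _ (by positivity)
    have h1 : (((2 * z ^ 2 : ℕ) : ℝ)) ^ (1 / 2 : ℝ) * P3 ≤ 1.5 * z * P3 := mul_le_mul_of_nonneg_right hroot hP3'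
    have h2 : ((2 * z ^ 2 : ℕ) : ℝ) * P2 = 2 * (z : ℝ) ^ 2 * P2 := by push_cast; ring
    linarith
  have hT2 : (1 : ℝ) ≤ T ^ 2 := one_le_pow₀ hT1
  have hL3 : (1 : ℝ) ≤ L ^ 3 := one_le_pow₀ hL1
  have s5 : 4 * (z : ℝ) ^ 2 ≤ T ^ 2 * L ^ 3 * (4 * (z : ℝ) ^ 2 * P2) := by
    have h1 : 4 * (z : ℝ) ^ 2 ≤ 4 * (z : ℝ) ^ 2 * P2 := le_mul_of_one_le_right (by positivity) hP2'
    have h2 : (1 : ℝ) ≤ T ^ 2 * L ^ 3 := one_le_mul_of_one_le_of_one_le hT2 hL3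
    have h3 : 4 * (z : ℝ) ^ 2 * P2 ≤ T ^ 2 * L ^ 3 * (4 * (z : ℝ) ^ 2 * P2) :=
      le_mul_of_one_le_left (by positivity) h2
    exact h1.trans h3
  have s6 : T ^ 2 * ∑ d ∈ (Icc 1 (z ^ 2)).filter Odd,
      (2 * ((J : ℝ) / p) + er p x R R' J d + er p x R R' J (2 * d)) ≤
      2000 * T ^ 4 * L ^ 3 * (z * P3 + (z : ℝ) ^ 2 * P2) := by
    have h1 : ∑ d ∈ (Icc 1 (z ^ 2)).filter Odd,
      (2 * ((J : ℝ) / p) + er p x R R' J d + er p x R R' J (2 * d)) ≤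
        T ^ 2 * L ^ 3 * (2000 * (z * P3 + (z : ℝ) ^ 2 * P2)) := by
      have h2 : 4 * (z : ℝ) ^ 2 + 2 * A ≤ T ^ 2 * L ^ 3 * (4 * (z : ℝ) ^ 2 * P2) +
          2 * (320 * T ^ 2 * L ^ 3 * (1.5 * z * P3 + 2 * (z : ℝ) ^ 2 * P2)) := by linarith
      refine (s4.trans h2).trans ?_
      have h3 : 0 ≤ T ^ 2 * L ^ 3 := by positivity
      have h4 : 0 ≤ T ^ 2 * L ^ 3 * (z * P3) := by positivity
      have h5 : 0 ≤ T ^ 2 * L ^ 3 * ((z : ℝ) ^ 2 * P2) := by positivity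
      have h6 : T ^ 2 * L ^ 3 * (4 * (z : ℝ) ^ 2 * P2) +
          2 * (320 * T ^ 2 * L ^ 3 * (1.5 * z * P3 + 2 * (z : ℝ) ^ 2 * P2)) =
          960 * (T ^ 2 * L ^ 3 * (z * P3)) + 1284 * (T ^ 2 * L ^ 3 * ((z : ℝ) ^ 2 * P2)) := by ring
      have h7 : T ^ 2 * L ^ 3 * (2000 * (z * P3 + (z : ℝ) ^ 2 * P2)) =
          2000 * (T ^ 2 * L ^ 3 * (z * P3)) + 2000 * (T ^ 2 * L ^ 3 * ((z : ℝ) ^ 2 * P2)) := by ring
      rw [h6, h7]
      linarith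
    calc _ ≤ T ^ 2 * (T ^ 2 * L ^ 3 * (2000 * (z * P3 + (z : ℝ) ^ 2 * P2))) :=
          mul_le_mul_of_nonneg_left h1 (by positivity)
      _ = _ := by ring
  linarith

end Pool.Agent.LPX
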