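import Pool.Agent.LPX.S4
import Pool.Agent.LPX.I0
import Pool.Agent.EPK.E1a

/-!
# [LPX-S5] upper bound for the number of pairs with `r` in an interval
-/

set_option autoImplicit false

namespace Pool.Agent.LPX

open Finset Pool.Agent.MP_2f88e5_nt Pool.Agent.EPK

theorem s5_log1000 : (6 : ℝ) < Real.log 1000 := by
  rw [Real.lt_log_iff_exp_lt (by norm_num)]
  have h1 : Real.exp 1 < 2.7182818286 := Real.exp_one_lt_d9
  have h2 : Real.exp 6 = (Real.exp 1) ^ 6 := by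
    rw [← Real.exp_nat_mul]
    norm_num
  rw [h2]
  calc (Real.exp 1) ^ 6 < (2.7182818286 : ℝ) ^ 6 := by
        apply pow_lt_pow_left₀ h1 (Real.exp_pos 1).le (by norm_num)
    _ < 1000 := by norm_num

theorem s5_logp (p : ℕ) (hp : 1000 ≤ p) : (6 : ℝ) < Real.log p := by
  have : (1000 : ℝ) ≤ p := by exact_mod_cast hp
  exact lt_of_lt_of_le s5_log1000 (Real.log_le_log (by norm_num) this)

/-- The parameter `z`. -/
theorem s5_z (p : ℕ) (hp : 1000 ≤ p) :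
    2 ≤ ⌊(p : ℝ) ^ (99 / 400 : ℝ)⌋₊ ∧ 4 * ⌊(p : ℝ) ^ (99 / 400 : ℝ)⌋₊ ^ 2 < p ∧
    99 / 400 * Real.log p - 1 ≤ Real.log (⌊(p : ℝ) ^ (99 / 400 : ℝ)⌋₊ : ℝ) ∧
    (⌊(p : ℝ) ^ (99 / 400 : ℝ)⌋₊ : ℝ) * (p : ℝ) ^ (3 / 4 : ℝ) ≤ (p : ℝ) ^ (399 / 400 : ℝ) ∧
    (⌊(p : ℝ) ^ (99 / 400 : ℝ)⌋₊ : ℝ) ^ 2 * (p : ℝ) ^ (1 / 2 : ℝ) ≤ (p : ℝ) ^ (399 / 400 : ℝ) := by
  have hp0 : (1000 : ℝ) ≤ p := by exact_mod_cast hp
  have hpp : (0 : ℝ) < p := by linarith
  have hp1 : (1 : ℝ) ≤ p := by linarith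
  have hlog := s5_logp p hp
  set P : ℝ := (p : ℝ) ^ (99 / 400 : ℝ) with hP
  have hPpos : 0 < P := Real.rpow_pos_of_pos hpp _
  have hP4 : P ^ 4 = (p : ℝ) ^ (99 / 100 : ℝ) := by
    rw [hP, ← Real.rpow_natCast, ← Real.rpow_mul hpp.le]
    norm_num
  have hP4le : P ^ 4 ≤ p := by
    rw [hP4]
    calc (p : ℝ) ^ (99 / 100 : ℝ) ≤ (p : ℝ) ^ (1 : ℝ) :=
          Real.rpow_le_rpow_of_exponent_le hp1 (by norm_num)
      _ = p := Real.rpow_one _
  have hlogP : Real.log P = 99 / 400 * Real.log p := by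
    rw [hP, Real.log_rpow hpp]
  have hP4' : (4 : ℝ) ≤ P := by
    rw [← Real.log_le_log_iff (by norm_num) hPpos, hlogP]
    have h2 : Real.log 4 = 2 * Real.log 2 := by
      rw [show (4 : ℝ) = 2 ^ 2 by norm_num, Real.log_pow]
      norm_num
    rw [h2]
    have := Real.log_two_lt_d9
    linarith
  have hz1 : P - 1 < (⌊P⌋₊ : ℝ) := Nat.sub_one_lt_floor P
  have hz2 : (⌊P⌋₊ : ℝ) ≤ P := Nat.floor_le hPpos.le
  have hzh : P / 2 ≤ (⌊P⌋₊ : ℝ) := by linarith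
  have hzpos : (0 : ℝ) < (⌊P⌋₊ : ℝ) := by linarith
  refine ⟨?_, ?_, ?_, ?_, ?_⟩
  · have : (2 : ℝ) ≤ (⌊P⌋₊ : ℝ) := by linarith
    exact_mod_cast this
  · have h1 : ((⌊P⌋₊ : ℝ)) ^ 4 ≤ P ^ 4 := pow_le_pow_left₀ hzpos.le hz2 4
    have h2 : (4 * (⌊P⌋₊ : ℝ) ^ 2) ^ 2 < (p : ℝ) ^ 2 := by
      have : (4 * (⌊P⌋₊ : ℝ) ^ 2) ^ 2 = 16 * (⌊P⌋₊ : ℝ) ^ 4 := by ring
      rw [this]
      nlinarith
    have h3 : 4 * (⌊P⌋₊ : ℝ) ^ 2 < (p : ℝ) := lt_of_pow_lt_pow_left₀ 2 hpp.le h2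
    exact_mod_cast h3
  · have h1 : Real.log (P / 2) ≤ Real.log (⌊P⌋₊ : ℝ) := Real.log_le_log (by linarith) hzh
    rw [Real.log_div hPpos.ne' (by norm_num), hlogP] at h1
    have := Real.log_two_lt_d9
    linarith
  · calc (⌊P⌋₊ : ℝ) * (p : ℝ) ^ (3 / 4 : ℝ) ≤ P * (p : ℝ) ^ (3 / 4 : ℝ) :=
          mul_le_mul_of_nonneg_right hz2 (Real.rpow_nonneg hpp.le _)
      _ = (p : ℝ) ^ (399 / 400 : ℝ) := by
          rw [hP, ← Real.rpow_add hpp]
          norm_num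
  · calc (⌊P⌋₊ : ℝ) ^ 2 * (p : ℝ) ^ (1 / 2 : ℝ) ≤ P ^ 2 * (p : ℝ) ^ (1 / 2 : ℝ) :=
          mul_le_mul_of_nonneg_right (pow_le_pow_left₀ hzpos.le hz2 2) (Real.rpow_nonneg hpp.le _)
      _ = (p : ℝ) ^ (199 / 200 : ℝ) := by
          rw [hP, ← Real.rpow_natCast, ← Real.rpow_mul hpp.le, ← Real.rpow_add hpp]
          norm_num
      _ ≤ (p : ℝ) ^ (399 / 400 : ℝ) := Real.rpow_le_rpow_of_exponent_le hp1 (by norm_num)

/-- [S5] The number of pairs `(r, s)` with `r` a prime in `(R, R']`.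

Proof. `x = a 2⁻¹ ≠ 0`, `y = 2⁻¹`, `J = (nmax p a / R + 1) / 2`, `z = ⌊p^(99/400)⌋₊`, which is `≥ 2` and has `4 z² ≤ 4 p^(99/200) < p` for `p ≥ 1000` (`p^(99/400) ≥ 5`). For a
prime `r ∈ (R, R']`: `r > 2 p > z`, so `r` is odd and not divisible by a prime `l ∈ [3, z]`, `r ≠ 0` in `ZMod p`, and
`cof p a r = cnt p x y ((nmax p a / r + 1) / 2) r ≤ cnt p x y J r` (`cof_eq_cnt`, `cnt_mono`). So the sum is at most the sum in `sieve` (`cnt_nonneg`). `J_bounds`: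
`J / p ≤ (2 p + 2) / R + 1 / (2 p) ≤ 2` and `J R' ≤ 2 J R ≤ 2 (2 p² + 2 p + R) ≤ 16 p²` (`R ≤ p²`). `log z ≥ log (p^(99/400) / 2) ≥ (99/400) log p - 1 > 0`
(`⌊t⌋ ≥ t / 2` for `t ≥ 1`, `log 2 < 1`; `(99/400) log 1000 > 1.7`). Error: `z p^(3/4) ≤ p^(399/400)`, `z² p^(1/2) ≤ p^(99/200 + 1/2) = p^(199/200)`; with
`T = C₁ p^(1/8000)` (`tau_le`), `T⁴ = C₁⁴ p^(1/2000)`, `(3 + log p)³ ≤ C₂ p^(1/2000)` (`log_absorb`): total `≤ 4000 C₁⁴ C₂ p^(399/400 + 1/1000) = … p^(1 - 3/2000)`. -/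
theorem pairs_bound : ∃ C : ℝ, 1 ≤ C ∧
    ∀ (p : ℕ) [Fact p.Prime] (a R R' : ℕ), 1000 ≤ p → a < 2 * p → ¬ p ∣ a → 2 * p ≤ R → R ≤ R' →
      R' ≤ 2 * R → R ≤ p ^ 2 →
      ∑ r ∈ (Ioc R R').filter Nat.Prime, cof p a r ≤
        ((2 * p + 2) / R + 1 / (2 * p)) * ((R' : ℝ) - R) / (99 / 400 * Real.log p - 1) +
          C * (p : ℝ) ^ (1 - 3 / 2000 : ℝ) := by
  obtain ⟨C₁, hC₁, hτ⟩ := tau_le (1 / 8000) (by norm_num)
  obtain ⟨C₂, hC₂, hl⟩ := log_absorb (1 / 2000) (by norm_num) 3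
  refine ⟨4000 * C₁ ^ 4 * C₂, ?_, ?_⟩
  · have h1 : (1 : ℝ) ≤ C₁ ^ 4 := one_le_pow₀ hC₁
    nlinarith
  · intro p hpf a R R' hp ha hpa hR hRR hR2 hRp
    obtain ⟨hz, hzp, hzlog, hz34, hz12⟩ := s5_z p hp
    have hlog := s5_logp p hp
    set z : ℕ := ⌊(p : ℝ) ^ (99 / 400 : ℝ)⌋₊ with hzdef
    have hprime : p.Prime := hpf.out
    have hp2 : 2 < p := by omega
    have hR0 : 0 < R := by omega
    have hppos : (0 : ℝ) < p := by positivity
    have hRr : (0 : ℝ) < R := by exact_mod_cast hR0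
    have hRr2 : (2 * p : ℝ) ≤ R := by exact_mod_cast hR
    have hp1000 : (1000 : ℝ) ≤ p := by exact_mod_cast hp
    obtain ⟨hJ1, _, hJ3⟩ := J_bounds p a R hp2 ha hR0
    set J : ℕ := (nmax p a / R + 1) / 2 with hJ
    have hJ2 : J ≤ 2 * p := by
      have h1 : ((2 * p + 2) / R + 1 / (2 * p) : ℝ) ≤ 2 := by
        have h2 : ((2 * p + 2) / R : ℝ) ≤ (2 * p + 2) / (2 * p) := by
          apply div_le_div_of_nonneg_left (by positivity) (by positivity) hRr2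
        have h3 : ((2 * p + 2) / (2 * p) + 1 / (2 * p) : ℝ) = 1 + 3 / (2 * p) := by
          field_simp
          ring
        have h4 : (3 / (2 * p) : ℝ) ≤ 1 := by
          rw [div_le_one (by positivity)]
          linarith
        linarith
      have h5 : (J : ℝ) / p ≤ 2 := le_trans hJ1 h1
      rw [div_le_iff₀ hppos] at h5
      exact_mod_cast h5
    have hJR : J * R' ≤ 16 * p ^ 2 := by
      calc J * R' ≤ J * (2 * R) := Nat.mul_le_mul_left J hR2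
        _ = 2 * (J * R) := by ring
        _ ≤ 2 * (2 * p ^ 2 + 2 * p + R) := Nat.mul_le_mul_left 2 hJ3
        _ ≤ 16 * p ^ 2 := by nlinarith
    have ha0 : (a : ZMod p) ≠ 0 := by
      rw [Ne, ZMod.natCast_eq_zero_iff]
      exact hpa
    have h20 : (2 : ZMod p) ≠ 0 := by
      have h1 : ((2 : ℕ) : ZMod p) ≠ 0 := by
        rw [Ne, ZMod.natCast_eq_zero_iff]
        intro h
        have := Nat.le_of_dvd (by norm_num) h
        omega
      exact_mod_cast h1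
    have hx : (a : ZMod p) * 2⁻¹ ≠ 0 := mul_ne_zero ha0 (inv_ne_zero h20)
    have hs := sieve p hp2 R R' J z hRR hz hzp hJ2 hJR _ (hτ p (by omega))
      ((a : ZMod p) * 2⁻¹) 2⁻¹ hx
    -- comparison of the sums
    have hcmp : ∑ r ∈ (Ioc R R').filter Nat.Prime, cof p a r ≤
        ∑ n ∈ ((Ioc R R').filter Odd).filter
          (fun m : ℕ => ∀ l ∈ (Icc (3 : ℕ) z).filter Nat.Prime, ¬ l ∣ m),
            cnt p ((a : ZMod p) * 2⁻¹) 2⁻¹ J n := by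
      have hzltp : z < p := by nlinarith
      calc ∑ r ∈ (Ioc R R').filter Nat.Prime, cof p a r
          ≤ ∑ r ∈ (Ioc R R').filter Nat.Prime, cnt p ((a : ZMod p) * 2⁻¹) 2⁻¹ J r := by
            apply Finset.sum_le_sum
            intro r hr
            rw [Finset.mem_filter, Finset.mem_Ioc] at hr
            obtain ⟨⟨hr1, hr2⟩, hrp⟩ := hr
            have hr0 : (r : ZMod p) ≠ 0 := by
              rw [Ne, ZMod.natCast_eq_zero_iff]
              intro h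
              rcases (Nat.dvd_prime hrp).mp h with h1 | h1
              · omega
              · omega
            rw [cof_eq_cnt p hp2 a r hr0]
            apply cnt_mono
            rw [hJ]
            apply Nat.div_le_div_right
            apply Nat.add_le_add_right
            exact Nat.div_le_div_left (by omega) hR0
        _ ≤ _ := by
            apply Finset.sum_le_sum_of_subset_of_nonneg
            · intro r hr
              rw [Finset.mem_filter, Finset.mem_Ioc] at hr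
              obtain ⟨⟨hr1, hr2⟩, hrp⟩ := hr
              rw [Finset.mem_filter, Finset.mem_filter, Finset.mem_Ioc]
              refine ⟨⟨⟨hr1, hr2⟩, hrp.odd_of_ne_two (by omega)⟩, ?_⟩
              intro l hl hdvd
              rw [Finset.mem_filter, Finset.mem_Icc] at hl
              rcases (Nat.dvd_prime hrp).mp hdvd with h1 | h1
              · omega
              · omega
            · intro i _ _
              exact cnt_nonneg _ _ _ _ _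
    refine le_trans hcmp (le_trans hs ?_)
    apply add_le_add
    · -- main term
      have hden : 0 < 99 / 400 * Real.log p - 1 := by linarith
      have hRR' : (0 : ℝ) ≤ (R' : ℝ) - R := by
        have : (R : ℝ) ≤ R' := by exact_mod_cast hRR
        linarith
      apply div_le_div₀ _ _ hden hzlog
      · apply mul_nonneg _ hRR'
        positivity
      · exact mul_le_mul_of_nonneg_right hJ1 hRR'
    · -- error term
      have hlog3 := hl p (by omega)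
      have hT4 : (C₁ * (p : ℝ) ^ (1 / 8000 : ℝ)) ^ 4 = C₁ ^ 4 * (p : ℝ) ^ (1 / 2000 : ℝ) := by
        rw [mul_pow, ← Real.rpow_natCast ((p : ℝ) ^ (1 / 8000 : ℝ)), ← Real.rpow_mul hppos.le]
        norm_num
      rw [hT4]
      have hsum : (z : ℝ) * (p : ℝ) ^ (3 / 4 : ℝ) + (z : ℝ) ^ 2 * (p : ℝ) ^ (1 / 2 : ℝ) ≤
          2 * (p : ℝ) ^ (399 / 400 : ℝ) := by linarith
      have hexp : (p : ℝ) ^ (1 - 3 / 2000 : ℝ) =
          (p : ℝ) ^ (1 / 2000 : ℝ) * (p : ℝ) ^ (1 / 2000 : ℝ) * (p : ℝ) ^ (399 / 400 : ℝ) := by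
        rw [← Real.rpow_add hppos, ← Real.rpow_add hppos]
        norm_num
      rw [hexp]
      have hA : (0 : ℝ) ≤ (p : ℝ) ^ (1 / 2000 : ℝ) := Real.rpow_nonneg hppos.le _
      have hC1 : (0 : ℝ) ≤ C₁ := by linarith
      calc 2000 * (C₁ ^ 4 * (p : ℝ) ^ (1 / 2000 : ℝ)) * (3 + Real.log p) ^ 3 *
            (z * (p : ℝ) ^ (3 / 4 : ℝ) + (z : ℝ) ^ 2 * (p : ℝ) ^ (1 / 2 : ℝ))
          ≤ 2000 * (C₁ ^ 4 * (p : ℝ) ^ (1 / 2000 : ℝ)) * (C₂ * (p : ℝ) ^ (1 / 2000 : ℝ)) *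
            (2 * (p : ℝ) ^ (399 / 400 : ℝ)) := by
            apply mul_le_mul _ hsum (by positivity) (by positivity)
            apply mul_le_mul_of_nonneg_left hlog3 (by positivity)
        _ = _ := by ring

end Pool.Agent.LPX
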