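import Pool.Agent.LPX.K3

/-!
# [LPX-T1] linear sums: the Type I bound
-/

set_option autoImplicit false

namespace Pool.Agent.LPX

open Finset Pool.Agent.MP_2f88e5_nt Pool.Agent.EPK

theorem t1_blocks (G : ℕ → ℝ) (n : ℕ) :
    ∑ m ∈ Ico 1 (2 ^ n), G m = ∑ i ∈ range n, ∑ m ∈ Ico (2 ^ i) (2 ^ (i + 1)), G m := by
  induction n with
  | zero => simp
  | succ n ih =>
    rw [sum_range_succ, ← ih]
    exact (Finset.sum_Ico_consecutive G (Nat.one_le_two_pow)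
      (Nat.pow_le_pow_right (by norm_num) (by omega))).symm

theorem t1_cover (G : ℕ → ℝ) (hG : ∀ m, 0 ≤ G m) (n U : ℕ) (hn : U < 2 ^ n) :
    ∑ m ∈ Icc 1 U, G m ≤ ∑ i ∈ range n, ∑ m ∈ Icc (2 ^ i) (2 * 2 ^ i), G m := by
  have h1 : ∑ m ∈ Icc 1 U, G m ≤ ∑ m ∈ Ico 1 (2 ^ n), G m := by
    refine sum_le_sum_of_subset_of_nonneg ?_ (fun m _ _ => hG m)
    intro m hm
    rw [mem_Icc] at hm
    rw [mem_Ico]
    omega
  rw [t1_blocks] at h1
  refine h1.trans (sum_le_sum fun i _ => ?_)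
  refine sum_le_sum_of_subset_of_nonneg ?_ (fun m _ _ => hG m)
  intro m hm
  rw [mem_Ico, pow_succ] at hm
  rw [mem_Icc]
  omega

/-- [T1] The Type I bound for `m ≤ U ≤ p^(2/9)` and `m k ≤ R' ≤ 8 p H`.

Proof (compare `EPK.typeI`, `EPK_D5c.lean`, with `sum_blocks_one`). If `H = 0` the left side is `0`. Cover `[1, U]` by the blocks
`2^i ≤ m < 2^(i+1)`, `2^i ≤ U`; at most `1 + log p / log 2 ≤ 2 (3 + log p)` of them. In the block with `M = 2^i ≤ U` replace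
`v m` by `0` for `m > U`: then `v m - u m ≤ v m ≤ R' / M =: N` for all `m ∈ [M, 2M]` (as `M v m ≤ m v m ≤ R'`), `N M ≤ R' = c p` with
`c = R' / p ≤ 8 H`. `2 M < p`: as `2 p^(2/9) < p` for `p ≥ 3`. `block`: at most
`B · 20 T² (3 + log p) ((8 H)^(1/4) H^(3/4) M^(1/2) p^(3/4) + H M p^(1/2))`, where `8^(1/4) ≤ 1.7`, `M^(1/2) p^(3/4) ≤ p^(1/9 + 3/4) = p^(31/36)`,
`M p^(1/2) ≤ p^(2/9 + 1/2) = p^(26/36) ≤ p^(31/36)`. Total `2 · 20 · 2.7 = 108 ≤ 120`. -/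
theorem typeI2 (p : ℕ) [Fact p.Prime] (hp : 2 < p) (H U R' : ℕ) (hH : H < p)
    (hU : (U : ℝ) ≤ (p : ℝ) ^ (2 / 9 : ℝ)) (hR : R' ≤ 8 * p * H)
    (T : ℝ) (hT : TauLE (16 * p ^ 4) T) (x : ZMod p) (hx : x ≠ 0) (α : ℕ → ℂ) (B : ℝ)
    (hB : 0 ≤ B) (hα : ∀ m, ‖α m‖ ≤ B) (u v : ℕ → ℕ) (hv : ∀ m ∈ Icc 1 U, m * v m ≤ R') :
    ∑ h ∈ Icc 1 H, ‖LL p α u v 1 U (x * (h : ZMod p))‖ ≤
      120 * B * T ^ 2 * (3 + Real.log p) ^ 2 * H * (p : ℝ) ^ (31 / 36 : ℝ) := by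
  classical
  have hprime : p.Prime := Fact.out
  have hp0 : (0 : ℝ) < p := by exact_mod_cast hprime.pos
  have hp1 : (1 : ℝ) ≤ p := by exact_mod_cast hprime.one_le
  have hH0 : (0 : ℝ) ≤ H := Nat.cast_nonneg _
  have hlog : 0 ≤ Real.log p := Real.log_nonneg hp1
  set P : ℝ := (p : ℝ) ^ (31 / 36 : ℝ) with hP
  have hP0 : 0 ≤ P := by positivity
  -- the blocks
  have hex : ∃ n, U < 2 ^ n := ⟨U, Nat.lt_two_pow_self⟩
  obtain ⟨n, hn1, hn2⟩ : ∃ n, U < 2 ^ n ∧ ∀ i < n, 2 ^ i ≤ U :=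
    ⟨Nat.find hex, Nat.find_spec hex, fun i hi => not_lt.1 (Nat.find_min hex hi)⟩
  have hUp : (U : ℝ) ≤ p := hU.trans (by
    calc (p : ℝ) ^ (2 / 9 : ℝ) ≤ (p : ℝ) ^ (1 : ℝ) :=
          Real.rpow_le_rpow_of_exponent_le hp1 (by norm_num)
      _ = p := Real.rpow_one _)
  have hnbound : (n : ℝ) ≤ 2 * (3 + Real.log p) := by
    rcases Nat.eq_zero_or_pos n with h0 | h0
    · rw [h0]
      push_cast
      linarith
    · have h1 := hn2 (n - 1) (by omega)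
      have h3 : (2 : ℝ) ^ (n - 1) ≤ p := le_trans (by exact_mod_cast h1) hUp
      have h4 : ((n - 1 : ℕ) : ℝ) * Real.log 2 ≤ Real.log p := by
        rw [← Real.log_pow]
        exact Real.log_le_log (by positivity) h3
      have h5 : ((n - 1 : ℕ) : ℝ) = (n : ℝ) - 1 := by
        rw [Nat.cast_sub h0, Nat.cast_one]
      rw [h5] at h4
      have h6 : (0.69 : ℝ) < Real.log 2 := lt_trans (by norm_num) Real.log_two_gt_d9
      have h7 : (0 : ℝ) ≤ (n : ℝ) - 1 := by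
        have : (1 : ℝ) ≤ n := by exact_mod_cast h0
        linarith
      nlinarith
  set v' : ℕ → ℕ := fun m => if m ≤ U then v m else 0 with hv'
  set G : ℕ → ℕ → ℝ := fun h m =>
    ‖∑ k ∈ Ioc (u m) (v' m), ea p (x * (h : ZMod p) * ((m : ZMod p) * (k : ZMod p))⁻¹)‖ with hG
  have hG0 : ∀ h m, 0 ≤ G h m := fun _ _ => norm_nonneg _
  have hLL : ∀ h : ℕ, ‖LL p α u v 1 U (x * (h : ZMod p))‖ ≤ B * ∑ m ∈ Icc 1 U, G h m := by
    intro h
    rw [LL, mul_sum]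
    refine (norm_sum_le _ _).trans (sum_le_sum fun m hm => ?_)
    rw [mem_Icc] at hm
    rw [norm_mul]
    have e1 : v' m = v m := by
      rw [hv']
      exact if_pos hm.2
    have e2 : G h m = ‖∑ k ∈ Ioc (u m) (v m),
        ea p (x * (h : ZMod p) * ((m : ZMod p) * (k : ZMod p))⁻¹)‖ := by
      rw [hG]
      dsimp only
      rw [e1]
    rw [e2]
    exact mul_le_mul_of_nonneg_right (hα m) (norm_nonneg _)
  have hblock : ∀ i ∈ range n, ∑ h ∈ Icc 1 H, ∑ m ∈ Icc (2 ^ i) (2 * 2 ^ i), G h m ≤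
      54 * T ^ 2 * (3 + Real.log p) * (H * P) := by
    intro i hi
    have hi' := hn2 i (mem_range.1 hi)
    set M := 2 ^ i with hM
    have hM1 : 1 ≤ M := Nat.one_le_two_pow
    have hM0 : (0 : ℝ) < M := by exact_mod_cast hM1
    have hMU : (M : ℝ) ≤ (p : ℝ) ^ (2 / 9 : ℝ) := le_trans (by exact_mod_cast hi') hU
    have hM4 : M ^ 4 ≤ p := by
      have h1 : (M : ℝ) ^ 4 ≤ ((p : ℝ) ^ (2 / 9 : ℝ)) ^ 4 := pow_le_pow_left₀ hM0.le hMU 4
      rw [← Real.rpow_natCast ((p : ℝ) ^ (2 / 9 : ℝ)) 4, ← Real.rpow_mul hp0.le] at h1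
      have h2 : (p : ℝ) ^ (2 / 9 * ((4 : ℕ) : ℝ)) ≤ (p : ℝ) ^ (1 : ℝ) :=
        Real.rpow_le_rpow_of_exponent_le hp1 (by norm_num)
      rw [Real.rpow_one] at h2
      exact_mod_cast h1.trans h2
    have hMp : 2 * M < p := by
      rcases Nat.lt_or_ge 1 M with h2 | h2
      · have h3 : 2 ^ 3 * M ≤ M ^ 3 * M := Nat.mul_le_mul_right _ (Nat.pow_le_pow_left h2 3)
        have h4 : M ^ 3 * M = M ^ 4 := by ring
        omega
      · omega
    set c : ℝ := (R' : ℝ) / p with hc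
    have hc0 : 0 ≤ c := by positivity
    have hc8 : c ≤ 8 * H := by
      rw [hc, div_le_iff₀ hp0]
      have : (R' : ℝ) ≤ 8 * p * H := by exact_mod_cast hR
      linarith
    have hNM : ((R' / M : ℕ) : ℝ) * M ≤ c * p := by
      rw [hc, div_mul_cancel₀ _ hp0.ne']
      exact_mod_cast Nat.div_mul_le_self R' M
    have huv : ∀ m ∈ Icc M (2 * M), v' m - u m ≤ R' / M := by
      intro m hm
      rw [mem_Icc] at hm
      refine (Nat.sub_le _ _).trans ?_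
      rw [hv']
      dsimp only
      split_ifs with h
      · rw [Nat.le_div_iff_mul_le (by omega)]
        have h1 := hv m (mem_Icc.2 ⟨by omega, h⟩)
        have h2 : v m * M ≤ v m * m := Nat.mul_le_mul_left _ hm.1
        have h3 : v m * m = m * v m := mul_comm _ _
        omega
      · exact Nat.zero_le _
    refine (block p hp H M (R' / M) hH hM1 hMp T hT x hx c hNM u v' huv).trans ?_
    have c1 : (M : ℝ) ^ (1 / 2 : ℝ) * (p : ℝ) ^ (3 / 4 : ℝ) ≤ P := by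
      calc (M : ℝ) ^ (1 / 2 : ℝ) * (p : ℝ) ^ (3 / 4 : ℝ) ≤
            ((p : ℝ) ^ (2 / 9 : ℝ)) ^ (1 / 2 : ℝ) * (p : ℝ) ^ (3 / 4 : ℝ) :=
            mul_le_mul_of_nonneg_right (Real.rpow_le_rpow hM0.le hMU (by norm_num)) (by positivity)
        _ = P := by
            rw [← Real.rpow_mul hp0.le, ← Real.rpow_add hp0, hP]; norm_num
    have c2 : (M : ℝ) * (p : ℝ) ^ (1 / 2 : ℝ) ≤ P := by
      calc (M : ℝ) * (p : ℝ) ^ (1 / 2 : ℝ) ≤ (p : ℝ) ^ (2 / 9 : ℝ) * (p : ℝ) ^ (1 / 2 : ℝ) :=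
            mul_le_mul_of_nonneg_right hMU (by positivity)
        _ = (p : ℝ) ^ (13 / 18 : ℝ) := by
            rw [← Real.rpow_add hp0]; norm_num
        _ ≤ P := Real.rpow_le_rpow_of_exponent_le hp1 (by norm_num)
    have c3 : c ^ (1 / 4 : ℝ) * (H : ℝ) ^ (3 / 4 : ℝ) ≤ 1.7 * H := by
      have d1 : c ^ (1 / 4 : ℝ) ≤ 8 ^ (1 / 4 : ℝ) * (H : ℝ) ^ (1 / 4 : ℝ) := by
        rw [← Real.mul_rpow (by norm_num) hH0]
        exact Real.rpow_le_rpow hc0 hc8 (by norm_num)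
      have d2 : (8 : ℝ) ^ (1 / 4 : ℝ) ≤ 1.7 := by
        have h1 : (8 : ℝ) ≤ 1.7 ^ (4 : ℝ) := by
          rw [show (4 : ℝ) = ((4 : ℕ) : ℝ) by norm_num, Real.rpow_natCast]
          norm_num
        have h2 := Real.rpow_le_rpow (by norm_num) h1 (by norm_num : (0 : ℝ) ≤ 1 / 4)
        rw [← Real.rpow_mul (by norm_num)] at h2
        norm_num at h2 ⊢
        exact h2
      have d3 : (H : ℝ) ^ (1 / 4 : ℝ) * (H : ℝ) ^ (3 / 4 : ℝ) = H := by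
        rw [← Real.rpow_add_of_nonneg hH0 (by norm_num) (by norm_num)]
        norm_num
      calc c ^ (1 / 4 : ℝ) * (H : ℝ) ^ (3 / 4 : ℝ) ≤
            (8 ^ (1 / 4 : ℝ) * (H : ℝ) ^ (1 / 4 : ℝ)) * (H : ℝ) ^ (3 / 4 : ℝ) :=
            mul_le_mul_of_nonneg_right d1 (by positivity)
        _ = 8 ^ (1 / 4 : ℝ) * H := by rw [mul_assoc, d3]
        _ ≤ 1.7 * H := mul_le_mul_of_nonneg_right d2 hH0
    have c4 : c ^ (1 / 4 : ℝ) * (H : ℝ) ^ (3 / 4 : ℝ) * (M : ℝ) ^ (1 / 2 : ℝ) *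
        (p : ℝ) ^ (3 / 4 : ℝ) ≤ 1.7 * H * P := by
      rw [mul_assoc (c ^ (1 / 4 : ℝ) * (H : ℝ) ^ (3 / 4 : ℝ))]
      exact mul_le_mul c3 c1 (by positivity) (by positivity)
    have c5 : (H : ℝ) * M * (p : ℝ) ^ (1 / 2 : ℝ) ≤ H * P := by
      rw [mul_assoc]
      exact mul_le_mul_of_nonneg_left c2 hH0
    calc 20 * T ^ 2 * (3 + Real.log p) * (c ^ (1 / 4 : ℝ) * (H : ℝ) ^ (3 / 4 : ℝ) *
          (M : ℝ) ^ (1 / 2 : ℝ) * (p : ℝ) ^ (3 / 4 : ℝ) + (H : ℝ) * M * (p : ℝ) ^ (1 / 2 : ℝ)) ≤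
        20 * T ^ 2 * (3 + Real.log p) * (1.7 * H * P + H * P) :=
          mul_le_mul_of_nonneg_left (add_le_add c4 c5) (by positivity)
      _ = 54 * T ^ 2 * (3 + Real.log p) * (H * P) := by ring
  calc ∑ h ∈ Icc 1 H, ‖LL p α u v 1 U (x * (h : ZMod p))‖ ≤
      ∑ h ∈ Icc 1 H, B * ∑ i ∈ range n, ∑ m ∈ Icc (2 ^ i) (2 * 2 ^ i), G h m := by
        refine sum_le_sum fun h _ => (hLL h).trans ?_
        exact mul_le_mul_of_nonneg_left (t1_cover (G h) (hG0 h) n U hn1) hB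
    _ = B * ∑ i ∈ range n, ∑ h ∈ Icc 1 H, ∑ m ∈ Icc (2 ^ i) (2 * 2 ^ i), G h m := by
        rw [← mul_sum, sum_comm]
    _ ≤ B * ∑ i ∈ range n, 54 * T ^ 2 * (3 + Real.log p) * (H * P) :=
        mul_le_mul_of_nonneg_left (sum_le_sum hblock) hB
    _ = B * ((n : ℝ) * (54 * T ^ 2 * (3 + Real.log p) * (H * P))) := by
        rw [sum_const, card_range, nsmul_eq_mul]
    _ ≤ B * ((2 * (3 + Real.log p)) * (54 * T ^ 2 * (3 + Real.log p) * (H * P))) :=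
        mul_le_mul_of_nonneg_left (mul_le_mul_of_nonneg_right hnbound (by positivity)) hB
    _ = 108 * (B * T ^ 2 * (3 + Real.log p) ^ 2 * H * P) := by ring
    _ ≤ 120 * (B * T ^ 2 * (3 + Real.log p) ^ 2 * H * P) := by
        have : 0 ≤ B * T ^ 2 * (3 + Real.log p) ^ 2 * H * P := by positivity
        linarith
    _ = 120 * B * T ^ 2 * (3 + Real.log p) ^ 2 * H * P := by ring

end Pool.Agent.LPX
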